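import Pool.Agent.Thick.T5

set_option autoImplicit false

/-!
# B1: crossing events of a scale field: continuity, closedness, measurability

`Bar ψ j b ω = {x | ∀ i, 0 ≤ S ψ j (j+i) ω x - b i}` is closed and its crossings are described by
`cross_iff_qcross` (T3) with `f i x = S ψ j (j+i) ω x - b i` (continuous).

* `measurableSet_cross`: `QCross` is a countable combination (for all `N`, exists `m`, exists
  `c : Fin (m+1) → DI d`, countable types) of conditions `-1/(N+1) ≤ S ψ j (j+n) ω (dp p) - b n`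
  (`MeasurableSet.iInter`, `MeasurableSet.iUnion`, after `setOf_forall`, `setOf_exists`).
-/

namespace Pool.Agent.Thick

open MeasureTheory ProbabilityTheory Filter Topology Set

variable {d : ℕ} {Ω : Type} [MeasurableSpace Ω] {P : Measure Ω} {ψ : ℕ → Ω → E d → ℝ}

theorem continuous_S (hψ : ScaleField d P ψ) (j n : ℕ) (ω : Ω) : Continuous (S ψ j n ω) := by
  have h : S ψ j n ω = fun x => ∑ k ∈ Finset.Ico j n, ψ k ω x := rfl
  rw [h]
  exact continuous_finsetSum _ fun k _ => hψ.cont k ω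

theorem isClosed_Bar (hψ : ScaleField d P ψ) (j : ℕ) (b : ℕ → ℝ) (ω : Ω) :
    IsClosed (Bar ψ j b ω) := by
  have h : Bar ψ j b ω = ⋂ i, {x | b i ≤ S ψ j (j + i) ω x} := by
    ext x
    simp [Bar]
  rw [h]
  exact isClosed_iInter fun i => isClosed_le continuous_const (continuous_S hψ j (j + i) ω)

theorem measurable_S (hψ : ScaleField d P ψ) (j n : ℕ) (p : DI d) :
    Measurable fun ω => S ψ j n ω (dp p) := by
  have h : (fun ω => S ψ j n ω (dp p)) = fun ω => ∑ k ∈ Finset.Ico j n, ψ k ω (dp p) := rfl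
  rw [h]
  exact Finset.measurable_sum _ fun k _ => hψ.meas k p

/-- The measurable set of arrays with a chain crossing (all coordinates). -/
theorem measurableSet_qcross (z : E d) (r r' : ℝ) (s : ℕ → DI d → (ℕ × DI d → ℝ) → ℝ)
    (hs : ∀ n p, Measurable (s n p)) :
    MeasurableSet {A : ℕ × DI d → ℝ | QCross (fun n p => s n p A) z r r'} := by
  have h : {A : ℕ × DI d → ℝ | QCross (fun n p => s n p A) z r r'} =
      ⋂ N : ℕ, ⋃ m : ℕ, ⋃ c : Fin (m + 1) → DI d, {A : ℕ × DI d → ℝ |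
        (dist (dp (c 0)) z ≤ r + 1 / ((N : ℝ) + 1) ∧
        r' - 1 / ((N : ℝ) + 1) ≤ dist (dp (c (Fin.last m))) z ∧
        (∀ i : Fin m, dist (dp (c i.castSucc)) (dp (c i.succ)) ≤ 1 / ((N : ℝ) + 1)) ∧
        (∀ i, dist (dp (c i)) z ≤ r' + 1 / ((N : ℝ) + 1)) ∧
        ∀ i, ∀ n ≤ N, -(1 / ((N : ℝ) + 1)) ≤ s n (c i) A)} := by
    ext A
    simp only [QCross, mem_ofPred_eq, mem_iInter, mem_iUnion]
  rw [h]
  refine MeasurableSet.iInter fun N => MeasurableSet.iUnion fun m => MeasurableSet.iUnion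
    fun c => ?_
  have h2 : MeasurableSet {A : ℕ × DI d → ℝ |
      ∀ i, ∀ n ≤ N, -(1 / ((N : ℝ) + 1)) ≤ s n (c i) A} := by
    have h3 : {A : ℕ × DI d → ℝ | ∀ i, ∀ n ≤ N, -(1 / ((N : ℝ) + 1)) ≤ s n (c i) A} =
        ⋂ i : Fin (m + 1), ⋂ n : ℕ, ⋂ _ : n ≤ N,
          {A : ℕ × DI d → ℝ | -(1 / ((N : ℝ) + 1)) ≤ s n (c i) A} := by
      ext A
      simp only [mem_ofPred_eq, mem_iInter]
    rw [h3]
    exact MeasurableSet.iInter fun i => MeasurableSet.iInter fun n => MeasurableSet.iInter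
      fun _ => measurableSet_le measurable_const (hs n (c i))
  exact (MeasurableSet.const _).inter ((MeasurableSet.const _).inter
    ((MeasurableSet.const _).inter ((MeasurableSet.const _).inter h2)))

theorem measurableSet_cross (hψ : ScaleField d P ψ) (j : ℕ) (b : ℕ → ℝ) (z : E d) (r r' : ℝ)
    (hr : r < r') : MeasurableSet {ω | Cross (Bar ψ j b ω) z r r'} := by
  have h : {ω | Cross (Bar ψ j b ω) z r r'} =
      (fun ω (q : ℕ × DI d) => S ψ j (j + q.1) ω (dp q.2) - b q.1) ⁻¹'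
        {A : ℕ × DI d → ℝ | QCross (fun n p => A (n, p)) z r r'} := by
    ext ω
    have h1 : Bar ψ j b ω = {x | ∀ n, 0 ≤ S ψ j (j + n) ω x - b n} := by
      ext x
      simp only [Bar, mem_ofPred_eq, sub_nonneg]
    rw [mem_ofPred_eq, h1, cross_iff_qcross (fun n x => S ψ j (j + n) ω x - b n)
      (fun n => (continuous_S hψ j (j + n) ω).sub continuous_const) z r r' hr]
    rfl
  rw [h]
  refine MeasurableSet.preimage (measurableSet_qcross z r r' (fun n p A => A (n, p))
    fun n p => measurable_pi_apply (n, p)) ?_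
  exact measurable_pi_lambda _ fun q => (measurable_S hψ j (j + q.1) q.2).sub measurable_const

end Pool.Agent.Thick
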