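import Pool.Agent.Thick.B1

set_option autoImplicit false

/-!
# B1i: independence of distant crossing events

`iIndepSet_cross`: by `cross_iff_qcross` (T3) the `i`-th event is the `QCross` event of the array
`S ψ 0 n ω (dp p) - b n` around `dp (z i)` with radii `1`, `2`; `QCross .. (dp (z i)) 1 2` only involves
dyadic points at distance `≤ 2 + 1/(N+1) ≤ 3` from `dp (z i)`, so the chains
`c : Fin (m+1) → DI d` can be replaced by chains in the subtype
`{p : DI d // dist (dp p) (dp (z i)) ≤ 3}`, and the event is the preimage of a measurable set under the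
`i`-th process of `indep` (countable combination of measurable conditions on finitely many
coordinates). Then `iIndepFun.meas_biInter`/`iIndepFun.measure_inter_preimage_eq_mul` and
`iIndepSet_iff_meas_biInter` (or `iIndepFun_iff..`), or the comap sigma-algebras
(`iIndepSet`: generated by one set of the comap sigma-algebra, `iIndep` is monotone).
-/

namespace Pool.Agent.Thick

open MeasureTheory ProbabilityTheory Filter Topology Set

variable {d : ℕ} {Ω : Type} [MeasurableSpace Ω] {P : Measure Ω} {ψ : ℕ → Ω → E d → ℝ}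

private theorem b1i_meas {β : Type} [MeasurableSpace β] (z : E d) (r r' : ℝ)
    (s : ℕ → DI d → β → ℝ) (hs : ∀ n p, Measurable (s n p)) :
    MeasurableSet {A : β | QCross (fun n p => s n p A) z r r'} := by
  unfold QCross
  simp only [ofPred_forall, ofPred_exists, ofPred_and]
  refine MeasurableSet.iInter fun N => MeasurableSet.iUnion fun m => MeasurableSet.iUnion fun c =>
    (MeasurableSet.const _).inter ((MeasurableSet.const _).inter
    ((MeasurableSet.iInter fun i => MeasurableSet.const _).inter
    ((MeasurableSet.iInter fun i => MeasurableSet.const _).inter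
    (MeasurableSet.iInter fun i => MeasurableSet.iInter fun n => MeasurableSet.iInter fun _ =>
      measurableSet_le measurable_const (hs n (c i))))))

/-- `QCross` only depends on the values at the points in the ball of radius `3` -/
private theorem b1i_congr {A B : ℕ → DI d → ℝ} {z : E d}
    (h : ∀ n p, dist (dp p) z ≤ 3 → A n p = B n p) (hA : QCross A z 1 2) : QCross B z 1 2 := by
  intro N
  obtain ⟨m, c, h1, h2, h3, h4, h5⟩ := hA N
  refine ⟨m, c, h1, h2, h3, h4, fun i n hn => ?_⟩
  rw [← h n (c i)]
  · exact h5 i n hn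
  · refine (h4 i).trans ?_
    have h6 : 1 / ((N : ℝ) + 1) ≤ 1 := by
      rw [div_le_one (by positivity)]
      have : (0 : ℝ) ≤ N := Nat.cast_nonneg N
      linarith
    linarith

theorem iIndepSet_cross (hψ : ScaleField d P ψ) (b : ℕ → ℝ) (n : ℕ) (z : Fin n → DI d)
    (hz : ∀ i j, i ≠ j → 8 ≤ dist (dp (z i)) (dp (z j))) :
    iIndepSet (fun i => {ω | Cross (Bar ψ 0 b ω) (dp (z i)) 1 2}) P := by
  classical
  -- the restricted processes
  let X : ∀ i : Fin n, Ω → (ℕ × {p : DI d // dist (dp p) (dp (z i)) ≤ 3}) → ℝ :=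
    fun i ω q => ψ q.1 ω (dp q.2.1)
  let s : ∀ i : Fin n, ℕ → DI d → ((ℕ × {p : DI d // dist (dp p) (dp (z i)) ≤ 3}) → ℝ) → ℝ :=
    fun i m p A => if h : dist (dp p) (dp (z i)) ≤ 3 then
      (∑ k ∈ Finset.range m, A (k, ⟨p, h⟩)) - b m else 0
  have hs : ∀ i m p, Measurable (s i m p) := by
    intro i m p
    by_cases h : dist (dp p) (dp (z i)) ≤ 3
    · have h1 : s i m p = fun A => (∑ k ∈ Finset.range m, A (k, ⟨p, h⟩)) - b m := by
        funext A
        exact dif_pos h
      rw [h1]
      refine Measurable.sub_const ?_ _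
      refine Finset.measurable_fun_sum _ fun k _ => ?_
      exact measurable_pi_apply (k, (⟨p, h⟩ : {p : DI d // dist (dp p) (dp (z i)) ≤ 3}))
    · have h1 : s i m p = fun _ => 0 := by
        funext A
        exact dif_neg h
      rw [h1]
      exact measurable_const
  have hG : ∀ i, MeasurableSet {A | QCross (fun m p => s i m p A) (dp (z i)) 1 2} := fun i =>
    b1i_meas _ _ _ _ (hs i)
  have hev : ∀ i, {ω | Cross (Bar ψ 0 b ω) (dp (z i)) 1 2} =
      X i ⁻¹' {A | QCross (fun m p => s i m p A) (dp (z i)) 1 2} := by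
    intro i
    ext ω
    have h1 : Bar ψ 0 b ω = {x | ∀ m, 0 ≤ S ψ 0 m ω x - b m} := by
      ext x
      simp [Bar]
    have h2 : ∀ m p, dist (dp p) (dp (z i)) ≤ 3 →
        (fun m p => S ψ 0 m ω (dp p) - b m) m p = (fun m p => s i m p (X i ω)) m p := by
      intro m p h
      simp only [s, X, dif_pos h, S, Finset.range_eq_Ico]
    simp only [mem_ofPred_eq, mem_preimage, h1]
    rw [cross_iff_qcross (fun m x => S ψ 0 m ω x - b m)
      (fun m => (continuous_S hψ 0 m ω).sub continuous_const) _ _ _ (by norm_num)]
    exact ⟨b1i_congr h2, b1i_congr fun m p h => (h2 m p h).symm⟩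
  have hX : ∀ i, Measurable (X i) := fun i => measurable_pi_iff.2 fun q => hψ.meas _ _
  have := hψ.prob
  rw [iIndepSet_iff_meas_biInter]
  · intro T
    exact (hψ.indep n z hz).meas_biInter fun i _ => by
      rw [hev i]
      exact ⟨_, hG i, rfl⟩
  · intro i
    rw [hev i]
    exact hX i (hG i)

end Pool.Agent.Thick
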