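import Pool.Agent.Thick.B1

set_option autoImplicit false

/-!
# B1s: scaling of crossing probabilities

`prob_cross_scale`: the similarity `u ↦ dp z + 2^{-j} u` maps the crossings of the shell with radii
`r`, `r'` around `0` by `{u | dp z + 2^{-j} u ∈ Bar ψ j b ω}` to the crossings of the shell with radii
`2^{-j} r`, `2^{-j} r'` around `dp z` by `Bar ψ j b ω` (images of preconnected sets under the similarity
and its inverse). By `cross_iff_qcross` (T3) with
`f i u = (∑ k < i, ψ (j + k) ω (dp z + 2^{-j} u)) - b i`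
the first is a `QCross` event, i.e. the preimage of a fixed measurable set of `ℕ × DI d → ℝ`
(`measurableSet_qcross` with `s i p A = (∑ k < i, A (k, p)) - b i`) under the map
`ω ↦ (ψ (j + k) ω (dp z + 2^{-j} dp p))_{k,p}`; by `inv` this map has the same law as the one for
`j = 0`, `z = 0` (both maps are measurable by `meas` and `dp_add_scale` of T5; `Measure.map_apply`). The
event for `j = 0` around `0` is the preimage of the same set
(`Finset.sum_Ico_eq_sum_range` to reindex the sums).
-/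

namespace Pool.Agent.Thick

open MeasureTheory ProbabilityTheory Filter Topology Set

variable {d : ℕ} {Ω : Type} [MeasurableSpace Ω] {P : Measure Ω} {ψ : ℕ → Ω → E d → ℝ}

/-- A similarity maps crossings to crossings. -/
private theorem cross_scale {d : ℕ} (F : Set (E d)) (z : E d) (w : ℝ) (hw : 0 < w) (r r' : ℝ) :
    Cross F z (w * r) (w * r') ↔ Cross {u : E d | z + w • u ∈ F} 0 r r' := by
  have hdist : ∀ u : E d, dist (z + w • u) z = w * dist u 0 := by
    intro u
    rw [dist_eq_norm, add_sub_cancel_left, norm_smul, Real.norm_of_nonneg hw.le, dist_zero_right]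
  have hinv : ∀ x : E d, z + w • (w⁻¹ • (x - z)) = x := by
    intro x
    rw [smul_smul, mul_inv_cancel₀ hw.ne', one_smul, add_sub_cancel]
  have hdist2 : ∀ x : E d, dist x z = w * dist (w⁻¹ • (x - z)) 0 := by
    intro x
    rw [← hdist, hinv]
  constructor
  · rintro ⟨K, hK, hc, ⟨x, hx, hxr⟩, y, hy, hyr⟩
    refine ⟨(fun x => w⁻¹ • (x - z)) '' K, ?_, hc.image _ (by fun_prop), ?_, ?_⟩
    · rintro _ ⟨v, hv, rfl⟩
      simp only [mem_ofPred_eq]
      rw [hinv]
      exact hK hv
    · refine ⟨_, mem_image_of_mem _ hx, ?_⟩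
      rw [hdist2 x] at hxr
      exact le_of_mul_le_mul_left hxr hw
    · refine ⟨_, mem_image_of_mem _ hy, ?_⟩
      rw [hdist2 y] at hyr
      exact le_of_mul_le_mul_left hyr hw
  · rintro ⟨K, hK, hc, ⟨x, hx, hxr⟩, y, hy, hyr⟩
    refine ⟨(fun u => z + w • u) '' K, ?_, hc.image _ (by fun_prop), ?_, ?_⟩
    · rintro _ ⟨v, hv, rfl⟩
      exact hK hv
    · refine ⟨_, mem_image_of_mem _ hx, ?_⟩
      rw [hdist x]
      exact mul_le_mul_of_nonneg_left hxr hw.le
    · refine ⟨_, mem_image_of_mem _ hy, ?_⟩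
      rw [hdist y]
      exact mul_le_mul_of_nonneg_left hyr hw.le

/-- The crossing event around a dyadic point as a preimage. -/
private theorem cross_eq_preimage (hψ : ScaleField d P ψ) (j : ℕ) (b : ℕ → ℝ) (z : E d) (w : ℝ)
    (hw : 0 < w) (r r' : ℝ) (hr : r < r') :
    {ω | Cross (Bar ψ j b ω) z (w * r) (w * r')} =
      (fun ω (q : ℕ × DI d) => ψ (j + q.1) ω (z + w • dp q.2)) ⁻¹'
        {A : ℕ × DI d → ℝ |
          QCross (fun n p => (∑ k ∈ Finset.range n, A (k, p)) - b n) 0 r r'} := by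
  ext ω
  have h1 : {u : E d | z + w • u ∈ Bar ψ j b ω} =
      {u : E d | ∀ n, 0 ≤ (∑ k ∈ Finset.range n, ψ (j + k) ω (z + w • u)) - b n} := by
    ext u
    simp only [Bar, S, mem_ofPred_eq, sub_nonneg, Finset.sum_Ico_eq_sum_range,
      add_tsub_cancel_left]
  rw [mem_ofPred_eq, cross_scale _ z w hw r r', h1,
    cross_iff_qcross (fun n u => (∑ k ∈ Finset.range n, ψ (j + k) ω (z + w • u)) - b n)
      (fun n => (continuous_finsetSum _ fun k _ => (hψ.cont (j + k) ω).comp
        (by fun_prop)).sub continuous_const) 0 r r' hr]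
  rfl

theorem prob_cross_scale (hψ : ScaleField d P ψ) (j : ℕ) (b : ℕ → ℝ) (z : DI d) (r r' : ℝ)
    (hr : r < r') :
    P {ω | Cross (Bar ψ j b ω) (dp z) ((2 : ℝ)⁻¹ ^ j * r) ((2 : ℝ)⁻¹ ^ j * r')} =
      P {ω | Cross (Bar ψ 0 b ω) 0 r r'} := by
  have hG : MeasurableSet {A : ℕ × DI d → ℝ |
      QCross (fun n p => (∑ k ∈ Finset.range n, A (k, p)) - b n) 0 r r'} :=
    measurableSet_qcross 0 r r' (fun n p A => (∑ k ∈ Finset.range n, A (k, p)) - b n)
      fun n p => (Finset.measurable_sum _ fun k _ => measurable_pi_apply (k, p)).sub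
        measurable_const
  have hm1 : Measurable fun ω (q : ℕ × DI d) =>
      ψ (j + q.1) ω (dp z + (2 : ℝ)⁻¹ ^ j • dp q.2) := by
    refine measurable_pi_lambda _ fun q => ?_
    obtain ⟨q', hq'⟩ := dp_add_scale j z q.2
    rw [← hq']
    exact hψ.meas _ _
  have hm0 : Measurable fun ω (q : ℕ × DI d) => ψ q.1 ω (dp q.2) :=
    measurable_pi_lambda _ fun q => hψ.meas _ _
  rw [cross_eq_preimage hψ j b (dp z) ((2 : ℝ)⁻¹ ^ j) (by positivity) r r' hr,
    ← Measure.map_apply hm1 hG, hψ.inv j z, Measure.map_apply hm0 hG]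
  have h0 := cross_eq_preimage hψ 0 b (0 : E d) 1 one_pos r r' hr
  simp only [one_mul, one_smul, zero_add] at h0
  rw [h0]

end Pool.Agent.Thick
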