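import Pool.Agent.Thick.T5

set_option autoImplicit false

/-!
# T6: a crossing of a large shell gives a self-avoiding path of crossed unit shells

Proof of `exists_path`. Let `K ⊆ F` be preconnected with `x, y ∈ K`, `‖x‖ ≤ 1`, `L ≤ ‖y‖`, and
`V = {w | ∃ p ∈ K, dist p (g w) ≤ 1/2}` where `g w = dp (d, w)` (grid, `near_grid` with `n = 0`: every
point is within `1/2` of a grid point). Join `w`, `w' ∈ V` when `dist (g w) (g w') ≤ 1`. Let `V₁` be the
set of `w ∈ V` reachable from a fixed `w_x ∈ V` near `x`. The sets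
`K ∩ ⋃_{w ∈ V₁} closedBall (g w) (1/2)` and `K ∩ ⋃_{w ∈ V \ V₁} closedBall (g w) (1/2)` cover `K`, are
relatively closed (locally finite unions of closed balls, `finite_grid`) and disjoint (a common point
makes the two grid points adjacent), so the second is empty (`isPreconnected_closed_iff`). So a grid
point `w_y` near `y` is reachable from `w_x`; take a path without repetitions
(`SimpleGraph.Reachable`, `Walk.toPath`/`IsPath`, in the graph with vertex set `Fin d → ℤ` and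
adjacency `w ≠ w' ∧ w ∈ V ∧ w' ∈ V ∧ dist (g w) (g w') ≤ 1`). Since `‖g w_x‖ ≤ 3/2`,
`‖g w_y‖ ≥ L - 1/2` and the steps are `≤ 1`, the path has at least `L - 2` steps; keep the first
`m ≤ L - 2` steps. Every `w ∈ V`: some `p ∈ K` with `dist p (g w) ≤ 1/2 ≤ 1`, and `dist x y ≥ L - 1 ≥ 4`, so
one of `x`, `y` is at distance `≥ 2` from `g w`: `Cross F (g w) 1 2`.
-/

namespace Pool.Agent.Thick

open MeasureTheory ProbabilityTheory Filter Topology Set

/-- The grid points near a set `K`. -/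
private def nbr {d : ℕ} (K : Set (E d)) : Set (Fin d → ℤ) :=
  {w | ∃ p ∈ K, dist p (dp ((d, w) : DI d)) ≤ 1 / 2}

/-- The graph of the grid points near `K`. -/
private def gr {d : ℕ} (K : Set (E d)) : SimpleGraph (Fin d → ℤ) where
  Adj w w' := w ≠ w' ∧ w ∈ nbr K ∧ w' ∈ nbr K ∧
    dist (dp ((d, w) : DI d)) (dp ((d, w') : DI d)) ≤ 1
  symm := ⟨fun _ _ h => ⟨h.1.symm, h.2.2.1, h.2.1, by rw [dist_comm]; exact h.2.2.2⟩⟩
  loopless := ⟨fun _ h => h.1 rfl⟩

private theorem gr_adj {d : ℕ} {K : Set (E d)} {w w' : Fin d → ℤ} :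
    (gr K).Adj w w' ↔ (w ≠ w' ∧ w ∈ nbr K ∧ w' ∈ nbr K ∧
      dist (dp ((d, w) : DI d)) (dp ((d, w') : DI d)) ≤ 1) :=
  Iff.rfl

private theorem near_grid_zero {d : ℕ} (x : E d) :
    ∃ w : Fin d → ℤ, dist x (dp ((d, w) : DI d)) ≤ 1 / 2 := by
  obtain ⟨w, hw⟩ := near_grid 0 x
  refine ⟨w, ?_⟩
  rw [Nat.zero_add, pow_zero] at hw
  exact hw

private theorem locFin_balls {d : ℕ} :
    LocallyFinite fun w : Fin d → ℤ => Metric.closedBall (dp ((d, w) : DI d)) (1 / 2) := by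
  intro z
  refine ⟨Metric.ball z 1, Metric.ball_mem_nhds z one_pos, ?_⟩
  obtain ⟨R, hR⟩ := exists_nat_ge (‖z‖ + 2)
  refine (finite_grid d R).subset ?_
  rintro w ⟨q, hq, hq'⟩
  rw [Metric.mem_closedBall] at hq
  rw [Metric.mem_ball] at hq'
  have h1 : dist (dp ((d, w) : DI d)) z ≤ 2 := by
    have := dist_triangle_left (dp ((d, w) : DI d)) z q
    linarith
  have h2 : ‖dp ((d, w) : DI d)‖ ≤ ‖z‖ + 2 := by
    have := norm_le_norm_add_norm_sub' (dp ((d, w) : DI d)) z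
    rw [← dist_eq_norm] at this
    linarith
  exact h2.trans hR

private theorem isClosed_balls {d : ℕ} (A : Set (Fin d → ℤ)) :
    IsClosed (⋃ w : A, Metric.closedBall (dp ((d, (w : Fin d → ℤ)) : DI d)) (1 / 2)) :=
  (locFin_balls.comp_injective (g := fun w : A => (w : Fin d → ℤ))
    Subtype.val_injective).isClosed_iUnion fun _ => Metric.isClosed_closedBall

private theorem reach_all {d : ℕ} {K : Set (E d)} (hK : IsPreconnected K) {x y : E d}
    (hx : x ∈ K) (hy : y ∈ K) {a b : Fin d → ℤ} (ha : dist x (dp ((d, a) : DI d)) ≤ 1 / 2)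
    (hb : dist y (dp ((d, b) : DI d)) ≤ 1 / 2) : (gr K).Reachable a b := by
  by_contra hcon
  have haV : a ∈ nbr K := ⟨x, hx, ha⟩
  have hbV : b ∈ nbr K := ⟨y, hy, hb⟩
  have hpre := isPreconnected_closed_iff.1 hK _ _
    (isClosed_balls {w | w ∈ nbr K ∧ (gr K).Reachable a w})
    (isClosed_balls {w | w ∈ nbr K ∧ ¬ (gr K).Reachable a w}) (by
      intro p hp
      obtain ⟨w, hw⟩ := near_grid_zero p
      by_cases hr : (gr K).Reachable a w
      · exact Or.inl (Set.mem_iUnion.2 ⟨⟨w, ⟨p, hp, hw⟩, hr⟩, hw⟩)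
      · exact Or.inr (Set.mem_iUnion.2 ⟨⟨w, ⟨p, hp, hw⟩, hr⟩, hw⟩))
    ⟨x, hx, Set.mem_iUnion.2 ⟨⟨a, haV, SimpleGraph.Reachable.refl a⟩, ha⟩⟩
    ⟨y, hy, Set.mem_iUnion.2 ⟨⟨b, hbV, hcon⟩, hb⟩⟩
  obtain ⟨p, hp, h1, h2⟩ := hpre
  obtain ⟨⟨w, hwV, hwr⟩, hw⟩ := Set.mem_iUnion.1 h1
  obtain ⟨⟨w', hwV', hwr'⟩, hw'⟩ := Set.mem_iUnion.1 h2
  rw [Metric.mem_closedBall] at hw hw'
  refine hwr' (hwr.trans (SimpleGraph.Adj.reachable (gr_adj.2 ⟨?_, hwV, hwV', ?_⟩)))
  · rintro rfl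
    exact hwr' hwr
  · have := dist_triangle_left (dp ((d, w) : DI d)) (dp ((d, w') : DI d)) p
    simp only at hw hw'
    linarith

theorem exists_path {d : ℕ} (F : Set (E d)) (L : ℕ) (hL : 5 ≤ L) (h : Cross F 0 1 L) (m : ℕ)
    (hm : m + 2 ≤ L) :
    ∃ c : Fin (m + 1) → (Fin d → ℤ), Function.Injective c ∧ ‖dp ((d, c 0) : DI d)‖ ≤ 2 ∧
      (∀ i : Fin m, dist (dp ((d, c i.castSucc) : DI d)) (dp ((d, c i.succ) : DI d)) ≤ 1) ∧
      ∀ i, Cross F (dp ((d, c i) : DI d)) 1 2 := by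
  obtain ⟨K, hKF, hK, ⟨x, hx, hx1⟩, y, hy, hy1⟩ := h
  rw [dist_zero_right] at hx1 hy1
  obtain ⟨a, ha⟩ := near_grid_zero x
  obtain ⟨b, hb⟩ := near_grid_zero y
  obtain ⟨p, hp⟩ := (reach_all hK hx hy ha hb).exists_isPath
  have hLr : (5 : ℝ) ≤ L := by exact_mod_cast hL
  have hmr : (m : ℝ) + 2 ≤ L := by exact_mod_cast hm
  have haV : a ∈ nbr K := ⟨x, hx, ha⟩
  have hbV : b ∈ nbr K := ⟨y, hy, hb⟩
  -- all vertices are near `K`
  have hV : ∀ i, p.getVert i ∈ nbr K := by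
    intro i
    rcases i with _ | j
    · rw [SimpleGraph.Walk.getVert_zero]
      exact haV
    · rcases lt_or_ge j p.length with hj | hj
      · exact (gr_adj.1 (p.adj_getVert_succ hj)).2.2.1
      · rw [p.getVert_of_length_le (by omega)]
        exact hbV
  have hna : ‖dp ((d, a) : DI d)‖ ≤ 3 / 2 := by
    have h1 := norm_le_norm_add_norm_sub' (dp ((d, a) : DI d)) x
    rw [← dist_eq_norm, dist_comm] at h1
    linarith
  have hnb : (L : ℝ) - 1 / 2 ≤ ‖dp ((d, b) : DI d)‖ := by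
    have h1 := norm_le_norm_add_norm_sub' y (dp ((d, b) : DI d))
    rw [← dist_eq_norm] at h1
    linarith
  -- distances along the path
  have hd : ∀ i, i ≤ p.length → dist (dp ((d, a) : DI d)) (dp ((d, p.getVert i) : DI d)) ≤ i := by
    intro i
    induction i with
    | zero =>
      intro _
      rw [SimpleGraph.Walk.getVert_zero, dist_self, Nat.cast_zero]
    | succ i ih =>
      intro hi
      have h1 := ih (by omega)
      have h2 := (gr_adj.1 (p.adj_getVert_succ (i := i) (by omega))).2.2.2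
      have h3 := dist_triangle (dp ((d, a) : DI d)) (dp ((d, p.getVert i) : DI d))
        (dp ((d, p.getVert (i + 1)) : DI d))
      push_cast
      linarith
  have hlen : m ≤ p.length := by
    have h1 := hd p.length le_rfl
    rw [p.getVert_length, dist_comm] at h1
    have h2 := norm_le_norm_add_norm_sub' (dp ((d, b) : DI d)) (dp ((d, a) : DI d))
    rw [← dist_eq_norm] at h2
    have h3 : (m : ℝ) ≤ p.length := by linarith
    exact_mod_cast h3
  refine ⟨fun i => p.getVert i, ?_, ?_, ?_, ?_⟩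
  · intro i j hij
    have h1 := hp.getVert_injOn (x₁ := (i : ℕ)) (x₂ := (j : ℕ))
      (show (i : ℕ) ≤ p.length by omega) (show (j : ℕ) ≤ p.length by omega) hij
    exact Fin.ext h1
  · show ‖dp ((d, p.getVert ((0 : Fin (m + 1)) : ℕ)) : DI d)‖ ≤ 2
    rw [Fin.val_zero, SimpleGraph.Walk.getVert_zero]
    linarith
  · intro i
    exact (gr_adj.1 (p.adj_getVert_succ (i := (i : ℕ)) (by omega))).2.2.2
  · intro i
    obtain ⟨q, hq, hq1⟩ := hV i
    refine ⟨K, hKF, hK, ⟨q, hq, by linarith⟩, ?_⟩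
    by_cases h2 : 2 ≤ dist x (dp ((d, p.getVert i) : DI d))
    · exact ⟨x, hx, h2⟩
    · refine ⟨y, hy, ?_⟩
      push Not at h2
      have h3 := dist_triangle y (dp ((d, p.getVert i) : DI d)) x
      have h4 : (L : ℝ) - 1 ≤ dist y x := by
        have := norm_le_norm_add_norm_sub' y x
        rw [← dist_eq_norm] at this
        linarith
      rw [dist_comm (dp ((d, p.getVert i) : DI d)) x] at h3
      show 2 ≤ dist y (dp ((d, p.getVert i) : DI d))
      linarith

end Pool.Agent.Thick
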