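import Pool.Agent.Thick.T5

set_option autoImplicit false

/-!
# T7: counting paths and separated subsets

* `exists_separated`: let `Z` be a maximal (for cardinality or inclusion) subset of `A` whose points
  have mutual distances `≥ 8`. Every point of `A` is at distance `< 8` from a point of `Z`, and the
  number of grid points at distance `< 8` from a given one is `Bn d` (translation:
  `dp (d, w) - dp (d, z) = dp (d, w - z)`), so `A.card ≤ Bn d * Z.card`.
* `card_paths`: a path is determined by its starting point (`Nn d` possibilities) and its `m` steps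
  (`w_{i+1} - w_i` is one of the `Dn d` grid vectors of norm `≤ 1`).
* `Dn_pos`, `Bn_pos`, `eps1_pos`: zero is a grid vector. `eps1 d ≤ 1`.
-/

namespace Pool.Agent.Thick

open MeasureTheory ProbabilityTheory Filter Topology Set

private theorem dp_sub' {d n : ℕ} (w z : Fin d → ℤ) :
    dp ((n, w - z) : DI d) = dp ((n, w) : DI d) - dp ((n, z) : DI d) := by
  unfold dp
  rw [← smul_sub]
  congr 1
  ext i
  simp

private theorem dp_zero' {d n : ℕ} : dp ((n, 0) : DI d) = 0 := by
  unfold dp
  ext i
  simp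

private theorem finite_Dn (d : ℕ) : {w : Fin d → ℤ | ‖dp ((d, w) : DI d)‖ ≤ 1}.Finite := by
  have := finite_grid (d := d) d 1
  simpa using this

private theorem finite_Nn (d : ℕ) : {w : Fin d → ℤ | ‖dp ((d, w) : DI d)‖ ≤ 2}.Finite := by
  have := finite_grid (d := d) d 2
  simpa using this

private theorem finite_Bn (d : ℕ) : {w : Fin d → ℤ | ‖dp ((d, w) : DI d)‖ < 8}.Finite := by
  have := finite_grid (d := d) d 8
  refine this.subset ?_
  intro w hw
  have h : ‖dp ((d, w) : DI d)‖ < 8 := hw
  show ‖dp ((d, w) : DI d)‖ ≤ ((8 : ℕ) : ℝ)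
  push_cast
  exact h.le

theorem Dn_pos (d : ℕ) : 0 < Dn d := by
  unfold Dn
  have := (finite_Dn d).to_subtype
  have : Nonempty {w : Fin d → ℤ | ‖dp ((d, w) : DI d)‖ ≤ 1} :=
    ⟨⟨0, by simp [dp_zero']⟩⟩
  exact Nat.card_pos

theorem Bn_pos (d : ℕ) : 0 < Bn d := by
  unfold Bn
  have := (finite_Bn d).to_subtype
  have : Nonempty {w : Fin d → ℤ | ‖dp ((d, w) : DI d)‖ < 8} :=
    ⟨⟨0, by simp [dp_zero']⟩⟩
  exact Nat.card_pos

theorem eps1_pos (d : ℕ) : 0 < eps1 d := by
  unfold eps1
  have : (0 : ℝ) < (Dn d : ℝ) := by exact_mod_cast Dn_pos d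
  positivity

theorem eps1_le_one (d : ℕ) : eps1 d ≤ 1 := by
  unfold eps1
  have : (1 : ℝ) ≤ (Dn d : ℝ) := by exact_mod_cast Dn_pos d
  apply pow_le_one₀
  · positivity
  · rw [div_le_one (by positivity)]
    linarith

theorem exists_separated {d : ℕ} (A : Finset (Fin d → ℤ)) : ∃ Z ⊆ A,
    (∀ z ∈ Z, ∀ z' ∈ Z, z ≠ z' → 8 ≤ dist (dp ((d, z) : DI d)) (dp ((d, z') : DI d))) ∧
      A.card ≤ Bn d * Z.card := by
  classical
  set P : Finset (Finset (Fin d → ℤ)) := A.powerset.filter fun Z =>
    ∀ z ∈ Z, ∀ z' ∈ Z, z ≠ z' → 8 ≤ dist (dp ((d, z) : DI d)) (dp ((d, z') : DI d)) with hP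
  have hne : P.Nonempty := ⟨∅, by simp [hP]⟩
  obtain ⟨Z, hZ, hmax⟩ := Finset.exists_max_image P Finset.card hne
  rw [hP, Finset.mem_filter, Finset.mem_powerset] at hZ
  obtain ⟨hZA, hsep⟩ := hZ
  refine ⟨Z, hZA, hsep, ?_⟩
  have hcov : ∀ a ∈ A, ∃ z ∈ Z, dist (dp ((d, a) : DI d)) (dp ((d, z) : DI d)) < 8 := by
    intro a ha
    by_contra hcon
    push Not at hcon
    have haZ : a ∉ Z := by
      intro h
      have := hcon a h
      rw [dist_self] at this
      linarith
    have hmem : insert a Z ∈ P := by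
      rw [hP, Finset.mem_filter, Finset.mem_powerset]
      refine ⟨Finset.insert_subset ha hZA, ?_⟩
      intro z hz z' hz' hzz
      rw [Finset.mem_insert] at hz hz'
      rcases hz with rfl | hz
      · rcases hz' with rfl | hz'
        · exact absurd rfl hzz
        · exact hcon z' hz'
      · rcases hz' with rfl | hz'
        · rw [dist_comm]
          exact hcon z hz
        · exact hsep z hz z' hz' hzz
    have := hmax _ hmem
    rw [Finset.card_insert_of_notMem haZ] at this
    omega
  set BF : Finset (Fin d → ℤ) := (finite_Bn d).toFinset with hBF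
  have hBcard : BF.card = Bn d := by
    unfold Bn
    rw [Nat.card_coe_set_eq, Set.ncard_eq_toFinset_card _ (finite_Bn d)]
  have hsub : A ⊆ Z.biUnion fun z => A.filter fun a =>
      dist (dp ((d, a) : DI d)) (dp ((d, z) : DI d)) < 8 := by
    intro a ha
    obtain ⟨z, hz, h⟩ := hcov a ha
    rw [Finset.mem_biUnion]
    exact ⟨z, hz, by rw [Finset.mem_filter]; exact ⟨ha, h⟩⟩
  calc A.card ≤ (Z.biUnion fun z => A.filter fun a =>
      dist (dp ((d, a) : DI d)) (dp ((d, z) : DI d)) < 8).card := Finset.card_le_card hsub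
    _ ≤ ∑ z ∈ Z, (A.filter fun a =>
      dist (dp ((d, a) : DI d)) (dp ((d, z) : DI d)) < 8).card := Finset.card_biUnion_le
    _ ≤ ∑ z ∈ Z, Bn d := by
        apply Finset.sum_le_sum
        intro z hz
        rw [← hBcard]
        apply Finset.card_le_card_of_injOn (fun a => a - z)
        · intro a ha
          rw [Finset.mem_coe, Finset.mem_filter] at ha
          rw [Finset.mem_coe, hBF, Set.Finite.mem_toFinset]
          show ‖dp ((d, a - z) : DI d)‖ < 8
          rw [dp_sub', ← dist_eq_norm]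
          exact ha.2
        · intro a _ b _ hab
          exact sub_left_injective hab
    _ = Bn d * Z.card := by
        rw [Finset.sum_const, smul_eq_mul, mul_comm]

/-- The set of the paths of `m` steps starting in the ball of radius two. -/
def Paths (d m : ℕ) : Set (Fin (m + 1) → (Fin d → ℤ)) :=
  {c | Function.Injective c ∧ ‖dp ((d, c 0) : DI d)‖ ≤ 2 ∧
    ∀ i : Fin m, dist (dp ((d, c i.castSucc) : DI d)) (dp ((d, c i.succ) : DI d)) ≤ 1}

private def enc (d m : ℕ) (c : Paths d m) :
    {w : Fin d → ℤ | ‖dp ((d, w) : DI d)‖ ≤ 2} ×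
      (Fin m → {w : Fin d → ℤ | ‖dp ((d, w) : DI d)‖ ≤ 1}) :=
  (⟨c.1 0, c.2.2.1⟩, fun i => ⟨c.1 i.succ - c.1 i.castSucc, by
    show ‖dp ((d, c.1 i.succ - c.1 i.castSucc) : DI d)‖ ≤ 1
    rw [dp_sub', ← dist_eq_norm, dist_comm]
    exact c.2.2.2 i⟩)

private theorem enc_injective (d m : ℕ) : Function.Injective (enc d m) := by
  intro c c' h
  have h0 : c.1 0 = c'.1 0 := by
    have := congrArg (fun q => (q.1 : Fin d → ℤ)) h
    exact this
  have hs : ∀ i : Fin m, c.1 i.succ - c.1 i.castSucc = c'.1 i.succ - c'.1 i.castSucc := by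
    intro i
    have := congrArg (fun q => ((q.2 i : {w : Fin d → ℤ | ‖dp ((d, w) : DI d)‖ ≤ 1}) :
      Fin d → ℤ)) h
    exact this
  apply Subtype.ext
  funext i
  induction i using Fin.induction with
  | zero => exact h0
  | succ i ih =>
    have := hs i
    rw [ih] at this
    exact sub_left_injective this

theorem finite_paths (d m : ℕ) : (Paths d m).Finite := by
  have h1 := (finite_Nn d).to_subtype
  have h2 := (finite_Dn d).to_subtype
  have : Finite (Paths d m) := Finite.of_injective _ (enc_injective d m)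
  exact Set.toFinite _

theorem card_paths (d m : ℕ) : Nat.card (Paths d m) ≤ Nn d * Dn d ^ m := by
  have h1 := (finite_Nn d).to_subtype
  have h2 := (finite_Dn d).to_subtype
  have h := Nat.card_le_card_of_injective _ (enc_injective d m)
  refine h.trans (le_of_eq ?_)
  rw [Nat.card_prod, Nat.card_fun, Nat.card_fin]
  rfl

end Pool.Agent.Thick
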