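import Pool.Agent.Thick.B1s
import Pool.Agent.Thick.B1i
import Pool.Agent.Thick.T6
import Pool.Agent.Thick.T7

set_option autoImplicit false

/-!
# B2: small crossing probabilities decay exponentially (renormalisation lemma)

Proof. Put `m = L - 2`. By `exists_path` (T6) the event is contained in the union over the paths
`c ∈ Paths d m` (T7, finite, at most `Nn d * Dn d ^ m`) of the events `Cross .. (dp (d, c i)) 1 2` for all
`i`. For a path let `A` be the image of `c` (`m + 1` points, injective) and `Z ⊆ A` from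
`exists_separated` (T7): `m + 1 ≤ Bn d * Z.card`. By independence (`iIndepSet_cross` for an enumeration of
`Z`) and `prob_cross_scale` with `j = 0`, the probability is `≤ q ^ Z.card` with `q ≤ eps1 d`, and
`eps1 d ^ Z.card = (1 / (2 Dn)) ^ (Bn * Z.card) ≤ (1 / (2 Dn)) ^ (m + 1)`. The sum over the paths is
`≤ Nn * Dn ^ m * (1 / (2 Dn)) ^ (m+1) ≤ Nn * (1/2) ^ m`.
-/

namespace Pool.Agent.Thick

open MeasureTheory ProbabilityTheory Filter Topology Set

variable {d : ℕ} {Ω : Type} [MeasurableSpace Ω] {P : Measure Ω} {ψ : ℕ → Ω → E d → ℝ}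

/-- One path: by independence over a separated subset of its points. -/
private lemma path_prob (hψ : ScaleField d P ψ) (b : ℕ → ℝ)
    (hq : P {ω | Cross (Bar ψ 0 b ω) 0 1 2} ≤ ENNReal.ofReal (eps1 d)) (m : ℕ)
    (c : Fin (m + 1) → (Fin d → ℤ)) (hc : Function.Injective c) :
    P {ω | ∀ i, Cross (Bar ψ 0 b ω) (dp ((d, c i) : DI d)) 1 2} ≤
      ENNReal.ofReal ((1 / (2 * (Dn d : ℝ))) ^ (m + 1)) := by
  classical
  obtain ⟨Z, hZ, hsep, hcard⟩ := exists_separated (Finset.univ.image c)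
  have hA : (Finset.univ.image c).card = m + 1 := by
    rw [Finset.card_image_of_injective _ hc]; simp
  rw [hA] at hcard
  set e := Z.equivFin with he
  have hind := iIndepSet_cross hψ b Z.card (fun i => ((d, (e.symm i : Fin d → ℤ)) : DI d))
    (fun i j hij => hsep _ (e.symm i).2 _ (e.symm j).2 (fun h => hij (by
      have := Subtype.ext h
      exact e.symm.injective this)))
  have hprod := hind.meas_biInter Finset.univ
  have hone : ∀ i : Fin Z.card,
      P {ω | Cross (Bar ψ 0 b ω) (dp ((d, (e.symm i : Fin d → ℤ)) : DI d)) 1 2} ≤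
        ENNReal.ofReal (eps1 d) := by
    intro i
    have h := prob_cross_scale hψ 0 b ((d, (e.symm i : Fin d → ℤ)) : DI d) 1 2 (by norm_num)
    simp only [pow_zero, one_mul] at h
    rw [h]; exact hq
  have hsub : {ω | ∀ i, Cross (Bar ψ 0 b ω) (dp ((d, c i) : DI d)) 1 2} ⊆
      ⋂ i ∈ (Finset.univ : Finset (Fin Z.card)),
        {ω | Cross (Bar ψ 0 b ω) (dp ((d, (e.symm i : Fin d → ℤ)) : DI d)) 1 2} := by
    intro ω hω
    simp only [Finset.mem_univ, Set.iInter_true, Set.mem_iInter, Set.mem_setOf_eq] at hω ⊢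
    intro i
    obtain ⟨k, -, hk⟩ := Finset.mem_image.1 (hZ (e.symm i).2)
    rw [← hk]; exact hω k
  have hD : (0 : ℝ) < Dn d := by exact_mod_cast Dn_pos d
  have hD1 : (1 : ℝ) ≤ Dn d := by exact_mod_cast Dn_pos d
  have hx0 : (0 : ℝ) ≤ 1 / (2 * (Dn d : ℝ)) := by positivity
  have hx1 : 1 / (2 * (Dn d : ℝ)) ≤ 1 := by
    rw [div_le_one (by positivity)]; linarith
  calc P {ω | ∀ i, Cross (Bar ψ 0 b ω) (dp ((d, c i) : DI d)) 1 2}
      ≤ P (⋂ i ∈ (Finset.univ : Finset (Fin Z.card)),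
        {ω | Cross (Bar ψ 0 b ω) (dp ((d, (e.symm i : Fin d → ℤ)) : DI d)) 1 2}) :=
        measure_mono hsub
    _ = ∏ i ∈ (Finset.univ : Finset (Fin Z.card)),
        P {ω | Cross (Bar ψ 0 b ω) (dp ((d, (e.symm i : Fin d → ℤ)) : DI d)) 1 2} := hprod
    _ ≤ ∏ i ∈ (Finset.univ : Finset (Fin Z.card)), ENNReal.ofReal (eps1 d) :=
        Finset.prod_le_prod' (fun i _ => hone i)
    _ = ENNReal.ofReal ((1 / (2 * (Dn d : ℝ))) ^ (Bn d * Z.card)) := by
        rw [Finset.prod_const, Finset.card_univ, Fintype.card_fin,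
          ← ENNReal.ofReal_pow (eps1_pos d).le, eps1, ← pow_mul]
    _ ≤ ENNReal.ofReal ((1 / (2 * (Dn d : ℝ))) ^ (m + 1)) :=
        ENNReal.ofReal_le_ofReal (pow_le_pow_of_le_one hx0 hx1 hcard)

theorem cross_decay (hψ : ScaleField d P ψ) (b : ℕ → ℝ)
    (hq : P {ω | Cross (Bar ψ 0 b ω) 0 1 2} ≤ ENNReal.ofReal (eps1 d)) (L : ℕ) (hL : 5 ≤ L) :
    P {ω | Cross (Bar ψ 0 b ω) 0 1 L} ≤ ENNReal.ofReal (Nn d * (1 / 2) ^ (L - 2)) := by
  classical
  set m := L - 2 with hm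
  have hm2 : m + 2 ≤ L := by omega
  have hfin := finite_paths d m
  have hcardP := card_paths d m
  have hcard' : hfin.toFinset.card ≤ Nn d * Dn d ^ m := by
    rw [← Set.ncard_eq_toFinset_card _ hfin]
    exact hcardP
  have hsub : {ω | Cross (Bar ψ 0 b ω) 0 1 L} ⊆
      ⋃ c ∈ hfin.toFinset, {ω | ∀ i, Cross (Bar ψ 0 b ω) (dp ((d, c i) : DI d)) 1 2} := by
    intro ω hω
    obtain ⟨c, h1, h2, h3, h4⟩ := exists_path (Bar ψ 0 b ω) L hL hω m hm2
    simp only [Set.mem_iUnion, Set.mem_setOf_eq]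
    exact ⟨c, hfin.mem_toFinset.2 ⟨h1, h2, h3⟩, h4⟩
  have hD : (0 : ℝ) < Dn d := by exact_mod_cast Dn_pos d
  have hD1 : (1 : ℝ) ≤ Dn d := by exact_mod_cast Dn_pos d
  calc P {ω | Cross (Bar ψ 0 b ω) 0 1 L}
      ≤ P (⋃ c ∈ hfin.toFinset,
          {ω | ∀ i, Cross (Bar ψ 0 b ω) (dp ((d, c i) : DI d)) 1 2}) := measure_mono hsub
    _ ≤ ∑ c ∈ hfin.toFinset,
          P {ω | ∀ i, Cross (Bar ψ 0 b ω) (dp ((d, c i) : DI d)) 1 2} :=
        measure_biUnion_finset_le _ _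
    _ ≤ ∑ c ∈ hfin.toFinset, ENNReal.ofReal ((1 / (2 * (Dn d : ℝ))) ^ (m + 1)) :=
        Finset.sum_le_sum (fun c hc =>
          path_prob hψ b hq m c (hfin.mem_toFinset.1 hc).1)
    _ = (hfin.toFinset.card : ENNReal) * ENNReal.ofReal ((1 / (2 * (Dn d : ℝ))) ^ (m + 1)) := by
        rw [Finset.sum_const, nsmul_eq_mul]
    _ ≤ ((Nn d * Dn d ^ m : ℕ) : ENNReal) *
          ENNReal.ofReal ((1 / (2 * (Dn d : ℝ))) ^ (m + 1)) := by
        gcongr
    _ = ENNReal.ofReal (((Nn d * Dn d ^ m : ℕ) : ℝ) * (1 / (2 * (Dn d : ℝ))) ^ (m + 1)) := by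
        rw [ENNReal.ofReal_mul (Nat.cast_nonneg _), ENNReal.ofReal_natCast]
    _ ≤ ENNReal.ofReal (Nn d * (1 / 2) ^ m) := by
        apply ENNReal.ofReal_le_ofReal
        have h1 : ((Nn d * Dn d ^ m : ℕ) : ℝ) * (1 / (2 * (Dn d : ℝ))) ^ (m + 1) =
            (Nn d * (1 / 2) ^ m) * (1 / (2 * (Dn d : ℝ))) := by
          push_cast
          have h2 : (Dn d : ℝ) ^ m * (1 / (2 * (Dn d : ℝ))) ^ m = (1 / 2) ^ m := by
            rw [← mul_pow]
            congr 1
            field_simp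
          rw [pow_succ]
          calc (Nn d : ℝ) * (Dn d : ℝ) ^ m *
                ((1 / (2 * (Dn d : ℝ))) ^ m * (1 / (2 * (Dn d : ℝ))))
              = Nn d * ((Dn d : ℝ) ^ m * (1 / (2 * (Dn d : ℝ))) ^ m) *
                (1 / (2 * (Dn d : ℝ))) := by ring
            _ = _ := by rw [h2]
        rw [h1]
        have h3 : 1 / (2 * (Dn d : ℝ)) ≤ 1 := by
          rw [div_le_one (by positivity)]; linarith
        exact mul_le_of_le_one_right (by positivity) h3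

/-- The same at level `j` around a dyadic point (`prob_cross_scale` with `r = 1`, `r' = L`). -/
theorem cross_decay_scale (hψ : ScaleField d P ψ) (b : ℕ → ℝ)
    (hq : P {ω | Cross (Bar ψ 0 b ω) 0 1 2} ≤ ENNReal.ofReal (eps1 d)) (L : ℕ) (hL : 5 ≤ L)
    (j : ℕ) (z : DI d) :
    P {ω | Cross (Bar ψ j b ω) (dp z) ((2 : ℝ)⁻¹ ^ j) (L * (2 : ℝ)⁻¹ ^ j)} ≤
      ENNReal.ofReal (Nn d * (1 / 2) ^ (L - 2)) := by
  have hL1 : (1 : ℝ) < L := by
    have : (5 : ℝ) ≤ L := by exact_mod_cast hL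
    linarith
  have h := prob_cross_scale hψ j b z 1 L hL1
  rw [mul_one, mul_comm ((2 : ℝ)⁻¹ ^ j) (L : ℝ)] at h
  rw [h]
  exact cross_decay hψ b hq L hL

end Pool.Agent.Thick
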