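import Pool.Agent.Thick.B2

set_option autoImplicit false

/-!
# B3: if nontrivial components exist with positive probability then some slack is enough

Proof by contradiction: suppose `P {Cross (Bar ψ 0 (a i - s)) 0 1 2} ≤ eps1 d` for every natural number
`s`. For natural numbers `M`, `n` let `G M n` be the event that for some grid point `z = dp (n + d, w)` with
`‖z‖ ≤ M` and some `s : ℕ` the set `Bar ψ n (a i - s) ω` crosses the shell with radii `2^{-n}`, `L 2^{-n}`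
around `z`, `L = Lr d n = 4 (d+1) (n+2)`. For fixed `z` the events increase with `s`, so by
`cross_decay_scale` (B2) and `card_grid` (T5)
`P (G M n) ≤ (2^{n+d+1} M + 1)^d * Nn d * (1/2)^{L - 2}`, which is summable in `n`. By Borel-Cantelli
(`measure_limsup_atTop_eq_zero`) for almost every `ω` and all `M` the event `G M n` holds only for
finitely many `n`. Let `ω` be such a point and suppose `Nontriv (Bar ψ 0 (a i - s) ω)`. By `cross_small`
(T5) there are `M`, `δ` such that for all large `n` (`L 2^{-n} ≤ δ`) `Bar ψ 0 (a i - s) ω` crosses the shell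
with radii `2^{-n}`, `L 2^{-n}` around a grid point `z`, `‖z‖ ≤ M`, by a compact connected set `K` in
`closedBall z (L 2^{-n})` (`cross_compact`, T3). On `K` the continuous function `S ψ 0 n ω` is at most
some constant `C`, and `S ψ n (n+i) = S ψ 0 (n+i) - S ψ 0 n ≥ a (n+i) - s - C ≥ a i - s'` for a natural
number `s' ≥ s + C - a n`. So `G M n` holds for all large `n`: contradiction.
-/

namespace Pool.Agent.Thick

open MeasureTheory ProbabilityTheory Filter Topology Set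

/-- The ratio of the shells at level `j`. -/
def Lr (d j : ℕ) : ℕ := 4 * (d + 1) * (j + 2)

variable {d : ℕ} {Ω : Type} [MeasurableSpace Ω] {P : Measure Ω} {ψ : ℕ → Ω → E d → ℝ}

private theorem B3_mono (j : ℕ) (ω : Ω) {b b' : ℕ → ℝ} (h : ∀ i, b' i ≤ b i) :
    Bar ψ j b ω ⊆ Bar ψ j b' ω :=
  fun _ hx i => (h i).trans (hx i)

private theorem B3_cross {F F' : Set (E d)} (h : F ⊆ F') {z : E d} {r r' : ℝ}
    (hc : Cross F z r r') : Cross F' z r r' := by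
  obtain ⟨K, hK, h1⟩ := hc
  exact ⟨K, hK.trans h, h1⟩

/-- the bad event at level `n` -/
private def B3G (ψ : ℕ → Ω → E d → ℝ) (a : ℝ) (M n : ℕ) : Set Ω :=
  {ω | ∃ w : Fin d → ℤ, ‖dp ((n + d, w) : DI d)‖ ≤ M ∧ ∃ s : ℕ,
    Cross (Bar ψ n (fun i => a * i - s) ω) (dp ((n + d, w) : DI d)) ((2 : ℝ)⁻¹ ^ n)
      (Lr d n * (2 : ℝ)⁻¹ ^ n)}

private theorem B3_num (d M n : ℕ) {N : ℝ} (hN : 0 ≤ N) :
    (((2 ^ (n + d + 1) * M + 1) ^ d : ℕ) : ℝ) * (N * (1 / 2) ^ (Lr d n - 2)) ≤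
      ((M + 1 : ℝ) ^ d * 2 ^ ((d + 1) * d) * N) * (1 / 2) ^ n := by
  have h1 : (((2 ^ (n + d + 1) * M + 1) ^ d : ℕ) : ℝ) ≤
      2 ^ ((n + d + 1) * d) * (M + 1 : ℝ) ^ d := by
    push_cast
    rw [pow_mul, ← mul_pow]
    refine pow_le_pow_left₀ (by positivity) ?_ d
    have : (1 : ℝ) ≤ 2 ^ (n + d + 1) := one_le_pow₀ (by norm_num)
    nlinarith
  have h2 : ((1 / 2 : ℝ)) ^ (Lr d n - 2) ≤ (1 / 2) ^ ((d + 1) * n) := by
    refine pow_le_pow_of_le_one (by norm_num) (by norm_num) ?_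
    have h3 : (d + 1) * n + 2 ≤ Lr d n := by
      unfold Lr
      nlinarith
    omega
  have h4 : (2 : ℝ) ^ ((n + d + 1) * d) * (1 / 2) ^ ((d + 1) * n) =
      2 ^ ((d + 1) * d) * (1 / 2) ^ n := by
    have e1 : (n + d + 1) * d = n * d + (d + 1) * d := by ring
    have e2 : (d + 1) * n = n * d + n := by ring
    have e3 : (2 : ℝ) ^ (n * d) * (1 / 2) ^ (n * d) = 1 := by
      rw [← mul_pow]
      norm_num
    rw [e1, e2, pow_add, pow_add (1 / 2 : ℝ)]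
    calc (2 : ℝ) ^ (n * d) * 2 ^ ((d + 1) * d) * ((1 / 2) ^ (n * d) * (1 / 2) ^ n)
        = (2 ^ (n * d) * (1 / 2) ^ (n * d)) * (2 ^ ((d + 1) * d) * (1 / 2) ^ n) := by ring
      _ = _ := by rw [e3, one_mul]
  calc (((2 ^ (n + d + 1) * M + 1) ^ d : ℕ) : ℝ) * (N * (1 / 2) ^ (Lr d n - 2))
      ≤ (2 ^ ((n + d + 1) * d) * (M + 1 : ℝ) ^ d) * (N * (1 / 2) ^ ((d + 1) * n)) := by
        refine mul_le_mul h1 (mul_le_mul_of_nonneg_left h2 hN) ?_ ?_
        · positivity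
        · positivity
    _ = (M + 1 : ℝ) ^ d * N * (2 ^ ((n + d + 1) * d) * (1 / 2) ^ ((d + 1) * n)) := by ring
    _ = _ := by rw [h4]; ring

private theorem B3_five (d n : ℕ) : 8 ≤ Lr d n := by
  unfold Lr
  nlinarith [Nat.zero_le d, Nat.zero_le n, Nat.zero_le (d * n)]

private theorem B3_prob (hψ : ScaleField d P ψ) (a : ℝ)
    (hq : ∀ s : ℕ, P {ω | Cross (Bar ψ 0 (fun i => a * i - s) ω) 0 1 2} ≤
      ENNReal.ofReal (eps1 d)) (M n : ℕ) :
    P (B3G ψ a M n) ≤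
      ENNReal.ofReal (((M + 1 : ℝ) ^ d * 2 ^ ((d + 1) * d) * Nn d) * (1 / 2) ^ n) := by
  have hfin := finite_grid (d := d) (n + d) M
  have hsub : B3G ψ a M n ⊆ ⋃ w ∈ hfin.toFinset, ⋃ s : ℕ,
      {ω | Cross (Bar ψ n (fun i => a * i - s) ω) (dp ((n + d, w) : DI d)) ((2 : ℝ)⁻¹ ^ n)
        (Lr d n * (2 : ℝ)⁻¹ ^ n)} := by
    rintro ω ⟨w, hw, s, hs⟩
    rw [Set.mem_iUnion₂]
    refine ⟨w, ?_, ?_⟩
    · rw [Set.Finite.mem_toFinset]
      exact hw
    · rw [Set.mem_iUnion]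
      exact ⟨s, hs⟩
  have hone : ∀ w : Fin d → ℤ, P (⋃ s : ℕ,
      {ω | Cross (Bar ψ n (fun i => a * i - s) ω) (dp ((n + d, w) : DI d)) ((2 : ℝ)⁻¹ ^ n)
        (Lr d n * (2 : ℝ)⁻¹ ^ n)}) ≤ ENNReal.ofReal (Nn d * (1 / 2) ^ (Lr d n - 2)) := by
    intro w
    rw [Monotone.measure_iUnion]
    · refine iSup_le fun s => ?_
      exact cross_decay_scale hψ _ (hq s) (Lr d n) (by have := B3_five d n; omega) n _
    · intro s s' hss ω hω
      refine B3_cross (B3_mono n ω fun i => ?_) hω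
      have : (s : ℝ) ≤ s' := by exact_mod_cast hss
      linarith
  calc P (B3G ψ a M n) ≤ _ := measure_mono hsub
    _ ≤ ∑ w ∈ hfin.toFinset, P (⋃ s : ℕ,
      {ω | Cross (Bar ψ n (fun i => a * i - s) ω) (dp ((n + d, w) : DI d)) ((2 : ℝ)⁻¹ ^ n)
        (Lr d n * (2 : ℝ)⁻¹ ^ n)}) := measure_biUnion_finset_le _ _
    _ ≤ ∑ _w ∈ hfin.toFinset, ENNReal.ofReal (Nn d * (1 / 2) ^ (Lr d n - 2)) :=
      Finset.sum_le_sum fun w _ => hone w
    _ = (hfin.toFinset.card : ENNReal) * ENNReal.ofReal (Nn d * (1 / 2) ^ (Lr d n - 2)) := by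
      rw [Finset.sum_const, nsmul_eq_mul]
    _ ≤ (((2 ^ (n + d + 1) * M + 1) ^ d : ℕ) : ENNReal) *
        ENNReal.ofReal (Nn d * (1 / 2) ^ (Lr d n - 2)) := by
      have h1 := card_grid (d := d) (n + d) M
      rw [Nat.card_coe_set_eq, Set.ncard_eq_toFinset_card _ hfin] at h1
      exact mul_le_mul_left (Nat.cast_le.2 h1) _
    _ = ENNReal.ofReal ((((2 ^ (n + d + 1) * M + 1) ^ d : ℕ) : ℝ) *
        (Nn d * (1 / 2) ^ (Lr d n - 2))) := by
      rw [ENNReal.ofReal_mul (p := (((2 ^ (n + d + 1) * M + 1) ^ d : ℕ) : ℝ))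
        (Nat.cast_nonneg _), ENNReal.ofReal_natCast]
    _ ≤ _ := ENNReal.ofReal_le_ofReal (B3_num d M n (Nat.cast_nonneg _))

private theorem B3_tend (d : ℕ) :
    Tendsto (fun n : ℕ => (Lr d n : ℝ) * (2 : ℝ)⁻¹ ^ n) atTop (𝓝 0) := by
  have h1 : Tendsto (fun n : ℕ => (n : ℝ) * (2 : ℝ)⁻¹ ^ n) atTop (𝓝 0) :=
    tendsto_self_mul_const_pow_of_lt_one (by norm_num) (by norm_num)
  have h2 : Tendsto (fun n : ℕ => (2 : ℝ)⁻¹ ^ n) atTop (𝓝 0) :=
    tendsto_pow_atTop_nhds_zero_of_lt_one (by norm_num) (by norm_num)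
  have h3 := (h1.const_mul (4 * ((d : ℝ) + 1))).add (h2.const_mul (8 * ((d : ℝ) + 1)))
  rw [mul_zero, mul_zero, add_zero] at h3
  refine h3.congr fun n => ?_
  unfold Lr
  push_cast
  ring

theorem exists_slack (hψ : ScaleField d P ψ) (a : ℝ)
    (h : ¬ ∀ᵐ ω ∂P, ∀ s : ℕ, ¬ Nontriv (Bar ψ 0 (fun i => a * i - s) ω)) :
    ∃ s : ℕ, ENNReal.ofReal (eps1 d) < P {ω | Cross (Bar ψ 0 (fun i => a * i - s) ω) 0 1 2} := by
  by_contra hcon
  push Not at hcon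
  apply h
  have hae : ∀ M : ℕ, ∀ᵐ ω ∂P, ∀ᶠ n in atTop, ω ∉ B3G ψ a M n := by
    intro M
    refine ae_eventually_notMem ?_
    have hs : Summable fun n : ℕ =>
        ((M + 1 : ℝ) ^ d * 2 ^ ((d + 1) * d) * Nn d) * (1 / 2) ^ n :=
      (summable_geometric_of_lt_one (by norm_num) (by norm_num)).mul_left _
    exact ne_top_of_le_ne_top hs.tsum_ofReal_ne_top
      (ENNReal.tsum_le_tsum fun n => B3_prob hψ a hcon M n)
  filter_upwards [ae_all_iff.2 hae] with ω hω s hnt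
  obtain ⟨M, δ, hδ, hM⟩ := cross_small _ hnt
  have hev : ∀ᶠ n : ℕ in atTop, (Lr d n : ℝ) * (2 : ℝ)⁻¹ ^ n ≤ δ :=
    ((B3_tend d).eventually (gt_mem_nhds hδ)).mono fun n hn => le_of_lt hn
  obtain ⟨n, hn1, hn2⟩ := (hev.and (hω M)).exists
  have h8 : (8 : ℝ) ≤ Lr d n := by exact_mod_cast B3_five d n
  have hp : (0 : ℝ) < (2 : ℝ)⁻¹ ^ n := by positivity
  obtain ⟨w, hw, hc⟩ := hM n (Lr d n) (by linarith) hn1
  obtain ⟨K, hK, hKc, hKconn, hx, hy⟩ := cross_compact _ (isClosed_Bar hψ 0 _ ω) _ _ _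
    (by nlinarith) hc
  obtain ⟨C, hC⟩ := hKc.bddAbove_image (continuous_S hψ 0 n ω).continuousOn
  obtain ⟨s', hs'⟩ := exists_nat_ge ((s : ℝ) + C - a * n)
  apply hn2
  refine ⟨w, hw, s', K, ?_, hKconn.isPreconnected, hx, hy⟩
  intro x hxK i
  have h1 : a * ((n + i : ℕ) : ℝ) - s ≤ S ψ 0 (0 + (n + i)) ω x := (hK hxK).1 (n + i)
  have h2 : S ψ 0 n ω x ≤ C := hC (Set.mem_image_of_mem _ hxK)
  have h3 : S ψ 0 (0 + (n + i)) ω x = S ψ 0 n ω x + S ψ n (n + i) ω x := by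
    unfold S
    rw [zero_add, Finset.sum_Ico_consecutive _ (Nat.zero_le n) (Nat.le_add_right n i)]
  rw [h3] at h1
  push_cast at h1
  change a * (i : ℝ) - s' ≤ S ψ n (n + i) ω x
  linarith

end Pool.Agent.Thick
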