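import Pool.Agent.Thick.B1

set_option autoImplicit false

/-!
# B4: oscillation of the sum of the first `j` levels on a ball of radius `≈ j 2^{-j}`

Let `θ`, `C`, `c` be the constants of `tail`. For `k` and a dyadic point `u` let `H k u ω` be the best
constant with `|ψ k ω (dp u + 2^{-k} dp p) - ψ k ω (dp u + 2^{-k} dp q)| ≤ H * dist (dp p) (dp q) ^ θ` for all dyadic
`dp p`, `dp q` in the unit ball; by `inv` (with `j := k` and the coordinate `k = 0` of the process) and
`tail`, `P {H k u > t} ≤ C exp (-c t²)` and `P {|ψ k ω (dp u)| > t} ≤ C exp (-c t²)`. By continuity the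
Hoelder bound holds for all points of the closed ball of radius `2^{-k}` around `dp u`.
Put `t = j^{2/3}`, `R = (Lr d j + 2) 2^{-j}` (radius).
* levels `k` with `R 2^k ≤ 1`: the ball of radius `R` around `dp z` is inside the ball of radius `2^{-k}`, so the
  oscillation of `ψ k` on it is `≤ t (2 R 2^k)^θ` outside an event of probability `≤ C exp (-c t²)`, and the sum
  over these `k` is `≤ t * C_θ` (geometric series, the largest term is `≤ 2^θ t`);
* levels `k < j` with `R 2^k > 1`: there are at most `log₂ (Lr d j + 2) + 1` of them; cover the ball of radius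
  `R` by balls of radius `2^{-k}` around grid points `dp (k + d, w)` (`near_grid`, T5): at most
  `(2^{k+d+1} * .. + 1)^d ≤ (C' (Lr d j + 2))^d` grid points, whatever `z` is (translate: it is enough to
  count integer points in a box of side `2 · 2^{k+d} (R + 2^{-k})`); on each of them `|ψ k| ≤ |ψ k (centre)| + H ≤ 2 t`
  outside probability `2 C exp (-c t²)`. The oscillation is `≤ 4 t`.
Total oscillation `≤ t (C_θ + 4 (log₂ (Lr d j + 2) + 1)) ≤ j^{3/4} - 1` for large `j`, and the exceptional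
probability is `≤ j (C' (Lr d j + 2))^d 2 C exp (-c j^{4/3}) ≤ (1/2)^{2 (d+1) (j+1)}` for large `j`, uniformly
in `z`.
-/

namespace Pool.Agent.Thick

open MeasureTheory ProbabilityTheory Filter Topology Set

variable {d : ℕ} {Ω : Type} [MeasurableSpace Ω] {P : Measure Ω} {ψ : ℕ → Ω → E d → ℝ}

theorem dp_zero4 : dp ((0, 0) : DI d) = (0 : E d) := by
  unfold dp
  simp
  rfl

theorem denseRange_dp4 : DenseRange (dp : DI d → E d) := by
  rw [DenseRange, Metric.dense_iff]
  intro x r hr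
  obtain ⟨n, hn⟩ := exists_pow_lt_of_lt_one hr (by norm_num : (2 : ℝ)⁻¹ < 1)
  obtain ⟨w, hw⟩ := near_grid n x
  refine ⟨dp ((n + d, w) : DI d), ?_, ⟨_, rfl⟩⟩
  rw [Metric.mem_ball, dist_comm]
  have : (0 : ℝ) < (2 : ℝ)⁻¹ ^ n := by positivity
  linarith

/-- The law of the process at level `k` around `dp u`. -/
theorem map_eq4 (hψ : ScaleField d P ψ) (k : ℕ) (u : DI d) (B : Set (ℕ × DI d → ℝ))
    (hB : MeasurableSet B) :
    P {ω | (fun q : ℕ × DI d => ψ (k + q.1) ω (dp u + (2 : ℝ)⁻¹ ^ k • dp q.2)) ∈ B} =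
      P {ω | (fun q : ℕ × DI d => ψ q.1 ω (dp q.2)) ∈ B} := by
  have h := hψ.inv k u
  have h1 : Measurable (fun ω (q : ℕ × DI d) => ψ (k + q.1) ω
      (dp u + (2 : ℝ)⁻¹ ^ k • dp q.2)) := by
    refine measurable_pi_iff.2 fun q => ?_
    obtain ⟨r, hr⟩ := dp_add_scale k u q.2
    rw [← hr]
    exact hψ.meas _ _
  have h2 : Measurable (fun ω (q : ℕ × DI d) => ψ q.1 ω (dp q.2)) :=
    measurable_pi_iff.2 fun q => hψ.meas _ _
  have h3 := congrArg (fun m => m B) h
  simp only [Measure.map_apply h1 hB, Measure.map_apply h2 hB] at h3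
  exact h3

/-- Tails of the values of the field at level `k`. -/
theorem tail_value (hψ : ScaleField d P ψ) : ∃ C c : ℝ, 0 < c ∧ ∀ (k : ℕ) (u : DI d) (t : ℝ), 0 ≤ t →
    P {ω | t < |ψ k ω (dp u)|} ≤ ENNReal.ofReal (C * Real.exp (-(c * t ^ 2))) := by
  obtain ⟨θ, C, c, hθ, hc, h⟩ := hψ.tail
  refine ⟨C, c, hc, fun k u t ht => ?_⟩
  have hB : MeasurableSet {f : ℕ × DI d → ℝ | t < |f (0, ((0, 0) : DI d))|} := by
    refine measurableSet_lt measurable_const ?_
    exact (measurable_pi_apply (0, ((0, 0) : DI d))).abs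
  have h1 := map_eq4 hψ k u _ hB
  simp only [mem_setOf_eq, dp_zero4, smul_zero, add_zero] at h1
  rw [h1]
  exact (h t ht).1

/-- Tails of the Hoelder constants of the field at level `k` on balls of radius `2^{-k}`. -/
theorem tail_hoelder (hψ : ScaleField d P ψ) : ∃ θ C c : ℝ, 0 < θ ∧ 0 < c ∧
    ∀ (k : ℕ) (u : DI d) (t : ℝ), 0 ≤ t →
    P {ω | ∃ x y : E d, dist x (dp u) ≤ (2 : ℝ)⁻¹ ^ k ∧ dist y (dp u) ≤ (2 : ℝ)⁻¹ ^ k ∧
      t * ((2 : ℝ) ^ k * dist x y) ^ θ < |ψ k ω x - ψ k ω y|} ≤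
      ENNReal.ofReal (C * Real.exp (-(c * t ^ 2))) := by
  obtain ⟨θ, C, c, hθ, hc, h⟩ := hψ.tail
  refine ⟨θ, C, c, hθ, hc, fun k u t ht => ?_⟩
  have hB : MeasurableSet {f : ℕ × DI d → ℝ | ∃ p q : DI d, ‖dp p‖ ≤ 1 ∧ ‖dp q‖ ≤ 1 ∧
      t * dist (dp p) (dp q) ^ θ < |f (0, p) - f (0, q)|} := by
    simp only [setOf_exists, setOf_and]
    refine MeasurableSet.iUnion fun p => MeasurableSet.iUnion fun q => ?_
    refine (MeasurableSet.const _).inter ((MeasurableSet.const _).inter ?_)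
    refine measurableSet_lt measurable_const ?_
    exact ((measurable_pi_apply (0, p)).sub (measurable_pi_apply (0, q))).abs
  have h1 := map_eq4 hψ k u _ hB
  simp only [mem_setOf_eq, add_zero] at h1
  refine le_trans (measure_mono ?_) (h1.le.trans (h t ht).2)
  rintro ω ⟨x, y, hx, hy, hxy⟩
  simp only [mem_setOf_eq]
  have h2k : (0 : ℝ) < 2 ^ k := by positivity
  have hinv : (2 : ℝ)⁻¹ ^ k * 2 ^ k = 1 := by
    rw [inv_pow]
    exact inv_mul_cancel₀ h2k.ne'
  have hinv' : (2 : ℝ) ^ k * (2 : ℝ)⁻¹ ^ k = 1 := by rw [mul_comm]; exact hinv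
  set a : E d → E d := fun v => dp u + (2 : ℝ)⁻¹ ^ k • v with ha
  have hac : Continuous a := by fun_prop
  have hx' : a ((2 : ℝ) ^ k • (x - dp u)) = x := by
    simp only [ha, smul_smul, hinv, one_smul]
    abel
  have hy' : a ((2 : ℝ) ^ k • (y - dp u)) = y := by
    simp only [ha, smul_smul, hinv, one_smul]
    abel
  set x1 : E d := (2 : ℝ) ^ k • (x - dp u) with hx1
  set y1 : E d := (2 : ℝ) ^ k • (y - dp u) with hy1
  have hnx : ‖x1‖ ≤ 1 := by
    rw [hx1, norm_smul, Real.norm_of_nonneg h2k.le, ← dist_eq_norm, ← hinv']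
    exact mul_le_mul_of_nonneg_left hx h2k.le
  have hny : ‖y1‖ ≤ 1 := by
    rw [hy1, norm_smul, Real.norm_of_nonneg h2k.le, ← dist_eq_norm, ← hinv']
    exact mul_le_mul_of_nonneg_left hy h2k.le
  have hd : dist x1 y1 = 2 ^ k * dist x y := by
    rw [hx1, hy1, dist_smul₀, Real.norm_of_nonneg h2k.le, dist_sub_right]
  set g : E d × E d → ℝ := fun v =>
    |ψ k ω (a v.1) - ψ k ω (a v.2)| - t * dist v.1 v.2 ^ θ with hg
  have hgc : Continuous g := by
    have hc1 := hψ.cont k ω
    refine Continuous.sub ?_ ?_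
    · exact ((hc1.comp (hac.comp continuous_fst)).sub
        (hc1.comp (hac.comp continuous_snd))).abs
    · exact continuous_const.mul ((continuous_fst.dist continuous_snd).rpow_const
        fun _ => Or.inr hθ.le)
  have hgo : IsOpen {v | 0 < g v} := isOpen_lt continuous_const hgc
  have hmem : (x1, y1) ∈ {v | 0 < g v} := by
    simp only [mem_setOf_eq, hg, hx', hy', hd]
    linarith
  have hcl : (x1, y1) ∈ closure (Metric.ball (0 : E d) 1 ×ˢ Metric.ball (0 : E d) 1) := by
    rw [closure_prod_eq, closure_ball _ one_ne_zero]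
    exact ⟨by simpa using hnx, by simpa using hny⟩
  obtain ⟨v, hv1, hv2⟩ := mem_closure_iff.1 hcl _ hgo hmem
  have hdense : DenseRange (Prod.map (dp : DI d → E d) (dp : DI d → E d)) :=
    denseRange_dp4.prodMap denseRange_dp4
  obtain ⟨⟨p, q⟩, hpq⟩ := hdense.exists_mem_open
    (hgo.inter (Metric.isOpen_ball.prod Metric.isOpen_ball)) ⟨v, hv1, hv2⟩
  simp only [Prod.map_apply, mem_inter_iff, mem_setOf_eq, mem_prod, Metric.mem_ball,
    dist_zero_right] at hpq
  refine ⟨p, q, hpq.2.1.le, hpq.2.2.le, ?_⟩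
  have := hpq.1
  simp only [hg, ha] at this
  linarith

end Pool.Agent.Thick
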