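import Pool.Agent.Thick.B4
import Pool.Agent.Thick.B3

set_option autoImplicit false

/-!
# B4b: the oscillation bound

See the docstring of B4 (levels `k` with `R 2^k ≤ 1` and levels with `R 2^k > 1`), which gives the
complete proof from `tail_value` and `tail_hoelder`.
-/

namespace Pool.Agent.Thick

open MeasureTheory ProbabilityTheory Filter Topology Set

variable {d : ℕ} {Ω : Type} [MeasurableSpace Ω] {P : Measure Ω} {ψ : ℕ → Ω → E d → ℝ}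

/-- the grid points near `a` -/
private noncomputable def B4b_W {d : ℕ} (n M : ℕ) (a : E d) : Finset (Fin d → ℤ) :=
  Fintype.piFinset fun i => Finset.Icc ⌈(2 : ℝ) ^ n * a i - M⌉ ⌊(2 : ℝ) ^ n * a i + M⌋

private theorem B4b_card {d : ℕ} (n M : ℕ) (a : E d) : (B4b_W n M a).card ≤ (2 * M + 1) ^ d := by
  unfold B4b_W
  rw [Fintype.card_piFinset]
  refine (Finset.prod_le_prod' (g := fun _ => 2 * M + 1) fun i _ => ?_).trans_eq ?_
  · rw [Int.card_Icc, Int.toNat_le]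
    have h1 := Int.floor_le ((2 : ℝ) ^ n * a i + M)
    have h2 := Int.le_ceil ((2 : ℝ) ^ n * a i - M)
    have h3 : ((⌊(2 : ℝ) ^ n * a i + M⌋ + 1 - ⌈(2 : ℝ) ^ n * a i - M⌉ : ℤ) : ℝ) ≤
        ((2 * M + 1 : ℕ) : ℤ) := by
      push_cast
      linarith
    exact_mod_cast h3
  · rw [Finset.prod_const, Finset.card_univ, Fintype.card_fin]

private theorem B4b_mem {d : ℕ} {n M : ℕ} {a : E d} {w : Fin d → ℤ} {r : ℝ}
    (h : dist (dp ((n, w) : DI d)) a ≤ r) (hr : (2 : ℝ) ^ n * r ≤ M) : w ∈ B4b_W n M a := by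
  unfold B4b_W
  rw [Fintype.mem_piFinset]
  intro i
  have h1 : |dp ((n, w) : DI d) i - a i| ≤ r := by
    refine le_trans ?_ h
    rw [dist_eq_norm, ← PiLp.sub_apply, ← Real.norm_eq_abs]
    exact PiLp.norm_apply_le _ i
  have h2 : dp ((n, w) : DI d) i = (2 : ℝ)⁻¹ ^ n * w i := by
    simp [dp]
  have h3 : |(w i : ℝ) - (2 : ℝ) ^ n * a i| ≤ M := by
    refine le_trans ?_ hr
    have h4 : (w i : ℝ) - (2 : ℝ) ^ n * a i = (2 : ℝ) ^ n * (dp ((n, w) : DI d) i - a i) := by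
      rw [h2, mul_sub, ← mul_assoc, ← mul_pow, mul_inv_cancel₀ two_ne_zero, one_pow, one_mul]
    rw [h4, abs_mul, abs_of_pos (by positivity : (0 : ℝ) < 2 ^ n)]
    exact mul_le_mul_of_nonneg_left h1 (by positivity)
  rw [abs_le] at h3
  rw [Finset.mem_Icc]
  constructor
  · exact Int.ceil_le.2 (by linarith)
  · exact Int.le_floor.2 (by linarith)

/-- the event that the value is large -/
private def B4b_V (ψ : ℕ → Ω → E d → ℝ) (k : ℕ) (u : DI d) (t : ℝ) : Set Ω :=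
  {ω | t < |ψ k ω (dp u)|}

/-- the event that the Hoelder constant is large -/
private def B4b_H (ψ : ℕ → Ω → E d → ℝ) (θ : ℝ) (k : ℕ) (u : DI d) (t : ℝ) : Set Ω :=
  {ω | ∃ x y : E d, dist x (dp u) ≤ (2 : ℝ)⁻¹ ^ k ∧ dist y (dp u) ≤ (2 : ℝ)⁻¹ ^ k ∧
      t * ((2 : ℝ) ^ k * dist x y) ^ θ < |ψ k ω x - ψ k ω y|}

/-- the exceptional event of the level `k` -/
private def B4b_A (ψ : ℕ → Ω → E d → ℝ) (θ : ℝ) (M : ℕ) (z : DI d) (t : ℝ) (k : ℕ) : Set Ω :=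
  B4b_H ψ θ k z t ∪ ⋃ w ∈ B4b_W (k + d) M (dp z),
    (B4b_V ψ k (k + d, w) t ∪ B4b_H ψ θ k (k + d, w) t)

/-- the bound of the oscillation of the level `j - i` -/
private noncomputable def B4b_g (θ : ℝ) (m i : ℕ) : ℝ :=
  if m ≤ i then (2 : ℝ) ^ θ * ((2 : ℝ)⁻¹ ^ θ) ^ (i - m) else 4

private theorem B4b_g_nonneg (θ : ℝ) (m i : ℕ) : 0 ≤ B4b_g θ m i := by
  unfold B4b_g
  split_ifs <;> positivity

private theorem B4b_g_sum {θ : ℝ} (hθ : 0 < θ) (m j : ℕ) :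
    ∑ k ∈ Finset.range j, B4b_g θ m (j - k) ≤ 4 * m + 2 ^ θ * (1 - (2 : ℝ)⁻¹ ^ θ)⁻¹ := by
  have hq0 : (0 : ℝ) ≤ (2 : ℝ)⁻¹ ^ θ := by positivity
  have hq1 : (2 : ℝ)⁻¹ ^ θ < 1 := Real.rpow_lt_one (by norm_num) (by norm_num) hθ
  have h1 : ∑ k ∈ Finset.range j, B4b_g θ m (j - k) =
      ∑ k ∈ Finset.range j, B4b_g θ m (k + 1) := by
    rw [← Finset.sum_range_reflect (fun k => B4b_g θ m (k + 1))]
    refine Finset.sum_congr rfl fun k hk => ?_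
    rw [Finset.mem_range] at hk
    congr 1
    omega
  have h2 : ∑ k ∈ Finset.range j, B4b_g θ m (k + 1) ≤ ∑ k ∈ Finset.range (j + 1), B4b_g θ m k := by
    rw [Finset.sum_range_succ' _ j]
    have := B4b_g_nonneg θ m 0
    linarith
  have h3 : ∑ k ∈ Finset.range (j + 1), B4b_g θ m k ≤
      ∑ k ∈ Finset.range (m + (j + 1)), B4b_g θ m k :=
    Finset.sum_le_sum_of_subset_of_nonneg (Finset.range_subset_range.2 (by omega))
      fun i _ _ => B4b_g_nonneg θ m i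
  have h4 : ∑ k ∈ Finset.range (m + (j + 1)), B4b_g θ m k =
      4 * m + 2 ^ θ * ∑ r ∈ Finset.range (j + 1), ((2 : ℝ)⁻¹ ^ θ) ^ r := by
    rw [Finset.sum_range_add]
    congr 1
    · rw [Finset.sum_congr rfl (g := fun _ => (4 : ℝ)), Finset.sum_const, Finset.card_range,
        nsmul_eq_mul, mul_comm]
      intro i hi
      rw [Finset.mem_range] at hi
      unfold B4b_g
      rw [if_neg (by omega)]
    · rw [Finset.mul_sum]
      refine Finset.sum_congr rfl fun r _ => ?_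
      unfold B4b_g
      rw [if_pos (by omega)]
      congr 2
      omega
  have h5 : ∑ r ∈ Finset.range (j + 1), ((2 : ℝ)⁻¹ ^ θ) ^ r ≤ (1 - (2 : ℝ)⁻¹ ^ θ)⁻¹ :=
    (Summable.sum_le_tsum _ (fun _ _ => pow_nonneg hq0 _)
      (summable_geometric_of_lt_one hq0 hq1)).trans_eq (tsum_geometric_of_lt_one hq0 hq1)
  rw [h1]
  refine (h2.trans h3).trans ?_
  rw [h4]
  have := mul_le_mul_of_nonneg_left h5 (by positivity : (0 : ℝ) ≤ 2 ^ θ)
  linarith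

omit [MeasurableSpace Ω] in
/-- the oscillation of one level -/
private theorem B4b_level {θ : ℝ} (hθ : 0 < θ) {z : DI d} {t : ℝ} (ht : 0 ≤ t) {j k m M L : ℕ}
    (hk : k < j) (hm : L ≤ 2 ^ m) (hM : 2 ^ d * (L + 1) ≤ M) {ω : Ω}
    (hω : ω ∉ B4b_A ψ θ M z t k) {x y : E d} (hx : dist x (dp z) ≤ L * (2 : ℝ)⁻¹ ^ j)
    (hy : dist y (dp z) ≤ L * (2 : ℝ)⁻¹ ^ j) :
    ψ k ω x - ψ k ω y ≤ t * B4b_g θ m (j - k) := by
  have hjk : (2 : ℝ) ^ k * (2 : ℝ)⁻¹ ^ j = (2 : ℝ)⁻¹ ^ (j - k) := by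
    have h1 : j = k + (j - k) := by omega
    conv_lhs => rw [h1]
    rw [pow_add, ← mul_assoc, ← mul_pow, mul_inv_cancel₀ two_ne_zero, one_pow, one_mul]
  have h2k : (2 : ℝ) ^ k * (2 : ℝ)⁻¹ ^ k = 1 := by
    rw [← mul_pow, mul_inv_cancel₀ two_ne_zero, one_pow]
  unfold B4b_A at hω
  rw [Set.mem_union, not_or] at hω
  obtain ⟨hω1, hω2⟩ := hω
  unfold B4b_g
  split_ifs with hmi
  · -- the ball is small
    have hr : (2 : ℝ) ^ k * (L * (2 : ℝ)⁻¹ ^ j) ≤ (2 : ℝ)⁻¹ ^ (j - k - m) := by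
      have h1 : (2 : ℝ) ^ k * (L * (2 : ℝ)⁻¹ ^ j) = L * (2 : ℝ)⁻¹ ^ (j - k) := by
        rw [← hjk]
        ring
      rw [h1]
      have h2 : (L : ℝ) ≤ 2 ^ m := by exact_mod_cast hm
      refine (mul_le_mul_of_nonneg_right h2 (by positivity)).trans_eq ?_
      have h3 : j - k = m + (j - k - m) := by omega
      conv_lhs => rw [h3]
      rw [pow_add, ← mul_assoc, ← mul_pow, mul_inv_cancel₀ two_ne_zero, one_pow, one_mul]
    have hr1 : L * (2 : ℝ)⁻¹ ^ j ≤ (2 : ℝ)⁻¹ ^ k := by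
      have h1 : (2 : ℝ)⁻¹ ^ (j - k - m) ≤ 1 := pow_le_one₀ (by norm_num) (by norm_num)
      have h2 : (2 : ℝ) ^ k * (L * (2 : ℝ)⁻¹ ^ j) ≤ (2 : ℝ) ^ k * (2 : ℝ)⁻¹ ^ k := by
        rw [h2k]
        exact hr.trans h1
      exact le_of_mul_le_mul_left h2 (by positivity)
    have h3 : |ψ k ω x - ψ k ω y| ≤ t * ((2 : ℝ) ^ k * dist x y) ^ θ := by
      by_contra hcon
      exact hω1 ⟨x, y, hx.trans hr1, hy.trans hr1, not_le.1 hcon⟩
    have h4 : (2 : ℝ) ^ k * dist x y ≤ 2 * (2 : ℝ)⁻¹ ^ (j - k - m) := by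
      have h5 : dist x y ≤ 2 * (L * (2 : ℝ)⁻¹ ^ j) := by
        have := dist_triangle_right x y (dp z)
        linarith
      have h6 := mul_le_mul_of_nonneg_left h5 (by positivity : (0 : ℝ) ≤ 2 ^ k)
      have h7 := mul_le_mul_of_nonneg_left hr (by norm_num : (0 : ℝ) ≤ 2)
      linarith
    have h5 : ((2 : ℝ) ^ k * dist x y) ^ θ ≤ (2 : ℝ) ^ θ * ((2 : ℝ)⁻¹ ^ θ) ^ (j - k - m) := by
      refine (Real.rpow_le_rpow (by positivity) h4 hθ.le).trans_eq ?_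
      rw [Real.mul_rpow (by norm_num) (by positivity), ← Real.rpow_natCast, ← Real.rpow_natCast,
        ← Real.rpow_mul (by norm_num), ← Real.rpow_mul (by norm_num), mul_comm θ]
    exact (le_abs_self _).trans (h3.trans (mul_le_mul_of_nonneg_left h5 ht))
  · -- the ball is covered by small balls
    have key : ∀ p : E d, dist p (dp z) ≤ L * (2 : ℝ)⁻¹ ^ j → |ψ k ω p| ≤ 2 * t := by
      intro p hp
      obtain ⟨w, hw⟩ := near_grid k p
      have hwW : w ∈ B4b_W (k + d) M (dp z) := by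
        refine B4b_mem (r := L * (2 : ℝ)⁻¹ ^ j + (2 : ℝ)⁻¹ ^ k) ?_ ?_
        · have h1 := dist_triangle (dp ((k + d, w) : DI d)) p (dp z)
          rw [dist_comm (dp ((k + d, w) : DI d)) p] at h1
          have h2 : (0 : ℝ) < (2 : ℝ)⁻¹ ^ k := by positivity
          linarith
        · have h1 : (2 : ℝ) ^ (k + d) * (L * (2 : ℝ)⁻¹ ^ j + (2 : ℝ)⁻¹ ^ k) =
              2 ^ d * (L * (2 : ℝ)⁻¹ ^ (j - k) + 1) := by
            rw [← hjk, ← h2k]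
            ring
          rw [h1]
          have h2 : (2 : ℝ)⁻¹ ^ (j - k) ≤ 1 := pow_le_one₀ (by norm_num) (by norm_num)
          have h3 : (L : ℝ) * (2 : ℝ)⁻¹ ^ (j - k) ≤ L :=
            mul_le_of_le_one_right (Nat.cast_nonneg _) h2
          have h4 : ((2 ^ d * (L + 1) : ℕ) : ℝ) ≤ M := by exact_mod_cast hM
          push_cast at h4
          refine le_trans (mul_le_mul_of_nonneg_left ?_ (by positivity)) h4
          linarith
      have h1 : ω ∉ B4b_V ψ k (k + d, w) t ∪ B4b_H ψ θ k (k + d, w) t := by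
        intro h
        exact hω2 (Set.mem_biUnion hwW h)
      rw [Set.mem_union, not_or] at h1
      have h2 : |ψ k ω (dp ((k + d, w) : DI d))| ≤ t := by
        by_contra hcon
        exact h1.1 (not_le.1 hcon)
      have hpos : (0 : ℝ) < (2 : ℝ)⁻¹ ^ k := by positivity
      have h3 : |ψ k ω p - ψ k ω (dp ((k + d, w) : DI d))| ≤
          t * ((2 : ℝ) ^ k * dist p (dp ((k + d, w) : DI d))) ^ θ := by
        by_contra hcon
        exact h1.2 ⟨p, dp ((k + d, w) : DI d), by linarith, by rw [dist_self]; exact hpos.le,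
          not_le.1 hcon⟩
      have h4 : ((2 : ℝ) ^ k * dist p (dp ((k + d, w) : DI d))) ^ θ ≤ 1 := by
        refine Real.rpow_le_one (by positivity) ?_ hθ.le
        rw [← h2k]
        exact mul_le_mul_of_nonneg_left (by linarith) (by positivity)
      have h5 : t * ((2 : ℝ) ^ k * dist p (dp ((k + d, w) : DI d))) ^ θ ≤ t * 1 :=
        mul_le_mul_of_nonneg_left h4 ht
      have h6 := abs_add_le (ψ k ω p - ψ k ω (dp ((k + d, w) : DI d)))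
        (ψ k ω (dp ((k + d, w) : DI d)))
      rw [sub_add_cancel] at h6
      linarith
    have h1 := key x hx
    have h2 := key y hy
    rw [abs_le] at h1 h2
    linarith [h1.2, h2.1]

/-- the probability of the exceptional event of one level -/
private theorem B4b_prob {θ C c : ℝ} {z : DI d} {t : ℝ} {k M : ℕ}
    (hV : ∀ u : DI d, P (B4b_V ψ k u t) ≤ ENNReal.ofReal (C * Real.exp (-(c * t ^ 2))))
    (hH : ∀ u : DI d, P (B4b_H ψ θ k u t) ≤ ENNReal.ofReal (C * Real.exp (-(c * t ^ 2)))) :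
    P (B4b_A ψ θ M z t k) ≤
      ((1 + 2 * (2 * M + 1) ^ d : ℕ) : ENNReal) * ENNReal.ofReal (C * Real.exp (-(c * t ^ 2))) := by
  unfold B4b_A
  refine (measure_union_le _ _).trans ?_
  have h1 := measure_biUnion_finset_le (μ := P) (B4b_W (k + d) M (dp z)) (fun w =>
    (B4b_V ψ k (k + d, w) t ∪ B4b_H ψ θ k (k + d, w) t))
  have h2 : ∑ w ∈ B4b_W (k + d) M (dp z), P (B4b_V ψ k (k + d, w) t ∪ B4b_H ψ θ k (k + d, w) t) ≤
      ∑ _w ∈ B4b_W (k + d) M (dp z), 2 * ENNReal.ofReal (C * Real.exp (-(c * t ^ 2))) := by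
    refine Finset.sum_le_sum fun w _ => (measure_union_le _ _).trans ?_
    rw [two_mul]
    exact add_le_add (hV _) (hH _)
  rw [Finset.sum_const, nsmul_eq_mul] at h2
  have h3 : ((B4b_W (k + d) M (dp z)).card : ENNReal) ≤ (((2 * M + 1) ^ d : ℕ) : ENNReal) := by
    exact_mod_cast B4b_card (k + d) M (dp z)
  have h4 := (h1.trans h2).trans (mul_le_mul_left h3 _)
  refine (add_le_add (hH z) h4).trans_eq ?_
  push_cast
  ring

/-- powers of `j` tend to infinity -/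
private theorem B4b_pow {e : ℝ} (he : 0 < e) (K : ℝ) :
    ∃ j₀ : ℕ, ∀ j ≥ j₀, 1 ≤ j ∧ K ≤ (j : ℝ) ^ e := by
  have h1 : Tendsto (fun j : ℕ => (j : ℝ) ^ e) atTop atTop :=
    (tendsto_rpow_atTop he).comp tendsto_natCast_atTop_atTop
  obtain ⟨j₀, hj₀⟩ := eventually_atTop.1 ((h1.eventually_ge_atTop K).and (eventually_ge_atTop 1))
  exact ⟨j₀, fun j hj => ⟨(hj₀ j hj).2, (hj₀ j hj).1⟩⟩

/-- the first asymptotic condition -/
private theorem B4b_asym1 (d : ℕ) (K : ℝ) : ∃ j₀ : ℕ, ∀ j ≥ j₀,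
    (j : ℝ) ^ (2 / 3 : ℝ) * (4 * ((Nat.log 2 (Lr d j + 2) + 1 : ℕ) : ℝ) + K) ≤
      (j : ℝ) ^ (3 / 4 : ℝ) - 1 := by
  set a : ℝ := 12 * (d + 1) + 2 with ha
  obtain ⟨j₀, hj₀⟩ := B4b_pow (e := 1 / 16) (by norm_num)
    (384 * a ^ (1 / 48 : ℝ) + 4 + |K| + 1)
  refine ⟨j₀, fun j hj => ?_⟩
  obtain ⟨hj1, hj2⟩ := hj₀ j hj
  have hj1' : (1 : ℝ) ≤ j := by exact_mod_cast hj1
  have hj0 : (0 : ℝ) < j := by linarith
  have hN : (((Lr d j + 2 : ℕ)) : ℝ) ≤ a * j := by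
    unfold Lr
    push_cast
    rw [ha]
    have h1 : (0 : ℝ) ≤ d := Nat.cast_nonneg d
    have h2 : (j : ℝ) + 2 ≤ 3 * j := by linarith
    have h3 := mul_le_mul_of_nonneg_left h2 (by positivity : (0 : ℝ) ≤ 4 * (d + 1))
    nlinarith
  have hN1 : (1 : ℝ) ≤ ((Lr d j + 2 : ℕ) : ℝ) := by
    push_cast
    have : (0 : ℝ) ≤ (Lr d j : ℝ) := Nat.cast_nonneg _
    linarith
  have hlog : ((Nat.log 2 (Lr d j + 2) : ℕ) : ℝ) ≤
      96 * (a ^ (1 / 48 : ℝ) * (j : ℝ) ^ (1 / 48 : ℝ)) := by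
    have h1 := Real.natLog_le_logb (Lr d j + 2) 2
    have h2 : Real.logb ((2 : ℕ) : ℝ) ((Lr d j + 2 : ℕ) : ℝ) ≤
        2 * Real.log ((Lr d j + 2 : ℕ) : ℝ) := by
      unfold Real.logb
      have h3 := Real.log_two_gt_d9
      rw [Nat.cast_ofNat, div_le_iff₀ (by linarith)]
      have h4 := Real.log_nonneg hN1
      nlinarith
    have h3 : Real.log ((Lr d j + 2 : ℕ) : ℝ) ≤
        ((Lr d j + 2 : ℕ) : ℝ) ^ (1 / 48 : ℝ) / (1 / 48) :=
      Real.log_le_rpow_div (by linarith) (by norm_num)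
    have h4 : ((Lr d j + 2 : ℕ) : ℝ) ^ (1 / 48 : ℝ) ≤
        a ^ (1 / 48 : ℝ) * (j : ℝ) ^ (1 / 48 : ℝ) := by
      rw [← Real.mul_rpow (by positivity) hj0.le]
      exact Real.rpow_le_rpow (by linarith) hN (by norm_num)
    have h5 : ((Lr d j + 2 : ℕ) : ℝ) ^ (1 / 48 : ℝ) / (1 / 48) =
        48 * ((Lr d j + 2 : ℕ) : ℝ) ^ (1 / 48 : ℝ) := by ring
    rw [h5] at h3
    linarith
  have hj3 : (1 : ℝ) ≤ (j : ℝ) ^ (1 / 48 : ℝ) := Real.one_le_rpow hj1' (by norm_num)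
  have h1 : 4 * ((Nat.log 2 (Lr d j + 2) + 1 : ℕ) : ℝ) + K ≤
      (384 * a ^ (1 / 48 : ℝ) + 4 + |K|) * (j : ℝ) ^ (1 / 48 : ℝ) := by
    push_cast
    have h2 := le_abs_self K
    have h3 := mul_le_mul_of_nonneg_left hj3 (by positivity : (0 : ℝ) ≤ 4 + |K|)
    linarith
  have h2 := mul_le_mul_of_nonneg_left h1 (by positivity : (0 : ℝ) ≤ (j : ℝ) ^ (2 / 3 : ℝ))
  have h3 : (j : ℝ) ^ (2 / 3 : ℝ) * (j : ℝ) ^ (1 / 48 : ℝ) = (j : ℝ) ^ (33 / 48 : ℝ) := by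
    rw [← Real.rpow_add hj0]
    norm_num
  have h4 : (j : ℝ) ^ (3 / 4 : ℝ) = (j : ℝ) ^ (33 / 48 : ℝ) * (j : ℝ) ^ (1 / 16 : ℝ) := by
    rw [← Real.rpow_add hj0]
    norm_num
  have h5 : (1 : ℝ) ≤ (j : ℝ) ^ (33 / 48 : ℝ) := Real.one_le_rpow hj1' (by norm_num)
  have h6 := mul_le_mul_of_nonneg_left hj2 (by linarith : (0 : ℝ) ≤ (j : ℝ) ^ (33 / 48 : ℝ))
  rw [h4]
  calc (j : ℝ) ^ (2 / 3 : ℝ) * (4 * ((Nat.log 2 (Lr d j + 2) + 1 : ℕ) : ℝ) + K)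
      ≤ (j : ℝ) ^ (2 / 3 : ℝ) *
        ((384 * a ^ (1 / 48 : ℝ) + 4 + |K|) * (j : ℝ) ^ (1 / 48 : ℝ)) := h2
    _ = (384 * a ^ (1 / 48 : ℝ) + 4 + |K|) *
        ((j : ℝ) ^ (2 / 3 : ℝ) * (j : ℝ) ^ (1 / 48 : ℝ)) := by ring
    _ = (384 * a ^ (1 / 48 : ℝ) + 4 + |K|) * (j : ℝ) ^ (33 / 48 : ℝ) := by rw [h3]
    _ ≤ (j : ℝ) ^ (33 / 48 : ℝ) * (j : ℝ) ^ (1 / 16 : ℝ) - 1 := by linarith

/-- the second asymptotic condition -/
private theorem B4b_asym2 (d : ℕ) {C c : ℝ} (hc : 0 < c) : ∃ j₀ : ℕ, ∀ j ≥ j₀,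
    (j : ℝ) * (((1 + 2 * (2 * (2 ^ d * (Lr d j + 3)) + 1) ^ d : ℕ) : ℝ) *
      (C * Real.exp (-(c * ((j : ℝ) ^ (2 / 3 : ℝ)) ^ 2)))) ≤ (1 / 2) ^ (2 * (d + 1) * (j + 1)) := by
  set a : ℝ := 2 ^ (d + 1) * (8 * (d + 1) + 3) + 1 with ha
  have ha1 : 1 ≤ a := by
    rw [ha]
    have : (0 : ℝ) ≤ 2 ^ (d + 1) * (8 * (d + 1) + 3) := by positivity
    linarith
  set K : ℝ := 3 * a ^ d * |C| with hK
  have hK0 : 0 ≤ K := by positivity
  obtain ⟨j₀, hj₀⟩ := B4b_pow (e := 1 / 3) (by norm_num) ((K + 5 * (d + 1)) / c)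
  refine ⟨j₀, fun j hj => ?_⟩
  obtain ⟨hj1, hj2⟩ := hj₀ j hj
  have hj1' : (1 : ℝ) ≤ j := by exact_mod_cast hj1
  have hj0 : (0 : ℝ) < j := by linarith
  have hd : (0 : ℝ) ≤ d := Nat.cast_nonneg d
  have hexp : (j : ℝ) + 1 ≤ Real.exp j := Real.add_one_le_exp _
  have hN : ((2 * (2 ^ d * (Lr d j + 3)) + 1 : ℕ) : ℝ) ≤ a * Real.exp j := by
    refine le_trans ?_ (mul_le_mul_of_nonneg_left hexp (by linarith))
    unfold Lr
    push_cast
    rw [ha]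
    have h1 : (j : ℝ) + 2 ≤ 2 * (j + 1) := by linarith
    have h2 := mul_le_mul_of_nonneg_left h1 (by positivity : (0 : ℝ) ≤ 4 * (d + 1))
    have h3 : 4 * ((d : ℝ) + 1) * (j + 2) + 3 ≤ (8 * (d + 1) + 3) * (j + 1) := by linarith
    have h4 := mul_le_mul_of_nonneg_left h3 (by positivity : (0 : ℝ) ≤ 2 ^ (d + 1))
    have h5 : (2 : ℝ) ^ (d + 1) = 2 * 2 ^ d := by ring
    rw [h5] at h4 ⊢
    linarith
  have hA1 : (1 : ℝ) ≤ a * Real.exp j := by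
    have h1 : (1 : ℝ) ≤ Real.exp j := by linarith
    nlinarith
  have hN2 : ((1 + 2 * (2 * (2 ^ d * (Lr d j + 3)) + 1) ^ d : ℕ) : ℝ) ≤
      3 * (a * Real.exp j) ^ d := by
    rw [Nat.cast_add, Nat.cast_mul, Nat.cast_pow]
    have h1 := pow_le_pow_left₀ (Nat.cast_nonneg _) hN d
    have h2 : (1 : ℝ) ≤ (a * Real.exp j) ^ d := one_le_pow₀ hA1
    push_cast at h1 ⊢
    linarith
  have hs : ((j : ℝ) ^ (2 / 3 : ℝ)) ^ 2 = j * (j : ℝ) ^ (1 / 3 : ℝ) := by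
    rw [← Real.rpow_natCast, ← Real.rpow_mul hj0.le]
    nth_rewrite 2 [← Real.rpow_one (j : ℝ)]
    rw [← Real.rpow_add hj0]
    norm_num
  have h1 : (j : ℝ) * (((1 + 2 * (2 * (2 ^ d * (Lr d j + 3)) + 1) ^ d : ℕ) : ℝ) *
      (C * Real.exp (-(c * ((j : ℝ) ^ (2 / 3 : ℝ)) ^ 2)))) ≤
      Real.exp j * ((3 * (a * Real.exp j) ^ d) *
        (|C| * Real.exp (-(c * ((j : ℝ) ^ (2 / 3 : ℝ)) ^ 2)))) := by
    have h2 : C * Real.exp (-(c * ((j : ℝ) ^ (2 / 3 : ℝ)) ^ 2)) ≤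
        |C| * Real.exp (-(c * ((j : ℝ) ^ (2 / 3 : ℝ)) ^ 2)) :=
      mul_le_mul_of_nonneg_right (le_abs_self C) (Real.exp_pos _).le
    have h3 : ((1 + 2 * (2 * (2 ^ d * (Lr d j + 3)) + 1) ^ d : ℕ) : ℝ) *
        (C * Real.exp (-(c * ((j : ℝ) ^ (2 / 3 : ℝ)) ^ 2))) ≤ (3 * (a * Real.exp j) ^ d) *
        (|C| * Real.exp (-(c * ((j : ℝ) ^ (2 / 3 : ℝ)) ^ 2))) :=
      (mul_le_mul_of_nonneg_left h2 (Nat.cast_nonneg _)).trans
        (mul_le_mul_of_nonneg_right hN2 (by positivity))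
    refine (mul_le_mul_of_nonneg_left h3 hj0.le).trans ?_
    exact mul_le_mul_of_nonneg_right (by linarith) (by positivity)
  refine h1.trans ?_
  have h2 : Real.exp j * ((3 * (a * Real.exp j) ^ d) *
      (|C| * Real.exp (-(c * ((j : ℝ) ^ (2 / 3 : ℝ)) ^ 2)))) =
      K * Real.exp ((d + 1) * j - c * ((j : ℝ) ^ (2 / 3 : ℝ)) ^ 2) := by
    have e1 : Real.exp (((d : ℝ) + 1) * j) = Real.exp j ^ d * Real.exp j := by
      rw [← Real.exp_nat_mul, ← Real.exp_add]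
      congr 1
      ring
    rw [sub_eq_add_neg, Real.exp_add, e1, hK, mul_pow]
    ring
  rw [h2]
  have h3 : K ≤ Real.exp K := by
    have := Real.add_one_le_exp K
    linarith
  refine (mul_le_mul_of_nonneg_right h3 (Real.exp_pos _).le).trans ?_
  rw [← Real.exp_add]
  have h4 : Real.exp (-1) ≤ 1 / 2 := by
    rw [Real.exp_neg, ← one_div]
    exact one_div_le_one_div_of_le (by norm_num) (by linarith [Real.exp_one_gt_d9])
  have h5 := pow_le_pow_left₀ (Real.exp_pos _).le h4 (2 * (d + 1) * (j + 1))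
  refine le_trans ?_ h5
  rw [← Real.exp_nat_mul, Real.exp_le_exp, hs]
  push_cast
  have h6 : K + 5 * (d + 1) ≤ c * (j : ℝ) ^ (1 / 3 : ℝ) := by
    rw [div_le_iff₀ hc] at hj2
    linarith
  have h7 := mul_le_mul_of_nonneg_right h6 hj0.le
  have h8 : K ≤ K * j := le_mul_of_one_le_right hK0 hj1'
  have h9 : 4 * ((d : ℝ) + 1) ≤ 4 * (d + 1) * j := le_mul_of_one_le_right (by positivity) hj1'
  nlinarith

theorem osc_bound (hψ : ScaleField d P ψ) : ∃ j₀ : ℕ, ∀ j ≥ j₀, ∀ z : DI d,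
    P {ω | ∃ x y : E d, dist x (dp z) ≤ (Lr d j + 2) * (2 : ℝ)⁻¹ ^ j ∧
      dist y (dp z) ≤ (Lr d j + 2) * (2 : ℝ)⁻¹ ^ j ∧
      (j : ℝ) ^ (3 / 4 : ℝ) - 1 < S ψ 0 j ω x - S ψ 0 j ω y} ≤
    ENNReal.ofReal ((1 / 2) ^ (2 * (d + 1) * (j + 1))) := by
  obtain ⟨C₁, c₁, hc₁, hV⟩ := tail_value hψ
  obtain ⟨θ, C₂, c₂, hθ, hc₂, hH⟩ := tail_hoelder hψ
  set C : ℝ := max C₁ C₂ with hC
  set c : ℝ := min c₁ c₂ with hc
  have hc0 : 0 < c := lt_min hc₁ hc₂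
  obtain ⟨j₁, hj₁⟩ := B4b_asym1 d (2 ^ θ * (1 - (2 : ℝ)⁻¹ ^ θ)⁻¹)
  obtain ⟨j₂, hj₂⟩ := B4b_asym2 d (C := max C 0) hc0
  refine ⟨max j₁ j₂, fun j hj z => ?_⟩
  have hj1 := hj₁ j (le_trans (le_max_left _ _) hj)
  have hj2 := hj₂ j (le_trans (le_max_right _ _) hj)
  set t : ℝ := (j : ℝ) ^ (2 / 3 : ℝ) with htdef
  have ht : 0 ≤ t := by positivity
  set M : ℕ := 2 ^ d * (Lr d j + 3) with hM
  set m : ℕ := Nat.log 2 (Lr d j + 2) + 1 with hm
  have hsub : {ω | ∃ x y : E d, dist x (dp z) ≤ (Lr d j + 2) * (2 : ℝ)⁻¹ ^ j ∧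
      dist y (dp z) ≤ (Lr d j + 2) * (2 : ℝ)⁻¹ ^ j ∧
      (j : ℝ) ^ (3 / 4 : ℝ) - 1 < S ψ 0 j ω x - S ψ 0 j ω y} ⊆
      ⋃ k ∈ Finset.range j, B4b_A ψ θ M z t k := by
    rintro ω ⟨x, y, hx, hy, hxy⟩
    by_contra hcon
    have h1 : ∀ k < j, ω ∉ B4b_A ψ θ M z t k := fun k hk h =>
      hcon (Set.mem_biUnion (Finset.mem_coe.2 (Finset.mem_range.2 hk)) h)
    have h2 : S ψ 0 j ω x - S ψ 0 j ω y ≤ ∑ k ∈ Finset.range j, t * B4b_g θ m (j - k) := by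
      unfold S
      rw [← Finset.sum_sub_distrib, ← Finset.range_eq_Ico]
      refine Finset.sum_le_sum fun k hk => ?_
      rw [Finset.mem_range] at hk
      refine B4b_level (L := Lr d j + 2) (M := M) hθ ht hk ?_ ?_ (h1 k hk) ?_ ?_
      · exact (Nat.lt_pow_succ_log_self (by norm_num) _).le
      · rw [hM]
      · push_cast
        exact hx
      · push_cast
        exact hy
    rw [← Finset.mul_sum] at h2
    have h3 := mul_le_mul_of_nonneg_left (B4b_g_sum hθ m j) ht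
    linarith
  refine (measure_mono hsub).trans ((measure_biUnion_finset_le _ _).trans ?_)
  have hCC : ∀ C' c' : ℝ, C' ≤ max C 0 → c ≤ c' →
      ENNReal.ofReal (C' * Real.exp (-(c' * t ^ 2))) ≤
        ENNReal.ofReal (max C 0 * Real.exp (-(c * t ^ 2))) := by
    intro C' c' h1 h2
    refine ENNReal.ofReal_le_ofReal ?_
    refine (mul_le_mul_of_nonneg_right h1 (Real.exp_pos _).le).trans
      (mul_le_mul_of_nonneg_left ?_ (le_max_right _ _))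
    rw [Real.exp_le_exp, neg_le_neg_iff]
    exact mul_le_mul_of_nonneg_right h2 (sq_nonneg _)
  have h1 : ∑ k ∈ Finset.range j, P (B4b_A ψ θ M z t k) ≤ ∑ _k ∈ Finset.range j,
      ((1 + 2 * (2 * M + 1) ^ d : ℕ) : ENNReal) *
        ENNReal.ofReal (max C 0 * Real.exp (-(c * t ^ 2))) := by
    refine Finset.sum_le_sum fun k _ => B4b_prob ?_ ?_
    · intro u
      exact (hV k u t ht).trans (hCC _ _ ((le_max_left _ _).trans (le_max_left _ _))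
        (min_le_left _ _))
    · intro u
      exact (hH k u t ht).trans (hCC _ _ ((le_max_right _ _).trans (le_max_left _ _))
        (min_le_right _ _))
  refine h1.trans ?_
  rw [Finset.sum_const, Finset.card_range, nsmul_eq_mul]
  rw [← ENNReal.ofReal_natCast, ← ENNReal.ofReal_natCast,
    ← ENNReal.ofReal_mul (Nat.cast_nonneg _), ← ENNReal.ofReal_mul (Nat.cast_nonneg _)]
  exact ENNReal.ofReal_le_ofReal hj2

end Pool.Agent.Thick
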