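import Pool.Agent.Thick.Defs

set_option autoImplicit false

/-!
# T2: connected sets contain chains with small steps

Proof. Let `x ∈ K` and let `U` be the set of the points of `K` which can be reached from `x` by a chain
in `K` with steps `< ε`. `U` is open and closed in `K`: a point of `K` at distance `< ε` from a point of
`U` is in `U`, so both `U` and `K \ U` are relatively open (intersections of `K` with unions of balls of
radius `ε`). `IsPreconnected` (definition with two open sets, or `isPreconnected_iff_subset_of_disjoint`)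
gives `U = K`. Concatenation of a chain with one more point: `Fin.snoc`. (Alternatively use an
inductive reachability relation, `Relation.ReflTransGen`, first and convert to `Fin (m+1) → E d` at
the end.)
-/

namespace Pool.Agent.Thick

open MeasureTheory ProbabilityTheory Filter Topology Set

theorem exists_chain {d : ℕ} (K : Set (E d)) (hK : IsPreconnected K) (x y : E d) (hx : x ∈ K)
    (hy : y ∈ K) (ε : ℝ) (hε : 0 < ε) :
    ∃ (m : ℕ) (c : Fin (m + 1) → E d), (∀ i, c i ∈ K) ∧ c 0 = x ∧ c (Fin.last m) = y ∧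
      ∀ i : Fin m, dist (c i.castSucc) (c i.succ) < ε := by
  by_contra hcon
  set R : E d → Prop := fun y => ∃ (m : ℕ) (c : Fin (m + 1) → E d), (∀ i, c i ∈ K) ∧ c 0 = x ∧
    c (Fin.last m) = y ∧ ∀ i : Fin m, dist (c i.castSucc) (c i.succ) < ε with hR
  have hstep : ∀ p q : E d, R p → q ∈ K → dist p q < ε → R q := by
    rintro p q ⟨m, c, hc, h0, hl, hs⟩ hq hpq
    refine ⟨m + 1, Fin.snoc c q, ?_, ?_, ?_, ?_⟩
    · intro i
      refine Fin.lastCases ?_ (fun j => ?_) i
      · rw [Fin.snoc_last]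
        exact hq
      · rw [Fin.snoc_castSucc]
        exact hc j
    · rw [← h0]
      exact Fin.snoc_castSucc (α := fun _ => E d) q c 0
    · rw [Fin.snoc_last]
    · intro i
      refine Fin.lastCases ?_ (fun j => ?_) i
      · rw [Fin.snoc_castSucc, Fin.succ_last, Fin.snoc_last, hl]
        exact hpq
      · rw [Fin.snoc_castSucc, Fin.succ_castSucc, Fin.snoc_castSucc]
        exact hs j
  have hRx : R x := ⟨0, fun _ => x, fun _ => hx, rfl, rfl, fun i => i.elim0⟩
  have hRy : ¬ R y := hcon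
  obtain ⟨p, hpK, hpu, hpv⟩ := hK (⋃ q ∈ {q | q ∈ K ∧ R q}, Metric.ball q ε)
    (⋃ q ∈ {q | q ∈ K ∧ ¬ R q}, Metric.ball q ε)
    (isOpen_biUnion fun _ _ => Metric.isOpen_ball) (isOpen_biUnion fun _ _ => Metric.isOpen_ball)
    (by
      intro q hq
      by_cases h : R q
      · exact Or.inl (mem_iUnion₂.2 ⟨q, ⟨hq, h⟩, Metric.mem_ball_self hε⟩)
      · exact Or.inr (mem_iUnion₂.2 ⟨q, ⟨hq, h⟩, Metric.mem_ball_self hε⟩))
    ⟨x, hx, mem_iUnion₂.2 ⟨x, ⟨hx, hRx⟩, Metric.mem_ball_self hε⟩⟩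
    ⟨y, hy, mem_iUnion₂.2 ⟨y, ⟨hy, hRy⟩, Metric.mem_ball_self hε⟩⟩
  obtain ⟨q, ⟨_, hq⟩, hpq⟩ := mem_iUnion₂.1 hpu
  obtain ⟨q', ⟨hq'K, hq'⟩, hpq'⟩ := mem_iUnion₂.1 hpv
  have h1 : R p := hstep q p hq hpK (by rw [dist_comm]; exact hpq)
  exact hq' (hstep p q' h1 hq'K hpq')

/-- Truncated chains: the chain stays in the closed ball of radius `r'` and ends at distance
`≥ r' - ε`. Take the chain of `exists_chain` from a point with `dist x z ≤ r` to a point with
`r' ≤ dist y z` and stop at the first point at distance `≥ r' - ε` from `z`: its distance is `< r'`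
when it is not the first point (the previous one has distance `< r' - ε`), and `≤ r < r'` when it
is the first. -/
theorem exists_chain_ball {d : ℕ} (F : Set (E d)) (z : E d) (r r' : ℝ) (hr : r < r')
    (h : Cross F z r r') (ε : ℝ) (hε : 0 < ε) :
    ∃ (m : ℕ) (c : Fin (m + 1) → E d), (∀ i, c i ∈ F ∧ dist (c i) z ≤ r') ∧ dist (c 0) z ≤ r ∧
      r' - ε ≤ dist (c (Fin.last m)) z ∧ ∀ i : Fin m, dist (c i.castSucc) (c i.succ) < ε := by
  classical
  obtain ⟨K, hKF, hK, ⟨x, hx, hxz⟩, y, hy, hyz⟩ := h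
  obtain ⟨m, c, hc, h0, hl, hs⟩ := exists_chain K hK x y hx hy ε hε
  have hex : ∃ j : ℕ, ∃ hj : j < m + 1, r' - ε ≤ dist (c ⟨j, hj⟩) z := by
    refine ⟨m, Nat.lt_succ_self m, ?_⟩
    have h1 : c ⟨m, Nat.lt_succ_self m⟩ = y := hl
    rw [h1]
    linarith
  obtain ⟨hn, hn'⟩ := Nat.find_spec hex
  have hmin : ∀ j (hj : j < m + 1), j < Nat.find hex → dist (c ⟨j, hj⟩) z < r' - ε := by
    intro j hj hjn
    by_contra hge
    exact Nat.find_min hex hjn ⟨hj, not_lt.1 hge⟩
  set n := Nat.find hex with hndef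
  refine ⟨n, fun i => c ⟨i, lt_of_lt_of_le i.2 hn⟩, ?_, ?_, ?_, ?_⟩
  · intro i
    refine ⟨hKF (hc _), ?_⟩
    rcases lt_or_eq_of_le (Nat.le_of_lt_succ i.2) with h1 | h1
    · have h2 := hmin i (lt_of_lt_of_le i.2 hn) h1
      exact le_of_lt (by linarith)
    · rcases Nat.eq_zero_or_pos (i : ℕ) with h2 | h2
      · have h3 : c ⟨i, lt_of_lt_of_le i.2 hn⟩ = x := by
          rw [← h0]
          congr 1
          exact Fin.ext h2
        simp only [h3]
        linarith
      · obtain ⟨j, hj⟩ : ∃ j, (i : ℕ) = j + 1 := ⟨(i : ℕ) - 1, by omega⟩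
        have hjm : j < m := by
          have := lt_of_lt_of_le i.2 hn
          omega
        have h3 := hmin j (by omega) (by omega)
        have h4 := hs ⟨j, hjm⟩
        have h5 : c (Fin.succ ⟨j, hjm⟩) = c ⟨i, lt_of_lt_of_le i.2 hn⟩ := by
          congr 1
          exact Fin.ext hj.symm
        have h6 : c (Fin.castSucc ⟨j, hjm⟩) = c ⟨j, by omega⟩ := rfl
        rw [h5, h6, dist_comm] at h4
        have h7 := dist_triangle (c ⟨i, lt_of_lt_of_le i.2 hn⟩) (c ⟨j, by omega⟩) z
        exact le_of_lt (by linarith)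
  · have h1 : c ⟨((0 : Fin (n + 1)) : ℕ), lt_of_lt_of_le (0 : Fin (n + 1)).2 hn⟩ = x := by
      rw [← h0]
      congr 1
    simp only [h1]
    exact hxz
  · exact hn'
  · intro i
    have hi : (i : ℕ) < m := by
      have := i.2
      omega
    exact hs ⟨i, hi⟩

end Pool.Agent.Thick
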