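import Pool.Agent.Thick.T1
import Pool.Agent.Thick.T2

set_option autoImplicit false

/-!
# T3: crossings and dyadic chains

* `dense_dp`: dyadic points are dense: for `x` and `ε > 0` some `dp p` is within `ε` of `x` (round the
  coordinates of `2^n x`; `dist ≤ √d 2^{-n}`).
* `cross_compact`: for closed `F`: apply `exists_chain_ball` (T2) with `ε = 1/(N+1)` and
  `cross_of_chain` (T1) with the constant sequence `X N = F ∩ closedBall z r'`.
* `cross_iff_qcross`, direction ⇒: chain of `exists_chain_ball` with `ε = 1/(2(N+1))`; replace every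
  point `c i` by a dyadic point within `1/(4(N+1))` at which the first `N+1` functions are
  `≥ f n (c i) - 1/(N+1) ≥ - 1/(N+1)` (continuity, finitely many conditions).
  Direction ⇐: `X N = {x | dist x z ≤ r' + 1/(N+1) ∧ ∀ n ≤ N, - 1/(N+1) ≤ f n x}` is compact and
  antitone, and `⋂ N, X N = {x ∈ closedBall z r' | ∀ n, 0 ≤ f n x}`; apply `cross_of_chain`.
* `cross_iInter`: decreasing closed sets which all cross: their intersection crosses
  (`X N = F N ∩ closedBall z r'` and `exists_chain_ball`).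
-/

namespace Pool.Agent.Thick

open MeasureTheory ProbabilityTheory Filter Topology Set

theorem dense_dp {d : ℕ} (x : E d) (ε : ℝ) (hε : 0 < ε) : ∃ p : DI d, dist (dp p) x < ε := by
  have hpos : (0 : ℝ) < Real.sqrt d + 1 := by positivity
  obtain ⟨n, hn⟩ := exists_pow_lt_of_lt_one (div_pos hε hpos)
    (by norm_num : (2 : ℝ)⁻¹ < 1)
  refine ⟨(n, fun i => round ((2 : ℝ) ^ n * x i)), ?_⟩
  have h2 : (0 : ℝ) < (2 : ℝ)⁻¹ ^ n := by positivity
  have hcoord : ∀ i, dist ((dp (n, fun i => round ((2 : ℝ) ^ n * x i)) : E d) i) (x i) ≤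
      (2 : ℝ)⁻¹ ^ n := by
    intro i
    have h1 := abs_sub_round ((2 : ℝ) ^ n * x i)
    have h3 : (dp (n, fun i => round ((2 : ℝ) ^ n * x i)) : E d) i =
        (2 : ℝ)⁻¹ ^ n * (round ((2 : ℝ) ^ n * x i) : ℝ) := by
      simp [dp]
    have h4 : x i = (2 : ℝ)⁻¹ ^ n * ((2 : ℝ) ^ n * x i) := by
      rw [← mul_assoc, ← mul_pow]
      norm_num
    rw [h3, Real.dist_eq]
    calc |(2 : ℝ)⁻¹ ^ n * (round ((2 : ℝ) ^ n * x i) : ℝ) - x i|
        = |(2 : ℝ)⁻¹ ^ n * (round ((2 : ℝ) ^ n * x i) : ℝ) -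
            (2 : ℝ)⁻¹ ^ n * ((2 : ℝ) ^ n * x i)| := by rw [← h4]
      _ = (2 : ℝ)⁻¹ ^ n * |(2 : ℝ) ^ n * x i - round ((2 : ℝ) ^ n * x i)| := by
          rw [← mul_sub, abs_mul, abs_of_pos h2, abs_sub_comm]
      _ ≤ (2 : ℝ)⁻¹ ^ n * 1 := by
          apply mul_le_mul_of_nonneg_left _ h2.le
          linarith
      _ = (2 : ℝ)⁻¹ ^ n := mul_one _
  rw [EuclideanSpace.dist_eq]
  calc Real.sqrt (∑ i, dist ((dp (n, fun i => round ((2 : ℝ) ^ n * x i)) : E d) i) (x i) ^ 2)
      ≤ Real.sqrt (∑ _i : Fin d, ((2 : ℝ)⁻¹ ^ n) ^ 2) := by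
        apply Real.sqrt_le_sqrt
        apply Finset.sum_le_sum
        intro i _
        exact pow_le_pow_left₀ dist_nonneg (hcoord i) 2
    _ = Real.sqrt d * (2 : ℝ)⁻¹ ^ n := by
        rw [Finset.sum_const, Finset.card_univ, Fintype.card_fin, nsmul_eq_mul,
          Real.sqrt_mul (by positivity), Real.sqrt_sq h2.le]
    _ ≤ (Real.sqrt d + 1) * (2 : ℝ)⁻¹ ^ n := by nlinarith
    _ < ε := by
        rw [lt_div_iff₀ hpos] at hn
        linarith

/-- Every nonempty open set contains a dyadic point. -/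
private theorem dense_open {d : ℕ} (U : Set (E d)) (hU : IsOpen U) (x : E d) (hx : x ∈ U) :
    ∃ p : DI d, dp p ∈ U := by
  obtain ⟨ε, hε, h⟩ := Metric.isOpen_iff.mp hU x hx
  obtain ⟨p, hp⟩ := dense_dp x ε hε
  exact ⟨p, h hp⟩

theorem cross_compact {d : ℕ} (F : Set (E d)) (hF : IsClosed F) (z : E d) (r r' : ℝ) (hr : r < r')
    (h : Cross F z r r') : ∃ K ⊆ F ∩ Metric.closedBall z r', IsCompact K ∧ IsConnected K ∧
      (∃ x ∈ K, dist x z ≤ r) ∧ ∃ y ∈ K, r' ≤ dist y z := by
  obtain ⟨K, hK, h1, h2, h3, h4⟩ := cross_of_chain (fun _ => F ∩ Metric.closedBall z r')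
    (fun _ => (isCompact_closedBall z r').inter_left hF) (fun _ _ _ => le_rfl) z r r' (by
      intro N
      have hε : (0 : ℝ) < 1 / ((N : ℝ) + 1) := by positivity
      obtain ⟨m, c, hc, h0, hl, hs⟩ := exists_chain_ball F z r r' hr h _ hε
      exact ⟨m, c, fun i => ⟨(hc i).1, (hc i).2⟩, by linarith, hl, fun i => (hs i).le⟩)
  refine ⟨K, fun x hx => ?_, h1, h2, h3, h4⟩
  exact mem_iInter.mp (hK hx) 0

theorem cross_iff_qcross {d : ℕ} (f : ℕ → E d → ℝ) (hf : ∀ n, Continuous (f n)) (z : E d)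
    (r r' : ℝ) (hr : r < r') :
    Cross {x | ∀ n, 0 ≤ f n x} z r r' ↔ QCross (fun n p => f n (dp p)) z r r' := by
  constructor
  · intro h N
    set ε : ℝ := 1 / ((N : ℝ) + 1) with hεdef
    have hε : 0 < ε := by positivity
    obtain ⟨m, c, hc, h0, hl, hs⟩ := exists_chain_ball _ z r r' hr h (ε / 2) (by linarith)
    have key : ∀ i, ∃ p : DI d, dist (dp p) (c i) < ε / 4 ∧ ∀ n ≤ N, -ε ≤ f n (dp p) := by
      intro i
      let U : Set (E d) := Metric.ball (c i) (ε / 4) ∩ ⋂ n : Fin (N + 1), {x | -ε < f n x}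
      have hU : IsOpen U := by
        apply Metric.isOpen_ball.inter
        apply isOpen_iInter_of_finite
        intro n
        exact isOpen_lt continuous_const (hf n)
      have hci : c i ∈ U := by
        refine ⟨Metric.mem_ball_self (by linarith), mem_iInter.mpr fun n => ?_⟩
        have := (hc i).1 n
        change -ε < f n (c i)
        linarith
      obtain ⟨p, hp⟩ := dense_open U hU (c i) hci
      refine ⟨p, hp.1, fun n hn => ?_⟩
      have := mem_iInter.mp hp.2 ⟨n, Nat.lt_succ_of_le hn⟩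
      exact le_of_lt this
    choose p hp1 hp2 using key
    refine ⟨m, p, ?_, ?_, ?_, ?_, ?_⟩
    · have h1 := dist_triangle (dp (p 0)) (c 0) z
      have h2 := hp1 0
      linarith
    · have h1 := dist_triangle_left (c (Fin.last m)) z (dp (p (Fin.last m)))
      have h2 := hp1 (Fin.last m)
      linarith
    · intro i
      have h1 := dist_triangle4 (dp (p i.castSucc)) (c i.castSucc) (c i.succ) (dp (p i.succ))
      have h2 := hp1 i.castSucc
      have h3 := hp1 i.succ
      rw [dist_comm] at h3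
      have h4 := hs i
      linarith
    · intro i
      have h1 := dist_triangle (dp (p i)) (c i) z
      have h2 := hp1 i
      have h3 := (hc i).2
      linarith
    · intro i n hn
      exact hp2 i n hn
  · intro h
    let X : ℕ → Set (E d) := fun N =>
      Metric.closedBall z (r' + 1 / ((N : ℝ) + 1)) ∩
        {x | ∀ n ≤ N, -(1 / ((N : ℝ) + 1)) ≤ f n x}
    have hX : ∀ N, IsCompact (X N) := by
      intro N
      apply (isCompact_closedBall z _).inter_right
      have : {x : E d | ∀ n ≤ N, -(1 / ((N : ℝ) + 1)) ≤ f n x} =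
          ⋂ n, ⋂ (_ : n ≤ N), {x : E d | -(1 / ((N : ℝ) + 1)) ≤ f n x} := by
        ext x
        simp
      rw [this]
      exact isClosed_iInter fun n => isClosed_iInter fun _ =>
        isClosed_le continuous_const (hf n)
    have hanti : Antitone X := by
      intro N M hNM x hx
      have h1 : 1 / ((M : ℝ) + 1) ≤ 1 / ((N : ℝ) + 1) := by
        apply one_div_le_one_div_of_le (by positivity)
        have : (N : ℝ) ≤ M := by exact_mod_cast hNM
        linarith
      refine ⟨?_, fun n hn => ?_⟩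
      · have := hx.1
        rw [Metric.mem_closedBall] at this ⊢
        linarith
      · have := hx.2 n (hn.trans hNM)
        linarith
    obtain ⟨K, hK, h1, h2, h3, h4⟩ := cross_of_chain X hX hanti z r r' (by
      intro N
      obtain ⟨m, c, h0, hl, hs, hb, hv⟩ := h N
      exact ⟨m, fun i => dp (c i), fun i => ⟨hb i, fun n hn => hv i n hn⟩, h0, hl, hs⟩)
    refine ⟨K, fun x hx n => ?_, h2.2, h3, h4⟩
    by_contra hneg
    push Not at hneg
    obtain ⟨N, hN⟩ := exists_nat_one_div_lt (show (0 : ℝ) < -f n x by linarith)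
    have h5 := (mem_iInter.mp (hK hx) (max n N)).2 n (le_max_left _ _)
    have h6 : 1 / (((max n N : ℕ) : ℝ) + 1) ≤ 1 / ((N : ℝ) + 1) := by
      apply one_div_le_one_div_of_le (by positivity)
      have : (N : ℝ) ≤ (max n N : ℕ) := by exact_mod_cast le_max_right n N
      linarith
    linarith

theorem cross_iInter {d : ℕ} (F : ℕ → Set (E d)) (hF : ∀ n, IsClosed (F n)) (hanti : Antitone F)
    (z : E d) (r r' : ℝ) (hr : r < r') (h : ∀ n, Cross (F n) z r r') :
    Cross (⋂ n, F n) z r r' := by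
  obtain ⟨K, hK, h1, h2, h3, h4⟩ := cross_of_chain (fun N => F N ∩ Metric.closedBall z r')
    (fun N => (isCompact_closedBall z r').inter_left (hF N))
    (fun N M hNM x hx => ⟨hanti hNM hx.1, hx.2⟩) z r r' (by
      intro N
      have hε : (0 : ℝ) < 1 / ((N : ℝ) + 1) := by positivity
      obtain ⟨m, c, hc, h0, hl, hs⟩ := exists_chain_ball (F N) z r r' hr (h N) _ hε
      exact ⟨m, c, fun i => ⟨(hc i).1, (hc i).2⟩, by linarith, hl, fun i => (hs i).le⟩)
  refine ⟨K, fun x hx => ?_, h2.2, h3, h4⟩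
  exact mem_iInter.mpr fun n => (mem_iInter.mp (hK hx) n).1

end Pool.Agent.Thick
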