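import Pool.Agent.Thick.B1
import Pool.Agent.Thick.T3

set_option autoImplicit false

/-!
# B5b: lower bounds for finitely many levels

For natural numbers `H` let `E H` be the event that for some `j < j₁` and some dyadic point `p` with
`‖dp p‖ ≤ 3` we have `S ψ 0 j ω (dp p) < -H`. It is measurable (countable union), it contains the
event with all `x`, `‖x‖ ≤ 2` (by continuity: the dyadic points are dense, T3 `dense_dp`), it
decreases with `H` and `⋂ H, E H = ∅` since continuous functions are bounded on the compact ball. So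
`P (E H) → 0` (`tendsto_measure_iInter_atTop`).
-/

namespace Pool.Agent.Thick

open MeasureTheory ProbabilityTheory Filter Topology Set

variable {d : ℕ} {Ω : Type} [MeasurableSpace Ω] {P : Measure Ω} {ψ : ℕ → Ω → E d → ℝ}

/-- The event with dyadic points. -/
private def lowE (ψ : ℕ → Ω → E d → ℝ) (j₁ H : ℕ) : Set Ω :=
  {ω | ∃ j < j₁, ∃ p : DI d, ‖(dp p : E d)‖ ≤ 3 ∧ S ψ 0 j ω (dp p) < -(H : ℝ)}

private theorem measurableSet_lowE (hψ : ScaleField d P ψ) (j₁ H : ℕ) :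
    MeasurableSet (lowE ψ j₁ H) := by
  have h1 : lowE ψ j₁ H = ⋃ (j : ℕ) (_ : j < j₁) (p : DI d) (_ : ‖(dp p : E d)‖ ≤ 3),
      {ω | S ψ 0 j ω (dp p) < -(H : ℝ)} := by
    ext ω
    simp only [lowE, mem_ofPred_eq, mem_iUnion, exists_prop]
  rw [h1]
  refine MeasurableSet.iUnion fun j => MeasurableSet.iUnion fun _ => MeasurableSet.iUnion fun p =>
    MeasurableSet.iUnion fun _ => ?_
  exact measurableSet_lt (measurable_S hψ 0 j p) measurable_const

omit [MeasurableSpace Ω] in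
private theorem antitone_lowE (ψ : ℕ → Ω → E d → ℝ) (j₁ : ℕ) : Antitone (lowE ψ j₁) := by
  rintro H H' hH ω ⟨j, hj, p, hp, h⟩
  refine ⟨j, hj, p, hp, h.trans_le ?_⟩
  have : (H : ℝ) ≤ H' := by exact_mod_cast hH
  linarith

private theorem iInter_lowE (hψ : ScaleField d P ψ) (j₁ : ℕ) : ⋂ H, lowE ψ j₁ H = ∅ := by
  rw [eq_empty_iff_forall_notMem]
  intro ω hω
  rw [mem_iInter] at hω
  have h1 : ∀ j : ℕ, ∃ B : ℝ, ∀ x : E d, ‖x‖ ≤ 3 → -B ≤ S ψ 0 j ω x := by
    intro j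
    obtain ⟨B, hB⟩ := (isCompact_closedBall (0 : E d) 3).exists_bound_of_continuousOn
      (continuous_S hψ 0 j ω).continuousOn
    refine ⟨B, fun x hx => ?_⟩
    have := hB x (by simpa using hx)
    rw [Real.norm_eq_abs] at this
    exact (abs_le.1 this).1
  choose B hB using h1
  obtain ⟨H, hH⟩ := exists_nat_ge (∑ j ∈ Finset.range j₁, |B j|)
  obtain ⟨j, hj, p, hp, h⟩ := hω H
  have h2 : |B j| ≤ ∑ j ∈ Finset.range j₁, |B j| :=
    Finset.single_le_sum (f := fun j => |B j|) (fun _ _ => abs_nonneg _) (Finset.mem_range.2 hj)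
  have h3 := hB j _ hp
  have h4 := le_abs_self (B j)
  linarith

/-- Lower bounds for finitely many levels on the ball of radius two. -/
theorem low_levels (hψ : ScaleField d P ψ) (j₁ : ℕ) (ε : ℝ) (hε : 0 < ε) : ∃ H₁ : ℝ, 0 ≤ H₁ ∧
    P {ω | ∃ j < j₁, ∃ x : E d, ‖x‖ ≤ 2 ∧ S ψ 0 j ω x < -H₁} ≤ ENNReal.ofReal ε := by
  have := hψ.prob
  have h1 : Tendsto (fun H => P (lowE ψ j₁ H)) atTop (𝓝 (P (⋂ H, lowE ψ j₁ H))) :=
    tendsto_measure_iInter_atTop (fun H => (measurableSet_lowE hψ j₁ H).nullMeasurableSet)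
      (antitone_lowE ψ j₁) ⟨0, measure_ne_top _ _⟩
  rw [iInter_lowE hψ, measure_empty] at h1
  have h2 : ∀ᶠ H in atTop, P (lowE ψ j₁ H) < ENNReal.ofReal ε :=
    h1.eventually (gt_mem_nhds (ENNReal.ofReal_pos.2 hε))
  obtain ⟨H, hH⟩ := h2.exists
  refine ⟨H, H.cast_nonneg, (measure_mono ?_).trans hH.le⟩
  rintro ω ⟨j, hj, x, hx, h⟩
  have hopen : IsOpen ({y : E d | S ψ 0 j ω y < -(H : ℝ)} ∩ Metric.ball 0 3) :=
    (isOpen_lt (continuous_S hψ 0 j ω) continuous_const).inter Metric.isOpen_ball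
  have hmem : x ∈ ({y : E d | S ψ 0 j ω y < -(H : ℝ)} ∩ Metric.ball 0 3) := by
    refine ⟨h, ?_⟩
    rw [mem_ball_zero_iff]
    linarith
  obtain ⟨δ, hδ, hsub⟩ := Metric.isOpen_iff.1 hopen x hmem
  obtain ⟨p, hp⟩ := dense_dp x δ hδ
  have h3 := hsub (Metric.mem_ball.2 hp)
  refine ⟨j, hj, p, ?_, h3.1⟩
  have h4 := h3.2
  rw [mem_ball_zero_iff] at h4
  exact h4.le

end Pool.Agent.Thick
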