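import Pool.Agent.Thick.B5a
import Pool.Agent.Thick.B5b

set_option autoImplicit false

/-!
# B5: the main estimate (`uniform_cross`)

THE KEY STEP. Let `s` be the smallest natural number with
`eps1 d < P {Cross (Bar ψ 0 (a i - s)) 0 1 2}`. Then for the barrier `b' i = a i - (s - 1)`:
`P {Cross (Bar ψ 0 b') 0 1 2} ≤ eps1 d` (if `s = 0` then `Bar ψ 0 b' ω` is empty: at `i = 0` the condition is
`1 ≤ S ψ 0 0 = 0`). Consider `ω` with a crossing `K` of the shell `1`, `2` around `0`, compact connected,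
`K ⊆ Bar ψ 0 (a i - s) ω ∩ closedBall 0 2` (`cross_compact`). Suppose `x ∈ K` and
`S ψ 0 j ω x < a j - j^{3/4}` for some `j ≥ j₁`. Let `z = dp (j + d, w)` be a grid point with
`dist x z ≤ 2^{-j}/2` (`near_grid`), so `‖z‖ ≤ 3`. As `K` contains points of norm `≤ 1` and `≥ 2`, it contains a
point at distance `≥ 1/2 ≥ L 2^{-j}` from `z`, `L = Lr d j` (for `j ≥ j₁`).
Case 1: `S ψ 0 j ω y ≤ a j - 1` for all `y` with `dist y z ≤ (L + 2) 2^{-j}`. Then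
`K ∩ closedBall z (L 2^{-j}) ⊆ Bar ψ j b' ω`, because
`S ψ j (j+i) y = S ψ 0 (j+i) y - S ψ 0 j y ≥ a (j+i) - s - (a j - 1) = a i - (s - 1)`;
so `Bar ψ j b' ω` crosses the shell `2^{-j}`, `L 2^{-j}` around `z` (apply `cross_compact` to `K` to get a
crossing inside the closed ball): probability `≤ Nn d (1/2)^{L-2}` (`cross_decay_scale`).
Case 2: otherwise the oscillation of `S ψ 0 j ω` on the ball of radius `(L+2) 2^{-j}` is `> j^{3/4} - 1`: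
probability `≤ (1/2)^{2 (d+1) (j+1)}` (`osc_bound`).
`rare_levels` (B5a) with `ε = eps1 d / 4` gives `j₁` such that the probability of all these events is
`≤ eps1 d / 4`; `j₁` DOES NOT DEPEND on `a` and `s`.
Levels `j < j₁`: choose `H₁` such that
`P {∃ j < j₁, ∃ x ∈ closedBall 0 2, S ψ 0 j ω x < - H₁} ≤ eps1 d / 4` (`low_levels`, B5b).
Put `H = H₁ + A j₁`. Outside the exceptional events `K ⊆ Bar ψ 0 (a i - (i^{3/4} + H)) ω`.
-/

namespace Pool.Agent.Thick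

open MeasureTheory ProbabilityTheory Filter Topology Set

variable {d : ℕ} {Ω : Type} [MeasurableSpace Ω] {P : Measure Ω} {ψ : ℕ → Ω → E d → ℝ}

omit [MeasurableSpace Ω] in
private theorem S_split (ψ : ℕ → Ω → E d → ℝ) (j i : ℕ) (ω : Ω) (y : E d) :
    S ψ j (j + i) ω y = S ψ 0 (j + i) ω y - S ψ 0 j ω y := by
  unfold S
  rw [← Finset.sum_Ico_consecutive (fun k => ψ k ω y) (Nat.zero_le j) (Nat.le_add_right j i)]
  ring

private theorem minimal_slack (a : ℝ)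
    (h : ∃ s : ℕ, ENNReal.ofReal (eps1 d) < P {ω | Cross (Bar ψ 0 (fun i => a * i - s) ω) 0 1 2}) :
    ∃ s : ℕ, ENNReal.ofReal (eps1 d) < P {ω | Cross (Bar ψ 0 (fun i => a * i - s) ω) 0 1 2} ∧
      P {ω | Cross (Bar ψ 0 (fun i => a * i - s + 1) ω) 0 1 2} ≤ ENNReal.ofReal (eps1 d) := by
  classical
  refine ⟨Nat.find h, Nat.find_spec h, ?_⟩
  rcases Nat.eq_zero_or_pos (Nat.find h) with h0 | h0
  · have : {ω | Cross (Bar ψ 0 (fun i => a * i - (Nat.find h : ℝ) + 1) ω) 0 1 2} = ∅ := by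
      rw [eq_empty_iff_forall_notMem]
      rintro ω ⟨K, hK, -, ⟨x, hx, -⟩, -⟩
      have h1 := hK hx 0
      simp [S, h0] at h1
      linarith
    rw [this]
    simp
  · obtain ⟨s', hs'⟩ := Nat.exists_eq_succ_of_ne_zero h0.ne'
    have h1 := Nat.find_min h (m := s') (by omega)
    have h2 : (fun i : ℕ => a * (i : ℝ) - (Nat.find h : ℝ) + 1) =
        fun i : ℕ => a * (i : ℝ) - (s' : ℝ) := by
      funext i
      rw [hs']
      push_cast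
      ring
    rw [h2]
    exact not_lt.mp h1

/-- The deterministic part. -/
private theorem cross_of_good (hψ : ScaleField d P ψ) (A a H₁ : ℝ) (ha : |a| ≤ A) (hH₁ : 0 ≤ H₁)
    (j₁ s : ℕ) (ω : Ω) (hL : ∀ j ≥ j₁, (Lr d j : ℝ) * (2 : ℝ)⁻¹ ^ j ≤ 1 / 2)
    (hc : Cross (Bar ψ 0 (fun i => a * i - s) ω) 0 1 2)
    (h1 : ¬ ∃ j ≥ j₁, ∃ w : Fin d → ℤ, ‖dp ((j + d, w) : DI d)‖ ≤ 3 ∧
      (Cross (Bar ψ j (fun i => a * i - s + 1) ω) (dp ((j + d, w) : DI d)) ((2 : ℝ)⁻¹ ^ j)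
        (Lr d j * (2 : ℝ)⁻¹ ^ j) ∨
        ∃ x y : E d, dist x (dp ((j + d, w) : DI d)) ≤ (Lr d j + 2) * (2 : ℝ)⁻¹ ^ j ∧
          dist y (dp ((j + d, w) : DI d)) ≤ (Lr d j + 2) * (2 : ℝ)⁻¹ ^ j ∧
          (j : ℝ) ^ (3 / 4 : ℝ) - 1 < S ψ 0 j ω x - S ψ 0 j ω y))
    (h2 : ¬ ∃ j < j₁, ∃ x : E d, ‖x‖ ≤ 2 ∧ S ψ 0 j ω x < -H₁) :
    Cross (Bar ψ 0 (fun i => a * i - ((i : ℝ) ^ (3 / 4 : ℝ) + (H₁ + A * j₁))) ω) 0 1 2 := by
  have hA : 0 ≤ A := (abs_nonneg a).trans ha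
  obtain ⟨K, hKF, hKc, hKn, ⟨x₁, hx₁, hx₁'⟩, y₁, hy₁, hy₁'⟩ :=
    cross_compact _ (isClosed_Bar hψ 0 _ ω) 0 1 2 (by norm_num) hc
  refine ⟨K, fun x hx i => ?_, hKn.isPreconnected, ⟨x₁, hx₁, hx₁'⟩, y₁, hy₁, hy₁'⟩
  have hx2 : ‖x‖ ≤ 2 := by
    have := (hKF hx).2
    rwa [Metric.mem_closedBall, dist_zero_right] at this
  simp only [Nat.zero_add]
  have hHA : 0 ≤ H₁ + A * j₁ := by positivity
  have hip : (0 : ℝ) ≤ (i : ℝ) ^ (3 / 4 : ℝ) := by positivity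
  rcases lt_or_ge i j₁ with hi | hi
  · have h3 : -H₁ ≤ S ψ 0 i ω x := by
      by_contra hcon
      exact h2 ⟨i, hi, x, hx2, not_le.mp hcon⟩
    have h4 : a * i ≤ A * j₁ := by
      have h5 : a ≤ A := (le_abs_self a).trans ha
      have h6 : (i : ℝ) ≤ j₁ := by exact_mod_cast hi.le
      calc a * i ≤ A * i := mul_le_mul_of_nonneg_right h5 (Nat.cast_nonneg i)
        _ ≤ A * j₁ := mul_le_mul_of_nonneg_left h6 hA
    linarith
  · by_contra hcon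
    rw [not_le] at hcon
    obtain ⟨w, hw⟩ := near_grid (d := d) i x
    set z : E d := dp ((i + d, w) : DI d) with hz
    have hpow : (0 : ℝ) < (2 : ℝ)⁻¹ ^ i := by positivity
    have hpow1 : (2 : ℝ)⁻¹ ^ i ≤ 1 := pow_le_one₀ (by norm_num) (by norm_num)
    have hLr : (8 : ℝ) ≤ (Lr d i : ℝ) := by
      have : 8 ≤ Lr d i := by
        unfold Lr
        nlinarith [Nat.zero_le d, Nat.zero_le i, Nat.zero_le (d * i)]
      exact_mod_cast this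
    have hz3 : ‖z‖ ≤ 3 := by
      have h5 : ‖z‖ ≤ ‖x‖ + dist x z := by
        rw [dist_eq_norm]
        calc ‖z‖ = ‖x - (x - z)‖ := by congr 1; abel
          _ ≤ ‖x‖ + ‖x - z‖ := norm_sub_le _ _
      linarith
    have h3 : ¬ Cross (Bar ψ i (fun i => a * i - s + 1) ω) z ((2 : ℝ)⁻¹ ^ i)
        (Lr d i * (2 : ℝ)⁻¹ ^ i) := fun h => h1 ⟨i, hi, w, hz3, Or.inl h⟩
    have h4 : ∀ y : E d, dist y z ≤ Lr d i * (2 : ℝ)⁻¹ ^ i → S ψ 0 i ω y ≤ a * i - 1 := by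
      intro y hy
      by_contra hcon2
      rw [not_le] at hcon2
      refine h1 ⟨i, hi, w, hz3, Or.inr ⟨y, x, ?_, ?_, ?_⟩⟩
      · refine hy.trans (mul_le_mul_of_nonneg_right ?_ hpow.le)
        linarith
      · refine hw.trans ?_
        nlinarith
      · linarith
    apply h3
    -- a point of `K` far from `z`
    have hfar : ∃ y ∈ K, (Lr d i : ℝ) * (2 : ℝ)⁻¹ ^ i ≤ dist y z := by
      have h5 := hL i hi
      rw [dist_zero_right] at hx₁' hy₁'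
      have h6 : (1 : ℝ) ≤ dist x₁ y₁ := by
        rw [dist_comm, dist_eq_norm]
        have := norm_sub_norm_le y₁ x₁
        linarith
      rcases le_or_gt (1 / 2) (dist x₁ z) with h7 | h7
      · exact ⟨x₁, hx₁, h5.trans h7⟩
      · refine ⟨y₁, hy₁, h5.trans ?_⟩
        have := dist_triangle x₁ z y₁
        rw [dist_comm z y₁] at this
        linarith
    obtain ⟨K', hK'F, -, hK'n, hK'x, hK'y⟩ := cross_compact K hKc.isClosed z ((2 : ℝ)⁻¹ ^ i)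
      (Lr d i * (2 : ℝ)⁻¹ ^ i) (by nlinarith)
      ⟨K, Subset.rfl, hKn.isPreconnected, ⟨x, hx, hw.trans (by linarith)⟩, hfar⟩
    refine ⟨K', fun y hy k => ?_, hK'n.isPreconnected, hK'x, hK'y⟩
    have h8 := (hKF (hK'F hy).1).1 (i + k)
    have h9 := h4 y (by simpa [Metric.mem_closedBall] using (hK'F hy).2)
    simp only [Nat.zero_add] at h8
    show a * (k : ℝ) - s + 1 ≤ S ψ i (i + k) ω y
    rw [S_split]
    push_cast at h8
    linarith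

theorem uniform_cross (hψ : ScaleField d P ψ) (A : ℝ) : ∃ H : ℝ, ∀ a : ℝ, |a| ≤ A →
    (∃ s : ℕ, ENNReal.ofReal (eps1 d) < P {ω | Cross (Bar ψ 0 (fun i => a * i - s) ω) 0 1 2}) →
    ENNReal.ofReal (eps1 d / 2) ≤
      P {ω | Cross (Bar ψ 0 (fun i => a * i - ((i : ℝ) ^ (3 / 4 : ℝ) + H)) ω) 0 1 2} := by
  have he := eps1_pos d
  obtain ⟨j₁, hj₁, hrare⟩ := rare_levels hψ (eps1 d / 4) (by linarith)
  obtain ⟨H₁, hH₁, hlow⟩ := low_levels hψ j₁ (eps1 d / 4) (by linarith)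
  refine ⟨H₁ + A * j₁, fun a ha hex => ?_⟩
  obtain ⟨s, hs, hs'⟩ := minimal_slack a hex
  have hr := hrare (fun i => a * i - s + 1) hs'
  by_contra hcon
  rw [not_le] at hcon
  apply lt_irrefl (ENNReal.ofReal (eps1 d))
  refine hs.trans_le ?_
  refine (measure_mono (t := {ω | Cross (Bar ψ 0
      (fun i => a * i - ((i : ℝ) ^ (3 / 4 : ℝ) + (H₁ + A * j₁))) ω) 0 1 2} ∪
      ({ω | ∃ j ≥ j₁, ∃ w : Fin d → ℤ, ‖dp ((j + d, w) : DI d)‖ ≤ 3 ∧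
        (Cross (Bar ψ j (fun i => a * i - s + 1) ω) (dp ((j + d, w) : DI d)) ((2 : ℝ)⁻¹ ^ j)
          (Lr d j * (2 : ℝ)⁻¹ ^ j) ∨
          ∃ x y : E d, dist x (dp ((j + d, w) : DI d)) ≤ (Lr d j + 2) * (2 : ℝ)⁻¹ ^ j ∧
            dist y (dp ((j + d, w) : DI d)) ≤ (Lr d j + 2) * (2 : ℝ)⁻¹ ^ j ∧
            (j : ℝ) ^ (3 / 4 : ℝ) - 1 < S ψ 0 j ω x - S ψ 0 j ω y)} ∪
      {ω | ∃ j < j₁, ∃ x : E d, ‖x‖ ≤ 2 ∧ S ψ 0 j ω x < -H₁})) ?_).trans ?_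
  · intro ω hω
    by_cases h1 : ω ∈ {ω | ∃ j ≥ j₁, ∃ w : Fin d → ℤ, ‖dp ((j + d, w) : DI d)‖ ≤ 3 ∧
        (Cross (Bar ψ j (fun i => a * i - s + 1) ω) (dp ((j + d, w) : DI d)) ((2 : ℝ)⁻¹ ^ j)
          (Lr d j * (2 : ℝ)⁻¹ ^ j) ∨
          ∃ x y : E d, dist x (dp ((j + d, w) : DI d)) ≤ (Lr d j + 2) * (2 : ℝ)⁻¹ ^ j ∧
            dist y (dp ((j + d, w) : DI d)) ≤ (Lr d j + 2) * (2 : ℝ)⁻¹ ^ j ∧
            (j : ℝ) ^ (3 / 4 : ℝ) - 1 < S ψ 0 j ω x - S ψ 0 j ω y)}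
    · exact Or.inr (Or.inl h1)
    by_cases h2 : ω ∈ {ω | ∃ j < j₁, ∃ x : E d, ‖x‖ ≤ 2 ∧ S ψ 0 j ω x < -H₁}
    · exact Or.inr (Or.inr h2)
    exact Or.inl (cross_of_good hψ A a H₁ ha hH₁ j₁ s ω hj₁ hω h1 h2)
  · refine (measure_union_le _ _).trans ?_
    refine (add_le_add hcon.le (measure_union_le _ _)).trans ?_
    refine (add_le_add le_rfl (add_le_add hr hlow)).trans ?_
    rw [← ENNReal.ofReal_add (by linarith) (by linarith), ← ENNReal.ofReal_add (by linarith)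
      (by linarith)]
    apply ENNReal.ofReal_le_ofReal
    linarith

end Pool.Agent.Thick
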