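import Pool.Agent.Thick.B3
import Pool.Agent.Thick.B4b

set_option autoImplicit false

/-!
# B5a: the exceptional events at the levels `j ≥ j₁` are rare, uniformly in the barrier

Union bound: for given `j` there are at most `(2^{j+d+1} 3 + 1)^d` grid points `w`
(`card_grid`, T5). For each of them the first event has probability
`≤ Nn d (1/2)^{L-2}`, `L = Lr d j = 4 (d+1) (j+2)` (`cross_decay_scale`, B2; `Lr d j ≥ 5`), the second
one `≤ (1/2)^{2 (d+1) (j+1)}` for `j ≥ j₀` (`osc_bound`, B4b). The sum over `j ≥ j₁` is the tail of a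
convergent series which does not depend on `b`, so it is `≤ ε` for large `j₁`
(`measure_iUnion_le`, `ENNReal.tsum` or real `Summable`, `tendsto_sum_nat_add`). Also
`Lr d j 2^{-j} ≤ 1/2` for large `j`.
-/

namespace Pool.Agent.Thick

open MeasureTheory ProbabilityTheory Filter Topology Set

variable {d : ℕ} {Ω : Type} [MeasurableSpace Ω] {P : Measure Ω} {ψ : ℕ → Ω → E d → ℝ}

private theorem rare_num (d j : ℕ) :
    ((2 : ℝ) ^ (j + d + 1) * 3 + 1) ^ d * (1 / 2) ^ (2 * (d + 1) * (j + 1)) ≤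
      2 ^ ((d + 3) * d) * (1 / 2) ^ j := by
  have h1 : ((2 : ℝ) ^ (j + d + 1) * 3 + 1) ^ d ≤ 2 ^ (j * d) * 2 ^ ((d + 3) * d) := by
    rw [← pow_add, ← add_mul, pow_mul]
    refine pow_le_pow_left₀ (by positivity) ?_ d
    have h2 : (2 : ℝ) ^ (j + (d + 3)) = 2 ^ (j + d + 1) * 4 := by
      rw [show j + (d + 3) = j + d + 1 + 2 by ring, pow_add]
      norm_num
    have h3 : (1 : ℝ) ≤ 2 ^ (j + d + 1) := one_le_pow₀ (by norm_num)
    rw [h2]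
    linarith
  have h4 : ((1 : ℝ) / 2) ^ (2 * (d + 1) * (j + 1)) ≤ (1 / 2) ^ (j * d) * (1 / 2) ^ j := by
    rw [← pow_add]
    refine pow_le_pow_of_le_one (by norm_num) (by norm_num) ?_
    nlinarith
  calc _ ≤ (2 ^ (j * d) * 2 ^ ((d + 3) * d)) * ((1 / 2) ^ (j * d) * (1 / 2) ^ j) :=
        mul_le_mul h1 h4 (by positivity) (by positivity)
    _ = ((2 : ℝ) * (1 / 2)) ^ (j * d) * (2 ^ ((d + 3) * d) * (1 / 2) ^ j) := by
        rw [mul_pow]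
        ring
    _ = _ := by
        norm_num

private theorem rare_one (d j : ℕ) :
    (Nn d : ℝ) * (1 / 2) ^ (Lr d j - 2) + (1 / 2) ^ (2 * (d + 1) * (j + 1)) ≤
      (Nn d + 1) * (1 / 2) ^ (2 * (d + 1) * (j + 1)) := by
  have h1 : ((1 : ℝ) / 2) ^ (Lr d j - 2) ≤ (1 / 2) ^ (2 * (d + 1) * (j + 1)) := by
    refine pow_le_pow_of_le_one (by norm_num) (by norm_num) ?_
    have h2 : Lr d j = 2 * (d + 1) * (j + 1) + (2 * (d + 1) * (j + 1) + 4 * (d + 1)) := by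
      unfold Lr
      ring
    rw [h2]
    omega
  have h3 : (0 : ℝ) ≤ Nn d := Nat.cast_nonneg _
  nlinarith [mul_le_mul_of_nonneg_left h1 h3]

private theorem rare_L (d : ℕ) :
    Tendsto (fun j : ℕ => (Lr d j : ℝ) * (2 : ℝ)⁻¹ ^ j) atTop (𝓝 0) := by
  have h1 : Tendsto (fun j : ℕ => (j : ℝ) * (2 : ℝ)⁻¹ ^ j) atTop (𝓝 0) :=
    tendsto_self_mul_const_pow_of_lt_one (by norm_num) (by norm_num)
  have h2 : Tendsto (fun j : ℕ => (2 : ℝ)⁻¹ ^ j) atTop (𝓝 0) :=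
    tendsto_pow_atTop_nhds_zero_of_lt_one (by norm_num) (by norm_num)
  have h3 := (h1.add (h2.const_mul 2)).const_mul (4 * ((d : ℝ) + 1))
  simp only [mul_zero, add_zero] at h3
  refine h3.congr fun j => ?_
  unfold Lr
  push_cast
  ring

/-- The probability of the exceptional event at the level `j`. -/
private theorem rare_level (hψ : ScaleField d P ψ) (b : ℕ → ℝ)
    (hq : P {ω | Cross (Bar ψ 0 b ω) 0 1 2} ≤ ENNReal.ofReal (eps1 d)) (j : ℕ)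
    (B : DI d → Set Ω)
    (hB : ∀ z : DI d, P (B z) ≤ ENNReal.ofReal ((1 / 2) ^ (2 * (d + 1) * (j + 1)))) :
    P {ω | ∃ w : Fin d → ℤ, ‖dp ((j + d, w) : DI d)‖ ≤ 3 ∧
      (Cross (Bar ψ j b ω) (dp ((j + d, w) : DI d)) ((2 : ℝ)⁻¹ ^ j) (Lr d j * (2 : ℝ)⁻¹ ^ j) ∨
        ω ∈ B (j + d, w))} ≤
      ENNReal.ofReal ((Nn d + 1) * 2 ^ ((d + 3) * d) * (1 / 2) ^ j) := by
  classical
  have hfin : {w : Fin d → ℤ | ‖dp ((j + d, w) : DI d)‖ ≤ ((3 : ℕ) : ℝ)}.Finite :=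
    finite_grid (j + d) 3
  have h3 : (((3 : ℕ) : ℝ)) = 3 := by norm_num
  set F : Finset (Fin d → ℤ) := hfin.toFinset with hF
  have hcard : F.card ≤ (2 ^ (j + d + 1) * 3 + 1) ^ d := by
    have h := card_grid (d := d) (j + d) 3
    rwa [Nat.card_coe_set_eq, Set.ncard_eq_toFinset_card _ hfin] at h
  have hL5 : 5 ≤ Lr d j := by
    unfold Lr
    nlinarith
  set q : ℝ := (Nn d + 1) * (1 / 2) ^ (2 * (d + 1) * (j + 1)) with hqdef
  have hq0 : 0 ≤ q := by positivity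
  have hone : ∀ w : Fin d → ℤ,
      P ({ω | Cross (Bar ψ j b ω) (dp ((j + d, w) : DI d)) ((2 : ℝ)⁻¹ ^ j)
        (Lr d j * (2 : ℝ)⁻¹ ^ j)} ∪ B (j + d, w)) ≤ ENNReal.ofReal q := by
    intro w
    refine (measure_union_le _ _).trans ?_
    refine (add_le_add (cross_decay_scale hψ b hq (Lr d j) hL5 j (j + d, w))
      (hB (j + d, w))).trans ?_
    rw [← ENNReal.ofReal_add (by positivity) (by positivity)]
    exact ENNReal.ofReal_le_ofReal (rare_one d j)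
  calc P _ ≤ P (⋃ w ∈ F, ({ω | Cross (Bar ψ j b ω) (dp ((j + d, w) : DI d)) ((2 : ℝ)⁻¹ ^ j)
        (Lr d j * (2 : ℝ)⁻¹ ^ j)} ∪ B (j + d, w))) := by
        refine measure_mono ?_
        rintro ω ⟨w, hw, h⟩
        refine Set.mem_biUnion (x := w) ?_ h
        rw [hF, Finset.mem_coe, Set.Finite.mem_toFinset, Set.mem_ofPred_eq, h3]
        exact hw
    _ ≤ ∑ w ∈ F, P ({ω | Cross (Bar ψ j b ω) (dp ((j + d, w) : DI d)) ((2 : ℝ)⁻¹ ^ j)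
        (Lr d j * (2 : ℝ)⁻¹ ^ j)} ∪ B (j + d, w)) := measure_biUnion_finset_le _ _
    _ ≤ ∑ _w ∈ F, ENNReal.ofReal q := Finset.sum_le_sum fun w _ => hone w
    _ = ENNReal.ofReal (F.card * q) := by
        rw [Finset.sum_const, nsmul_eq_mul, ENNReal.ofReal_mul (Nat.cast_nonneg _),
          ENNReal.ofReal_natCast]
    _ ≤ _ := by
        refine ENNReal.ofReal_le_ofReal ?_
        have h5 : (F.card : ℝ) ≤ (2 ^ (j + d + 1) * 3 + 1) ^ d := by exact_mod_cast hcard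
        calc (F.card : ℝ) * q ≤ (2 ^ (j + d + 1) * 3 + 1) ^ d * q :=
              mul_le_mul_of_nonneg_right h5 hq0
          _ = (Nn d + 1) * ((2 ^ (j + d + 1) * 3 + 1) ^ d *
              (1 / 2) ^ (2 * (d + 1) * (j + 1))) := by rw [hqdef]; ring
          _ ≤ (Nn d + 1) * (2 ^ ((d + 3) * d) * (1 / 2) ^ j) :=
              mul_le_mul_of_nonneg_left (rare_num d j) (by positivity)
          _ = _ := by ring

/-- The exceptional events at the levels `j ≥ j₁` are rare, uniformly in `a` and `s`. -/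
theorem rare_levels (hψ : ScaleField d P ψ) (ε : ℝ) (hε : 0 < ε) : ∃ j₁ : ℕ,
    (∀ j ≥ j₁, (Lr d j : ℝ) * (2 : ℝ)⁻¹ ^ j ≤ 1 / 2) ∧
    ∀ b : ℕ → ℝ, P {ω | Cross (Bar ψ 0 b ω) 0 1 2} ≤ ENNReal.ofReal (eps1 d) →
    P {ω | ∃ j ≥ j₁, ∃ w : Fin d → ℤ, ‖dp ((j + d, w) : DI d)‖ ≤ 3 ∧
      (Cross (Bar ψ j b ω) (dp ((j + d, w) : DI d)) ((2 : ℝ)⁻¹ ^ j) (Lr d j * (2 : ℝ)⁻¹ ^ j) ∨
        ∃ x y : E d, dist x (dp ((j + d, w) : DI d)) ≤ (Lr d j + 2) * (2 : ℝ)⁻¹ ^ j ∧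
          dist y (dp ((j + d, w) : DI d)) ≤ (Lr d j + 2) * (2 : ℝ)⁻¹ ^ j ∧
          (j : ℝ) ^ (3 / 4 : ℝ) - 1 < S ψ 0 j ω x - S ψ 0 j ω y)} ≤ ENNReal.ofReal ε := by
  obtain ⟨j₀, hj₀⟩ := osc_bound hψ
  set K : ℝ := (Nn d + 1) * 2 ^ ((d + 3) * d) with hK
  have hK0 : 0 ≤ K := by positivity
  have ev1 : ∀ᶠ j : ℕ in atTop, (Lr d j : ℝ) * (2 : ℝ)⁻¹ ^ j ≤ 1 / 2 :=
    (rare_L d).eventually_le_const (by norm_num)
  have ev2 : ∀ᶠ j : ℕ in atTop, K * (1 / 2) ^ j * 2 ≤ ε := by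
    have h2 : Tendsto (fun j : ℕ => ((1 : ℝ) / 2) ^ j) atTop (𝓝 0) :=
      tendsto_pow_atTop_nhds_zero_of_lt_one (by norm_num) (by norm_num)
    have h3 := (h2.const_mul K).mul_const 2
    rw [mul_zero, zero_mul] at h3
    exact h3.eventually_le_const hε
  obtain ⟨j₁, hj₁⟩ := (ev1.and (ev2.and (eventually_ge_atTop j₀))).exists_forall_of_atTop
  refine ⟨j₁, fun j hj => (hj₁ j hj).1, fun b hq => ?_⟩
  have hsum : Summable fun i : ℕ => K * (1 / 2) ^ j₁ * (1 / 2) ^ i :=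
    (summable_geometric_two).mul_left _
  calc P _ ≤ P (⋃ i : ℕ, {ω | ∃ w : Fin d → ℤ, ‖dp ((j₁ + i + d, w) : DI d)‖ ≤ 3 ∧
      (Cross (Bar ψ (j₁ + i) b ω) (dp ((j₁ + i + d, w) : DI d)) ((2 : ℝ)⁻¹ ^ (j₁ + i))
        (Lr d (j₁ + i) * (2 : ℝ)⁻¹ ^ (j₁ + i)) ∨
        ω ∈ {ω | ∃ x y : E d, dist x (dp ((j₁ + i + d, w) : DI d)) ≤
          (Lr d (j₁ + i) + 2) * (2 : ℝ)⁻¹ ^ (j₁ + i) ∧
          dist y (dp ((j₁ + i + d, w) : DI d)) ≤ (Lr d (j₁ + i) + 2) * (2 : ℝ)⁻¹ ^ (j₁ + i) ∧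
          ((j₁ + i : ℕ) : ℝ) ^ (3 / 4 : ℝ) - 1 < S ψ 0 (j₁ + i) ω x - S ψ 0 (j₁ + i) ω y})}) := by
        refine measure_mono ?_
        rintro ω ⟨j, hj, h⟩
        obtain ⟨i, rfl⟩ := Nat.exists_eq_add_of_le hj
        exact Set.mem_iUnion.2 ⟨i, h⟩
    _ ≤ ∑' i : ℕ, P _ := measure_iUnion_le _
    _ ≤ ∑' i : ℕ, ENNReal.ofReal (K * (1 / 2) ^ j₁ * (1 / 2) ^ i) := by
        refine ENNReal.tsum_le_tsum fun i => ?_
        refine (rare_level hψ b hq (j₁ + i) (fun z => {ω | ∃ x y : E d, dist x (dp z) ≤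
          (Lr d (j₁ + i) + 2) * (2 : ℝ)⁻¹ ^ (j₁ + i) ∧
          dist y (dp z) ≤ (Lr d (j₁ + i) + 2) * (2 : ℝ)⁻¹ ^ (j₁ + i) ∧
          ((j₁ + i : ℕ) : ℝ) ^ (3 / 4 : ℝ) - 1 < S ψ 0 (j₁ + i) ω x - S ψ 0 (j₁ + i) ω y})
          (fun z => hj₀ (j₁ + i) ((hj₁ j₁ le_rfl).2.2.trans (Nat.le_add_right _ _)) z)).trans ?_
        refine ENNReal.ofReal_le_ofReal (le_of_eq ?_)
        rw [hK, pow_add]
        ring
    _ = ENNReal.ofReal (∑' i : ℕ, K * (1 / 2) ^ j₁ * (1 / 2) ^ i) :=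
        (ENNReal.ofReal_tsum_of_nonneg (fun i => by positivity) hsum).symm
    _ ≤ ENNReal.ofReal ε := by
        refine ENNReal.ofReal_le_ofReal ?_
        rw [tsum_mul_left, tsum_geometric_two]
        exact (hj₁ j₁ le_rfl).2.1

end Pool.Agent.Thick
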