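import Pool.Agent.Thick.B1

set_option autoImplicit false

/-!
# B6: passage to the limit

`critical_cross`: take `a n = ac - 1/(n+2)`. The barriers increase with `n`, so the sets
`Bar ψ 0 (a n i - G i) ω` are closed and decreasing, with intersection `Bar ψ 0 (ac i - G i) ω`
(for every `i`, `a n * i → ac * i`). By `cross_iInter` (T3) the intersection of the (measurable,
decreasing) events is contained in the event for `ac`; continuity from above
(`tendsto_measure_iInter_atTop` or `measure_iInter_eq_iInf`).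
-/

namespace Pool.Agent.Thick

open MeasureTheory ProbabilityTheory Filter Topology Set

variable {d : ℕ} {Ω : Type} [MeasurableSpace Ω] {P : Measure Ω} {ψ : ℕ → Ω → E d → ℝ}

theorem critical_cross (hψ : ScaleField d P ψ) (ac : ℝ) (G : ℕ → ℝ) (ε : ENNReal)
    (h : ∀ a < ac, ac - 1 < a → ε ≤ P {ω | Cross (Bar ψ 0 (fun i => a * i - G i) ω) 0 1 2}) :
    ε ≤ P {ω | Cross (Bar ψ 0 (fun i => ac * i - G i) ω) 0 1 2} := by
  have hP := hψ.prob
  set a : ℕ → ℝ := fun n => ac - 1 / ((n : ℝ) + 2) with ha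
  have ha1 : ∀ n, a n < ac := by
    intro n
    have : (0 : ℝ) < 1 / ((n : ℝ) + 2) := by positivity
    simp only [ha]
    linarith
  have ha2 : ∀ n, ac - 1 < a n := by
    intro n
    have h1 : 1 / ((n : ℝ) + 2) < 1 := by
      rw [div_lt_one (by positivity)]
      have : (0 : ℝ) ≤ n := Nat.cast_nonneg n
      linarith
    simp only [ha]
    linarith
  have hmono : Monotone a := by
    intro m n hmn
    have h1 : 1 / ((n : ℝ) + 2) ≤ 1 / ((m : ℝ) + 2) := by
      apply one_div_le_one_div_of_le (by positivity)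
      have : (m : ℝ) ≤ n := by exact_mod_cast hmn
      linarith
    simp only [ha]
    linarith
  have hlim : Tendsto a atTop (𝓝 ac) := by
    have h1 : Tendsto (fun n : ℕ => 1 / ((n : ℝ) + 2)) atTop (𝓝 0) := by
      have h2 : Tendsto (fun n : ℕ => (n : ℝ) + 2) atTop atTop :=
        tendsto_atTop_add_const_right _ _ tendsto_natCast_atTop_atTop
      simp only [one_div]
      exact tendsto_inv_atTop_zero.comp h2
    simpa only [sub_zero] using tendsto_const_nhds.sub h1
  have hbar : ∀ ω, Antitone fun n => Bar ψ 0 (fun i => a n * i - G i) ω := by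
    intro ω m n hmn x hx i
    refine le_trans ?_ (hx i)
    have := mul_le_mul_of_nonneg_right (hmono hmn) (Nat.cast_nonneg (α := ℝ) i)
    linarith
  have hev : Antitone fun n => {ω | Cross (Bar ψ 0 (fun i => a n * i - G i) ω) 0 1 2} := by
    intro m n hmn ω hω
    obtain ⟨K, hK, h1⟩ := hω
    exact ⟨K, hK.trans (hbar ω hmn), h1⟩
  have hsub : (⋂ n, {ω | Cross (Bar ψ 0 (fun i => a n * i - G i) ω) 0 1 2}) ⊆
      {ω | Cross (Bar ψ 0 (fun i => ac * i - G i) ω) 0 1 2} := by
    intro ω hω
    rw [mem_iInter] at hω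
    have h1 := cross_iInter (fun n => Bar ψ 0 (fun i => a n * i - G i) ω)
      (fun n => isClosed_Bar hψ 0 _ ω) (hbar ω) 0 1 2 (by norm_num) hω
    obtain ⟨K, hK, h2⟩ := h1
    refine ⟨K, fun x hx i => ?_, h2⟩
    have h3 : ∀ n, a n * i - G i ≤ S ψ 0 (0 + i) ω x := fun n => mem_iInter.1 (hK hx) n i
    have h4 : Tendsto (fun n => a n * i - G i) atTop (𝓝 (ac * i - G i)) :=
      (hlim.mul_const _).sub_const _
    exact le_of_tendsto' h4 h3
  have htend := tendsto_measure_iInter_atTop (μ := P)
    (fun n => (measurableSet_cross hψ 0 (fun i => a n * i - G i) 0 1 2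
      (by norm_num)).nullMeasurableSet) hev ⟨0, measure_ne_top P _⟩
  have h5 : ε ≤ P (⋂ n, {ω | Cross (Bar ψ 0 (fun i => a n * i - G i) ω) 0 1 2}) :=
    ge_of_tendsto' htend fun n => h (a n) (ha1 n) (ha2 n)
  exact h5.trans (measure_mono hsub)

end Pool.Agent.Thick
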