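import Pool.Agent.Thick.B1s
import Pool.Agent.Thick.B1i

set_option autoImplicit false

/-!
# B6b: independent trials

`ae_cross`: if `d = 0` the crossing event is empty (all distances are `0`), contradiction. If `d ≥ 1`
let `z i` be the dyadic point `8 i e₀` (`(0, fun k => if k = 0 then 8 i else 0)`), mutual distances `≥ 8`. For
every `n` the events `Cross (Bar ψ 0 b ω) (dp (z i)) 1 2`, `i < n`, are independent
(`iIndepSet_cross`, B1i) and have the probability `p > 0` of the event at `0` (`prob_cross_scale`, B1s,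
with `j = 0`), so none of them occurs with probability `(1-p)^n → 0`.
-/

namespace Pool.Agent.Thick

open MeasureTheory ProbabilityTheory Filter Topology Set

variable {d : ℕ} {Ω : Type} [MeasurableSpace Ω] {P : Measure Ω} {ψ : ℕ → Ω → E d → ℝ}

/-- the dyadic point `8 i e₀` -/
private def zpt (hd : 0 < d) (i : ℕ) : DI d :=
  (0, fun k => if k = ⟨0, hd⟩ then 8 * (i : ℤ) else 0)

private theorem zpt_dist (hd : 0 < d) (i j : ℕ) (hij : i ≠ j) :
    8 ≤ dist (dp (zpt hd i)) (dp (zpt hd j)) := by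
  have h1 : ‖(dp (zpt hd i) - dp (zpt hd j)) ⟨0, hd⟩‖ ≤ ‖dp (zpt hd i) - dp (zpt hd j)‖ :=
    PiLp.norm_apply_le _ _
  rw [dist_eq_norm]
  refine le_trans ?_ h1
  have h2 : (dp (zpt hd i) - dp (zpt hd j)) ⟨0, hd⟩ = 8 * ((i : ℝ) - (j : ℝ)) := by
    simp [dp, zpt]
    ring
  rw [h2, Real.norm_eq_abs, abs_mul]
  have h3 : (1 : ℝ) ≤ |(i : ℝ) - (j : ℝ)| := by
    have h4 : (1 : ℤ) ≤ |(i : ℤ) - (j : ℤ)| := Int.one_le_abs (by omega)
    have h5 : ((1 : ℤ) : ℝ) ≤ ((|(i : ℤ) - (j : ℤ)| : ℤ) : ℝ) := by exact_mod_cast h4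
    push_cast at h5
    exact h5
  rw [abs_of_pos (by norm_num : (0 : ℝ) < 8)]
  linarith

theorem ae_cross (hψ : ScaleField d P ψ) (b : ℕ → ℝ)
    (h : 0 < P {ω | Cross (Bar ψ 0 b ω) 0 1 2}) :
    ∀ᵐ ω ∂P, ∃ z : DI d, Cross (Bar ψ 0 b ω) (dp z) 1 2 := by
  have := hψ.prob
  rcases Nat.eq_zero_or_pos d with hd | hd
  · exfalso
    subst hd
    have h1 : {ω | Cross (Bar ψ 0 b ω) 0 1 2} = ∅ := by
      ext ω
      simp only [Set.mem_ofPred_eq, Set.mem_empty_iff_false, iff_false]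
      rintro ⟨K, -, -, -, y, -, hy⟩
      rw [Subsingleton.elim y 0, dist_self] at hy
      norm_num at hy
    rw [h1, measure_empty] at h
    exact lt_irrefl _ h
  · set A : ℕ → Set Ω := fun i => {ω | Cross (Bar ψ 0 b ω) (dp (zpt hd i)) 1 2} with hA
    have hmeas : ∀ i, MeasurableSet (A i) := fun i =>
      measurableSet_cross hψ 0 b _ 1 2 (by norm_num)
    have hP : ∀ i, P (A i) = P {ω | Cross (Bar ψ 0 b ω) 0 1 2} := by
      intro i
      have h1 := prob_cross_scale hψ 0 b (zpt hd i) 1 2 (by norm_num)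
      rwa [pow_zero, one_mul, one_mul] at h1
    have hPc : ∀ i, P (A i)ᶜ = 1 - P {ω | Cross (Bar ψ 0 b ω) 0 1 2} := by
      intro i
      rw [prob_compl_eq_one_sub (hmeas i), hP i]
    have hn : ∀ n : ℕ, P (⋂ i : ℕ, (A i)ᶜ) ≤
        (1 - P {ω | Cross (Bar ψ 0 b ω) 0 1 2}) ^ n := by
      intro n
      have h1 := iIndepSet_cross hψ b n (fun i : Fin n => zpt hd i)
        (fun i j hij => zpt_dist hd i j fun h' => hij (Fin.ext h'))
      have h2 : P (⋂ i : Fin n, (A i)ᶜ) = ∏ i : Fin n, P (A i)ᶜ := by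
        refine iIndep.meas_iInter h1 fun i => ?_
        exact (MeasurableSpace.measurableSet_generateFrom (Set.mem_singleton _)).compl
      calc P (⋂ i : ℕ, (A i)ᶜ) ≤ P (⋂ i : Fin n, (A i)ᶜ) :=
            measure_mono fun ω hω => Set.mem_iInter.2 fun i => Set.mem_iInter.1 hω i
        _ = (1 - P {ω | Cross (Bar ψ 0 b ω) 0 1 2}) ^ n := by
            rw [h2]
            simp only [hPc, Finset.prod_const, Finset.card_univ, Fintype.card_fin]
    have hlt : 1 - P {ω | Cross (Bar ψ 0 b ω) 0 1 2} < 1 :=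
      ENNReal.sub_lt_self ENNReal.one_ne_top one_ne_zero h.ne'
    have h0 : P (⋂ i : ℕ, (A i)ᶜ) = 0 :=
      le_antisymm (ge_of_tendsto' (ENNReal.tendsto_pow_atTop_nhds_zero_of_lt_one hlt) hn)
        (zero_le)
    rw [ae_iff]
    refine measure_mono_null (fun ω hω => ?_) h0
    refine Set.mem_iInter.2 fun i hi => hω ⟨zpt hd i, hi⟩

end Pool.Agent.Thick
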