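import Pool.Agent.Thick.B5
import Pool.Agent.Thick.B6
import Pool.Agent.Thick.B6b

set_option autoImplicit false

/-!
# B7: the abstract theorem

Proof. Apply `uniform_cross` (B5) with `A = |ac| + 1`; for `a ∈ (ac - 1, ac)` the hypothesis of
`uniform_cross` holds by `exists_slack` (B3) (the hypothesis `h a` excludes almost surely no `s`: `P` is
a probability measure). Then `critical_cross` and `ae_cross` (B6).
-/

namespace Pool.Agent.Thick

open MeasureTheory ProbabilityTheory Filter Topology Set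

variable {d : ℕ} {Ω : Type} [MeasurableSpace Ω] {P : Measure Ω} {ψ : ℕ → Ω → E d → ℝ}

theorem abstract_main (hψ : ScaleField d P ψ) (ac : ℝ)
    (h : ∀ a < ac, ∀ᵐ ω ∂P, ∃ s : ℕ, Nontriv (Bar ψ 0 (fun i => a * i - s) ω)) :
    ∃ H : ℝ, ∀ᵐ ω ∂P, ∃ z : DI d,
      Cross (Bar ψ 0 (fun i => ac * i - ((i : ℝ) ^ (3 / 4 : ℝ) + H)) ω) (dp z) 1 2 := by
  have hA : ∀ a < ac, ac - 1 < a → |a| ≤ |ac| + 1 := by
    intro a h1 h2
    rw [abs_le]
    constructor
    · linarith [neg_abs_le ac]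
    · linarith [le_abs_self ac]
  obtain ⟨H, hH⟩ := uniform_cross hψ (|ac| + 1)
  refine ⟨H, ae_cross hψ _ (lt_of_lt_of_le ?_ (critical_cross hψ ac
    (fun i => (i : ℝ) ^ (3 / 4 : ℝ) + H) (ENNReal.ofReal (eps1 d / 2)) fun a h1 h2 => ?_))⟩
  · rw [ENNReal.ofReal_pos]
    exact half_pos (eps1_pos d)
  · refine hH a (hA a h1 h2) (exists_slack hψ a fun h3 => ?_)
    have := hψ.prob
    obtain ⟨ω, h4, s, h5⟩ := (h3.and (h a h1)).exists
    exact h4 s h5

end Pool.Agent.Thick
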