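import Pool.Agent.Thick.Field

set_option autoImplicit false

/-!
# Notation of the proof

Crossings, dyadic points, scale fields, barriers, constants of the renormalisation.
-/

namespace Pool.Agent.Thick

open MeasureTheory ProbabilityTheory Filter Topology Set

/-- Some connected subset of `A` has more than one point. -/
def Nontriv {d : ℕ} (A : Set (E d)) : Prop :=
  ∃ K ⊆ A, IsPreconnected K ∧ K.Nontrivial

theorem hasComp_iff {d : ℕ} (A : Set (E d)) : HasComp A ↔ Nontriv A := by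
  constructor
  · rintro ⟨x, hx, h⟩
    exact ⟨connectedComponentIn A x, connectedComponentIn_subset _ _,
      isPreconnected_connectedComponentIn, h⟩
  · rintro ⟨K, hKA, hK, hn⟩
    obtain ⟨x, hx⟩ := hn.nonempty
    exact ⟨x, hKA hx, hn.mono (hK.subset_connectedComponentIn hx hKA)⟩

theorem Nontriv.mono {d : ℕ} {A B : Set (E d)} (h : A ⊆ B) (hA : Nontriv A) : Nontriv B := by
  obtain ⟨K, h1, h2, h3⟩ := hA
  exact ⟨K, h1.trans h, h2, h3⟩

/-! ### Notation of the proof -/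

/-- Indices of dyadic points: `(n, w)` is the point `2^{-n} w`. -/
abbrev DI (d : ℕ) : Type := ℕ × (Fin d → ℤ)

/-- The dyadic point `2^{-n} w`. -/
noncomputable def dp {d : ℕ} (p : DI d) : E d :=
  (2 : ℝ)⁻¹ ^ p.1 • WithLp.toLp 2 (fun i => (p.2 i : ℝ))

/-- `F` contains a connected set joining the closed ball of radius `r` around `z` to the
complement of the open ball of radius `r'`. -/
def Cross {d : ℕ} (F : Set (E d)) (z : E d) (r r' : ℝ) : Prop :=
  ∃ K ⊆ F, IsPreconnected K ∧ (∃ x ∈ K, dist x z ≤ r) ∧ ∃ y ∈ K, r' ≤ dist y z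

/-- Crossing in terms of countably many values at dyadic points: for every `N` there is a chain of
dyadic points with steps `≤ 1/(N+1)` joining (up to `1/(N+1)`) the ball of radius `r` to the
complement of the ball of radius `r'`, inside the ball of radius `r' + 1/(N+1)`, on which the first
`N + 1` functions are `≥ -1/(N+1)`. -/
def QCross {d : ℕ} (A : ℕ → DI d → ℝ) (z : E d) (r r' : ℝ) : Prop :=
  ∀ N : ℕ, ∃ (m : ℕ) (c : Fin (m + 1) → DI d),
    dist (dp (c 0)) z ≤ r + 1 / ((N : ℝ) + 1) ∧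
    r' - 1 / ((N : ℝ) + 1) ≤ dist (dp (c (Fin.last m))) z ∧
    (∀ i : Fin m, dist (dp (c i.castSucc)) (dp (c i.succ)) ≤ 1 / ((N : ℝ) + 1)) ∧
    (∀ i, dist (dp (c i)) z ≤ r' + 1 / ((N : ℝ) + 1)) ∧
    ∀ i, ∀ n ≤ N, -(1 / ((N : ℝ) + 1)) ≤ A n (c i)

/-- Fields with scale invariance, finite range and Gaussian tails: `ψ k` is the field at scale
`2^{-k}`. -/
structure ScaleField (d : ℕ) {Ω : Type} [MeasurableSpace Ω] (P : Measure Ω)
    (ψ : ℕ → Ω → E d → ℝ) : Prop where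
  prob : IsProbabilityMeasure P
  cont : ∀ k ω, Continuous (ψ k ω)
  meas : ∀ k (p : DI d), Measurable fun ω => ψ k ω (dp p)
  inv : ∀ (j : ℕ) (z : DI d),
    P.map (fun ω (q : ℕ × DI d) => ψ (j + q.1) ω (dp z + (2 : ℝ)⁻¹ ^ j • dp q.2)) =
    P.map (fun ω (q : ℕ × DI d) => ψ q.1 ω (dp q.2))
  indep : ∀ (n : ℕ) (z : Fin n → DI d), (∀ i j, i ≠ j → 8 ≤ dist (dp (z i)) (dp (z j))) →
    iIndepFun (fun (i : Fin n) (ω : Ω) (q : ℕ × {p : DI d // dist (dp p) (dp (z i)) ≤ 3}) =>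
      ψ q.1 ω (dp q.2.1)) P
  tail : ∃ θ C c : ℝ, 0 < θ ∧ 0 < c ∧ ∀ t : ℝ, 0 ≤ t →
    P {ω | t < |ψ 0 ω 0|} ≤ ENNReal.ofReal (C * Real.exp (-(c * t ^ 2))) ∧
    P {ω | ∃ p q : DI d, ‖dp p‖ ≤ 1 ∧ ‖dp q‖ ≤ 1 ∧
      t * dist (dp p) (dp q) ^ θ < |ψ 0 ω (dp p) - ψ 0 ω (dp q)|} ≤
      ENNReal.ofReal (C * Real.exp (-(c * t ^ 2)))

/-- The sum of the levels `j ≤ k < n`. -/
def S {d : ℕ} {Ω : Type} (ψ : ℕ → Ω → E d → ℝ) (j n : ℕ) (ω : Ω) (x : E d) : ℝ :=
  ∑ k ∈ Finset.Ico j n, ψ k ω x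

/-- The points at which the sums of the levels from `j` on stay above the barrier `b`. -/
def Bar {d : ℕ} {Ω : Type} (ψ : ℕ → Ω → E d → ℝ) (j : ℕ) (b : ℕ → ℝ) (ω : Ω) : Set (E d) :=
  {x | ∀ i, b i ≤ S ψ j (j + i) ω x}

/-- Number of unit steps in the grid `2^{-d} ℤ^d`. -/
noncomputable def Dn (d : ℕ) : ℕ := Nat.card {w : Fin d → ℤ | ‖dp ((d, w) : DI d)‖ ≤ 1}

/-- Number of grid points in a ball of radius `8`. -/
noncomputable def Bn (d : ℕ) : ℕ := Nat.card {w : Fin d → ℤ | ‖dp ((d, w) : DI d)‖ < 8}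

/-- Number of grid points in the ball of radius `2`. -/
noncomputable def Nn (d : ℕ) : ℕ := Nat.card {w : Fin d → ℤ | ‖dp ((d, w) : DI d)‖ ≤ 2}

/-- The threshold of the renormalisation argument. -/
noncomputable def eps1 (d : ℕ) : ℝ := (1 / (2 * (Dn d : ℝ))) ^ Bn d

end Pool.Agent.Thick
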