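import Pool.Agent.Thick.Defs

set_option autoImplicit false

/-!
# M0: test functions

* `test0_mtest`: `y ↦ 2^{nd} ρ(2^n (x - y)) - ρ(-y)` is smooth with compact support (images of the
  compact support of `ρ` under the homeomorphisms `y ↦ 2^n (x - y)`, `y ↦ -y`:
  `HasCompactSupport.comp_homeomorph` or `.comp_isClosedEmbedding`), and both terms have integral one
  (`integral_sub_left_eq_self`, `Measure.integral_comp_smul`, `finrank = d`, `integral_neg_eq_self`).
* `test0_sum`, `IsDistr.sum`: induction over the finset; `u 0 = 0` from `smul 0 0`.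
-/

namespace Pool.Agent.Thick

open MeasureTheory ProbabilityTheory Filter Topology Set

/-- Continuous functions with compact support and mean zero. -/
def Cc0 {d : ℕ} (f : E d → ℝ) : Prop :=
  Continuous f ∧ HasCompactSupport f ∧ ∫ x, f x = 0

theorem cc0_of_test0 {d : ℕ} {f : E d → ℝ} (h : Test0 f) : Cc0 f :=
  ⟨h.1.continuous, h.2.1, h.2.2⟩

theorem test0_mtest {d : ℕ} (ρ : E d → ℝ) (hρ : IsMollifier ρ) (n : ℕ) (x : E d) :
    Test0 (mtest ρ n x) := by
  have h2 : (2 : ℝ) ^ n ≠ 0 := by positivity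
  have hs1 : ContDiff ℝ (⊤ : ℕ∞) fun y : E d => scaled ρ n (x - y) := by
    unfold scaled
    have h3 : ContDiff ℝ (⊤ : ℕ∞) fun y : E d => (2 : ℝ) ^ n • (x - y) := by fun_prop
    exact contDiff_const.mul (hρ.smooth.comp h3)
  have hs2 : ContDiff ℝ (⊤ : ℕ∞) fun y : E d => ρ (-y) := hρ.smooth.comp contDiff_neg
  have hc1 : HasCompactSupport fun y : E d => scaled ρ n (x - y) := by
    have h3 : HasCompactSupport (ρ ∘ ((Homeomorph.subLeft x).trans
        (Homeomorph.smulOfNeZero ((2 : ℝ) ^ n) h2))) := hρ.supp.comp_homeomorph _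
    exact h3.mul_left (f := fun _ => (2 : ℝ) ^ (n * d))
  have hc2 : HasCompactSupport fun y : E d => ρ (-y) :=
    hρ.supp.comp_homeomorph (Homeomorph.neg (E d))
  refine ⟨hs1.sub hs2, hc1.sub hc2, ?_⟩
  have hi1 : Integrable fun y : E d => scaled ρ n (x - y) :=
    hs1.continuous.integrable_of_hasCompactSupport hc1
  have hi2 : Integrable fun y : E d => ρ (-y) :=
    hs2.continuous.integrable_of_hasCompactSupport hc2
  have e1 : ∫ y : E d, scaled ρ n (x - y) = 1 := by
    rw [integral_sub_left_eq_self (fun z => scaled ρ n z) volume x]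
    unfold scaled
    rw [integral_const_mul, Measure.integral_comp_smul, hρ.int, finrank_euclideanSpace_fin,
      smul_eq_mul, mul_one, abs_of_pos (by positivity), ← pow_mul, mul_inv_cancel₀ (by positivity)]
  have e2 : ∫ y : E d, ρ (-y) = 1 := by
    rw [integral_neg_eq_self (fun z => ρ z) volume, hρ.int]
  unfold mtest
  rw [integral_sub hi1 hi2, e1, e2, sub_self]

theorem test0_zero {d : ℕ} : Test0 (0 : E d → ℝ) :=
  ⟨contDiff_const, HasCompactSupport.zero, by simp⟩

theorem Test0.add {d : ℕ} {f g : E d → ℝ} (hf : Test0 f) (hg : Test0 g) : Test0 (f + g) := by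
  refine ⟨hf.1.add hg.1, hf.2.1.add hg.2.1, ?_⟩
  have h1 : Integrable f := hf.1.continuous.integrable_of_hasCompactSupport hf.2.1
  have h2 : Integrable g := hg.1.continuous.integrable_of_hasCompactSupport hg.2.1
  rw [integral_add' h1 h2, hf.2.2, hg.2.2, add_zero]

theorem Test0.smul {d : ℕ} {f : E d → ℝ} (hf : Test0 f) (c : ℝ) : Test0 (c • f) := by
  refine ⟨contDiff_const.smul hf.1, hf.2.1.smul_left (f := fun _ => c), ?_⟩
  simp only [Pi.smul_apply]
  rw [integral_smul, hf.2.2, smul_zero]

theorem test0_sum {d : ℕ} {T : Type} (s : Finset T) (c : T → ℝ) (f : T → E d → ℝ)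
    (hf : ∀ t, Test0 (f t)) : Test0 (∑ t ∈ s, c t • f t) := by
  classical
  induction s using Finset.induction_on with
  | empty =>
    rw [Finset.sum_empty]
    exact test0_zero
  | insert a s ha ih =>
    rw [Finset.sum_insert ha]
    exact ((hf a).smul (c a)).add ih

theorem IsDistr.sum {d : ℕ} {u : (E d → ℝ) → ℝ} (hu : IsDistr u) {T : Type} (s : Finset T)
    (c : T → ℝ) (f : T → E d → ℝ) (hf : ∀ t, Test0 (f t)) :
    u (∑ t ∈ s, c t • f t) = ∑ t ∈ s, c t * u (f t) := by
  classical
  induction s using Finset.induction_on with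
  | empty =>
    rw [Finset.sum_empty, Finset.sum_empty]
    have h := hu.smul 0 0 test0_zero
    rwa [smul_zero, zero_mul] at h
  | insert a s ha ih =>
    rw [Finset.sum_insert ha, Finset.sum_insert ha,
      hu.add _ _ ((hf a).smul (c a)) (test0_sum s c f hf), hu.smul _ _ (hf a), ih]

end Pool.Agent.Thick
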