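import Pool.Agent.Thick.KfB
import Pool.Agent.Thick.M0

set_option autoImplicit false

/-!
# Emb: the embedding of the test functions in `L²(ℝ; L²(ℝ^d))`

* `norm_Kf_bound`: `f` is bounded by some `M` and vanishes outside a ball of radius `R` around `0`; for
  `s ≤ 0` use `norm_Kf_low` (KfB) with `x₀ = 0`, for `s ≥ 0` use `norm_Kf_sup` and
  `((2^s)⁻¹)^d ≤ 2^{-s}` (`1 ≤ d`).
* `memLp_Kf`: `s ↦ Kf s f` is continuous (`continuous_Kf`, Th), and `‖Kf s f‖² ≤ C 2^{-|s|}` is integrable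
  (`memLp_two_iff_integrable_sq_norm`; `2^{-|s|} = exp (- (log 2) |s|)`).
* `coeFn_embed`: `MemLp.coeFn_toLp`. `embed_add`, `embed_smul`: `Kf_add`, `Kf_smul` (Th) and
  `MemLp.toLp_add`, `MemLp.toLp_const_smul` (functions in `Cc0` are integrable; `Cc0` is closed under
  addition and multiples).
* `norm_embed_sq`: `L2.inner_def` and `real_inner_self_eq_norm_sq`.
-/

namespace Pool.Agent.Thick

open MeasureTheory ProbabilityTheory Filter Topology Set

/-- The Hilbert space `L²(ℝ; L²(ℝ^d))`. -/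
abbrev HH (d : ℕ) : Type := Lp (H0 d) 2 (volume : Measure ℝ)

variable {d : ℕ}

private theorem emb_int (f : E d → ℝ) (hf : Cc0 f) : Integrable f :=
  hf.1.integrable_of_hasCompactSupport hf.2.1

theorem norm_Kf_bound (hd : 1 ≤ d) (f : E d → ℝ) (hf : Cc0 f) :
    ∃ C : ℝ, 0 < C ∧ ∀ s : ℝ, ‖Kf s f‖ ^ 2 ≤ C * (2 : ℝ) ^ (-|s|) := by
  obtain ⟨C1, hC1, h1⟩ := norm_Kf_sup d
  obtain ⟨C2, hC2, h2⟩ := norm_Kf_low d
  have hint := emb_int f hf
  obtain ⟨M, hM⟩ : ∃ M : ℝ, ∀ z, |f z| ≤ M := by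
    obtain ⟨M, hM⟩ := hf.1.bounded_above_of_compact_support hf.2.1
    exact ⟨M, fun z => by simpa using hM z⟩
  obtain ⟨R, hR⟩ : ∃ R : ℝ, ∀ z, R < ‖z - 0‖ → f z = 0 := by
    obtain ⟨R, hR⟩ := hf.2.1.isCompact.isBounded.subset_closedBall (0 : E d)
    refine ⟨R, fun z hz => ?_⟩
    by_contra h
    have h3 := hR (subset_tsupport f (Function.mem_support.2 h))
    rw [mem_closedBall_zero_iff] at h3
    rw [sub_zero] at hz
    linarith
  have hM0 : 0 ≤ M := (abs_nonneg _).trans (hM 0)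
  have hI0 : 0 ≤ ∫ z, |f z| := integral_nonneg fun z => abs_nonneg _
  set I := ∫ z, |f z| with hI
  refine ⟨C1 * M * I + C2 * |R| * I ^ 2 + 1, by positivity, fun s => ?_⟩
  rcases le_total 0 s with hs | hs
  · have h3 := h1 s f M hint hM
    have h4 : ((2 : ℝ) ^ s)⁻¹ ^ d ≤ (2 : ℝ) ^ (-|s|) := by
      rw [abs_of_nonneg hs, Real.rpow_neg (by norm_num)]
      have h5 : ((2 : ℝ) ^ s)⁻¹ ≤ 1 := inv_le_one_of_one_le₀ (Real.one_le_rpow (by norm_num) hs)
      have h6 : 0 ≤ ((2 : ℝ) ^ s)⁻¹ := by positivity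
      calc ((2 : ℝ) ^ s)⁻¹ ^ d ≤ ((2 : ℝ) ^ s)⁻¹ ^ 1 := pow_le_pow_of_le_one h6 h5 hd
        _ = _ := pow_one _
    have h7 : C1 * M * I * ((2 : ℝ) ^ s)⁻¹ ^ d ≤ C1 * M * I * (2 : ℝ) ^ (-|s|) :=
      mul_le_mul_of_nonneg_left h4 (by positivity)
    have h8 : 0 ≤ (C2 * |R| * I ^ 2 + 1) * (2 : ℝ) ^ (-|s|) := by positivity
    nlinarith
  · have h3 := h2 s f 0 R hint hf.2.2 hR
    have h4 : (2 : ℝ) ^ s = (2 : ℝ) ^ (-|s|) := by rw [abs_of_nonpos hs, neg_neg]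
    rw [h4] at h3
    have h7 : C2 * (2 : ℝ) ^ (-|s|) * R * I ^ 2 ≤ C2 * |R| * I ^ 2 * (2 : ℝ) ^ (-|s|) := by
      have h9 : C2 * (2 : ℝ) ^ (-|s|) * R * I ^ 2 = C2 * (2 : ℝ) ^ (-|s|) * I ^ 2 * R := by ring
      have h10 : C2 * |R| * I ^ 2 * (2 : ℝ) ^ (-|s|) = C2 * (2 : ℝ) ^ (-|s|) * I ^ 2 * |R| := by
        ring
      rw [h9, h10]
      exact mul_le_mul_of_nonneg_left (le_abs_self R) (by positivity)
    have h8 : 0 ≤ (C1 * M * I + 1) * (2 : ℝ) ^ (-|s|) := by positivity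
    nlinarith

theorem memLp_Kf (hd : 1 ≤ d) (f : E d → ℝ) (hf : Cc0 f) :
    MemLp (fun s : ℝ => Kf s f) 2 volume := by
  obtain ⟨C, hC, h⟩ := norm_Kf_bound hd f hf
  have hc := continuous_Kf f (emb_int f hf)
  rw [memLp_two_iff_integrable_sq_norm hc.aestronglyMeasurable]
  have hlog : 0 < Real.log 2 := Real.log_pos (by norm_num)
  have h1 : Integrable fun s : ℝ => C * (2 : ℝ) ^ (-|s|) := by
    refine Integrable.const_mul ?_ _
    have h2 : (fun s : ℝ => (2 : ℝ) ^ (-|s|)) = fun s : ℝ => Real.exp (-(Real.log 2) * |s|) := by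
      funext s
      rw [Real.rpow_def_of_pos (by norm_num)]
      congr 1
      ring
    rw [h2, ← integrableOn_univ, ← Iic_union_Ioi (a := (0 : ℝ))]
    refine IntegrableOn.union ?_ ?_
    · refine (integrableOn_exp_mul_Iic hlog 0).congr_fun (fun s hs => ?_) measurableSet_Iic
      have hs' : s ≤ 0 := hs
      simp only [abs_of_nonpos hs']
      congr 1
      ring
    · refine (exp_neg_integrableOn_Ioi 0 hlog).congr_fun (fun s hs => ?_) measurableSet_Ioi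
      have hs' : 0 < s := hs
      simp only [abs_of_pos hs']
  refine h1.mono' (by fun_prop) (ae_of_all _ fun s => ?_)
  rw [Real.norm_of_nonneg (by positivity)]
  exact h s

open Classical in
/-- The embedding. -/
noncomputable def embed (f : E d → ℝ) : HH d :=
  if h : MemLp (fun s : ℝ => Kf s f) 2 volume then h.toLp _ else 0

theorem coeFn_embed (hd : 1 ≤ d) (f : E d → ℝ) (hf : Cc0 f) :
    (embed f : ℝ → H0 d) =ᵐ[volume] fun s => Kf s f := by
  have h := memLp_Kf hd f hf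
  rw [embed, dif_pos h]
  exact h.coeFn_toLp

private theorem emb_add_mem (f g : E d → ℝ) (hf : Cc0 f) (hg : Cc0 g) : Cc0 (f + g) :=
  ⟨hf.1.add hg.1, hf.2.1.add hg.2.1, by
    have h := integral_add (emb_int f hf) (emb_int g hg)
    simp only [Pi.add_apply]
    rw [h, hf.2.2, hg.2.2, add_zero]⟩

private theorem emb_smul_mem (c : ℝ) (f : E d → ℝ) (hf : Cc0 f) : Cc0 (c • f) :=
  ⟨continuous_const.smul hf.1, hf.2.1.smul_left, by
    simp only [Pi.smul_apply, smul_eq_mul]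
    rw [integral_const_mul, hf.2.2, mul_zero]⟩

theorem embed_add (hd : 1 ≤ d) (f g : E d → ℝ) (hf : Cc0 f) (hg : Cc0 g) :
    embed (f + g) = embed f + embed g := by
  refine Lp.ext ?_
  filter_upwards [coeFn_embed hd _ (emb_add_mem f g hf hg), Lp.coeFn_add (embed f) (embed g),
    coeFn_embed hd f hf, coeFn_embed hd g hg] with s h1 h2 h3 h4
  rw [h1, h2, Pi.add_apply, h3, h4, Kf_add s f g (emb_int f hf) (emb_int g hg)]

theorem embed_smul (hd : 1 ≤ d) (c : ℝ) (f : E d → ℝ) (hf : Cc0 f) :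
    embed (c • f) = c • embed f := by
  refine Lp.ext ?_
  filter_upwards [coeFn_embed hd _ (emb_smul_mem c f hf), Lp.coeFn_smul c (embed f),
    coeFn_embed hd f hf] with s h1 h2 h3
  rw [h1, h2, Pi.smul_apply, h3, Kf_smul]

theorem norm_embed_sq (hd : 1 ≤ d) (f : E d → ℝ) (hf : Cc0 f) :
    ‖embed f‖ ^ 2 = ∫ s : ℝ, ‖Kf s f‖ ^ 2 := by
  rw [← real_inner_self_eq_norm_sq, L2.inner_def]
  refine integral_congr_ae ?_
  filter_upwards [coeFn_embed hd f hf] with s h1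
  rw [h1, real_inner_self_eq_norm_sq]

end Pool.Agent.Thick
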