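import Pool.Agent.Thick.Defs

set_option autoImplicit false

/-!
# LogInt: integrability of the logarithmic kernel

* `integrableOn_log`: polar coordinates: `integrable_fun_norm_addHaar`
  (`Mathlib/MeasureTheory/Constructions/HaarToSphere.lean`: integrability of `x ↦ F ‖x‖` is
  equivalent to the integrability of `y ↦ y^{d-1} F y` on `(0, ∞)`) with
  `F y = 1_{y ≤ R} |log y|`; `y^{d-1} |log y|` is integrable on `(0, R]` since `y^{d-1}` is bounded and
  `log` is (`intervalIntegral.intervalIntegrable_log'`). (`finrank (E d) = d ≥ 1`.)
* `integrable_log_pair`: `integrable_prod_iff`: for fixed `x` the function of `y` is bounded by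
  `|f x| sup |g| (1 + |log ‖x - y‖|)` on the support of `g`, integrable by translation of
  `integrableOn_log`; the integral over `y` is at most `|f x| sup |g| ∫_{‖u‖ ≤ R} (1 + |log ‖u‖|) du` with `R`
  such that the supports of `f` and `g` are in the ball of radius `R / 2`, an integrable function of
  `x`. Measurability: all functions are measurable (`Real.measurable_log`, `continuous.measurable`).
-/

namespace Pool.Agent.Thick

open MeasureTheory ProbabilityTheory Filter Topology Set

theorem integrableOn_log {d : ℕ} (hd : 1 ≤ d) (R : ℝ) :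
    IntegrableOn (fun u : E d => |Real.log ‖u‖|) (Metric.closedBall 0 R) := by
  have hne : Nonempty (Fin d) := ⟨⟨0, hd⟩⟩
  have hnt : Nontrivial (E d) := by
    have h1 : Module.finrank ℝ (E d) = d := by simp
    exact Module.nontrivial_of_finrank_pos (R := ℝ) (by omega)
  set r : ℝ := max R 0 + 1 with hr
  have hr0 : 0 ≤ r := by positivity
  have h1 : IntegrableOn (fun u : E d => |Real.log ‖u‖|) (Metric.ball 0 r) := by
    rw [integrableOn_fun_norm_addHaar (μ := (volume : Measure (E d))) (f := fun y => |Real.log y|)]
    have h2 : IntervalIntegrable (fun y : ℝ =>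
        y ^ (Module.finrank ℝ (E d) - 1) * ‖Real.log y‖) volume 0 r := by
      apply IntervalIntegrable.continuousOn_mul
      · exact (intervalIntegral.intervalIntegrable_log').norm
      · exact (continuous_pow _).continuousOn
    rw [intervalIntegrable_iff_integrableOn_Ioo_of_le hr0] at h2
    simpa [smul_eq_mul, Real.norm_eq_abs] using h2
  apply h1.mono_set
  intro x hx
  rw [Metric.mem_closedBall] at hx
  rw [Metric.mem_ball]
  have := le_max_left R 0
  linarith

theorem integrable_log_pair {d : ℕ} (hd : 1 ≤ d) (f g : E d → ℝ) (hf : Continuous f)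
    (hf' : HasCompactSupport f) (hg : Continuous g) (hg' : HasCompactSupport g) :
    Integrable (fun p : E d × E d => f p.1 * g p.2 * (1 + |Real.log ‖p.1 - p.2‖|))
      (volume.prod volume) := by
  obtain ⟨R₁, h₁⟩ := hf'.isCompact.isBounded.subset_closedBall (0 : E d)
  obtain ⟨R₂, h₂⟩ := hg'.isCompact.isBounded.subset_closedBall (0 : E d)
  obtain ⟨C, hC⟩ := hf.bounded_above_of_compact_support hf'
  set R : ℝ := R₁ + R₂ with hR
  let a : E d → ℝ := (Metric.closedBall (0 : E d) R).indicator fun u => 1 + |Real.log ‖u‖|
  have ha : Integrable a := by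
    rw [integrable_indicator_iff measurableSet_closedBall]
    apply IntegrableOn.add
    · exact integrableOn_const (measure_closedBall_lt_top.ne)
    · exact integrableOn_log hd R
  have hgi : Integrable fun y => C * |g y| := (hg.integrable_of_hasCompactSupport hg').abs.const_mul C
  have h3 : Integrable (fun z : E d × E d => a z.1 * (C * |g z.2|)) (volume.prod volume) :=
    ha.mul_prod hgi
  have h4 := (measurePreserving_sub_prod (volume : Measure (E d)) (volume : Measure (E d)))
  have h5 := h4.integrable_comp_of_integrable h3
  refine h5.mono' ?_ ?_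
  · apply Measurable.aestronglyMeasurable
    have m1 : Measurable fun p : E d × E d => f p.1 := hf.measurable.comp measurable_fst
    have m2 : Measurable fun p : E d × E d => g p.2 := hg.measurable.comp measurable_snd
    have m3 : Measurable fun p : E d × E d => Real.log ‖p.1 - p.2‖ :=
      Real.measurable_log.comp (measurable_fst.sub measurable_snd).norm
    exact (m1.mul m2).mul (measurable_const.add m3.abs)
  · refine Eventually.of_forall fun p => ?_
    have hpos : 0 ≤ 1 + |Real.log ‖p.1 - p.2‖| := by positivity
    rw [Real.norm_eq_abs, abs_mul, abs_mul, abs_of_nonneg hpos]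
    change |f p.1| * |g p.2| * (1 + |Real.log ‖p.1 - p.2‖|) ≤
      a (p.1 - p.2) * (C * |g p.2|)
    by_cases h0 : f p.1 = 0 ∨ g p.2 = 0
    · have ha0 : 0 ≤ a (p.1 - p.2) := by
        apply Set.indicator_nonneg
        intro u _
        positivity
      have hC0 : 0 ≤ C := (norm_nonneg _).trans (hC 0)
      have h6 : |f p.1| * |g p.2| * (1 + |Real.log ‖p.1 - p.2‖|) = 0 := by
        rcases h0 with h | h <;> rw [h] <;> simp
      rw [h6]
      positivity
    · push Not at h0
      have hx : p.1 ∈ Metric.closedBall (0 : E d) R₁ :=
        h₁ (subset_tsupport f (Function.mem_support.mpr h0.1))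
      have hy : p.2 ∈ Metric.closedBall (0 : E d) R₂ :=
        h₂ (subset_tsupport g (Function.mem_support.mpr h0.2))
      rw [mem_closedBall_zero_iff] at hx hy
      have hmem : p.1 - p.2 ∈ Metric.closedBall (0 : E d) R := by
        rw [mem_closedBall_zero_iff]
        exact (norm_sub_le _ _).trans (by rw [hR]; exact add_le_add hx hy)
      have hval : a (p.1 - p.2) = 1 + |Real.log ‖p.1 - p.2‖| := by
        exact Set.indicator_of_mem hmem _
      rw [hval]
      have h7 : |f p.1| ≤ C := hC p.1
      have h8 : |f p.1| * |g p.2| ≤ C * |g p.2| := mul_le_mul_of_nonneg_right h7 (abs_nonneg _)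
      calc |f p.1| * |g p.2| * (1 + |Real.log ‖p.1 - p.2‖|)
          ≤ C * |g p.2| * (1 + |Real.log ‖p.1 - p.2‖|) := mul_le_mul_of_nonneg_right h8 hpos
        _ = (1 + |Real.log ‖p.1 - p.2‖|) * (C * |g p.2|) := by ring

end Pool.Agent.Thick
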