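import Pool.Agent.Thick.Kap1

set_option autoImplicit false

/-!
# LogK: the logarithm as an integral over the scales

Let `z ≠ 0`, `L = log ‖z‖ / log 2` (so `‖z‖ = 2^L`), `e` a fixed unit vector (it exists because `E d` has a
nonzero vector; for `d = 0` there is no `z ≠ 0`) and `k t = kap (2^t • e)`. By `kap_radial` (Kap1)
`kap (2^s • z) = k (s + L)`. Put `g t = k t - 1_{t ≤ 0}`: for `t ≤ 0` `|g t| ≤ C 2^t` (`kap_lip`, `kap_zero`), for
`t ≥ 1` `g t = 0` (`kap_supp`), and `|g t| ≤ 1` in between, so `g` is integrable. Then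
`kap (2^s z) - 1_{s ≤ 0} = g (s + L) + (1_{s + L ≤ 0} - 1_{s ≤ 0})`, the last function is `±` the indicator of an
interval of length `|L|` with integral `- L`. So the integral is `∫ g - L`, and
`log 2 (∫ g - L) = c - log ‖z‖` with `c = log 2 ∫ g`. Also the integral of the absolute value is at most
`∫ |g| + |L|`.
-/

namespace Pool.Agent.Thick

open MeasureTheory ProbabilityTheory Filter Topology Set

/-- The profile of `kap` along a ray, minus the indicator of the negative half line. -/
private noncomputable def gk {d : ℕ} (e : E d) (t : ℝ) : ℝ :=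
  kap ((2 : ℝ) ^ t • e) - (if t ≤ 0 then 1 else 0)

private theorem norm_rpow_smul {d : ℕ} (e : E d) (t : ℝ) :
    ‖(2 : ℝ) ^ t • e‖ = (2 : ℝ) ^ t * ‖e‖ := by
  rw [norm_smul, Real.norm_of_nonneg (Real.rpow_nonneg (by norm_num) t)]

private theorem measurable_ind (a : ℝ) :
    Measurable fun s : ℝ => (if s + a ≤ 0 then (1 : ℝ) else 0) :=
  Measurable.ite (measurableSet_le (by fun_prop) (by fun_prop)) measurable_const measurable_const

private theorem measurable_ind0 : Measurable fun s : ℝ => (if s ≤ 0 then (1 : ℝ) else 0) :=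
  Measurable.ite measurableSet_Iic measurable_const measurable_const

private theorem continuous_ray {d : ℕ} (e : E d) :
    Continuous fun t : ℝ => kap ((2 : ℝ) ^ t • e) := by
  have h1 : Continuous fun t : ℝ => (2 : ℝ) ^ t := Real.continuous_const_rpow (by norm_num)
  have h2 : Continuous fun t : ℝ => (2 : ℝ) ^ t • e := h1.smul continuous_const
  exact continuous_kap.comp h2

private theorem integrable_gk {d : ℕ} (e : E d) (he : ‖e‖ = 1) : Integrable (gk e) := by
  obtain ⟨C, hC, hlip⟩ := kap_lip (d := d)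
  have hmeas : Measurable (gk e) := (continuous_ray e).measurable.sub measurable_ind0
  have hlog : 0 < Real.log 2 := Real.log_pos (by norm_num)
  have h1 : IntegrableOn (gk e) (Iic 0) := by
    refine Integrable.mono' ((integrableOn_exp_mul_Iic hlog 0).const_mul C)
      hmeas.aestronglyMeasurable ?_
    refine (ae_restrict_iff' measurableSet_Iic).mpr (Eventually.of_forall fun t ht => ?_)
    have ht' : t ≤ 0 := ht
    unfold gk
    rw [if_pos ht', Real.norm_eq_abs, ← kap_zero (d := d)]
    refine (hlip _ _).trans ?_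
    rw [sub_zero, norm_rpow_smul, he, mul_one, Real.rpow_def_of_pos (by norm_num)]
  have h2 : IntegrableOn (gk e) (Ioc 0 1) := by
    refine Measure.integrableOn_of_bounded (M := 1) (by simp) hmeas.aestronglyMeasurable ?_
    refine (ae_restrict_iff' measurableSet_Ioc).mpr (Eventually.of_forall fun t ht => ?_)
    unfold gk
    rw [if_neg (not_le.mpr ht.1), sub_zero, Real.norm_of_nonneg (kap_nonneg _)]
    exact kap_le_one _
  have h3 : IntegrableOn (gk e) (Ioi 1) := by
    refine (integrableOn_congr_fun (g := gk e) (f := fun _ => (0 : ℝ)) ?_ measurableSet_Ioi).mp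
      integrableOn_zero
    intro t ht
    have ht' : (1 : ℝ) < t := ht
    unfold gk
    rw [if_neg (by linarith), sub_zero]
    symm
    apply kap_supp
    rw [norm_rpow_smul, he, mul_one]
    calc (2 : ℝ) = (2 : ℝ) ^ (1 : ℝ) := (Real.rpow_one 2).symm
      _ ≤ (2 : ℝ) ^ t := Real.rpow_le_rpow_of_exponent_le (by norm_num) ht'.le
  have h4 : (univ : Set ℝ) = Iic 0 ∪ (Ioc 0 1 ∪ Ioi 1) := by
    rw [Ioc_union_Ioi_eq_Ioi (by norm_num), Iic_union_Ioi]
  rw [← integrableOn_univ, h4]
  exact h1.union (h2.union h3)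

/-- The difference of the two indicators. -/
private theorem ind_sub (L s : ℝ) :
    (if s + L ≤ 0 then (1 : ℝ) else 0) - (if s ≤ 0 then 1 else 0) =
      (Ioc 0 (-L)).indicator (fun _ => (1 : ℝ)) s -
        (Ioc (-L) 0).indicator (fun _ => (1 : ℝ)) s := by
  simp only [indicator, mem_Ioc]
  by_cases h1 : s + L ≤ 0
  · by_cases h2 : s ≤ 0
    · rw [if_pos h1, if_pos h2, if_neg (by intro h; linarith [h.1]),
        if_neg (by intro h; linarith [h.1])]
      norm_num
    · rw [if_pos h1, if_neg h2, if_pos ⟨not_le.mp h2, by linarith⟩,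
        if_neg (by intro h; exact h2 h.2)]
  · by_cases h2 : s ≤ 0
    · rw [if_neg h1, if_pos h2, if_neg (by intro h; linarith [h.1]),
        if_pos ⟨by linarith, h2⟩]
    · rw [if_neg h1, if_neg h2, if_neg (by intro h; linarith [h.2]),
        if_neg (by intro h; exact h2 h.2)]

private theorem integrable_ioc (a b : ℝ) :
    Integrable ((Ioc a b).indicator (fun _ => (1 : ℝ))) :=
  (integrable_indicator_iff measurableSet_Ioc).mpr (integrableOn_const (by simp))

private theorem integral_ioc (a b : ℝ) :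
    ∫ s, (Ioc a b).indicator (fun _ => (1 : ℝ)) s = max (b - a) 0 := by
  rw [integral_indicator_const _ measurableSet_Ioc, Real.volume_real_Ioc, smul_eq_mul, mul_one]

private theorem integral_ind (L : ℝ) :
    ∫ s : ℝ, ((if s + L ≤ 0 then (1 : ℝ) else 0) - (if s ≤ 0 then 1 else 0)) = -L := by
  simp_rw [ind_sub L]
  rw [integral_sub (integrable_ioc _ _) (integrable_ioc _ _), integral_ioc, integral_ioc]
  rcases le_total L 0 with h | h
  · rw [max_eq_left (by linarith), max_eq_right (by linarith)]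
    ring
  · rw [max_eq_right (by linarith), max_eq_left (by linarith)]
    ring

private theorem integrable_ind (L : ℝ) : Integrable fun s : ℝ =>
    (if s + L ≤ 0 then (1 : ℝ) else 0) - (if s ≤ 0 then 1 else 0) := by
  simp_rw [ind_sub L]
  exact (integrable_ioc _ _).sub (integrable_ioc _ _)

private theorem integral_abs_ind (L : ℝ) :
    ∫ s : ℝ, |(if s + L ≤ 0 then (1 : ℝ) else 0) - (if s ≤ 0 then 1 else 0)| ≤ |L| := by
  calc ∫ s : ℝ, |(if s + L ≤ 0 then (1 : ℝ) else 0) - (if s ≤ 0 then 1 else 0)|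
      ≤ ∫ s : ℝ, ((Ioc 0 (-L)).indicator (fun _ => (1 : ℝ)) s +
        (Ioc (-L) 0).indicator (fun _ => (1 : ℝ)) s) := by
        refine integral_mono (integrable_ind L).abs
          ((integrable_ioc _ _).add (integrable_ioc _ _)) fun s => ?_
        simp only
        rw [ind_sub L s]
        have h1 : 0 ≤ (Ioc 0 (-L)).indicator (fun _ => (1 : ℝ)) s :=
          indicator_nonneg (fun _ _ => zero_le_one) s
        have h2 : 0 ≤ (Ioc (-L) 0).indicator (fun _ => (1 : ℝ)) s :=
          indicator_nonneg (fun _ _ => zero_le_one) s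
        rw [abs_le]
        constructor <;> linarith
    _ ≤ |L| := by
        rw [integral_add (integrable_ioc _ _) (integrable_ioc _ _), integral_ioc, integral_ioc]
        rcases le_total L 0 with h | h
        · rw [max_eq_left (by linarith), max_eq_right (by linarith), abs_of_nonpos h]
          linarith
        · rw [max_eq_right (by linarith), max_eq_left (by linarith), abs_of_nonneg h]
          linarith

/-- The decomposition of the integrand. -/
private theorem decomp {d : ℕ} (e : E d) (he : ‖e‖ = 1) (z : E d) (hz : z ≠ 0) (s : ℝ) :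
    kap ((2 : ℝ) ^ s • z) - (if s ≤ 0 then 1 else 0) =
      gk e (s + Real.log ‖z‖ / Real.log 2) +
        ((if s + Real.log ‖z‖ / Real.log 2 ≤ 0 then (1 : ℝ) else 0) -
          (if s ≤ 0 then 1 else 0)) := by
  have hlog : 0 < Real.log 2 := Real.log_pos (by norm_num)
  have hz' : 0 < ‖z‖ := norm_pos_iff.mpr hz
  have h1 : (2 : ℝ) ^ (Real.log ‖z‖ / Real.log 2) = ‖z‖ := by
    rw [Real.rpow_def_of_pos (by norm_num), mul_div_cancel₀ _ hlog.ne', Real.exp_log hz']
  have h2 : kap ((2 : ℝ) ^ s • z) = kap ((2 : ℝ) ^ (s + Real.log ‖z‖ / Real.log 2) • e) := by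
    apply kap_radial
    rw [norm_rpow_smul, norm_rpow_smul, he, mul_one, Real.rpow_add (by norm_num), h1]
  unfold gk
  rw [h2]
  ring

private theorem exists_unit {d : ℕ} (z : E d) (hz : z ≠ 0) : ∃ e : E d, ‖e‖ = 1 :=
  ⟨(‖z‖)⁻¹ • z, by
    rw [norm_smul, norm_inv, norm_norm, inv_mul_cancel₀ (norm_ne_zero_iff.mpr hz)]⟩

theorem kap_log (d : ℕ) : ∃ c : ℝ, ∀ z : E d, z ≠ 0 →
    Integrable (fun s : ℝ => kap ((2 : ℝ) ^ s • z) - (if s ≤ 0 then 1 else 0)) ∧
    Real.log 2 * ∫ s : ℝ, (kap ((2 : ℝ) ^ s • z) - (if s ≤ 0 then 1 else 0)) =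
      Real.log (1 / ‖z‖) + c := by
  by_cases hex : ∃ z : E d, z ≠ 0
  · obtain ⟨z0, hz0⟩ := hex
    obtain ⟨e, he⟩ := exists_unit z0 hz0
    have hlog : 0 < Real.log 2 := Real.log_pos (by norm_num)
    refine ⟨Real.log 2 * ∫ t, gk e t, fun z hz => ?_⟩
    have hg := (integrable_gk e he).comp_add_right (Real.log ‖z‖ / Real.log 2)
    have hi := integrable_ind (Real.log ‖z‖ / Real.log 2)
    simp_rw [decomp e he z hz]
    refine ⟨hg.add hi, ?_⟩
    rw [integral_add hg hi, integral_ind,
      integral_add_right_eq_self (gk e) (Real.log ‖z‖ / Real.log 2), one_div, Real.log_inv]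
    field_simp
    ring
  · exact ⟨0, fun z hz => absurd ⟨z, hz⟩ hex⟩

theorem kap_log_bound (d : ℕ) : ∃ C : ℝ, 0 < C ∧ ∀ z : E d, z ≠ 0 →
    ∫ s : ℝ, |kap ((2 : ℝ) ^ s • z) - (if s ≤ 0 then 1 else 0)| ≤
      C * (1 + |Real.log ‖z‖|) := by
  by_cases hex : ∃ z : E d, z ≠ 0
  · obtain ⟨z0, hz0⟩ := hex
    obtain ⟨e, he⟩ := exists_unit z0 hz0
    have hlog : 0 < Real.log 2 := Real.log_pos (by norm_num)
    have hG : 0 ≤ ∫ t, |gk e t| := integral_nonneg fun t => abs_nonneg _
    refine ⟨(∫ t, |gk e t|) + 1 / Real.log 2, by positivity, fun z hz => ?_⟩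
    have hg := (integrable_gk e he).comp_add_right (Real.log ‖z‖ / Real.log 2)
    have hi := integrable_ind (Real.log ‖z‖ / Real.log 2)
    simp_rw [decomp e he z hz]
    have h1 := integral_abs_ind (Real.log ‖z‖ / Real.log 2)
    have h2 : ∫ s, |gk e (s + Real.log ‖z‖ / Real.log 2)| = ∫ t, |gk e t| :=
      integral_add_right_eq_self (fun t => |gk e t|) (Real.log ‖z‖ / Real.log 2)
    have h3 : |Real.log ‖z‖ / Real.log 2| = 1 / Real.log 2 * |Real.log ‖z‖| := by
      rw [abs_div, abs_of_pos hlog]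
      ring
    calc ∫ s : ℝ, |gk e (s + Real.log ‖z‖ / Real.log 2) +
          ((if s + Real.log ‖z‖ / Real.log 2 ≤ 0 then (1 : ℝ) else 0) -
            (if s ≤ 0 then 1 else 0))|
        ≤ ∫ s : ℝ, (|gk e (s + Real.log ‖z‖ / Real.log 2)| +
          |(if s + Real.log ‖z‖ / Real.log 2 ≤ 0 then (1 : ℝ) else 0) -
            (if s ≤ 0 then 1 else 0)|) :=
          integral_mono (hg.add hi).abs (hg.abs.add hi.abs) fun s => abs_add_le _ _
      _ ≤ (∫ t, |gk e t|) + 1 / Real.log 2 * |Real.log ‖z‖| := by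
          rw [integral_add hg.abs hi.abs, h2, ← h3]
          linarith
      _ ≤ ((∫ t, |gk e t|) + 1 / Real.log 2) * (1 + |Real.log ‖z‖|) := by
          have h4 : 0 ≤ 1 / Real.log 2 := by positivity
          have h5 := abs_nonneg (Real.log ‖z‖)
          nlinarith [mul_nonneg hG h5]
  · exact ⟨1, one_pos, fun z hz => absurd ⟨z, hz⟩ hex⟩

end Pool.Agent.Thick
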