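import Pool.Agent.Thick.Emb
import Pool.Agent.Thick.LogK
import Pool.Agent.Thick.LogInt

set_option autoImplicit false

/-!
# EmbLog: the embedding has the logarithmic covariance

Proof. Let `w s z = kap (2^s • z) - 1_{s ≤ 0}`. For every `s`, by `inner_Kf_Kf` (Th) and `∫ f = 0`,
`‖Kf s f‖² = log 2 ∫∫ f x f y kap (2^s (x - y)) = log 2 ∫∫ f x f y w s (x - y)`. The function
`(s, x, y) ↦ f x f y w s (x - y)` is integrable on `ℝ × (E d × E d)`: for `x ≠ y` (almost all pairs, the
diagonal has measure zero since `d ≥ 1`) its absolute value has the integral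
`≤ |f x| |f y| C (1 + |log ‖x - y‖|)` over `s` (`kap_log_bound`, LogK; for fixed `x ≠ y` integrable in `s` by
`kap_log`), which is integrable (`integrable_log_pair`, LogInt). By Fubini
(`integral_integral_swap`, `integral_prod`) and `norm_embed_sq` (Emb)
`‖embed f‖² = ∫∫ f x f y (log (1 / ‖x - y‖) + c) = logCov f f + c (∫ f)² = logCov f f`.
-/

namespace Pool.Agent.Thick

open MeasureTheory ProbabilityTheory Filter Topology Set

/-- The diagonal is a null set. -/
private theorem ae_ne {d : ℕ} (hd : 1 ≤ d) :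
    ∀ᵐ p : E d × E d ∂(volume.prod volume), p.1 - p.2 ≠ 0 := by
  have : Nonempty (Fin d) := ⟨⟨0, hd⟩⟩
  have : Nontrivial (E d) := inferInstance
  have hm : MeasurableSet {p : E d × E d | p.1 - p.2 ≠ 0} :=
    (measurable_fst.sub measurable_snd) (measurableSet_singleton (0 : E d)).compl
  rw [Measure.ae_prod_iff_ae_ae hm]
  refine Eventually.of_forall fun x => ?_
  have h1 : ∀ᵐ y : E d ∂volume, y ≠ x := by
    rw [ae_iff]
    simp
  filter_upwards [h1] with y hy h2
  exact hy (sub_eq_zero.1 h2).symm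

/-- The difference of `kap` and the indicator of the large scales. -/
private noncomputable def ww {d : ℕ} (s : ℝ) (z : E d) : ℝ :=
  kap ((2 : ℝ) ^ s • z) - (if s ≤ 0 then 1 else 0)

private theorem abs_kap_le {d : ℕ} (z : E d) : |kap z| ≤ 1 := by
  rw [abs_of_nonneg (kap_nonneg z)]
  exact kap_le_one z

private theorem int_pair {d : ℕ} (f : E d → ℝ) (hf : Cc0 f) :
    Integrable (fun p : E d × E d => f p.1 * f p.2) (volume.prod volume) := by
  have h1 : Integrable f := hf.1.integrable_of_hasCompactSupport hf.2.1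
  exact h1.mul_prod h1

private theorem int_kap {d : ℕ} (f : E d → ℝ) (hf : Cc0 f) (s : ℝ) :
    Integrable (fun p : E d × E d => f p.1 * f p.2 * kap ((2 : ℝ) ^ s • (p.1 - p.2)))
      (volume.prod volume) := by
  refine (int_pair f hf).mul_bdd (c := 1) ?_ ?_
  · have h1 : Continuous fun p : E d × E d => (2 : ℝ) ^ s • (p.1 - p.2) := by fun_prop
    exact (continuous_kap.comp h1).aestronglyMeasurable
  · refine Eventually.of_forall fun p => ?_
    rw [Real.norm_eq_abs]
    exact abs_kap_le _

private theorem step1 {d : ℕ} (f : E d → ℝ) (hf : Cc0 f) (s : ℝ) :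
    ‖Kf s f‖ ^ 2 = Real.log 2 * ∫ p : E d × E d, f p.1 * f p.2 * ww s (p.1 - p.2) := by
  have h1 : Integrable f := hf.1.integrable_of_hasCompactSupport hf.2.1
  rw [← real_inner_self_eq_norm_sq, inner_Kf_Kf s f f h1 h1]
  congr 1
  have h2 : ∀ p : E d × E d, f p.1 * f p.2 * ww s (p.1 - p.2) =
      f p.1 * f p.2 * kap ((2 : ℝ) ^ s • (p.1 - p.2)) -
        f p.1 * f p.2 * (if s ≤ 0 then 1 else 0) := by
    intro p
    rw [ww, mul_sub]
  simp only [h2]
  rw [Measure.volume_eq_prod, integral_sub (int_kap f hf s) ((int_pair f hf).mul_const _),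
    integral_mul_const, integral_prod_mul f f, hf.2.2, mul_zero, zero_mul, sub_zero,
    integral_prod _ (int_kap f hf s)]

private theorem meas_F {d : ℕ} (f : E d → ℝ) (hf : Cc0 f) :
    Measurable fun q : (E d × E d) × ℝ => f q.1.1 * f q.1.2 * ww q.2 (q.1.1 - q.1.2) := by
  have h1 : Measurable f := hf.1.measurable
  have h0 : Continuous fun q : (E d × E d) × ℝ => (2 : ℝ) ^ q.2 :=
    (Real.continuous_const_rpow two_ne_zero).comp continuous_snd
  have h0' : Continuous fun q : (E d × E d) × ℝ => q.1.1 - q.1.2 := by fun_prop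
  have h2 : Continuous fun q : (E d × E d) × ℝ => kap ((2 : ℝ) ^ q.2 • (q.1.1 - q.1.2)) :=
    continuous_kap.comp (h0.smul h0')
  have h3 : Measurable fun q : (E d × E d) × ℝ => (if q.2 ≤ 0 then (1 : ℝ) else 0) :=
    Measurable.ite (measurableSet_le measurable_snd measurable_const) measurable_const
      measurable_const
  unfold ww
  exact ((h1.comp (measurable_fst.comp measurable_fst)).mul
    (h1.comp (measurable_snd.comp measurable_fst))).mul (h2.measurable.sub h3)

private theorem int_F {d : ℕ} (hd : 1 ≤ d) (f : E d → ℝ) (hf : Cc0 f) :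
    Integrable (fun q : (E d × E d) × ℝ => f q.1.1 * f q.1.2 * ww q.2 (q.1.1 - q.1.2))
      ((volume.prod volume).prod volume) := by
  obtain ⟨c, hc⟩ := kap_log d
  obtain ⟨C, hC0, hC⟩ := kap_log_bound d
  have hm := meas_F f hf
  rw [integrable_prod_iff hm.aestronglyMeasurable]
  constructor
  · filter_upwards [ae_ne hd] with p hp
    exact ((hc _ hp).1).const_mul _
  · refine ((integrable_log_pair hd f f hf.1 hf.2.1 hf.1 hf.2.1).norm.const_mul C).mono'
      (hm.aestronglyMeasurable.norm.integral_prod_right') ?_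
    filter_upwards [ae_ne hd] with p hp
    rw [Real.norm_of_nonneg (integral_nonneg fun s => norm_nonneg _)]
    have h1 : ∀ s : ℝ, ‖f p.1 * f p.2 * ww s (p.1 - p.2)‖ =
        |f p.1 * f p.2| * |ww s (p.1 - p.2)| := by
      intro s
      rw [norm_mul, Real.norm_eq_abs, Real.norm_eq_abs]
    simp only [h1]
    rw [integral_const_mul, norm_mul, Real.norm_eq_abs, Real.norm_eq_abs,
      abs_of_nonneg (show (0 : ℝ) ≤ 1 + |Real.log ‖p.1 - p.2‖| by positivity)]
    have h2 := mul_le_mul_of_nonneg_left (hC _ hp) (abs_nonneg (f p.1 * f p.2))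
    calc |f p.1 * f p.2| * ∫ s : ℝ, |ww s (p.1 - p.2)|
        ≤ |f p.1 * f p.2| * (C * (1 + |Real.log ‖p.1 - p.2‖|)) := h2
      _ = C * (|f p.1 * f p.2| * (1 + |Real.log ‖p.1 - p.2‖|)) := by ring

private theorem int_log {d : ℕ} (hd : 1 ≤ d) (f : E d → ℝ) (hf : Cc0 f) :
    Integrable (fun p : E d × E d => f p.1 * f p.2 * Real.log (1 / dist p.1 p.2))
      (volume.prod volume) := by
  refine (integrable_log_pair hd f f hf.1 hf.2.1 hf.1 hf.2.1).mono ?_ ?_
  · have h1 : Measurable f := hf.1.measurable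
    refine Measurable.aestronglyMeasurable ?_
    refine ((h1.comp measurable_fst).mul (h1.comp measurable_snd)).mul ?_
    exact Real.measurable_log.comp (measurable_const.div (measurable_fst.dist measurable_snd))
  · refine Eventually.of_forall fun p => ?_
    rw [norm_mul, norm_mul (f p.1 * f p.2)]
    refine mul_le_mul_of_nonneg_left ?_ (norm_nonneg _)
    rw [one_div, Real.log_inv, norm_neg, dist_eq_norm, Real.norm_eq_abs, Real.norm_eq_abs,
      abs_of_nonneg (show (0 : ℝ) ≤ 1 + |Real.log ‖p.1 - p.2‖| by positivity)]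
    linarith

theorem norm_embed_logCov {d : ℕ} (hd : 1 ≤ d) (f : E d → ℝ) (hf : Cc0 f) :
    ‖embed f‖ ^ 2 = logCov f f := by
  obtain ⟨c, hc⟩ := kap_log d
  have h1 : ∀ s : ℝ, ‖Kf s f‖ ^ 2 =
      Real.log 2 * ∫ p : E d × E d, f p.1 * f p.2 * ww s (p.1 - p.2) := step1 f hf
  rw [norm_embed_sq hd f hf]
  simp only [h1]
  rw [integral_const_mul, Measure.volume_eq_prod (E d) (E d)]
  rw [← integral_integral_swap (μ := (volume.prod volume : Measure (E d × E d)))
    (ν := (volume : Measure ℝ))
    (f := fun (p : E d × E d) (s : ℝ) => f p.1 * f p.2 * ww s (p.1 - p.2)) (int_F hd f hf),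
    ← integral_const_mul]
  have h2 : ∫ p : E d × E d, (Real.log 2 * ∫ s : ℝ, f p.1 * f p.2 * ww s (p.1 - p.2))
      ∂(volume.prod volume) = ∫ p : E d × E d, (f p.1 * f p.2 * Real.log (1 / dist p.1 p.2) +
        f p.1 * f p.2 * c) ∂(volume.prod volume) := by
    refine integral_congr_ae ?_
    filter_upwards [ae_ne hd] with p hp
    have h3 := (hc _ hp).2
    have h4 : ∫ s : ℝ, f p.1 * f p.2 * ww s (p.1 - p.2) =
        f p.1 * f p.2 * ∫ s : ℝ, ww s (p.1 - p.2) := integral_const_mul _ _
    have h5 : Real.log 2 * ∫ s : ℝ, ww s (p.1 - p.2) = Real.log (1 / ‖p.1 - p.2‖) + c := h3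
    rw [h4, dist_eq_norm]
    linear_combination (f p.1 * f p.2) * h5
  rw [h2, integral_add (int_log hd f hf) ((int_pair f hf).mul_const c), integral_mul_const,
    integral_prod_mul f f, hf.2.2, mul_zero, zero_mul, add_zero, integral_prod _ (int_log hd f hf)]
  rfl

end Pool.Agent.Thick
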