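import Pool.Agent.Thick.M0

set_option autoImplicit false

/-!
# ErrB: the densities of the mollifications

`mden ρ n x y = ρ_n (x - y)`: the function `y ↦ 2^{nd} ρ(2^n (x - y))`. Elementary: the support of `ρ` is in a
ball of radius `r > 0`; `ρ` is bounded by some `D > 0`; `ρ` is Lipschitz (smooth with compact support:
`ContDiff.lipschitzWith_of_hasCompactSupport`). Change of variables:
`integral_sub_left_eq_self`, `Measure.integral_comp_smul`.
-/

namespace Pool.Agent.Thick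

open MeasureTheory ProbabilityTheory Filter Topology Set

variable {d : ℕ}

/-- The density of the mollification at the point `x` and level `n`. -/
noncomputable def mden (ρ : E d → ℝ) (n : ℕ) (x : E d) : E d → ℝ := fun y => scaled ρ n (x - y)

theorem mtest_eq (ρ : E d → ℝ) (n : ℕ) (x : E d) : mtest ρ n x = mden ρ n x - mden ρ 0 0 := by
  funext y
  simp [mtest, mden, scaled]

private theorem continuous_scaled (ρ : E d → ℝ) (hρ : IsMollifier ρ) (n : ℕ) :
    Continuous (scaled ρ n) := by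
  unfold scaled
  exact continuous_const.mul (hρ.smooth.continuous.comp (continuous_const_smul _))

private theorem integrable_rho (ρ : E d → ℝ) (hρ : IsMollifier ρ) : Integrable ρ :=
  hρ.smooth.continuous.integrable_of_hasCompactSupport hρ.supp

theorem integrable_scaled (ρ : E d → ℝ) (hρ : IsMollifier ρ) (n : ℕ) :
    Integrable (scaled ρ n) := by
  unfold scaled
  exact ((integrable_rho ρ hρ).comp_smul (by positivity)).const_mul _

theorem integral_scaled (ρ : E d → ℝ) (hρ : IsMollifier ρ) (n : ℕ) :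
    ∫ y, scaled ρ n y = 1 := by
  unfold scaled
  rw [integral_const_mul, Measure.integral_comp_smul, hρ.int, finrank_euclideanSpace_fin,
    abs_of_pos (by positivity), smul_eq_mul, mul_one, ← pow_mul]
  exact mul_inv_cancel₀ (by positivity)

theorem continuous_mden (ρ : E d → ℝ) (hρ : IsMollifier ρ) (n : ℕ) (x : E d) :
    Continuous (mden ρ n x) := by
  unfold mden
  exact (continuous_scaled ρ hρ n).comp (continuous_const.sub continuous_id)

theorem integrable_mden (ρ : E d → ℝ) (hρ : IsMollifier ρ) (n : ℕ) (x : E d) :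
    Integrable (mden ρ n x) := by
  unfold mden
  exact (integrable_scaled ρ hρ n).comp_sub_left x

theorem integral_mden (ρ : E d → ℝ) (hρ : IsMollifier ρ) (n : ℕ) (x : E d) :
    ∫ y, mden ρ n x y = 1 := by
  unfold mden
  rw [integral_sub_left_eq_self (fun y => scaled ρ n y) volume x]
  exact integral_scaled ρ hρ n

theorem mden_nonneg (ρ : E d → ℝ) (hρ : IsMollifier ρ) (n : ℕ) (x y : E d) :
    0 ≤ mden ρ n x y := by
  unfold mden scaled
  exact mul_nonneg (by positivity) (hρ.nonneg _)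

private theorem norm_two_smul (n : ℕ) (v : E d) : ‖(2 : ℝ) ^ n • v‖ = (2 : ℝ) ^ n * ‖v‖ := by
  rw [norm_smul, Real.norm_of_nonneg (by positivity)]

theorem mden_supp (ρ : E d → ℝ) (hρ : IsMollifier ρ) : ∃ r : ℝ, 0 < r ∧ ∀ (n : ℕ) (x y : E d),
    r * (2 : ℝ)⁻¹ ^ n < ‖y - x‖ → mden ρ n x y = 0 := by
  obtain ⟨r, hr⟩ := hρ.supp.isBounded.subset_closedBall (0 : E d)
  refine ⟨max r 1, by positivity, ?_⟩
  intro n x y h
  unfold mden scaled
  have h2 : ρ ((2 : ℝ) ^ n • (x - y)) = 0 := by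
    by_contra hne
    have hmem := hr (subset_tsupport ρ hne)
    rw [mem_closedBall_zero_iff, norm_two_smul, norm_sub_rev] at hmem
    have h3 : (2 : ℝ) ^ n * ‖y - x‖ ≤ max r 1 := hmem.trans (le_max_left _ _)
    have h4 : (2 : ℝ) ^ n * (max r 1 * (2 : ℝ)⁻¹ ^ n) < (2 : ℝ) ^ n * ‖y - x‖ :=
      mul_lt_mul_of_pos_left h (by positivity)
    have h5 : (2 : ℝ) ^ n * (max r 1 * (2 : ℝ)⁻¹ ^ n) = max r 1 := by
      rw [inv_pow]
      field_simp
    linarith
  rw [h2, mul_zero]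

theorem mden_bdd (ρ : E d → ℝ) (hρ : IsMollifier ρ) : ∃ D : ℝ, 0 < D ∧ ∀ (n : ℕ) (x y : E d),
    |mden ρ n x y| ≤ D * ((2 : ℝ) ^ n) ^ d := by
  obtain ⟨D, hD⟩ := hρ.supp.exists_bound_of_continuous hρ.smooth.continuous
  refine ⟨max D 1, by positivity, ?_⟩
  intro n x y
  unfold mden scaled
  rw [abs_mul, abs_of_pos (by positivity), pow_mul, mul_comm]
  have h1 : |ρ ((2 : ℝ) ^ n • (x - y))| ≤ D := hD _
  exact mul_le_mul_of_nonneg_right (h1.trans (le_max_left _ _)) (by positivity)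

theorem mden_lip (ρ : E d → ℝ) (hρ : IsMollifier ρ) : ∃ D : ℝ, 0 < D ∧
    ∀ (n : ℕ) (x x' y : E d),
    |mden ρ n x y - mden ρ n x' y| ≤ D * ((2 : ℝ) ^ n) ^ d * ((2 : ℝ) ^ n * ‖x - x'‖) := by
  obtain ⟨C, hC⟩ := ContDiff.lipschitzWith_of_hasCompactSupport hρ.supp hρ.smooth (by simp)
  refine ⟨max (C : ℝ) 1, by positivity, ?_⟩
  intro n x x' y
  unfold mden scaled
  rw [← mul_sub, abs_mul, abs_of_pos (by positivity), pow_mul]
  have h1 := hC.dist_le_mul ((2 : ℝ) ^ n • (x - y)) ((2 : ℝ) ^ n • (x' - y))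
  rw [Real.dist_eq, dist_eq_norm, ← smul_sub, sub_sub_sub_cancel_right, norm_two_smul] at h1
  have h2 : (C : ℝ) * ((2 : ℝ) ^ n * ‖x - x'‖) ≤ max (C : ℝ) 1 * ((2 : ℝ) ^ n * ‖x - x'‖) :=
    mul_le_mul_of_nonneg_right (le_max_left _ _) (by positivity)
  calc ((2 : ℝ) ^ n) ^ d * |ρ ((2 : ℝ) ^ n • (x - y)) - ρ ((2 : ℝ) ^ n • (x' - y))|
      ≤ ((2 : ℝ) ^ n) ^ d * (max (C : ℝ) 1 * ((2 : ℝ) ^ n * ‖x - x'‖)) :=
        mul_le_mul_of_nonneg_left (h1.trans h2) (by positivity)
    _ = max (C : ℝ) 1 * ((2 : ℝ) ^ n) ^ d * ((2 : ℝ) ^ n * ‖x - x'‖) := by ring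

end Pool.Agent.Thick
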