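import Pool.Agent.Thick.Th

set_option autoImplicit false

/-!
# KfD: differences and averages of the vectors `Ks s z`

* `Ks_diff`: `‖Ks s z - Ks s x‖² = 2 log 2 (1 - kap (2^s (z - x))) ≤ C 2^s ‖z - x‖` (`inner_Ks`,
  `norm_Ks_sq`, `kap_lip`, `kap_zero`).
* `Kf_avg`: `Kf s f - Ks s x = ∫ f z • (Ks s z - Ks s x) dz` since `∫ f = 1`; its norm is at most
  `∫ f z ‖Ks s z - Ks s x‖ dz ≤ √(C 2^s R)` (note `R ≥ 0`, otherwise `f = 0`).
* `Kf_shift`: with `g` a probability density, `Kf s (fun y => g (x - y)) = ∫ g w • Ks s (x - w) dw`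
  (`integral_sub_left_eq_self`), so the difference is `∫ g w • (Ks s (x - w) - Ks s (y - w)) dw`, of norm at
  most `√(C 2^s ‖x - y‖) ∫ g`.
(`f z • Ks s z` is integrable: `‖Ks s z‖ = √(log 2)`, `z ↦ Ks s z` continuous by `continuous_Th`.)
-/

namespace Pool.Agent.Thick

open MeasureTheory ProbabilityTheory Filter Topology Set

theorem Ks_diff (d : ℕ) : ∃ C : ℝ, 0 < C ∧ ∀ (s : ℝ) (z x : E d),
    ‖Ks s z - Ks s x‖ ^ 2 ≤ C * (2 : ℝ) ^ s * ‖z - x‖ := by
  obtain ⟨C, hC, hlip⟩ := kap_lip (d := d)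
  have hlog : 0 < Real.log 2 := Real.log_pos (by norm_num)
  refine ⟨2 * Real.log 2 * C, by positivity, fun s z x => ?_⟩
  have h1 : ‖Ks s z - Ks s x‖ ^ 2 =
      2 * Real.log 2 * (1 - kap ((2 : ℝ) ^ s • (z - x))) := by
    rw [@norm_sub_sq_real, norm_Ks_sq, norm_Ks_sq, inner_Ks]
    ring
  have h2 := hlip ((2 : ℝ) ^ s • (z - x)) 0
  have h3 : ‖(2 : ℝ) ^ s • (z - x)‖ = (2 : ℝ) ^ s * ‖z - x‖ := by
    rw [norm_smul, Real.norm_of_nonneg (by positivity)]
  rw [kap_zero, sub_zero, h3] at h2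
  have h4 : 1 - kap ((2 : ℝ) ^ s • (z - x)) ≤ C * ((2 : ℝ) ^ s * ‖z - x‖) := by
    have := (abs_le.1 h2).1
    linarith
  rw [h1]
  calc 2 * Real.log 2 * (1 - kap ((2 : ℝ) ^ s • (z - x)))
      ≤ 2 * Real.log 2 * (C * ((2 : ℝ) ^ s * ‖z - x‖)) := by gcongr
    _ = 2 * Real.log 2 * C * (2 : ℝ) ^ s * ‖z - x‖ := by ring

theorem KfD_continuous {d : ℕ} (s : ℝ) : Continuous fun z : E d => Ks s z := by
  unfold Ks
  exact (continuous_Th.comp (continuous_const_smul ((2 : ℝ) ^ s))).const_smul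
    (Real.sqrt (Real.log 2))

theorem KfD_norm {d : ℕ} (s : ℝ) (z : E d) : ‖Ks s z‖ = Real.sqrt (Real.log 2) := by
  rw [← norm_Ks_sq s z, Real.sqrt_sq (norm_nonneg _)]

theorem KfD_integrable {d : ℕ} (s : ℝ) (f : E d → ℝ) (hf : Integrable f)
    (T : E d → E d) (hT : Continuous T) : Integrable fun z => f z • Ks s (T z) := by
  refine (hf.norm.const_mul (Real.sqrt (Real.log 2))).mono' ?_ (ae_of_all _ fun z => ?_)
  · exact hf.aestronglyMeasurable.smul
      ((KfD_continuous s).comp hT).aestronglyMeasurable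
  · rw [norm_smul, KfD_norm, mul_comm]

theorem KfD_average {d : ℕ} (f : E d → ℝ) (hf : Integrable f) (h0 : ∀ z, 0 ≤ f z)
    (h1 : ∫ z, f z = 1) (v : E d → H0 d) (B : ℝ) (hB : 0 ≤ B)
    (hv : ∀ z, f z ≠ 0 → ‖v z‖ ^ 2 ≤ B) : ‖∫ z, f z • v z‖ ^ 2 ≤ B := by
  have h2 : ‖∫ z, f z • v z‖ ≤ ∫ z, f z * Real.sqrt B := by
    refine norm_integral_le_of_norm_le (hf.mul_const _) (ae_of_all _ fun z => ?_)
    rw [norm_smul, Real.norm_of_nonneg (h0 z)]
    by_cases hz : f z = 0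
    · rw [hz, zero_mul, zero_mul]
    · gcongr
      · exact h0 z
      · exact Real.le_sqrt_of_sq_le (hv z hz)
  rw [integral_mul_const, h1, one_mul] at h2
  calc ‖∫ z, f z • v z‖ ^ 2 ≤ (Real.sqrt B) ^ 2 := by gcongr
    _ = B := Real.sq_sqrt hB

theorem Kf_avg (d : ℕ) : ∃ C : ℝ, 0 < C ∧ ∀ (s : ℝ) (f : E d → ℝ) (x : E d) (R : ℝ),
    Integrable f → (∀ z, 0 ≤ f z) → ∫ z, f z = 1 → (∀ z, R < ‖z - x‖ → f z = 0) →
    ‖Kf s f - Ks s x‖ ^ 2 ≤ C * (2 : ℝ) ^ s * R := by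
  obtain ⟨C, hC, hdiff⟩ := Ks_diff d
  refine ⟨C, hC, fun s f x R hf h0 h1 hR => ?_⟩
  have hR0 : 0 ≤ R := by
    by_contra hneg
    have h2 : ∀ z, f z = 0 := fun z => hR z (by
      have := norm_nonneg (z - x)
      linarith)
    simp only [h2, integral_zero] at h1
    exact zero_ne_one h1
  have h2 : Kf s f - Ks s x = ∫ z, f z • (Ks s z - Ks s x) := by
    have h3 : Ks s x = ∫ z, f z • Ks s x := by
      rw [integral_smul_const, h1, one_smul]
    have h4 : ∀ z, f z • (Ks s z - Ks s x) = f z • Ks s z - f z • Ks s x :=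
      fun z => smul_sub _ _ _
    simp only [h4]
    have h5 : Integrable fun z => f z • Ks s z :=
      KfD_integrable s f hf (fun z => z) continuous_id
    rw [integral_sub h5 (hf.smul_const _), ← h3]
    rfl
  rw [h2]
  refine KfD_average f hf h0 h1 _ _ (by positivity) fun z hz => ?_
  refine (hdiff s z x).trans ?_
  have h5 : ‖z - x‖ ≤ R := by
    by_contra hlt
    exact hz (hR z (not_le.1 hlt))
  gcongr

theorem Kf_shift (d : ℕ) : ∃ C : ℝ, 0 < C ∧ ∀ (s : ℝ) (g : E d → ℝ) (x y : E d),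
    Integrable g → (∀ z, 0 ≤ g z) → ∫ z, g z = 1 →
    ‖Kf s (fun z => g (x - z)) - Kf s (fun z => g (y - z))‖ ^ 2 ≤ C * (2 : ℝ) ^ s * ‖x - y‖ := by
  obtain ⟨C, hC, hdiff⟩ := Ks_diff d
  refine ⟨C, hC, fun s g x y hg h0 h1 => ?_⟩
  have h2 : ∀ x : E d, Kf s (fun z => g (x - z)) = ∫ w, g w • Ks s (x - w) := by
    intro x
    unfold Kf
    rw [← integral_sub_left_eq_self (fun w => g w • Ks s (x - w)) volume x]
    simp only [sub_sub_cancel]
  have h3 : ∀ x : E d, Integrable fun w => g w • Ks s (x - w) := fun x =>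
    KfD_integrable s g hg (fun w => x - w) (continuous_const.sub continuous_id)
  rw [h2, h2, ← integral_sub (h3 x) (h3 y)]
  simp only [← smul_sub]
  refine KfD_average g hg h0 h1 _ _ (by positivity) fun z _ => ?_
  refine (hdiff s _ _).trans ?_
  rw [sub_sub_sub_cancel_right]

end Pool.Agent.Thick
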