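import Pool.Agent.Thick.KfB
import Pool.Agent.Thick.KfD
import Pool.Agent.Thick.ErrB

set_option autoImplicit false

/-!
# ErrC: comparison of the mollified field with the scale decomposition, at a fixed scale

Notation: `f = mden ρ n x`, `g = mden ρ 0 0`, `mtest ρ n x = f - g` (`mtest_eq`, ErrB), both probability
densities, so `Kf s (mtest ρ n x) = Kf s f - Kf s g` (`Kf_sub`, Th).
* `err_low`: `norm_Kf_low` (KfB) with `x₀ = 0`, `R = ‖x‖ + r`, `∫ |f - g| ≤ 2`.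
* `err_mid`: `‖(Kf s f - Ks s x) - Kf s g‖² ≤ 2 ‖Kf s f - Ks s x‖² + 2 ‖Kf s g‖²`: `Kf_avg` (KfD) with
  `R = r 2^{-n}` and `norm_Kf_sup` (KfB) with `M = D`, `∫ |g| = 1` and `((2^s)⁻¹)^d ≤ 2^{-s}` for `s ≥ 0`,
  `d ≥ 1`.
* `err_high`: `2 ‖Kf s f‖² + 2 ‖Kf s g‖²`, `norm_Kf_sup` with `M = D (2^n)^d`:
  `(2^n)^d ((2^s)⁻¹)^d = (2^{n-s})^d ≤ 2^{n-s}` for `s ≥ n`.
* `inc_low`: `Kf s (mtest ρ n x) - Kf s (mtest ρ n y) = Kf s (mden ρ n x) - Kf s (mden ρ n y)`: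
  `Kf_shift` (KfD) with the probability density `scaled ρ n`.
* `inc_high`: the same difference is `Kf s (mden ρ n x - mden ρ n y)`; `norm_Kf_sup` with
  `M = D (2^n)^d 2^n ‖x - y‖` (`mden_lip`) and `∫ |mden ρ n x - mden ρ n y| ≤ 2`.
-/

namespace Pool.Agent.Thick

open MeasureTheory ProbabilityTheory Filter Topology Set

variable {d : ℕ}

private theorem mden_int_abs (ρ : E d → ℝ) (hρ : IsMollifier ρ) (n : ℕ) (x : E d) :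
    ∫ z, |mden ρ n x z| = 1 := by
  rw [← integral_mden ρ hρ n x]
  congr 1
  funext z
  exact abs_of_nonneg (mden_nonneg ρ hρ n x z)

private theorem mden_int_abs_sub (ρ : E d → ℝ) (hρ : IsMollifier ρ) (n m : ℕ) (x y : E d) :
    ∫ z, |(mden ρ n x - mden ρ m y) z| ≤ 2 := by
  have h1 : Integrable fun z => |mden ρ n x z| + |mden ρ m y z| :=
    (integrable_mden ρ hρ n x).abs.add (integrable_mden ρ hρ m y).abs
  have h2 : Integrable fun z => |(mden ρ n x - mden ρ m y) z| :=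
    ((integrable_mden ρ hρ n x).sub (integrable_mden ρ hρ m y)).abs
  have h3 : ∫ z, |(mden ρ n x - mden ρ m y) z| ≤
      ∫ z, (|mden ρ n x z| + |mden ρ m y z|) := by
    apply integral_mono h2 h1
    intro z
    simp only [Pi.sub_apply]
    exact abs_sub _ _
  rw [integral_add (integrable_mden ρ hρ n x).abs (integrable_mden ρ hρ m y).abs,
    mden_int_abs ρ hρ n x, mden_int_abs ρ hρ m y] at h3
  linarith

private theorem integrable_mtest (ρ : E d → ℝ) (hρ : IsMollifier ρ) (n : ℕ) (x : E d) :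
    Integrable (mtest ρ n x) := by
  rw [mtest_eq]
  exact (integrable_mden ρ hρ n x).sub (integrable_mden ρ hρ 0 0)

private theorem integral_mtest (ρ : E d → ℝ) (hρ : IsMollifier ρ) (n : ℕ) (x : E d) :
    ∫ z, mtest ρ n x z = 0 := by
  rw [mtest_eq]
  simp only [Pi.sub_apply]
  rw [integral_sub (integrable_mden ρ hρ n x) (integrable_mden ρ hρ 0 0),
    integral_mden ρ hρ n x, integral_mden ρ hρ 0 0, sub_self]

private theorem Kf_mtest (ρ : E d → ℝ) (hρ : IsMollifier ρ) (n : ℕ) (x : E d) (s : ℝ) :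
    Kf s (mtest ρ n x) = Kf s (mden ρ n x) - Kf s (mden ρ 0 0) := by
  rw [mtest_eq, Kf_sub s _ _ (integrable_mden ρ hρ n x) (integrable_mden ρ hρ 0 0)]

private theorem sq_norm_sub_le (a b : H0 d) : ‖a - b‖ ^ 2 ≤ 2 * ‖a‖ ^ 2 + 2 * ‖b‖ ^ 2 := by
  have h1 : ‖a - b‖ ≤ ‖a‖ + ‖b‖ := norm_sub_le a b
  have h2 : ‖a - b‖ ^ 2 ≤ (‖a‖ + ‖b‖) ^ 2 := by
    gcongr
  nlinarith [sq_nonneg (‖a‖ - ‖b‖)]

private theorem pow_inv_le (hd : 1 ≤ d) {n : ℕ} {s : ℝ} (h : (n : ℝ) ≤ s) :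
    ((2 : ℝ) ^ n) ^ d * ((2 : ℝ) ^ s)⁻¹ ^ d ≤ (2 : ℝ) ^ ((n : ℝ) - s) := by
  rw [← mul_pow]
  have h1 : (2 : ℝ) ^ n * ((2 : ℝ) ^ s)⁻¹ = (2 : ℝ) ^ ((n : ℝ) - s) := by
    rw [Real.rpow_sub (by norm_num), Real.rpow_natCast, div_eq_mul_inv]
  rw [h1]
  apply pow_le_of_le_one (by positivity) _ (by omega)
  apply Real.rpow_le_one_of_one_le_of_nonpos (by norm_num)
  linarith

private theorem pow_inv_le' (hd : 1 ≤ d) {s : ℝ} (h : 0 ≤ s) :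
    ((2 : ℝ) ^ s)⁻¹ ^ d ≤ (2 : ℝ) ^ (-s) := by
  have h1 := pow_inv_le (n := 0) hd (s := s) (by simpa using h)
  simpa using h1

theorem err_low (ρ : E d → ℝ) (hρ : IsMollifier ρ) : ∃ C : ℝ, 0 < C ∧
    ∀ (n : ℕ) (x : E d) (s : ℝ),
    ‖Kf s (mtest ρ n x)‖ ^ 2 ≤ C * (1 + ‖x‖) * (2 : ℝ) ^ s := by
  obtain ⟨C, hC, hb⟩ := norm_Kf_low d
  obtain ⟨r, hr, hs⟩ := mden_supp ρ hρ
  refine ⟨4 * C * (1 + r), by positivity, ?_⟩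
  intro n x s
  have h1 := hb s (mtest ρ n x) 0 (‖x‖ + r) (integrable_mtest ρ hρ n x)
    (integral_mtest ρ hρ n x) (by
      intro z hz
      rw [sub_zero] at hz
      rw [mtest_eq, Pi.sub_apply]
      have hx0 : 0 ≤ ‖x‖ := norm_nonneg x
      have h2 : mden ρ n x z = 0 := by
        apply hs
        have h3 : ‖z‖ - ‖x‖ ≤ ‖z - x‖ := norm_sub_norm_le z x
        have h4 : r * (2 : ℝ)⁻¹ ^ n ≤ r * 1 := by
          apply mul_le_mul_of_nonneg_left _ hr.le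
          exact pow_le_one₀ (by norm_num) (by norm_num)
        linarith
      have h3 : mden ρ 0 0 z = 0 := by
        apply hs
        rw [pow_zero, mul_one, sub_zero]
        linarith
      rw [h2, h3, sub_zero])
  have h2 : ∫ z, |mtest ρ n x z| ≤ 2 := by
    rw [mtest_eq]
    exact mden_int_abs_sub ρ hρ n 0 x 0
  have h3 : 0 ≤ ∫ z, |mtest ρ n x z| := integral_nonneg fun z => abs_nonneg _
  have h4 : (∫ z, |mtest ρ n x z|) ^ 2 ≤ 4 := by nlinarith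
  have hx0 : 0 ≤ ‖x‖ := norm_nonneg x
  have h5 : ‖x‖ + r ≤ (1 + r) * (1 + ‖x‖) := by nlinarith
  have hp : (0 : ℝ) < (2 : ℝ) ^ s := by positivity
  calc ‖Kf s (mtest ρ n x)‖ ^ 2
      ≤ C * (2 : ℝ) ^ s * (‖x‖ + r) * (∫ z, |mtest ρ n x z|) ^ 2 := h1
    _ ≤ C * (2 : ℝ) ^ s * ((1 + r) * (1 + ‖x‖)) * 4 := by gcongr
    _ = 4 * C * (1 + r) * (1 + ‖x‖) * (2 : ℝ) ^ s := by ring

private theorem Kf_mden_zero (hd : 1 ≤ d) (ρ : E d → ℝ) (hρ : IsMollifier ρ) : ∃ C : ℝ, 0 < C ∧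
    ∀ s : ℝ, 0 ≤ s → ‖Kf s (mden ρ 0 0)‖ ^ 2 ≤ C * (2 : ℝ) ^ (-s) := by
  obtain ⟨C, hC, hb⟩ := norm_Kf_sup d
  obtain ⟨D, hD, hm⟩ := mden_bdd ρ hρ
  refine ⟨C * D, by positivity, ?_⟩
  intro s hs
  have h1 := hb s (mden ρ 0 0) D (integrable_mden ρ hρ 0 0) (by
    intro z
    have h := hm 0 0 z
    simpa using h)
  rw [mden_int_abs ρ hρ 0 0, mul_one] at h1
  exact h1.trans (mul_le_mul_of_nonneg_left (pow_inv_le' hd hs) (by positivity))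

theorem err_mid (hd : 1 ≤ d) (ρ : E d → ℝ) (hρ : IsMollifier ρ) : ∃ C : ℝ, 0 < C ∧
    ∀ (n : ℕ) (x : E d) (s : ℝ), 0 ≤ s →
    ‖Kf s (mtest ρ n x) - Ks s x‖ ^ 2 ≤ C * ((2 : ℝ) ^ (s - n) + (2 : ℝ) ^ (-s)) := by
  obtain ⟨C1, hC1, hb1⟩ := Kf_mden_zero hd ρ hρ
  obtain ⟨C2, hC2, hb2⟩ := Kf_avg d
  obtain ⟨r, hr, hsup⟩ := mden_supp ρ hρ
  refine ⟨2 * C2 * r + 2 * C1, by positivity, ?_⟩
  intro n x s hs
  have h1 := hb1 s hs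
  have h2 := hb2 s (mden ρ n x) x (r * (2 : ℝ)⁻¹ ^ n) (integrable_mden ρ hρ n x)
    (mden_nonneg ρ hρ n x) (integral_mden ρ hρ n x) (fun z hz => hsup n x z hz)
  have h3 : Kf s (mtest ρ n x) - Ks s x = (Kf s (mden ρ n x) - Ks s x) - Kf s (mden ρ 0 0) := by
    rw [Kf_mtest ρ hρ n x s]
    abel
  have h4 : C2 * (2 : ℝ) ^ s * (r * (2 : ℝ)⁻¹ ^ n) = C2 * r * (2 : ℝ) ^ (s - n) := by
    rw [Real.rpow_sub (by norm_num), Real.rpow_natCast, inv_pow, div_eq_mul_inv]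
    ring
  rw [h4] at h2
  rw [h3]
  have h5 := sq_norm_sub_le (Kf s (mden ρ n x) - Ks s x) (Kf s (mden ρ 0 0))
  have hp1 : (0 : ℝ) < (2 : ℝ) ^ (s - n) := by positivity
  have hp2 : (0 : ℝ) < (2 : ℝ) ^ (-s) := by positivity
  have h6 : 0 ≤ C2 * r * (2 : ℝ) ^ (-s) := by positivity
  have h7 : 0 ≤ C1 * (2 : ℝ) ^ (s - n) := by positivity
  nlinarith

theorem err_high (hd : 1 ≤ d) (ρ : E d → ℝ) (hρ : IsMollifier ρ) : ∃ C : ℝ, 0 < C ∧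
    ∀ (n : ℕ) (x : E d) (s : ℝ), (n : ℝ) ≤ s →
    ‖Kf s (mtest ρ n x)‖ ^ 2 ≤ C * ((2 : ℝ) ^ (n - s) + (2 : ℝ) ^ (-s)) := by
  obtain ⟨C1, hC1, hb1⟩ := Kf_mden_zero hd ρ hρ
  obtain ⟨C, hC, hb⟩ := norm_Kf_sup d
  obtain ⟨D, hD, hm⟩ := mden_bdd ρ hρ
  refine ⟨2 * (C * D) + 2 * C1, by positivity, ?_⟩
  intro n x s hs
  have hs0 : 0 ≤ s := le_trans (Nat.cast_nonneg n) hs
  have h1 := hb1 s hs0
  have h2 := hb s (mden ρ n x) (D * ((2 : ℝ) ^ n) ^ d) (integrable_mden ρ hρ n x)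
    (fun z => hm n x z)
  rw [mden_int_abs ρ hρ n x, mul_one] at h2
  have h3 : C * (D * ((2 : ℝ) ^ n) ^ d) * ((2 : ℝ) ^ s)⁻¹ ^ d ≤
      C * D * (2 : ℝ) ^ ((n : ℝ) - s) := by
    have h := mul_le_mul_of_nonneg_left (pow_inv_le (n := n) hd hs)
      (by positivity : (0 : ℝ) ≤ C * D)
    calc C * (D * ((2 : ℝ) ^ n) ^ d) * ((2 : ℝ) ^ s)⁻¹ ^ d
        = C * D * (((2 : ℝ) ^ n) ^ d * ((2 : ℝ) ^ s)⁻¹ ^ d) := by ring
      _ ≤ C * D * (2 : ℝ) ^ ((n : ℝ) - s) := h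
  rw [Kf_mtest ρ hρ n x s]
  have h5 := sq_norm_sub_le (Kf s (mden ρ n x)) (Kf s (mden ρ 0 0))
  have hp1 : (0 : ℝ) < (2 : ℝ) ^ ((n : ℝ) - s) := by positivity
  have hp2 : (0 : ℝ) < (2 : ℝ) ^ (-s) := by positivity
  have h6 : 0 ≤ C * D * (2 : ℝ) ^ (-s) := by positivity
  have h7 : 0 ≤ C1 * (2 : ℝ) ^ ((n : ℝ) - s) := by positivity
  nlinarith

private theorem Kf_mtest_sub (ρ : E d → ℝ) (hρ : IsMollifier ρ) (n : ℕ) (x y : E d) (s : ℝ) :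
    Kf s (mtest ρ n x) - Kf s (mtest ρ n y) = Kf s (mden ρ n x) - Kf s (mden ρ n y) := by
  rw [Kf_mtest ρ hρ n x s, Kf_mtest ρ hρ n y s]
  abel

theorem inc_low (ρ : E d → ℝ) (hρ : IsMollifier ρ) : ∃ C : ℝ, 0 < C ∧
    ∀ (n : ℕ) (x y : E d) (s : ℝ),
    ‖Kf s (mtest ρ n x) - Kf s (mtest ρ n y)‖ ^ 2 ≤ C * (2 : ℝ) ^ s * ‖x - y‖ := by
  obtain ⟨C, hC, hb⟩ := Kf_shift d
  refine ⟨C, hC, ?_⟩
  intro n x y s
  rw [Kf_mtest_sub ρ hρ n x y s]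
  exact hb s (scaled ρ n) x y (integrable_scaled ρ hρ n)
    (fun z => by unfold scaled; exact mul_nonneg (by positivity) (hρ.nonneg _))
    (integral_scaled ρ hρ n)

theorem inc_high (hd : 1 ≤ d) (ρ : E d → ℝ) (hρ : IsMollifier ρ) : ∃ C : ℝ, 0 < C ∧
    ∀ (n : ℕ) (x y : E d) (s : ℝ), (n : ℝ) ≤ s →
    ‖Kf s (mtest ρ n x) - Kf s (mtest ρ n y)‖ ^ 2 ≤
      C * (2 : ℝ) ^ (n - s) * ((2 : ℝ) ^ n * ‖x - y‖) := by
  obtain ⟨C, hC, hb⟩ := norm_Kf_sup d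
  obtain ⟨D, hD, hm⟩ := mden_lip ρ hρ
  refine ⟨2 * (C * D), by positivity, ?_⟩
  intro n x y s hs
  rw [Kf_mtest_sub ρ hρ n x y s,
    ← Kf_sub s _ _ (integrable_mden ρ hρ n x) (integrable_mden ρ hρ n y)]
  have h1 := hb s (mden ρ n x - mden ρ n y)
    (D * ((2 : ℝ) ^ n) ^ d * ((2 : ℝ) ^ n * ‖x - y‖))
    ((integrable_mden ρ hρ n x).sub (integrable_mden ρ hρ n y))
    (fun z => by
      rw [Pi.sub_apply]
      exact hm n x y z)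
  have h2 := mden_int_abs_sub ρ hρ n n x y
  have h3 := pow_inv_le (n := n) hd hs
  have hn : 0 ≤ ‖x - y‖ := norm_nonneg _
  calc ‖Kf s (mden ρ n x - mden ρ n y)‖ ^ 2
      ≤ C * (D * ((2 : ℝ) ^ n) ^ d * ((2 : ℝ) ^ n * ‖x - y‖)) *
        (∫ z, |(mden ρ n x - mden ρ n y) z|) * ((2 : ℝ) ^ s)⁻¹ ^ d := h1
    _ ≤ C * (D * ((2 : ℝ) ^ n) ^ d * ((2 : ℝ) ^ n * ‖x - y‖)) * 2 * ((2 : ℝ) ^ s)⁻¹ ^ d := by
        gcongr
    _ = 2 * (C * D) * ((2 : ℝ) ^ n * ‖x - y‖) * (((2 : ℝ) ^ n) ^ d * ((2 : ℝ) ^ s)⁻¹ ^ d) := by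
        ring
    _ ≤ 2 * (C * D) * ((2 : ℝ) ^ n * ‖x - y‖) * (2 : ℝ) ^ ((n : ℝ) - s) := by gcongr
    _ = 2 * (C * D) * (2 : ℝ) ^ ((n : ℝ) - s) * ((2 : ℝ) ^ n * ‖x - y‖) := by ring

end Pool.Agent.Thick
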