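import Pool.Agent.Thick.Vv
import Pool.Agent.Thick.ErrC

set_option autoImplicit false

/-!
# Err: comparison of the mollified field with the scale decomposition in `L²(ℝ; L²(ℝ^d))`

* `coeFn_err`: `coeFn_embed` (Emb), `MemLp.coeFn_toLp` for the `vv k x`, `Lp.coeFn_sub`, coercion of finite
  sums; the sum of the indicators of `(k, k+1]`, `k < n`, is the indicator of `(0, n]`.
* `err_norm`: the squared norm is the integral over `s` of the squared norm of the representative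
  (`L2.inner_def`), split at `0` and `n`: on `s ≤ 0` `err_low` (ErrC) and `∫_{s ≤ 0} 2^s = 1 / log 2`; on
  `(0, n]` `err_mid` and `∫_{s ≤ n} 2^{s-n} ds`, `∫_{s > 0} 2^{-s} ds`; on `s > n` `err_high`. (One pointwise
  bound for all `s` by an explicit integrable function is convenient.)
* `err_incr`: `s ≤ 0`: `inc_low`; `(0, n]`: `‖(a - b) - (a' - b')‖² ≤ 2 ‖a - a'‖² + 2 ‖b - b'‖²`, `inc_low` and
  `Ks_diff` (KfD), so `≤ C 2^s ‖x - y‖` on `s ≤ n` with `∫_{s ≤ n} 2^s ds = 2^n / log 2`; `s > n`: `inc_high` and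
  `∫_{s > n} 2^{n-s} ds = 1 / log 2`.
-/

namespace Pool.Agent.Thick

open MeasureTheory ProbabilityTheory Filter Topology Set

variable {d : ℕ}

/-- The error vector. -/
noncomputable def err (ρ : E d → ℝ) (n : ℕ) (x : E d) : HH d :=
  embed (mtest ρ n x) - ∑ k ∈ Finset.range n, vv k x

private theorem integrable_two_abs : Integrable fun s : ℝ => (2 : ℝ) ^ (-|s|) := by
  have hl : 0 < Real.log 2 := Real.log_pos (by norm_num)
  have h : (fun s : ℝ => (2 : ℝ) ^ (-|s|)) = fun s : ℝ => Real.exp (-Real.log 2 * |s|) := by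
    funext s
    rw [Real.rpow_def_of_pos (by norm_num)]
    congr 1
    ring
  rw [h, ← integrableOn_univ, ← Iic_union_Ioi (a := (0 : ℝ))]
  refine IntegrableOn.union ?_ ?_
  · have h1 : IntegrableOn (fun s : ℝ => Real.exp (Real.log 2 * s)) (Iic 0) := by
      exact integrableOn_exp_mul_Iic hl 0
    refine h1.congr_fun (fun s hs => ?_) measurableSet_Iic
    simp only
    rw [abs_of_nonpos hs]
    congr 1
    ring
  · have h1 : IntegrableOn (fun s : ℝ => Real.exp (-Real.log 2 * s)) (Ioi 0) :=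
      integrableOn_exp_mul_Ioi (by linarith) 0
    refine h1.congr_fun (fun s hs => ?_) measurableSet_Ioi
    simp only
    rw [abs_of_pos hs]

private theorem norm_sq_HH {d : ℕ} (u : HH d) : ‖u‖ ^ 2 = ∫ s : ℝ, ‖u s‖ ^ 2 := by
  rw [← real_inner_self_eq_norm_sq, L2.inner_def]
  exact integral_congr_ae (Eventually.of_forall fun s => real_inner_self_eq_norm_sq _)

private theorem norm_sub_sq_le {H : Type} [NormedAddCommGroup H] [InnerProductSpace ℝ H]
    (u v : H) : ‖u - v‖ ^ 2 ≤ 2 * ‖u‖ ^ 2 + 2 * ‖v‖ ^ 2 := by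
  have h := norm_sub_le u v
  have h1 := norm_nonneg (u - v)
  nlinarith [sq_nonneg (‖u‖ - ‖v‖), norm_nonneg u, norm_nonneg v]

private theorem sum_ind {d : ℕ} (n : ℕ) (x : E d) (s : ℝ) :
    ∑ k ∈ Finset.range n, Set.indicator (Set.Ioc (k : ℝ) (k + 1)) (fun s : ℝ => Ks s x) s =
      Set.indicator (Set.Ioc (0 : ℝ) n) (fun s => Ks s x) s := by
  induction n with
  | zero =>
    simp
  | succ n ih =>
    rw [Finset.sum_range_succ, ih]
    have h1 : Set.Ioc (0 : ℝ) ((n + 1 : ℕ) : ℝ) = Set.Ioc (0 : ℝ) n ∪ Set.Ioc (n : ℝ) (n + 1) := by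
      rw [Set.Ioc_union_Ioc_eq_Ioc (Nat.cast_nonneg n) (by linarith)]
      push_cast
      rfl
    have h2 : Disjoint (Set.Ioc (0 : ℝ) n) (Set.Ioc (n : ℝ) (n + 1)) := by
      rw [Set.disjoint_left]
      intro t ht ht'
      exact absurd ht.2 (not_le.2 ht'.1)
    rw [h1, Set.indicator_union_of_disjoint h2]

theorem coeFn_err (hd : 1 ≤ d) (ρ : E d → ℝ) (hρ : IsMollifier ρ) (n : ℕ) (x : E d) :
    (err ρ n x : ℝ → H0 d) =ᵐ[volume] fun s =>
      Kf s (mtest ρ n x) - Set.indicator (Set.Ioc (0 : ℝ) n) (fun s => Ks s x) s := by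
  have h1 : (vv (d := d) · x : ℕ → HH d) = fun k => (memLp_vv k x).toLp _ := rfl
  have h2 : ∀ᵐ s ∂(volume : Measure ℝ), ∀ k : ℕ, (vv k x : ℝ → H0 d) s =
      Set.indicator (Set.Ioc (k : ℝ) (k + 1)) (fun s : ℝ => Ks s x) s :=
    ae_all_iff.2 fun k => (memLp_vv k x).coeFn_toLp
  have h3 := coeFn_embed hd (mtest ρ n x) (cc0_of_test0 (test0_mtest ρ hρ n x))
  have h4 := Lp.coeFn_sub (embed (mtest ρ n x)) (∑ k ∈ Finset.range n, vv k x)
  have h5 := Lp.coeFn_fun_finsetSum (Finset.range n) fun k => (vv k x : HH d)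
  filter_upwards [h2, h3, h4, h5] with s h2 h3 h4 h5
  change (embed (mtest ρ n x) - ∑ k ∈ Finset.range n, vv k x : HH d) s = _
  rw [h4, Pi.sub_apply, h3, h5, Finset.sum_congr rfl fun k _ => h2 k, sum_ind]

theorem err_norm (hd : 1 ≤ d) (ρ : E d → ℝ) (hρ : IsMollifier ρ) : ∃ C : ℝ,
    ∀ (n : ℕ) (x : E d), ‖err ρ n x‖ ^ 2 ≤ C * (1 + ‖x‖) := by
  obtain ⟨C₁, hC₁, h₁⟩ := err_low ρ hρ
  obtain ⟨C₂, hC₂, h₂⟩ := err_mid hd ρ hρ
  obtain ⟨C₃, hC₃, h₃⟩ := err_high hd ρ hρ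
  set I := ∫ s : ℝ, (2 : ℝ) ^ (-|s|) with hI
  refine ⟨(C₁ + C₂ + C₃) * (2 * I), fun n x => ?_⟩
  set A := (C₁ + C₂ + C₃) * (1 + ‖x‖) with hA
  have hx : 1 ≤ 1 + ‖x‖ := by
    have := norm_nonneg x
    linarith
  have hA1 : C₁ * (1 + ‖x‖) ≤ A := by
    rw [hA]
    exact mul_le_mul_of_nonneg_right (by linarith) (by linarith)
  have hA2 : C₂ ≤ A := by
    rw [hA]
    nlinarith
  have hA3 : C₃ ≤ A := by
    rw [hA]
    nlinarith
  have hA0 : 0 ≤ A := by
    rw [hA]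
    positivity
  have hint : Integrable fun s : ℝ => A * ((2 : ℝ) ^ (-|s|) + (2 : ℝ) ^ (-|s - n|)) :=
    (integrable_two_abs.add (integrable_two_abs.comp_sub_right (n : ℝ))).const_mul A
  have hbound : ∀ᵐ s ∂(volume : Measure ℝ), ‖(err ρ n x : ℝ → H0 d) s‖ ^ 2 ≤
      A * ((2 : ℝ) ^ (-|s|) + (2 : ℝ) ^ (-|s - n|)) := by
    filter_upwards [coeFn_err hd ρ hρ n x] with s hs
    rw [hs]
    have hp1 : 0 < (2 : ℝ) ^ (-|s|) := Real.rpow_pos_of_pos (by norm_num) _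
    have hp2 : 0 < (2 : ℝ) ^ (-|s - n|) := Real.rpow_pos_of_pos (by norm_num) _
    rcases le_or_gt s 0 with h | h
    · have h4 : s ∉ Set.Ioc (0 : ℝ) n := fun h5 => absurd h5.1 (not_lt.2 h)
      rw [Set.indicator_of_notMem h4, sub_zero]
      refine (h₁ n x s).trans ?_
      have h5 : (2 : ℝ) ^ s = (2 : ℝ) ^ (-|s|) := by rw [abs_of_nonpos h, neg_neg]
      rw [h5]
      nlinarith
    · rcases le_or_gt s n with h' | h'
      · have h4 : s ∈ Set.Ioc (0 : ℝ) n := ⟨h, h'⟩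
        rw [Set.indicator_of_mem h4]
        refine (h₂ n x s h.le).trans ?_
        have h5 : (2 : ℝ) ^ (s - n) = (2 : ℝ) ^ (-|s - n|) := by
          rw [abs_of_nonpos (by linarith), neg_neg]
        have h6 : (2 : ℝ) ^ (-s) = (2 : ℝ) ^ (-|s|) := by rw [abs_of_pos h]
        rw [h5, h6]
        nlinarith
      · have h4 : s ∉ Set.Ioc (0 : ℝ) n := fun h5 => absurd h5.2 (not_le.2 h')
        rw [Set.indicator_of_notMem h4, sub_zero]
        refine (h₃ n x s h'.le).trans ?_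
        have h5 : (2 : ℝ) ^ (n - s) = (2 : ℝ) ^ (-|s - n|) := by
          rw [abs_of_pos (by linarith), neg_sub]
        have h6 : (2 : ℝ) ^ (-s) = (2 : ℝ) ^ (-|s|) := by rw [abs_of_pos h]
        rw [h5, h6]
        nlinarith
  rw [norm_sq_HH]
  calc ∫ s : ℝ, ‖(err ρ n x : ℝ → H0 d) s‖ ^ 2
      ≤ ∫ s : ℝ, A * ((2 : ℝ) ^ (-|s|) + (2 : ℝ) ^ (-|s - n|)) :=
        integral_mono_of_nonneg (Eventually.of_forall fun s => sq_nonneg _) hint hbound
    _ = A * (I + I) := by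
        rw [integral_const_mul, integral_add integrable_two_abs
          (integrable_two_abs.comp_sub_right (n : ℝ)),
          integral_sub_right_eq_self (fun s : ℝ => (2 : ℝ) ^ (-|s|)) (n : ℝ)]
    _ = (C₁ + C₂ + C₃) * (2 * I) * (1 + ‖x‖) := by
        rw [hA]
        ring

theorem err_incr (hd : 1 ≤ d) (ρ : E d → ℝ) (hρ : IsMollifier ρ) : ∃ C : ℝ,
    ∀ (n : ℕ) (x y : E d), ‖err ρ n x - err ρ n y‖ ^ 2 ≤ C * 2 ^ n * dist x y := by
  obtain ⟨C₁, hC₁, h₁⟩ := inc_low ρ hρ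
  obtain ⟨C₂, hC₂, h₂⟩ := Ks_diff d
  obtain ⟨C₃, hC₃, h₃⟩ := inc_high hd ρ hρ
  set I := ∫ s : ℝ, (2 : ℝ) ^ (-|s|) with hI
  refine ⟨(2 * C₁ + 2 * C₂ + C₃) * I, fun n x y => ?_⟩
  set A := (2 * C₁ + 2 * C₂ + C₃) * ((2 : ℝ) ^ n * ‖x - y‖) with hA
  have hN : 0 ≤ (2 : ℝ) ^ n * ‖x - y‖ := by positivity
  have hint : Integrable fun s : ℝ => A * (2 : ℝ) ^ (-|s - n|) :=
    (integrable_two_abs.comp_sub_right (n : ℝ)).const_mul A
  have hlow : ∀ s : ℝ, s ≤ n → (2 : ℝ) ^ s * ‖x - y‖ =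
      (2 : ℝ) ^ (-|s - n|) * ((2 : ℝ) ^ n * ‖x - y‖) := by
    intro s hs
    rw [abs_of_nonpos (by linarith), neg_neg, ← mul_assoc]
    congr 1
    rw [← Real.rpow_natCast, ← Real.rpow_add (by norm_num)]
    congr 1
    ring
  have hbound : ∀ᵐ s ∂(volume : Measure ℝ),
      ‖((err ρ n x - err ρ n y : HH d) : ℝ → H0 d) s‖ ^ 2 ≤ A * (2 : ℝ) ^ (-|s - n|) := by
    filter_upwards [coeFn_err hd ρ hρ n x, coeFn_err hd ρ hρ n y,
      Lp.coeFn_sub (err ρ n x) (err ρ n y)] with s hs hs' hsub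
    rw [hsub, Pi.sub_apply, hs, hs']
    have hp2 : 0 < (2 : ℝ) ^ (-|s - n|) := Real.rpow_pos_of_pos (by norm_num) _
    have hpN : 0 ≤ (2 : ℝ) ^ (-|s - n|) * ((2 : ℝ) ^ n * ‖x - y‖) := by positivity
    have hAe : A * (2 : ℝ) ^ (-|s - n|) = (2 * C₁ + 2 * C₂ + C₃) *
        ((2 : ℝ) ^ (-|s - n|) * ((2 : ℝ) ^ n * ‖x - y‖)) := by
      rw [hA]
      ring
    rw [hAe]
    rcases le_or_gt s 0 with h | h
    · have h4 : s ∉ Set.Ioc (0 : ℝ) n := fun h5 => absurd h5.1 (not_lt.2 h)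
      rw [Set.indicator_of_notMem h4, Set.indicator_of_notMem h4, sub_zero, sub_zero]
      refine (h₁ n x y s).trans ?_
      rw [mul_assoc, hlow s (h.trans (Nat.cast_nonneg n))]
      exact mul_le_mul_of_nonneg_right (by linarith) hpN
    · rcases le_or_gt s n with h' | h'
      · have h4 : s ∈ Set.Ioc (0 : ℝ) n := ⟨h, h'⟩
        rw [Set.indicator_of_mem h4, Set.indicator_of_mem h4]
        have h5 : Kf s (mtest ρ n x) - Ks s x - (Kf s (mtest ρ n y) - Ks s y) =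
            (Kf s (mtest ρ n x) - Kf s (mtest ρ n y)) - (Ks s x - Ks s y) := by abel
        rw [h5]
        refine (norm_sub_sq_le _ _).trans ?_
        have h6 := h₁ n x y s
        have h7 := h₂ s x y
        rw [mul_assoc, hlow s h'] at h6 h7
        nlinarith
      · have h4 : s ∉ Set.Ioc (0 : ℝ) n := fun h5 => absurd h5.2 (not_le.2 h')
        rw [Set.indicator_of_notMem h4, Set.indicator_of_notMem h4, sub_zero, sub_zero]
        refine (h₃ n x y s h'.le).trans ?_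
        have h5 : (2 : ℝ) ^ (n - s) = (2 : ℝ) ^ (-|s - n|) := by
          rw [abs_of_pos (by linarith), neg_sub]
        rw [h5, mul_assoc]
        exact mul_le_mul_of_nonneg_right (by linarith) hpN
  rw [norm_sq_HH]
  calc ∫ s : ℝ, ‖((err ρ n x - err ρ n y : HH d) : ℝ → H0 d) s‖ ^ 2
      ≤ ∫ s : ℝ, A * (2 : ℝ) ^ (-|s - n|) :=
        integral_mono_of_nonneg (Eventually.of_forall fun s => sq_nonneg _) hint hbound
    _ = A * I := by
        rw [integral_const_mul,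
          integral_sub_right_eq_self (fun s : ℝ => (2 : ℝ) ^ (-|s|)) (n : ℝ)]
    _ = (2 * C₁ + 2 * C₂ + C₃) * I * 2 ^ n * dist x y := by
        rw [hA, dist_eq_norm]
        ring

end Pool.Agent.Thick
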