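import Mathlib

set_option autoImplicit false

/-!
# Thick points of the whole-space log-correlated Gaussian field (MP_688ce7_pr)

Definitions of the problem: test functions with mean zero, generalized functions modulo
constants, the whole-space log-correlated Gaussian field, mollifications, thick points.
-/

namespace Pool.Agent.Thick

open MeasureTheory ProbabilityTheory Filter Topology Set


/-- The space `ℝ^d`. -/
abbrev E (d : ℕ) : Type := EuclideanSpace ℝ (Fin d)

/-- Smooth compactly supported test functions with mean zero. -/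
def Test0 {d : ℕ} (f : E d → ℝ) : Prop :=
  ContDiff ℝ (⊤ : ℕ∞) f ∧ HasCompactSupport f ∧ ∫ x, f x = 0

/-- The logarithmic covariance form. -/
noncomputable def logCov {d : ℕ} (f g : E d → ℝ) : ℝ :=
  ∫ x, ∫ y, f x * g y * Real.log (1 / dist x y)

/-- Generalized functions modulo constants: linear functionals on the test functions with mean
zero which are (sequentially) continuous for the usual convergence of test functions: supports in
a common compact set and uniform convergence of all derivatives. -/
structure IsDistr {d : ℕ} (u : (E d → ℝ) → ℝ) : Prop where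
  add : ∀ f g, Test0 f → Test0 g → u (f + g) = u f + u g
  smul : ∀ (c : ℝ) (f : E d → ℝ), Test0 f → u (c • f) = c * u f
  cont : ∀ (F : ℕ → E d → ℝ) (f : E d → ℝ), (∀ n, Test0 (F n)) → Test0 f →
    (∃ K : Set (E d), IsCompact K ∧ ∀ n, tsupport (F n) ⊆ K) →
    (∀ m : ℕ, TendstoUniformly (fun n => iteratedFDeriv ℝ m (F n)) (iteratedFDeriv ℝ m f) atTop) →
    Tendsto (fun n => u (F n)) atTop (𝓝 (u f))

/-- The whole-space log-correlated Gaussian field, defined modulo a global additive constant: a
random generalized function modulo constants such that the pairing with every test function `f` of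
mean zero is a centered Gaussian variable of variance `logCov f f` (by linearity, the pairings are
jointly Gaussian with covariances `logCov f g`). -/
structure IsLGF {d : ℕ} {Ω : Type} [MeasurableSpace Ω] (P : Measure Ω)
    (φ : Ω → (E d → ℝ) → ℝ) : Prop where
  distr : ∀ᵐ ω ∂P, IsDistr (φ ω)
  meas : ∀ f, Test0 f → Measurable fun ω => φ ω f
  law : ∀ f, Test0 f → P.map (fun ω => φ ω f) = gaussianReal 0 (logCov f f).toNNReal

/-- Mollifiers: smooth, nonnegative, compactly supported, of integral one. -/
structure IsMollifier {d : ℕ} (ρ : E d → ℝ) : Prop where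
  smooth : ContDiff ℝ (⊤ : ℕ∞) ρ
  supp : HasCompactSupport ρ
  nonneg : ∀ x, 0 ≤ ρ x
  int : ∫ x, ρ x = 1

/-- `ρ_n(x) = 2^{nd} ρ(2^n x)`. -/
noncomputable def scaled {d : ℕ} (ρ : E d → ℝ) (n : ℕ) (x : E d) : ℝ :=
  (2 : ℝ) ^ (n * d) * ρ ((2 : ℝ) ^ n • x)

/-- The test function `y ↦ ρ_n(x - y) - ρ(-y)`: pairing with it gives `(φ * ρ_n)(x) - (φ * ρ)(0)`. -/
noncomputable def mtest {d : ℕ} (ρ : E d → ℝ) (n : ℕ) (x : E d) : E d → ℝ :=
  fun y => scaled ρ n (x - y) - ρ (-y)

/-- The mollified field `φ_n(x) = (φ * ρ_n)(x)` of a realisation `u`, the additive constant being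
fixed by `(u * ρ)(0) = c`. (Every normalisation of the constant is of this form for some random
`c`, for example the one for which the average over the unit sphere is zero.) -/
noncomputable def moll {d : ℕ} (ρ : E d → ℝ) (u : (E d → ℝ) → ℝ) (c : ℝ) (n : ℕ) (x : E d) : ℝ :=
  u (mtest ρ n x) + c

/-- The set of `α`-thick points: `liminf φ_n(x) / (n log 2) ≥ α`. -/
noncomputable def thick {d : ℕ} (ρ : E d → ℝ) (u : (E d → ℝ) → ℝ) (c : ℝ) (α : ℝ) : Set (E d) :=
  {x | (α : EReal) ≤
    liminf (fun n : ℕ => ((moll ρ u c n x / (n * Real.log 2) : ℝ) : EReal)) atTop}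

/-- Some connected component of `A` has more than one point. -/
def HasComp {d : ℕ} (A : Set (E d)) : Prop :=
  ∃ x ∈ A, (connectedComponentIn A x).Nontrivial

end Pool.Agent.Thick
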