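import Pool.Agent.Thick.G0

set_option autoImplicit false

/-!
# G1: existence of isonormal Gaussian families

Proof. Let `b : HilbertBasis ι ℝ H` (`exists_hilbertBasis`; `ι` is a set of `H`, a type in `Type`), and
`(Ω, P, X)` independent standard Gaussian variables indexed by `ι` (`ProbabilityTheory.exists_iid`
with `μ = gaussianReal 0 1`). The classes `e i` of `X i` in `L²(P)` are orthonormal
(`∫ X i X j = 0` by independence, `∫ X i² = 1` variance of `gaussianReal`). Hence there is a linear
isometry `J : H → L²(P)` with `J (b i) = e i`: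
`J = (orthonormal family).linearIsometry ∘ b.repr` (`OrthogonalFamily.linearIsometry` from
`ℓ²(ι, ℝ)`, see also `HilbertBasis`, `Orthonormal.orthogonalFamily`; or extend by density with
`LinearIsometry.extend`/`LinearMap.extend`). Let `W f` be a measurable representative of `J f`
(`(Lp.stronglyMeasurable ..)` gives a strongly measurable one; it is measurable). `add`, `smul`:
linearity of `J` and `Lp.coeFn_add`, `Lp.coeFn_smul`. `law`: for a finite combination
`f = ∑ a i b i` the variable `W f = ∑ a i X i` almost surely is Gaussian with variance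
`∑ a i² = ‖f‖²` (independent Gaussians: characteristic functions, or
`iIndepFun.hasGaussianLaw`/`HasGaussianLaw.iIndepFun`-lemmas). In general `f` is a limit of finite
combinations `f n` (`b.hasSum_repr` or density of the span); `W (f n) → W f` in `L²`, hence in `L¹`, and
`|E exp(i t W(f n)) - E exp(i t W f)| ≤ |t| E |W (f n) - W f| → 0`, so the characteristic function of
`W f` is `exp (- t² ‖f‖² / 2)`: `Measure.ext_of_charFun`, `charFun_gaussianReal`. (Or tendsto in measure
and the continuity of characteristic functions, whatever is easier.)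
-/

namespace Pool.Agent.Thick

open MeasureTheory ProbabilityTheory Filter Topology Set

private theorem int_exp {Ω : Type} [MeasurableSpace Ω] (P : Measure Ω) [IsProbabilityMeasure P]
    (t : ℝ) (Y : Lp ℝ 2 P) :
    Integrable (fun ω => Complex.exp (t * (Y ω : ℝ) * Complex.I)) P := by
  refine (integrable_const (1 : ℝ)).mono' ?_ ?_
  · have h1 : Continuous fun y : ℝ => Complex.exp (t * y * Complex.I) := by fun_prop
    exact h1.comp_aestronglyMeasurable (Lp.aestronglyMeasurable Y)
  · refine Eventually.of_forall fun ω => ?_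
    rw [← Complex.ofReal_mul, Complex.norm_exp_ofReal_mul_I]

private theorem norm_exp_sub (t y z : ℝ) :
    ‖Complex.exp (t * y * Complex.I) - Complex.exp (t * z * Complex.I)‖ ≤ |t| * |y - z| := by
  have h1 : Complex.exp (t * y * Complex.I) - Complex.exp (t * z * Complex.I) =
      Complex.exp ((t * z : ℝ) * Complex.I) *
        (Complex.exp (Complex.I * (t * (y - z) : ℝ)) - 1) := by
    rw [mul_sub, mul_one, ← Complex.exp_add]
    push_cast
    congr 2
    ring
  rw [h1, norm_mul, Complex.norm_exp_ofReal_mul_I, one_mul, ← abs_mul, ← Real.norm_eq_abs]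
  exact Real.norm_exp_I_mul_ofReal_sub_one_le

private theorem int_norm_le {Ω : Type} [MeasurableSpace Ω] (P : Measure Ω)
    [IsProbabilityMeasure P] (Y : Lp ℝ 2 P) : ∫ ω, ‖(Y ω : ℝ)‖ ∂P ≤ ‖Y‖ := by
  rw [Lp.norm_def, integral_norm_eq_lintegral_enorm (Lp.aestronglyMeasurable Y),
    ← eLpNorm_one_eq_lintegral_enorm]
  refine ENNReal.toReal_mono (Lp.eLpNorm_ne_top Y) ?_
  exact eLpNorm_le_eLpNorm_of_exponent_le one_le_two (Lp.aestronglyMeasurable Y)

private theorem phi_lip {Ω : Type} [MeasurableSpace Ω] (P : Measure Ω) [IsProbabilityMeasure P]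
    (t : ℝ) (Y Z : Lp ℝ 2 P) :
    ‖∫ ω, Complex.exp (t * (Y ω : ℝ) * Complex.I) ∂P -
      ∫ ω, Complex.exp (t * (Z ω : ℝ) * Complex.I) ∂P‖ ≤ |t| * ‖Y - Z‖ := by
  rw [← integral_sub (int_exp P t Y) (int_exp P t Z)]
  refine (norm_integral_le_integral_norm _).trans ?_
  have h0 : Integrable (fun ω => ‖((Y - Z : Lp ℝ 2 P) ω : ℝ)‖) P :=
    ((Lp.memLp (Y - Z)).integrable one_le_two).norm
  have h1 : ∫ ω, ‖Complex.exp (t * (Y ω : ℝ) * Complex.I) -
      Complex.exp (t * (Z ω : ℝ) * Complex.I)‖ ∂P ≤
      ∫ ω, |t| * ‖((Y - Z : Lp ℝ 2 P) ω : ℝ)‖ ∂P := by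
    refine integral_mono_ae ((int_exp P t Y).sub (int_exp P t Z)).norm (h0.const_mul _) ?_
    filter_upwards [Lp.coeFn_sub Y Z] with ω hω
    rw [hω, Pi.sub_apply, Real.norm_eq_abs]
    exact norm_exp_sub t _ _
  refine h1.trans ?_
  rw [integral_const_mul]
  exact mul_le_mul_of_nonneg_left (int_norm_le P _) (abs_nonneg t)

private theorem phi_cont {Ω : Type} [MeasurableSpace Ω] (P : Measure Ω) [IsProbabilityMeasure P]
    (t : ℝ) : Continuous fun Y : Lp ℝ 2 P => ∫ ω, Complex.exp (t * (Y ω : ℝ) * Complex.I) ∂P := by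
  refine LipschitzWith.continuous (K := ⟨|t|, abs_nonneg t⟩) ?_
  refine LipschitzWith.of_dist_le_mul fun Y Z => ?_
  rw [dist_eq_norm, dist_eq_norm]
  exact phi_lip P t Y Z

theorem exists_isonormal (H : Type) [NormedAddCommGroup H] [InnerProductSpace ℝ H]
    [CompleteSpace H] :
    ∃ (Ω : Type) (_ : MeasurableSpace Ω) (P : Measure Ω) (W : H → Ω → ℝ), IsIsonormal P W := by
  classical
  obtain ⟨w, b, hb⟩ := exists_hilbertBasis ℝ H
  obtain ⟨Ω, mΩ, P, X, hXm, hXl, hXi, hP⟩ := exists_iid w (gaussianReal 0 1)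
  have hmem : ∀ i, MemLp (X i) 2 P := by
    intro i
    have h1 : MemLp id 2 (P.map (X i)) := by
      rw [(hXl i).map_eq]
      exact memLp_id_gaussianReal' 2 (by simp)
    exact h1.comp_measurePreserving (f := X i) ⟨hXm i, rfl⟩
  have hint : ∀ i, Integrable (X i) P := fun i => (hmem i).integrable one_le_two
  have hmean : ∀ i, ∫ ω, X i ω ∂P = 0 := by
    intro i
    have h1 : ∫ x, x ∂(P.map (X i)) = ∫ ω, X i ω ∂P :=
      integral_map (hXm i).aemeasurable aestronglyMeasurable_id
    rw [← h1, (hXl i).map_eq, integral_id_gaussianReal]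
  have hsq : ∀ i, ∫ ω, X i ω * X i ω ∂P = 1 := by
    intro i
    have h1 : ∫ x, x * x ∂(P.map (X i)) = ∫ ω, X i ω * X i ω ∂P :=
      integral_map (hXm i).aemeasurable (by fun_prop)
    rw [← h1, (hXl i).map_eq]
    have h2 := variance_fun_id_gaussianReal (μ := 0) (v := 1)
    rw [variance_eq_integral measurable_id'.aemeasurable] at h2
    simp only [integral_id_gaussianReal, sub_zero] at h2
    simp only [← pow_two]
    exact h2
  let e : w → Lp ℝ 2 P := fun i => (hmem i).toLp (X i)
  have hinner : ∀ i j, inner ℝ (e i) (e j) = ∫ ω, X i ω * X j ω ∂P := by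
    intro i j
    rw [L2.inner_def]
    refine integral_congr_ae ?_
    filter_upwards [(hmem i).coeFn_toLp, (hmem j).coeFn_toLp] with ω h1 h2
    change inner ℝ ((e i : Ω → ℝ) ω) ((e j : Ω → ℝ) ω) = _
    rw [show (e i : Ω → ℝ) ω = X i ω from h1, show (e j : Ω → ℝ) ω = X j ω from h2]
    simp [mul_comm]
  have he : Orthonormal ℝ e := by
    rw [orthonormal_iff_ite]
    intro i j
    rw [hinner]
    split_ifs with hij
    · rw [hij]
      exact hsq j
    · have h1 := (hXi.indepFun hij).integral_mul_eq_mul_integral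
        (hXm i).aestronglyMeasurable (hXm j).aestronglyMeasurable
      have h2 : ∫ ω, X i ω * X j ω ∂P = (∫ ω, X i ω ∂P) * ∫ ω, X j ω ∂P := h1
      rw [h2, hmean, zero_mul]
  let J : H →ₗᵢ[ℝ] Lp ℝ 2 P :=
    he.orthogonalFamily.linearIsometry.comp b.repr.toLinearIsometry
  have hJb : ∀ i, J (b i) = e i := by
    intro i
    change he.orthogonalFamily.linearIsometry (b.repr (b i)) = e i
    rw [b.repr_self, OrthogonalFamily.linearIsometry_apply_single]
    simp
  have hJs : ∀ (s : Finset w) (a : w → ℝ),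
      (J (∑ i ∈ s, a i • b i) : Ω → ℝ) =ᵐ[P] fun ω => ∑ i ∈ s, a i * X i ω := by
    intro s a
    induction s using Finset.induction_on with
    | empty =>
      rw [Finset.sum_empty, map_zero]
      filter_upwards [Lp.coeFn_zero ℝ 2 P] with ω hω
      rw [hω, Finset.sum_empty]
      rfl
    | insert i s hi ih =>
      rw [Finset.sum_insert hi, map_add, map_smul, hJb]
      filter_upwards [Lp.coeFn_add (a i • e i) (J (∑ i ∈ s, a i • b i)),
        Lp.coeFn_smul (a i) (e i), (hmem i).coeFn_toLp, ih] with ω h1 h2 h3 h4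
      rw [h1, Pi.add_apply, h2, Pi.smul_apply, show (e i : Ω → ℝ) ω = X i ω from h3, h4,
        Finset.sum_insert hi, smul_eq_mul]
  have hfin : ∀ (s : Finset w) (a : w → ℝ) (t : ℝ),
      ∫ ω, Complex.exp (t * (J (∑ i ∈ s, a i • b i) ω : ℝ) * Complex.I) ∂P =
        Complex.exp (-((‖∑ i ∈ s, a i • b i‖ ^ 2 * t ^ 2 / 2 : ℝ) : ℂ)) := by
    intro s a t
    have h1 : ∫ ω, Complex.exp (t * (J (∑ i ∈ s, a i • b i) ω : ℝ) * Complex.I) ∂P =
        charFun (P.map fun ω => ∑ i ∈ s, a i * X i ω) t := by
      have h2 : AEMeasurable (fun ω => ∑ i ∈ s, a i * X i ω) P := by fun_prop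
      rw [charFun_apply_real, integral_map h2 (by fun_prop)]
      refine integral_congr_ae ?_
      filter_upwards [hJs s a] with ω hω
      rw [hω]
    have h3 : iIndepFun (fun i ω => a i * X i ω) P :=
      hXi.comp (fun i x => a i * x) fun i => measurable_const_mul (a i)
    have h4 := iIndepFun.charFun_map_fun_finsetSum_eq_prod (s := s) (P := P)
      (X := fun i ω => a i * X i ω) (fun i _ => by fun_prop) (h3.restrict _)
    rw [h1, h4, Finset.prod_apply]
    have h5 : ∀ i, charFun (P.map fun ω => a i * X i ω) t =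
        Complex.exp (-((a i ^ 2 * t ^ 2 / 2 : ℝ) : ℂ)) := by
      intro i
      rw [charFun_map_mul_comp (hXm i).aemeasurable, (hXl i).map_eq, charFun_gaussianReal]
      congr 1
      push_cast
      ring
    have h6 : ‖∑ i ∈ s, a i • b i‖ ^ 2 = ∑ i ∈ s, a i ^ 2 := by
      rw [← real_inner_self_eq_norm_sq, b.orthonormal.inner_sum]
      refine Finset.sum_congr rfl fun i _ => ?_
      rw [pow_two]
      rfl
    rw [Finset.prod_congr rfl fun i _ => h5 i, ← Complex.exp_sum, h6]
    congr 1
    rw [Finset.sum_neg_distrib, ← Complex.ofReal_sum, Finset.sum_mul, Finset.sum_div]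
  refine ⟨Ω, mΩ, P, fun f ω => J f ω, hP, ?_, ?_, ?_, ?_⟩
  · intro f
    exact (Lp.stronglyMeasurable (J f)).measurable
  · intro f
    have hm : Measurable fun ω => J f ω := (Lp.stronglyMeasurable (J f)).measurable
    have : IsProbabilityMeasure (P.map fun ω => J f ω) :=
      Measure.isProbabilityMeasure_map hm.aemeasurable
    refine Measure.ext_of_charFun ?_
    funext t
    rw [charFun_apply_real, integral_map hm.aemeasurable (by fun_prop), charFun_gaussianReal]
    have h1 : HasSum (fun i => b.repr f i • b i) f := b.hasSum_repr f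
    have h2 : Tendsto (fun s : Finset w => ∫ ω,
        Complex.exp (t * (J (∑ i ∈ s, b.repr f i • b i) ω : ℝ) * Complex.I) ∂P) atTop
        (𝓝 (∫ ω, Complex.exp (t * (J f ω : ℝ) * Complex.I) ∂P)) := by
      have h3 : Continuous fun f : H =>
          ∫ ω, Complex.exp (t * (J f ω : ℝ) * Complex.I) ∂P := (phi_cont P t).comp J.continuous
      exact (h3.tendsto f).comp h1
    have h4 : Tendsto (fun s : Finset w =>
        Complex.exp (-((‖∑ i ∈ s, b.repr f i • b i‖ ^ 2 * t ^ 2 / 2 : ℝ) : ℂ))) atTop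
        (𝓝 (Complex.exp (-((‖f‖ ^ 2 * t ^ 2 / 2 : ℝ) : ℂ)))) := by
      have h5 : Continuous fun f : H => Complex.exp (-((‖f‖ ^ 2 * t ^ 2 / 2 : ℝ) : ℂ)) := by
        fun_prop
      exact (h5.tendsto f).comp h1
    have h6 := tendsto_nhds_unique (h2.congr fun s => hfin s _ t) h4
    rw [h6]
    congr 1
    push_cast
    ring
  · intro f g
    filter_upwards [Lp.coeFn_add (J f) (J g)] with ω hω
    rw [map_add, hω, Pi.add_apply]
  · intro c f
    filter_upwards [Lp.coeFn_smul c (J f)] with ω hω
    rw [map_smul, hω, Pi.smul_apply, smul_eq_mul]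

end Pool.Agent.Thick
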