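import Pool.Agent.Thick.G0

set_option autoImplicit false

/-!
# G2: the law of a process is determined by the laws of the finite linear combinations

* `map_eq_of_combos` (Cramer-Wold): both laws are projective limits of their finite marginals
  (`isProjectiveLimit_map`, `IsProjectiveLimit.unique`, see
  `Mathlib/Probability/Process/FiniteDimensionalLaws.lean`), so it is enough that for every finset `I`
  the laws of `(X t)_{t ∈ I}` and `(Y t)_{t ∈ I}` in `I → ℝ` are equal: `Measure.ext_of_charFunDual` (finite
  measures on a Banach space with the same `charFunDual` are equal); a continuous linear form on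
  `I → ℝ` is `x ↦ ∑ c t x t` and `charFunDual` of it is the characteristic function at `1` of the law of
  the combination.
* `IsIsonormal.map_eq`: `∑ c t W (f t) = W (∑ c t • f t)` almost surely (`IsIsonormal.sum`, G0) has the law
  `gaussianReal 0 (‖∑ c t • f t‖₊²)` and the norms are equal by the hypothesis
  (`‖∑ c t • f t‖² = ∑ ∑ c s c t ⟪f s, f t⟫`).
-/

namespace Pool.Agent.Thick

open MeasureTheory ProbabilityTheory Filter Topology Set
open scoped RealInnerProductSpace

theorem map_eq_of_combos {T Ω Ω' : Type} [MeasurableSpace Ω] [MeasurableSpace Ω'] (P : Measure Ω)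
    (P' : Measure Ω') [IsProbabilityMeasure P] [IsProbabilityMeasure P'] (X : T → Ω → ℝ)
    (Y : T → Ω' → ℝ) (hX : ∀ t, Measurable (X t)) (hY : ∀ t, Measurable (Y t))
    (h : ∀ (s : Finset T) (c : T → ℝ), P.map (fun ω => ∑ t ∈ s, c t * X t ω) =
      P'.map (fun ω => ∑ t ∈ s, c t * Y t ω)) :
    P.map (fun ω t => X t ω) = P'.map (fun ω t => Y t ω) := by
  classical
  have hX' : AEMeasurable (fun ω t => X t ω) P := (measurable_pi_lambda _ hX).aemeasurable
  have hY' : AEMeasurable (fun ω t => Y t ω) P' := (measurable_pi_lambda _ hY).aemeasurable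
  have h1 := isProjectiveLimit_map hX'
  have h2 := isProjectiveLimit_map hY'
  have key : (fun I : Finset T => P.map fun ω => I.restrict fun t => X t ω) =
      fun I : Finset T => P'.map fun ω => I.restrict fun t => Y t ω := by
    funext I
    have mX : Measurable (fun ω => I.restrict fun t => X t ω) :=
      measurable_pi_lambda _ fun i => hX i
    have mY : Measurable (fun ω => I.restrict fun t => Y t ω) :=
      measurable_pi_lambda _ fun i => hY i
    have := Measure.isProbabilityMeasure_map (μ := P) mX.aemeasurable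
    have := Measure.isProbabilityMeasure_map (μ := P') mY.aemeasurable
    apply Measure.ext_of_charFunDual
    funext L
    rw [charFunDual_eq_charFun_map_one, charFunDual_eq_charFun_map_one]
    congr 1
    rw [Measure.map_map L.continuous.measurable mX, Measure.map_map L.continuous.measurable mY]
    have hL : ∀ x : T → ℝ, L (I.restrict x) =
        ∑ t ∈ I, (if ht : t ∈ I then L (fun j => if (⟨t, ht⟩ : I) = j then 1 else 0) else 0) *
          x t := by
      intro x
      have h3 := LinearMap.pi_apply_eq_sum_univ (L : (I → ℝ) →ₗ[ℝ] ℝ) (I.restrict x)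
      rw [← Finset.sum_coe_sort I]
      refine h3.trans (Finset.sum_congr rfl fun i _ => ?_)
      rw [dif_pos i.2, smul_eq_mul, mul_comm]
      rfl
    have e1 : (L ∘ fun ω => I.restrict fun t => X t ω) = fun ω => ∑ t ∈ I,
        (if ht : t ∈ I then L (fun j => if (⟨t, ht⟩ : I) = j then 1 else 0) else 0) * X t ω := by
      funext ω
      exact hL fun t => X t ω
    have e2 : (L ∘ fun ω => I.restrict fun t => Y t ω) = fun ω => ∑ t ∈ I,
        (if ht : t ∈ I then L (fun j => if (⟨t, ht⟩ : I) = j then 1 else 0) else 0) * Y t ω := by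
      funext ω
      exact hL fun t => Y t ω
    rw [e1, e2]
    exact h I _
  rw [key] at h1
  exact h1.unique h2

theorem IsIsonormal.map_eq {H H' : Type} [NormedAddCommGroup H] [InnerProductSpace ℝ H]
    [NormedAddCommGroup H'] [InnerProductSpace ℝ H'] {Ω Ω' : Type} [MeasurableSpace Ω]
    [MeasurableSpace Ω'] {P : Measure Ω} {P' : Measure Ω'} {W : H → Ω → ℝ} {W' : H' → Ω' → ℝ}
    (hW : IsIsonormal P W) (hW' : IsIsonormal P' W') {T : Type} (f : T → H) (g : T → H')
    (h : ∀ s t, ⟪f s, f t⟫ = ⟪g s, g t⟫) :
    P.map (fun ω t => W (f t) ω) = P'.map (fun ω t => W' (g t) ω) := by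
  have := hW.prob
  have := hW'.prob
  refine map_eq_of_combos P P' (fun t => W (f t)) (fun t => W' (g t)) (fun t => hW.meas _)
    (fun t => hW'.meas _) fun s c => ?_
  have h1 : P.map (fun ω => ∑ t ∈ s, c t * W (f t) ω) = P.map (W (∑ t ∈ s, c t • f t)) := by
    refine Measure.map_congr ?_
    filter_upwards [hW.sum s c f] with ω hω
    exact hω.symm
  have h2 : P'.map (fun ω => ∑ t ∈ s, c t * W' (g t) ω) = P'.map (W' (∑ t ∈ s, c t • g t)) := by
    refine Measure.map_congr ?_
    filter_upwards [hW'.sum s c g] with ω hω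
    exact hω.symm
  have h3 : ⟪∑ t ∈ s, c t • f t, ∑ t ∈ s, c t • f t⟫ = ⟪∑ t ∈ s, c t • g t, ∑ t ∈ s, c t • g t⟫ := by
    simp only [sum_inner, inner_sum, real_inner_smul_left, real_inner_smul_right, h]
  rw [real_inner_self_eq_norm_sq, real_inner_self_eq_norm_sq] at h3
  have h4 : ‖∑ t ∈ s, c t • f t‖₊ ^ 2 = ‖∑ t ∈ s, c t • g t‖₊ ^ 2 := by
    apply NNReal.eq
    push_cast
    exact h3
  rw [h1, h2, hW.law, hW'.law, h4]

end Pool.Agent.Thick
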