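import Pool.Agent.Thick.G0

set_option autoImplicit false

/-!
# G2i: independence of orthogonal blocks of an isonormal family

`isGaussianProcess`: for every finset of indices the vector `(W (f t))_t` is Gaussian: for every
continuous linear form the image law is the law of `∑ c t W (f t) = W (∑ c t • f t)` (`IsIsonormal.sum`, G0), a
`gaussianReal` (definition of `IsGaussian`: all one-dimensional images are `gaussianReal`).
`covariance_eq`: polarization of the variance: `Var W(f+g) = ‖f+g‖²` or
`E (W f W g) = (E W(f+g)² - E W(f)² - E W(g)²) / 2`, expectations are zero.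
`iIndepFun`: `IsGaussianProcess.iIndepFun_of_covariance_eq_zero`
(`Mathlib/Probability/Distributions/Gaussian/IsGaussianProcess/Independence.lean`) for the
process `(p : (i : ι) × T i) ↦ W (f p.1 p.2)`.
-/

namespace Pool.Agent.Thick

open MeasureTheory ProbabilityTheory Filter Topology Set
open scoped RealInnerProductSpace

variable {H : Type} [NormedAddCommGroup H] [InnerProductSpace ℝ H] {Ω : Type}
  [MeasurableSpace Ω] {P : Measure Ω} {W : H → Ω → ℝ}

theorem IsIsonormal.isGaussianProcess (hW : IsIsonormal P W) {T : Type} (f : T → H) :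
    IsGaussianProcess (fun t ω => W (f t) ω) P := by
  classical
  refine ⟨fun I => ⟨isGaussian_of_map_eq_gaussianReal fun L => ?_⟩⟩
  let c : I → ℝ := fun i => L (Pi.single i 1)
  have hX : Measurable fun ω => I.restrict (fun t => W (f t) ω) :=
    measurable_pi_lambda _ fun i => hW.meas (f i)
  have hL : ∀ x : I → ℝ, L x = ∑ i, c i * x i := by
    intro x
    have h1 : x = ∑ i, x i • (Pi.single i (1 : ℝ) : I → ℝ) := by
      funext j
      rw [Finset.sum_apply, Finset.sum_eq_single j]
      · simp
      · intro b _ hb
        simp [Pi.single_eq_of_ne hb.symm]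
      · intro h
        exact absurd (Finset.mem_univ j) h
    conv_lhs => rw [h1, map_sum]
    refine Finset.sum_congr rfl fun i _ => ?_
    rw [map_smul, smul_eq_mul, mul_comm]
  refine ⟨0, ‖∑ i : I, c i • f i‖₊ ^ 2, ?_⟩
  rw [Measure.map_map L.continuous.measurable hX, ← hW.law (∑ i : I, c i • f i)]
  refine Measure.map_congr ?_
  filter_upwards [hW.sum Finset.univ c (fun i : I => f i)] with ω hω
  rw [hω, Function.comp_apply, hL]
  rfl

private theorem g2i_memLp (hW : IsIsonormal P W) (f : H) : MemLp (W f) 2 P := by
  have h1 : MemLp id 2 (P.map (W f)) := by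
    rw [hW.law f]
    exact memLp_id_gaussianReal' 2 (by norm_num)
  exact (memLp_map_measure_iff (by fun_prop) (hW.meas f).aemeasurable).1 h1

private theorem g2i_var (hW : IsIsonormal P W) (f : H) : variance (W f) P = ‖f‖ ^ 2 := by
  have h1 := variance_id_map (μ := P) (hW.meas f).aemeasurable
  rw [← h1, hW.law f, variance_id_gaussianReal]
  simp

theorem IsIsonormal.covariance_eq (hW : IsIsonormal P W) (f g : H) :
    covariance (W f) (W g) P = ⟪f, g⟫ := by
  have := hW.prob
  have h1 := variance_add (g2i_memLp hW f) (g2i_memLp hW g)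
  have h2 : variance (W f + W g) P = variance (W (f + g)) P :=
    variance_congr (by
      filter_upwards [hW.add f g] with ω hω
      rw [hω, Pi.add_apply])
  rw [h2, g2i_var hW, g2i_var hW, g2i_var hW] at h1
  have h3 := norm_add_sq_real f g
  linarith

theorem IsIsonormal.iIndepFun (hW : IsIsonormal P W) {ι : Type} {T : ι → Type}
    (f : ∀ i, T i → H) (h : ∀ i j, i ≠ j → ∀ s t, ⟪f i s, f j t⟫ = 0) :
    ProbabilityTheory.iIndepFun (fun i ω (t : T i) => W (f i t) ω) P := by
  refine IsGaussianProcess.iIndepFun_of_covariance_eq_zero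
    (X := fun i t ω => W (f i t) ω) ?_ (fun i t => (hW.meas _).aemeasurable) ?_
  · exact hW.isGaussianProcess fun p : (i : ι) × T i => f p.1 p.2
  · intro i j hij s t
    exact (hW.covariance_eq (f i s) (f j t)).trans (h i j hij s t)

end Pool.Agent.Thick
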