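import Pool.Agent.Thick.Defs

set_option autoImplicit false

/-!
# T4: the sum theorem of dimension zero (compact totally disconnected sets)

Proof. Suppose that no `F h` has a connected subset with two points: every `F h` is compact and
totally
disconnected (`IsTotallyDisconnected`). Let `x ≠ y` be points of `K`. Construct compact sets
`P 0 = {x} ⊆ P 1 ⊆ ..`, `Q 0 = {y} ⊆ Q 1 ⊆ ..` with `P n`, `Q n` disjoint,
`P n ⊆ interior (P (n+1))`, `Q n ⊆ interior (Q (n+1))` and `F n ⊆ P (n+1) ∪ Q (n+1)`: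
given disjoint compact `P`, `Q` and a compact totally disconnected `F`, the compact space `F` has a
clopen partition `F = F₁ ∪ F₂` with `F ∩ P ⊆ F₁` and `F ∩ Q ⊆ F₂` (in a compact totally disconnected
Hausdorff space disjoint closed sets are separated by a clopen set:
`compact_exists_isClopen_in_isOpen`, `isTopologicalBasis_isClopen`); `P ∪ F₁` and `Q ∪ F₂` are
disjoint
and compact; take closed thickenings (`Metric.cthickening δ`) with `δ` small such that they are
still
disjoint (`Disjoint.exists_cthickenings`); they are compact and contain `P ∪ F₁`, `Q ∪ F₂` in their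
interiors. Then `U = ⋃ interior (P n)`, `V = ⋃ interior (Q n)` are open, disjoint (both sequences
are
increasing), cover `⋃ h, F h ⊇ K`, `x ∈ U`, `y ∈ V`: contradiction with `IsPreconnected K`.
-/

namespace Pool.Agent.Thick

open MeasureTheory ProbabilityTheory Filter Topology Set

/-- One step of the construction. -/
private theorem sep_step {d : ℕ} {F P Q : Set (E d)} (hF : IsCompact F) (hFn : ¬ Nontriv F)
    (hP : IsCompact P) (hQ : IsCompact Q) (hPQ : Disjoint P Q) :
    ∃ P' Q' : Set (E d), IsCompact P' ∧ IsCompact Q' ∧ Disjoint P' Q' ∧ P ⊆ interior P' ∧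
      Q ⊆ interior Q' ∧ F ⊆ P' ∪ Q' := by
  have htd : IsTotallyDisconnected F := by
    intro t ht hpre
    by_contra hns
    exact hFn ⟨t, ht, hpre, Set.not_subsingleton_iff.1 hns⟩
  have hT : TotallyDisconnectedSpace F := totallyDisconnectedSpace_subtype_iff.2 htd
  have hC : CompactSpace F := isCompact_iff_compactSpace.1 hF
  obtain ⟨C, hCl, hZ, hU⟩ := exists_clopen_of_closed_subset_open (X := F)
    (Z := Subtype.val ⁻¹' P) (U := (Subtype.val ⁻¹' Q)ᶜ)
    (hP.isClosed.preimage continuous_subtype_val)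
    (hQ.isClosed.preimage continuous_subtype_val).isOpen_compl (by
      intro x hx hx'
      exact Set.disjoint_left.1 hPQ hx hx')
  have h1 : IsCompact (P ∪ Subtype.val '' C) :=
    hP.union (hCl.isClosed.isCompact.image continuous_subtype_val)
  have h2 : IsCompact (Q ∪ Subtype.val '' Cᶜ) :=
    hQ.union (hCl.compl.isClosed.isCompact.image continuous_subtype_val)
  have h3 : Disjoint (P ∪ Subtype.val '' C) (Q ∪ Subtype.val '' Cᶜ) := by
    rw [Set.disjoint_left]
    rintro x (hx | ⟨a, ha, rfl⟩) (hx' | ⟨b, hb, hbx⟩)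
    · exact Set.disjoint_left.1 hPQ hx hx'
    · subst hbx
      exact hb (hZ hx)
    · exact hU ha hx'
    · rw [Subtype.val_injective hbx] at hb
      exact hb ha
  obtain ⟨δ, hδ, hd⟩ := h3.exists_cthickenings h1 h2.isClosed
  have hself : ∀ A : Set (E d), A ⊆ interior (Metric.cthickening δ A) := fun A =>
    (Metric.self_subset_thickening hδ A).trans (Metric.thickening_subset_interior_cthickening δ A)
  refine ⟨_, _, h1.cthickening, h2.cthickening, hd, subset_union_left.trans (hself _),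
    subset_union_left.trans (hself _), ?_⟩
  intro x hx
  by_cases hxC : (⟨x, hx⟩ : F) ∈ C
  · exact Or.inl (interior_subset (hself _ (Or.inr ⟨⟨x, hx⟩, hxC, rfl⟩)))
  · exact Or.inr (interior_subset (hself _ (Or.inr ⟨⟨x, hx⟩, hxC, rfl⟩)))

theorem nontriv_of_iUnion {d : ℕ} (F : ℕ → Set (E d)) (hF : ∀ h, IsCompact (F h))
    (h : Nontriv (⋃ h, F h)) : ∃ n, Nontriv (F n) := by
  by_contra hcon
  push Not at hcon
  obtain ⟨K, hKF, hK, x, hx, y, hy, hxy⟩ := h
  have step : ∀ (n : ℕ)
      (p : {p : Set (E d) × Set (E d) // IsCompact p.1 ∧ IsCompact p.2 ∧ Disjoint p.1 p.2}),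
      ∃ p' : {p : Set (E d) × Set (E d) // IsCompact p.1 ∧ IsCompact p.2 ∧ Disjoint p.1 p.2},
        p.1.1 ⊆ interior p'.1.1 ∧ p.1.2 ⊆ interior p'.1.2 ∧ F n ⊆ p'.1.1 ∪ p'.1.2 := by
    rintro n ⟨⟨P, Q⟩, hP, hQ, hPQ⟩
    obtain ⟨P', Q', h1, h2, h3, h4, h5, h6⟩ := sep_step (hF n) (hcon n) hP hQ hPQ
    exact ⟨⟨⟨P', Q'⟩, h1, h2, h3⟩, h4, h5, h6⟩
  choose g hg using step
  let s : ℕ → {p : Set (E d) × Set (E d) // IsCompact p.1 ∧ IsCompact p.2 ∧ Disjoint p.1 p.2} :=
    fun n => Nat.rec ⟨({x}, {y}), isCompact_singleton, isCompact_singleton,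
      Set.disjoint_singleton.2 hxy⟩ (fun n p => g n p) n
  have hs : ∀ n, s (n + 1) = g n (s n) := fun n => rfl
  have hs1 : ∀ n, (s n).1.1 ⊆ interior (s (n + 1)).1.1 := fun n => (hg n (s n)).1
  have hs2 : ∀ n, (s n).1.2 ⊆ interior (s (n + 1)).1.2 := fun n => (hg n (s n)).2.1
  have hs3 : ∀ n, F n ⊆ (s (n + 1)).1.1 ∪ (s (n + 1)).1.2 := fun n => (hg n (s n)).2.2
  have hm1 : Monotone fun n => (s n).1.1 :=
    monotone_nat_of_le_succ fun n => (hs1 n).trans interior_subset
  have hm2 : Monotone fun n => (s n).1.2 :=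
    monotone_nat_of_le_succ fun n => (hs2 n).trans interior_subset
  obtain ⟨z, -, hz1, hz2⟩ := hK (⋃ n, interior (s n).1.1) (⋃ n, interior (s n).1.2)
    (isOpen_iUnion fun _ => isOpen_interior) (isOpen_iUnion fun _ => isOpen_interior)
    (by
      intro z hz
      obtain ⟨n, hn⟩ := Set.mem_iUnion.1 (hKF hz)
      rcases hs3 n hn with h | h
      · exact Or.inl (Set.mem_iUnion.2 ⟨n + 2, hs1 (n + 1) h⟩)
      · exact Or.inr (Set.mem_iUnion.2 ⟨n + 2, hs2 (n + 1) h⟩))
    ⟨x, hx, Set.mem_iUnion.2 ⟨1, hs1 0 (Set.mem_singleton x)⟩⟩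
    ⟨y, hy, Set.mem_iUnion.2 ⟨1, hs2 0 (Set.mem_singleton y)⟩⟩
  obtain ⟨m, hm⟩ := Set.mem_iUnion.1 hz1
  obtain ⟨n, hn⟩ := Set.mem_iUnion.1 hz2
  exact Set.disjoint_left.1 (s (max m n)).2.2.2
    (hm1 (le_max_left m n) (interior_subset hm)) (hm2 (le_max_right m n) (interior_subset hn))

end Pool.Agent.Thick
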