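import Pool.Agent.Thick.T3
import Pool.Agent.Thick.T4

set_option autoImplicit false

/-!
# T5: grid points, small shells

`near_grid`: for every `x` and `n` there is a grid point `dp (n + d, w)` with
`dist ≤ 2^{-n} / 2`: round the coordinates of `2^{n+d} x` (`round`), the error is
`≤ √d 2^{-n-d} / 2 ≤ 2^{-n} / 2` since `√d ≤ 2^d`.

`cross_small`: let `x ≠ y` be points of `K ⊆ F` connected; `δ = dist x y / 4`, `M ≥ ‖x‖ + 1`. Given `n`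
and `L ≥ 1` with `L 2^{-n} ≤ δ`, the grid point `z` near `x` satisfies `dist x z ≤ 2^{-n}` and
`dist y z ≥ 4 δ - 2^{-n} ≥ L 2^{-n}`.

`card_grid`: the number of `w : Fin d → ℤ` with `‖dp (n, w)‖ ≤ R` is at most `(2^{n+1} R + 1)^d`
(`|w i| ≤ 2^n R`), stated with a natural number `R`.
-/

namespace Pool.Agent.Thick

open MeasureTheory ProbabilityTheory Filter Topology Set

private theorem T5_dp_apply {d : ℕ} (p : DI d) (i : Fin d) :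
    (dp p) i = (2 : ℝ)⁻¹ ^ p.1 * (p.2 i : ℝ) := by
  simp [dp]

theorem near_grid {d : ℕ} (n : ℕ) (x : E d) :
    ∃ w : Fin d → ℤ, dist x (dp ((n + d, w) : DI d)) ≤ (2 : ℝ)⁻¹ ^ n / 2 := by
  refine ⟨fun i => round ((2 : ℝ) ^ (n + d) * x i), ?_⟩
  rw [EuclideanSpace.dist_eq]
  have h2 : (0 : ℝ) < 2 ^ (n + d) := by positivity
  have h3 : (2 : ℝ)⁻¹ ^ (n + d) * 2 ^ (n + d) = 1 := by
    rw [← mul_pow]
    norm_num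
  have key : ∀ i : Fin d, dist (x i) ((dp ((n + d, fun i => round ((2 : ℝ) ^ (n + d) * x i)) :
      DI d)) i) ^ 2 ≤ ((2 : ℝ)⁻¹ ^ (n + d) / 2) ^ 2 := by
    intro i
    rw [T5_dp_apply, Real.dist_eq]
    have h4 := abs_sub_round ((2 : ℝ) ^ (n + d) * x i)
    have h5 : x i - (2 : ℝ)⁻¹ ^ (n + d) * (round ((2 : ℝ) ^ (n + d) * x i) : ℝ) =
        (2 : ℝ)⁻¹ ^ (n + d) * ((2 : ℝ) ^ (n + d) * x i - (round ((2 : ℝ) ^ (n + d) * x i) : ℝ)) := by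
      rw [mul_sub, ← mul_assoc, h3, one_mul]
    have h6 : (0 : ℝ) < (2 : ℝ)⁻¹ ^ (n + d) := by positivity
    show |x i - (2 : ℝ)⁻¹ ^ (n + d) * (round ((2 : ℝ) ^ (n + d) * x i) : ℝ)| ^ 2 ≤ _
    rw [h5, abs_mul, abs_of_pos h6]
    apply pow_le_pow_left₀ (by positivity)
    nlinarith
  have hsum := Finset.sum_le_sum fun i (_ : i ∈ (Finset.univ : Finset (Fin d))) => key i
  rw [Finset.sum_const, Finset.card_univ, Fintype.card_fin, nsmul_eq_mul] at hsum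
  refine (Real.sqrt_le_sqrt hsum).trans ?_
  apply Real.sqrt_le_iff.2
  refine ⟨by positivity, ?_⟩
  have h7 : (d : ℝ) ≤ (2 ^ d) ^ 2 := by
    have h8 : (d : ℝ) < 2 ^ d := by exact_mod_cast Nat.lt_two_pow_self (n := d)
    have h9 : (1 : ℝ) ≤ 2 ^ d := one_le_pow₀ (by norm_num)
    nlinarith
  have h10 : (2 : ℝ)⁻¹ ^ n = (2 : ℝ)⁻¹ ^ (n + d) * 2 ^ d := by
    rw [pow_add, mul_assoc, ← mul_pow]
    norm_num
  rw [h10]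
  have h11 : (0 : ℝ) ≤ ((2 : ℝ)⁻¹ ^ (n + d)) ^ 2 / 4 := by positivity
  calc (d : ℝ) * ((2 : ℝ)⁻¹ ^ (n + d) / 2) ^ 2 = ((2 : ℝ)⁻¹ ^ (n + d)) ^ 2 / 4 * d := by ring
    _ ≤ ((2 : ℝ)⁻¹ ^ (n + d)) ^ 2 / 4 * (2 ^ d) ^ 2 := mul_le_mul_of_nonneg_left h7 h11
    _ = ((2 : ℝ)⁻¹ ^ (n + d) * 2 ^ d / 2) ^ 2 := by ring

theorem cross_small {d : ℕ} (F : Set (E d)) (h : Nontriv F) :
    ∃ (M : ℕ) (δ : ℝ), 0 < δ ∧ ∀ (n : ℕ) (L : ℝ), 1 ≤ L → L * (2 : ℝ)⁻¹ ^ n ≤ δ →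
      ∃ w : Fin d → ℤ, ‖dp ((n + d, w) : DI d)‖ ≤ M ∧
        Cross F (dp ((n + d, w) : DI d)) ((2 : ℝ)⁻¹ ^ n) (L * (2 : ℝ)⁻¹ ^ n) := by
  obtain ⟨K, hKF, hK, x, hx, y, hy, hxy⟩ := h
  obtain ⟨M, hM⟩ := exists_nat_ge (‖x‖ + 1)
  have hd : 0 < dist x y := dist_pos.2 hxy
  refine ⟨M, dist x y / 4, by positivity, fun n L hL hLn => ?_⟩
  obtain ⟨w, hw⟩ := near_grid n x
  have h1 : (0 : ℝ) < (2 : ℝ)⁻¹ ^ n := by positivity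
  have h2 : (2 : ℝ)⁻¹ ^ n ≤ 1 := pow_le_one₀ (by norm_num) (by norm_num)
  have h3 : (2 : ℝ)⁻¹ ^ n ≤ L * (2 : ℝ)⁻¹ ^ n := by nlinarith
  refine ⟨w, ?_, K, hKF, hK, ⟨x, hx, by linarith⟩, y, hy, ?_⟩
  · have h4 : ‖dp ((n + d, w) : DI d)‖ ≤ ‖x‖ + dist x (dp ((n + d, w) : DI d)) := by
      rw [dist_eq_norm]
      have := norm_sub_norm_le (dp ((n + d, w) : DI d)) x
      rw [norm_sub_rev] at this
      linarith
    linarith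
  · have h5 : dist x y ≤ dist x (dp ((n + d, w) : DI d)) + dist y (dp ((n + d, w) : DI d)) :=
      dist_triangle_right _ _ _
    linarith

theorem nontriv_of_cross {d : ℕ} (F : Set (E d)) (z : E d) (r r' : ℝ) (hr : r < r')
    (h : Cross F z r r') : Nontriv F := by
  obtain ⟨K, hKF, hK, ⟨x, hx, hxz⟩, y, hy, hyz⟩ := h
  refine ⟨K, hKF, hK, x, hx, y, hy, ?_⟩
  rintro rfl
  linarith

private theorem T5_sub {d : ℕ} (n : ℕ) (R : ℕ) : {w : Fin d → ℤ | ‖dp ((n, w) : DI d)‖ ≤ R} ⊆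
    ((Fintype.piFinset fun _ : Fin d => Finset.Icc (-((2 : ℤ) ^ n * R)) ((2 : ℤ) ^ n * R) :
      Finset (Fin d → ℤ)) : Set (Fin d → ℤ)) := by
  intro w hw
  have hw' : ‖dp ((n, w) : DI d)‖ ≤ R := hw
  rw [Finset.mem_coe, Fintype.mem_piFinset]
  intro i
  rw [Finset.mem_Icc, ← abs_le]
  have h1 : ‖(dp ((n, w) : DI d)) i‖ ≤ ‖dp ((n, w) : DI d)‖ := PiLp.norm_apply_le _ i
  rw [T5_dp_apply, Real.norm_eq_abs, abs_mul] at h1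
  have h6 : (0 : ℝ) < (2 : ℝ)⁻¹ ^ n := by positivity
  have h7 : |(2 : ℝ)⁻¹ ^ n| = (2 : ℝ)⁻¹ ^ n := abs_of_pos h6
  have h3 : (2 : ℝ) ^ n * (2 : ℝ)⁻¹ ^ n = 1 := by
    rw [← mul_pow]
    norm_num
  have h1' : (2 : ℝ)⁻¹ ^ n * |(w i : ℝ)| ≤ R := by
    have h8 : |(2 : ℝ)⁻¹ ^ n| * |(w i : ℝ)| ≤ ‖dp ((n, w) : DI d)‖ := h1
    rw [h7] at h8
    exact h8.trans hw'
  have h9 : |(w i : ℝ)| ≤ 2 ^ n * R := by
    calc |(w i : ℝ)| = 2 ^ n * ((2 : ℝ)⁻¹ ^ n * |(w i : ℝ)|) := by rw [← mul_assoc, h3, one_mul]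
      _ ≤ 2 ^ n * R := mul_le_mul_of_nonneg_left h1' (by positivity)
  exact_mod_cast h9

theorem finite_grid {d : ℕ} (n : ℕ) (R : ℕ) :
    {w : Fin d → ℤ | ‖dp ((n, w) : DI d)‖ ≤ R}.Finite :=
  (Finset.finite_toSet _).subset (T5_sub n R)

theorem card_grid {d : ℕ} (n : ℕ) (R : ℕ) :
    Nat.card {w : Fin d → ℤ | ‖dp ((n, w) : DI d)‖ ≤ R} ≤ (2 ^ (n + 1) * R + 1) ^ d := by
  have h1 := Set.ncard_le_ncard (T5_sub (d := d) n R) (Finset.finite_toSet _)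
  rw [Set.ncard_coe_finset, Fintype.card_piFinset] at h1
  have h2 : (Finset.Icc (-((2 : ℤ) ^ n * R)) ((2 : ℤ) ^ n * R)).card = 2 ^ (n + 1) * R + 1 := by
    rw [Int.card_Icc]
    have h3 : (2 : ℤ) ^ n * R + 1 - -((2 : ℤ) ^ n * R) = ((2 ^ (n + 1) * R + 1 : ℕ) : ℤ) := by
      push_cast
      ring
    rw [h3, Int.toNat_natCast]
  simp only [h2, Finset.prod_const, Finset.card_univ, Fintype.card_fin] at h1
  exact h1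

theorem dp_add_scale {d : ℕ} (j : ℕ) (z p : DI d) :
    ∃ q : DI d, dp q = dp z + (2 : ℝ)⁻¹ ^ j • dp p := by
  refine ⟨(z.1 + (j + p.1), fun i => 2 ^ (j + p.1) * z.2 i + 2 ^ z.1 * p.2 i), ?_⟩
  ext i
  rw [PiLp.add_apply, PiLp.smul_apply, T5_dp_apply, T5_dp_apply, T5_dp_apply, smul_eq_mul]
  push_cast
  have h1 : (2 : ℝ)⁻¹ ^ (j + p.1) * 2 ^ (j + p.1) = 1 := by
    rw [← mul_pow]
    norm_num
  have h2 : (2 : ℝ)⁻¹ ^ z.1 * 2 ^ z.1 = 1 := by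
    rw [← mul_pow]
    norm_num
  calc (2 : ℝ)⁻¹ ^ (z.1 + (j + p.1)) * (2 ^ (j + p.1) * (z.2 i : ℝ) + 2 ^ z.1 * (p.2 i : ℝ))
      = (2 : ℝ)⁻¹ ^ z.1 * ((2 : ℝ)⁻¹ ^ (j + p.1) * 2 ^ (j + p.1)) * (z.2 i : ℝ) +
        ((2 : ℝ)⁻¹ ^ z.1 * 2 ^ z.1) * (2 : ℝ)⁻¹ ^ (j + p.1) * (p.2 i : ℝ) := by
        rw [pow_add]
        ring
    _ = (2 : ℝ)⁻¹ ^ z.1 * (z.2 i : ℝ) + (2 : ℝ)⁻¹ ^ j * ((2 : ℝ)⁻¹ ^ p.1 * (p.2 i : ℝ)) := by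
        rw [h1, h2, pow_add]
        ring

end Pool.Agent.Thick
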