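import Pool.Agent.Thick.G7a
import Pool.Agent.Thick.G2
import Pool.Agent.Thick.G2i
import Pool.Agent.Thick.T5

set_option autoImplicit false

/-!
# G7: the continuous version is a scale field

* `inv`: both processes are almost surely equal (all countably many coordinates) to processes of the
  form `W (f q)` (for the first one `dp z + 2^{-j} dp p` is a dyadic point, `dp_add_scale` of T5), so by
  `Measure.map_congr` and `IsIsonormal.map_eq` (G2, with `W' = W`) it is enough to compare inner products: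
  `⟪v (j+k) (z + 2^{-j} x), v (j+k) (z + 2^{-j} y)⟫ = lam (2^{j+k} 2^{-j} (x - y)) = lam (2^k (x - y))`, and `0` for
  different levels.
* `indep`: `IsIsonormal.iIndepFun` (G2i) with the blocks
  `T i = ℕ × {p // dist (dp p) (dp (z i)) ≤ 3}`: for `i ≠ j` the points are at distance
  `≥ 8 - 6 = 2`, so `‖2^k (x - y)‖ ≥ 2` and the inner products vanish; then
  `iIndepFun.congr` (almost sure equality of the processes).
* `tail`: `θ = 1/4`; the first inequality from `IsIsonormal.tail` (G0) with `V = max (lam 0) 1`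
  (`‖v 0 0‖² = lam 0`; `dp (0, 0) = 0`), the second from `unit_tail` (G7a) with `k = m = 0`; take the larger
  `C` and the smaller `c` (`C ≥ 0` may be assumed).
-/

namespace Pool.Agent.Thick

open MeasureTheory ProbabilityTheory Filter Topology Set
open scoped RealInnerProductSpace

variable {d : ℕ} {H : Type} [NormedAddCommGroup H] [InnerProductSpace ℝ H] {Ω : Type}
  [MeasurableSpace Ω] {P : Measure Ω} {W : H → Ω → ℝ} {v : ℕ → E d → H} {lam : E d → ℝ}

private theorem G7_dp_zero : dp ((0, 0) : DI d) = 0 := by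
  unfold dp
  rw [pow_zero, one_smul]
  ext i
  simp

private theorem G7_inner (hv : IsScaleVec v lam) (j : ℕ) (z : E d) (k l : ℕ) (x y : E d) :
    ⟪v (j + k) (z + (2 : ℝ)⁻¹ ^ j • x), v (j + l) (z + (2 : ℝ)⁻¹ ^ j • y)⟫ =
      ⟪v k x, v l y⟫ := by
  by_cases h : k = l
  · subst h
    rw [hv.inner, hv.inner, add_sub_add_left_eq_sub, ← smul_sub, smul_smul]
    congr 2
    rw [pow_add, mul_right_comm, ← mul_pow, mul_inv_cancel₀ two_ne_zero, one_pow, one_mul]
  · rw [hv.orth k l h, hv.orth (j + k) (j + l) (by omega)]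

private theorem G7_inv (hW : IsIsonormal P W) (hv : IsScaleVec v lam)
    (ψ : ℕ → Ω → E d → ℝ)
    (he : ∀ᵐ ω ∂P, ∀ k (p : DI d), ψ k ω (dp p) = W (v k (dp p)) ω) (j : ℕ) (z : DI d) :
    P.map (fun ω (q : ℕ × DI d) => ψ (j + q.1) ω (dp z + (2 : ℝ)⁻¹ ^ j • dp q.2)) =
    P.map (fun ω (q : ℕ × DI d) => ψ q.1 ω (dp q.2)) := by
  have h1 : (fun ω (q : ℕ × DI d) => ψ (j + q.1) ω (dp z + (2 : ℝ)⁻¹ ^ j • dp q.2)) =ᵐ[P]
      fun ω (q : ℕ × DI d) => W (v (j + q.1) (dp z + (2 : ℝ)⁻¹ ^ j • dp q.2)) ω := by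
    filter_upwards [he] with ω hω
    funext q
    obtain ⟨p, hp⟩ := dp_add_scale j z q.2
    rw [← hp]
    exact hω _ p
  have h2 : (fun ω (q : ℕ × DI d) => ψ q.1 ω (dp q.2)) =ᵐ[P]
      fun ω (q : ℕ × DI d) => W (v q.1 (dp q.2)) ω := by
    filter_upwards [he] with ω hω
    funext q
    exact hω _ _
  rw [Measure.map_congr h1, Measure.map_congr h2]
  exact hW.map_eq hW (fun q : ℕ × DI d => v (j + q.1) (dp z + (2 : ℝ)⁻¹ ^ j • dp q.2))
    (fun q : ℕ × DI d => v q.1 (dp q.2)) fun s t => G7_inner hv j (dp z) s.1 t.1 _ _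

private theorem G7_indep (hW : IsIsonormal P W) (hv : IsScaleVec v lam)
    (ψ : ℕ → Ω → E d → ℝ)
    (he : ∀ᵐ ω ∂P, ∀ k (p : DI d), ψ k ω (dp p) = W (v k (dp p)) ω) (n : ℕ) (z : Fin n → DI d)
    (hz : ∀ i j, i ≠ j → 8 ≤ dist (dp (z i)) (dp (z j))) :
    iIndepFun (fun (i : Fin n) (ω : Ω) (q : ℕ × {p : DI d // dist (dp p) (dp (z i)) ≤ 3}) =>
      ψ q.1 ω (dp q.2.1)) P := by
  have h1 := hW.iIndepFun (ι := Fin n)
    (T := fun i => ℕ × {p : DI d // dist (dp p) (dp (z i)) ≤ 3})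
    (fun i q => v q.1 (dp q.2.1)) (by
      rintro i j hij ⟨k, p, hp⟩ ⟨l, q, hq⟩
      by_cases h : k = l
      · subst h
        change ⟪v k (dp p), v k (dp q)⟫ = 0
        rw [hv.inner]
        apply hv.supp
        have h2 := hz i j hij
        have h3 : 2 ≤ ‖dp p - dp q‖ := by
          rw [← dist_eq_norm]
          have h4 := dist_triangle4 (dp (z i)) (dp p) (dp q) (dp (z j))
          rw [dist_comm (dp (z i)) (dp p)] at h4
          linarith
        rw [norm_smul, norm_pow, Real.norm_ofNat]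
        have h5 : (1 : ℝ) ≤ 2 ^ k := one_le_pow₀ (by norm_num)
        nlinarith [norm_nonneg (dp p - dp q)]
      · exact hv.orth k l h _ _)
  refine h1.congr fun i => ?_
  filter_upwards [he] with ω hω
  funext q
  exact (hω _ _).symm

private theorem G7_ofReal {C C' c c' t : ℝ} (hC : C ≤ C') (hC' : 0 ≤ C') (hc : c' ≤ c) :
    ENNReal.ofReal (C * Real.exp (-(c * t ^ 2))) ≤
      ENNReal.ofReal (C' * Real.exp (-(c' * t ^ 2))) := by
  refine ENNReal.ofReal_le_ofReal ((mul_le_mul_of_nonneg_right hC (Real.exp_pos _).le).trans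
    (mul_le_mul_of_nonneg_left ?_ hC'))
  rw [Real.exp_le_exp, neg_le_neg_iff]
  exact mul_le_mul_of_nonneg_right hc (sq_nonneg _)

private theorem G7_tail (hW : IsIsonormal P W) (hv : IsScaleVec v lam)
    (ψ : ℕ → Ω → E d → ℝ)
    (he : ∀ᵐ ω ∂P, ∀ k (p : DI d), ψ k ω (dp p) = W (v k (dp p)) ω) :
    ∃ θ C c : ℝ, 0 < θ ∧ 0 < c ∧ ∀ t : ℝ, 0 ≤ t →
    P {ω | t < |ψ 0 ω 0|} ≤ ENNReal.ofReal (C * Real.exp (-(c * t ^ 2))) ∧
    P {ω | ∃ p q : DI d, ‖dp p‖ ≤ 1 ∧ ‖dp q‖ ≤ 1 ∧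
      t * dist (dp p) (dp q) ^ θ < |ψ 0 ω (dp p) - ψ 0 ω (dp q)|} ≤
      ENNReal.ofReal (C * Real.exp (-(c * t ^ 2))) := by
  obtain ⟨C₁, c₁, hc₁, h₁⟩ := unit_tail hW hv 0 0
  set V : ℝ := max (lam 0) 1 with hV
  have hV0 : 0 < V := lt_of_lt_of_le one_pos (le_max_right _ _)
  refine ⟨1 / 4, max C₁ 2, min c₁ (1 / (2 * V)), by norm_num, lt_min hc₁ (by positivity),
    fun t ht => ⟨?_, ?_⟩⟩
  · have h2 : P {ω | t < |ψ 0 ω 0|} ≤ P {ω | t < |W (v 0 0) ω|} := by
      refine measure_mono_ae ?_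
      filter_upwards [he] with ω hω h
      have h3 := hω 0 ((0, 0) : DI d)
      rw [G7_dp_zero] at h3
      change t < |ψ 0 ω 0| at h
      change t < |W (v 0 0) ω|
      rwa [← h3]
    have h3 : ‖v 0 (0 : E d)‖ ^ 2 ≤ V := by
      rw [← real_inner_self_eq_norm_sq, hv.inner, sub_zero, smul_zero]
      exact le_max_left _ _
    refine h2.trans ((hW.tail _ V hV0 h3 t ht).trans ?_)
    have h4 : -(t ^ 2 / (2 * V)) = -(1 / (2 * V) * t ^ 2) := by ring
    rw [h4]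
    exact G7_ofReal (le_max_right _ _) (le_trans (by norm_num) (le_max_right _ _))
      (min_le_right _ _)
  · have h2 : P {ω | ∃ p q : DI d, ‖dp p‖ ≤ 1 ∧ ‖dp q‖ ≤ 1 ∧
        t * dist (dp p) (dp q) ^ (1 / 4 : ℝ) < |ψ 0 ω (dp p) - ψ 0 ω (dp q)|} ≤
        P {ω | ∃ p q : DI d, ‖dp p‖ ≤ 1 ∧ ‖dp q‖ ≤ 1 ∧
      t * dist (dp p) (dp q) ^ (1 / 4 : ℝ) <
        |W (v 0 ((2 : ℝ) ^ 0 • dp p)) ω - W (v 0 ((2 : ℝ) ^ 0 • dp q)) ω|} := by
      refine measure_mono_ae ?_
      filter_upwards [he] with ω hω h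
      obtain ⟨p, q, hp, hq, h3⟩ := h
      refine ⟨p, q, hp, hq, ?_⟩
      rw [pow_zero, one_smul, one_smul, ← hω, ← hω]
      exact h3
    refine h2.trans ((h₁ t ht).trans ?_)
    exact G7_ofReal (le_max_left _ _) (le_trans (by norm_num) (le_max_right _ _))
      (min_le_left _ _)

theorem scaleField_of_version (hW : IsIsonormal P W) (hv : IsScaleVec v lam)
    (ψ : ℕ → Ω → E d → ℝ) (hc : ∀ k ω, Continuous (ψ k ω))
    (hm : ∀ k (p : DI d), Measurable fun ω => ψ k ω (dp p))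
    (he : ∀ᵐ ω ∂P, ∀ k (p : DI d), ψ k ω (dp p) = W (v k (dp p)) ω) : ScaleField d P ψ :=
  { prob := hW.prob
    cont := hc
    meas := hm
    inv := G7_inv hW hv ψ he
    indep := G7_indep hW hv ψ he
    tail := G7_tail hW hv ψ he }

end Pool.Agent.Thick
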