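import Pool.Agent.Thick.T3

set_option autoImplicit false

/-!
# G4: continuous extension from the dyadic points

Proof. Let `D = range dp` (dense, `dense_dp`, T3) and `i : D → E d` the inclusion
(`Dense.isDenseInducing_val`). For every `x` the function `g` restricted to `D` maps the trace of `𝓝 x` on
`D` to a Cauchy filter (for `‖x‖ < R` and points of `D` in a small ball around `x` the Hoelder bound holds
with the constant for `R`), so `IsDenseInducing.continuous_extend_of_cauchy` gives a continuous
extension `f`, and `f = g` on `D` because `g` restricted to `D` is continuous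
(`IsDenseInducing.extend_eq`/`extend_eq_at`).
-/

namespace Pool.Agent.Thick

open MeasureTheory ProbabilityTheory Filter Topology Set

theorem exists_extension {d : ℕ} (g : E d → ℝ)
    (h : ∀ R : ℕ, ∃ C : ℝ, ∀ p q : DI d, ‖dp p‖ ≤ R → ‖dp q‖ ≤ R →
      |g (dp p) - g (dp q)| ≤ C * dist (dp p) (dp q) ^ (1 / 4 : ℝ)) :
    ∃ f : E d → ℝ, Continuous f ∧ ∀ p : DI d, f (dp p) = g (dp p) := by
  have hD : Dense (Set.range (dp : DI d → E d)) := by
    intro x
    rw [Metric.mem_closure_range_iff]
    intro ε hε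
    obtain ⟨p, hp⟩ := dense_dp x ε hε
    exact ⟨p, by rwa [dist_comm]⟩
  have hlim : ∀ x : E d, ∃ c, Tendsto (fun y : Set.range (dp : DI d → E d) => g y)
      (comap (↑) (𝓝 x)) (𝓝 c) := by
    intro x
    have hne : (comap ((↑) : Set.range (dp : DI d → E d) → E d) (𝓝 x)).NeBot :=
      hD.isDenseInducing_val.comap_nhds_neBot x
    apply cauchy_map_iff_exists_tendsto.mp
    obtain ⟨R, hR⟩ := exists_nat_gt (‖x‖ + 1)
    obtain ⟨C, hC⟩ := h R
    rw [Metric.cauchy_iff]
    refine ⟨hne.map _, fun ε hε => ?_⟩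
    -- choose a radius
    have hcont : Tendsto (fun t : ℝ => (|C| + 1) * t ^ (1 / 4 : ℝ)) (𝓝 0) (𝓝 0) := by
      have h1 : Continuous (fun t : ℝ => (|C| + 1) * t ^ (1 / 4 : ℝ)) :=
        continuous_const.mul (Real.continuous_rpow_const (by norm_num))
      have h2 := h1.tendsto 0
      simpa [Real.zero_rpow] using h2
    have hev : ∀ᶠ t in 𝓝 (0 : ℝ), (|C| + 1) * t ^ (1 / 4 : ℝ) < ε :=
      hcont.eventually (gt_mem_nhds hε)
    obtain ⟨δ, hδ, hδ2⟩ := Metric.eventually_nhds_iff.mp hev
    refine ⟨(fun y : Set.range (dp : DI d → E d) => g y) ''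
      ((↑) ⁻¹' Metric.ball x (min 1 (δ / 2))), ?_, ?_⟩
    · apply Filter.image_mem_map
      exact Filter.preimage_mem_comap (Metric.ball_mem_nhds x (by positivity))
    · rintro _ ⟨⟨_, p, rfl⟩, hp, rfl⟩ _ ⟨⟨_, q, rfl⟩, hq, rfl⟩
      simp only [Set.mem_preimage, Metric.mem_ball, lt_min_iff] at hp hq
      have hn : ∀ z : E d, dist z x < 1 → ‖z‖ ≤ R := by
        intro z hz
        have h3 : ‖z‖ ≤ ‖x‖ + dist z x := by
          rw [dist_eq_norm]
          have := norm_add_le x (z - x)
          simpa using this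
        linarith
      have h4 := hC p q (hn _ hp.1) (hn _ hq.1)
      have h5 : dist (dp p) (dp q) < δ := by
        have := dist_triangle_right (dp p) (dp q) x
        linarith [hp.2, hq.2]
      have h6 := hδ2 (y := dist (dp p) (dp q)) (by
        rw [Real.dist_eq, sub_zero, abs_of_nonneg dist_nonneg]
        exact h5)
      rw [Real.dist_eq]
      have h7 : C * dist (dp p) (dp q) ^ (1 / 4 : ℝ) ≤
          (|C| + 1) * dist (dp p) (dp q) ^ (1 / 4 : ℝ) :=
        mul_le_mul_of_nonneg_right (by linarith [le_abs_self C])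
          (Real.rpow_nonneg dist_nonneg _)
      exact lt_of_le_of_lt (h4.trans h7) h6
  refine ⟨hD.isDenseInducing_val.extend (fun y : Set.range (dp : DI d → E d) => g y),
    hD.isDenseInducing_val.continuous_extend hlim, fun p => ?_⟩
  exact hD.isDenseInducing_val.extend_eq' hlim ⟨dp p, p, rfl⟩

end Pool.Agent.Thick
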