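import Pool.Agent.Thick.G7a
import Pool.Agent.Thick.G4

set_option autoImplicit false

/-!
# G7b: a continuous version

Let `good` be the set of the `ω` with
`∀ k R : ℕ, ∃ C : ℕ, ∀ p q, ‖dp p‖ ≤ R → ‖dp q‖ ≤ R →
|W (v k (dp p)) ω - W (v k (dp q)) ω| ≤ C dist^{1/4}`:
measurable (countable combination of measurable conditions) and of full measure (`ae_hoelder`, G7a).
For `ω ∈ good` let `ψ k ω` be the extension given by `exists_extension` (G4) of
`g x = W (v k x) ω`; for `ω ∉ good` let `ψ k ω = 0`. Then `ψ k ω (dp p)` is the indicator of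
`good` times `W (v k (dp p)) ω`.
-/

namespace Pool.Agent.Thick

open MeasureTheory ProbabilityTheory Filter Topology Set

variable {d : ℕ} {H : Type} [NormedAddCommGroup H] [InnerProductSpace ℝ H] {Ω : Type}
  [MeasurableSpace Ω] {P : Measure Ω} {W : H → Ω → ℝ} {v : ℕ → E d → H} {lam : E d → ℝ}

/-- The set of the samples for which the restrictions to the dyadic points are locally Hoelder. -/
private def good (W : H → Ω → ℝ) (v : ℕ → E d → H) : Set Ω :=
  {ω | ∀ (k R : ℕ), ∃ C : ℕ, ∀ p q : DI d, ‖dp p‖ ≤ R → ‖dp q‖ ≤ R →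
      |W (v k (dp p)) ω - W (v k (dp q)) ω| ≤ C * dist (dp p) (dp q) ^ (1 / 4 : ℝ)}

private theorem measurableSet_good (hW : IsIsonormal P W) :
    MeasurableSet (good W v) := by
  unfold good
  refine measurableSet_setOfPred.2 ?_
  refine Measurable.forall fun k => Measurable.forall fun R => Measurable.exists fun C =>
    Measurable.forall fun p => Measurable.forall fun q => ?_
  refine Measurable.imp measurable_const (Measurable.imp measurable_const ?_)
  refine measurableSet_setOfPred.1 (measurableSet_le ?_ measurable_const)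
  exact ((hW.meas _).sub (hW.meas _)).abs

theorem exists_version (hW : IsIsonormal P W) (hv : IsScaleVec v lam) :
    ∃ ψ : ℕ → Ω → E d → ℝ, (∀ k ω, Continuous (ψ k ω)) ∧
      (∀ k (p : DI d), Measurable fun ω => ψ k ω (dp p)) ∧
      ∀ᵐ ω ∂P, ∀ k (p : DI d), ψ k ω (dp p) = W (v k (dp p)) ω := by
  classical
  have hex : ∀ (k : ℕ) (ω : Ω), ∃ f : E d → ℝ, Continuous f ∧
      (ω ∈ good W v → ∀ p : DI d, f (dp p) = W (v k (dp p)) ω) ∧ (ω ∉ good W v → f = 0) := by
    intro k ω
    by_cases hω : ω ∈ good W v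
    · obtain ⟨f, hf, hfp⟩ := exists_extension (fun x => W (v k x) ω) fun R => by
        obtain ⟨C, hC⟩ := hω k R
        exact ⟨C, hC⟩
      exact ⟨f, hf, fun _ => hfp, fun h => absurd hω h⟩
    · exact ⟨0, continuous_zero, fun h => absurd h hω, fun _ => rfl⟩
  choose ψ hψ using hex
  refine ⟨ψ, fun k ω => (hψ k ω).1, fun k p => ?_, ?_⟩
  · have h : (fun ω => ψ k ω (dp p)) = (good W v).indicator fun ω => W (v k (dp p)) ω := by
      funext ω
      by_cases hω : ω ∈ good W v
      · rw [indicator_of_mem hω, (hψ k ω).2.1 hω p]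
      · rw [indicator_of_notMem hω, (hψ k ω).2.2 hω]
        rfl
    rw [h]
    exact (hW.meas _).indicator (measurableSet_good hW)
  · filter_upwards [ae_hoelder hW hv] with ω hω k p
    exact (hψ k ω).2.1 hω p

end Pool.Agent.Thick
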