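import Pool.Agent.Thick.G3a

set_option autoImplicit false

/-!
# G3: Gaussian tails of Hoelder constants

Proof. Let `K` be the constant of `chaining` (G3a). If the event with constant `t` occurs, then for
`t' = t / (2 K)` (say) the hypothesis of `chaining` fails: there are `n`, `w`, `w'` with both points in the
unit ball, `dist ≤ 4 (d+1) 2^{-n}` and `|X - X| > t' (2^{-n})^{1/4}` (in particular the points are different).
For given `n`, `w`, `w'` with `dist = δ > 0` the hypothesis with `t' (2^{-n})^{1/4} / δ^{1/2}`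
gives the probability `≤ 2 exp (- t'² (2^{-n})^{1/2} / (δ C₀)) ≤ 2 exp (- t'² 2^{n/2} / (4 (d+1) C₀))`. The number
of pairs is at most `(2^{n+1} + 1)^{2 d}` (`card_grid`, T5). With `c₁ = 1 / (4 (d+1) C₀)` and `t' ≥ 1`:
`t'² 2^{n/2} ≥ t'²/2 + 2^{n/2}/2`, so the sum over `n` is
`≤ exp (- c₁ t'² / 2) ∑ 2 (2^{n+1}+1)^{2d} exp (- c₁ 2^{n/2} / 2)`, a convergent series. For `t' < 1` take
`C` so large that the right side is `≥ 1`. (The measure of a countable union is at most the sum also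
for nonmeasurable sets: `measure_iUnion_le`.)
-/

namespace Pool.Agent.Thick

open MeasureTheory ProbabilityTheory Filter Topology Set

/-- `y ^ 2 = 2 ^ {n/2} 2 ^ {-n}` for `y = (2 ^ {-n}) ^ {1/4}` -/
private lemma kc_quarter (n : ℕ) :
    (((2 : ℝ)⁻¹ ^ n) ^ (1 / 4 : ℝ)) ^ 2 = Real.sqrt 2 ^ n * (2 : ℝ)⁻¹ ^ n := by
  have h0 : (0 : ℝ) ≤ (2 : ℝ)⁻¹ ^ n := by positivity
  have h1 : (((2 : ℝ)⁻¹ ^ n) ^ (1 / 4 : ℝ)) ^ 2 = Real.sqrt ((2 : ℝ)⁻¹ ^ n) := by
    rw [← Real.rpow_natCast, ← Real.rpow_mul h0, Real.sqrt_eq_rpow]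
    norm_num
  rw [h1]
  have h2 : (0 : ℝ) < Real.sqrt 2 := by positivity
  have h3 : Real.sqrt 2 ^ 2 = 2 := Real.sq_sqrt (by norm_num)
  rw [Real.sqrt_eq_iff_mul_self_eq h0 (by positivity)]
  have h4 : (Real.sqrt 2 ^ n) ^ 2 = 2 ^ n := by rw [← pow_mul, mul_comm, pow_mul, h3]
  have h5 : (2 : ℝ) ^ n * (2 : ℝ)⁻¹ ^ n = 1 := by rw [← mul_pow]; norm_num
  symm
  calc Real.sqrt 2 ^ n * (2 : ℝ)⁻¹ ^ n * (Real.sqrt 2 ^ n * (2 : ℝ)⁻¹ ^ n)
      = (Real.sqrt 2 ^ n) ^ 2 * (2 : ℝ)⁻¹ ^ n * (2 : ℝ)⁻¹ ^ n := by ring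
    _ = (2 : ℝ)⁻¹ ^ n := by rw [h4, h5, one_mul]

/-- the convergent series -/
private lemma kc_summable (d : ℕ) {a : ℝ} (ha : 0 < a) :
    Summable fun n : ℕ => (((2 : ℝ) ^ (n + 1) + 1) ^ d) ^ 2 *
      (2 * Real.exp (-(a / 2 * Real.sqrt 2 ^ n))) := by
  have hs : (0 : ℝ) < Real.sqrt 2 := by positivity
  have hs2 : Real.sqrt 2 ^ 2 = 2 := Real.sq_sqrt (by norm_num)
  set N := 4 * d + 2 with hN
  set D : ℝ := (4 ^ d) ^ 2 * 2 * ((N.factorial : ℝ) / (a / 2) ^ N) with hD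
  refine Summable.of_nonneg_of_le (fun n => by positivity) (fun n => ?_)
    ((summable_geometric_of_lt_one (r := (2 : ℝ)⁻¹) (by norm_num) (by norm_num)).mul_left D)
  set x : ℝ := Real.sqrt 2 ^ n with hx
  have hx0 : 0 < x := by positivity
  have hx2 : x ^ 2 = 2 ^ n := by rw [hx, ← pow_mul, mul_comm, pow_mul, hs2]
  have h1 : (((2 : ℝ) ^ (n + 1) + 1) ^ d) ^ 2 ≤ (4 ^ d) ^ 2 * x ^ (4 * d) := by
    have h2 : ((2 : ℝ) ^ (n + 1) + 1) ≤ 4 * x ^ 2 := by
      rw [hx2, pow_succ]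
      have : (1 : ℝ) ≤ 2 ^ n := one_le_pow₀ (by norm_num)
      linarith
    calc (((2 : ℝ) ^ (n + 1) + 1) ^ d) ^ 2 ≤ ((4 * x ^ 2) ^ d) ^ 2 := by gcongr
      _ = (4 ^ d) ^ 2 * x ^ (4 * d) := by rw [mul_pow, mul_pow]; ring
  have h3 : Real.exp (-(a / 2 * x)) ≤ (N.factorial : ℝ) / (a / 2) ^ N / x ^ N := by
    have h4 := Real.pow_div_factorial_le_exp (a / 2 * x) (by positivity) N
    rw [Real.exp_neg, mul_pow] at *
    have h5 : 0 < (a / 2) ^ N * x ^ N / (N.factorial : ℝ) := by positivity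
    calc (Real.exp (a / 2 * x))⁻¹ ≤ ((a / 2) ^ N * x ^ N / (N.factorial : ℝ))⁻¹ :=
          inv_anti₀ h5 h4
      _ = (N.factorial : ℝ) / (a / 2) ^ N / x ^ N := by rw [inv_div, div_div]
  have h6 : x ^ (4 * d) / x ^ N = (2 : ℝ)⁻¹ ^ n := by
    rw [hN, pow_add, div_mul_eq_div_div, div_self (by positivity), hx2, inv_pow, one_div]
  calc (((2 : ℝ) ^ (n + 1) + 1) ^ d) ^ 2 * (2 * Real.exp (-(a / 2 * x)))
      ≤ ((4 ^ d) ^ 2 * x ^ (4 * d)) * (2 * ((N.factorial : ℝ) / (a / 2) ^ N / x ^ N)) := by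
        gcongr
    _ = D * (x ^ (4 * d) / x ^ N) := by rw [hD]; ring
    _ = D * (2 : ℝ)⁻¹ ^ n := by rw [h6]

theorem kc_tail (d : ℕ) (C₀ : ℝ) (hC₀ : 0 < C₀) : ∃ C c : ℝ, 0 < c ∧
    ∀ (Ω : Type) (_ : MeasurableSpace Ω) (P : Measure Ω) (_ : IsProbabilityMeasure P)
      (X : E d → Ω → ℝ),
    (∀ p q : DI d, ‖dp p‖ ≤ 1 → ‖dp q‖ ≤ 1 → ∀ t : ℝ, 0 ≤ t →
      P {ω | t * dist (dp p) (dp q) ^ (1 / 2 : ℝ) < |X (dp p) ω - X (dp q) ω|} ≤
        ENNReal.ofReal (2 * Real.exp (-(t ^ 2 / C₀)))) →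
    ∀ t : ℝ, 0 ≤ t → P {ω | ∃ p q : DI d, ‖dp p‖ ≤ 1 ∧ ‖dp q‖ ≤ 1 ∧
      t * dist (dp p) (dp q) ^ (1 / 4 : ℝ) < |X (dp p) ω - X (dp q) ω|} ≤
      ENNReal.ofReal (C * Real.exp (-(c * t ^ 2))) := by
  classical
  obtain ⟨K, hK, hchain⟩ := chaining d
  set a : ℝ := 1 / (4 * ((d : ℝ) + 1) * C₀) with ha
  have ha0 : 0 < a := by positivity
  have hsum := kc_summable d ha0
  set u : ℕ → ℝ := fun n => (((2 : ℝ) ^ (n + 1) + 1) ^ d) ^ 2 *
      (2 * Real.exp (-(a / 2 * Real.sqrt 2 ^ n))) with hu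
  have hu0 : ∀ n, 0 ≤ u n := fun n => by rw [hu]; positivity
  have hU0 : 0 ≤ ∑' n, u n := tsum_nonneg hu0
  refine ⟨∑' n, u n + Real.exp (a / 2), a / (2 * K ^ 2), by positivity, ?_⟩
  intro Ω mΩ P hP X hX t ht
  by_cases htK : t < K
  · calc P {ω | ∃ p q : DI d, ‖dp p‖ ≤ 1 ∧ ‖dp q‖ ≤ 1 ∧
        t * dist (dp p) (dp q) ^ (1 / 4 : ℝ) < |X (dp p) ω - X (dp q) ω|} ≤ 1 := prob_le_one
      _ = ENNReal.ofReal 1 := by simp
      _ ≤ _ := by
        apply ENNReal.ofReal_le_ofReal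
        have h1 : a / (2 * K ^ 2) * t ^ 2 ≤ a / 2 := by
          have h2 : t ^ 2 ≤ K ^ 2 := by gcongr
          have h3 : a / (2 * K ^ 2) * t ^ 2 ≤ a / (2 * K ^ 2) * K ^ 2 := by gcongr
          refine h3.trans (le_of_eq ?_)
          field_simp
        have h4 : 1 ≤ Real.exp (a / 2) * Real.exp (-(a / (2 * K ^ 2) * t ^ 2)) := by
          rw [← Real.exp_add]
          exact Real.one_le_exp (by linarith)
        have h5 : 0 ≤ (∑' n, u n) * Real.exp (-(a / (2 * K ^ 2) * t ^ 2)) := by positivity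
        rw [add_mul]
        linarith
  · rw [not_lt] at htK
    set t' : ℝ := t / K with ht'
    have ht'1 : 1 ≤ t' := by rw [ht', le_div_iff₀ hK, one_mul]; exact htK
    have ht'0 : 0 ≤ t' := by linarith
    have hKt : K * t' = t := by rw [ht']; field_simp
    set G : ℕ → Finset (Fin d → ℤ) := fun n => (finite_grid (d := d) n 1).toFinset with hG
    have hGm : ∀ n (w : Fin d → ℤ), w ∈ G n ↔ ‖dp ((n, w) : DI d)‖ ≤ 1 := by
      intro n w
      rw [hG]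
      simp
    have hGc : ∀ n, ((G n).card : ℝ) ≤ ((2 : ℝ) ^ (n + 1) + 1) ^ d := by
      intro n
      have h1 : (G n).card ≤ (2 ^ (n + 1) * 1 + 1) ^ d := by
        rw [hG]
        simp only
        rw [← Set.ncard_eq_toFinset_card _ (finite_grid (d := d) n 1)]
        exact card_grid (d := d) n 1
      rw [mul_one] at h1
      exact_mod_cast h1
    -- the small events
    set B : ℕ → (Fin d → ℤ) → (Fin d → ℤ) → Set Ω := fun n w w' =>
      {ω | dist (dp ((n, w) : DI d)) (dp ((n, w') : DI d)) ≤ 4 * ((d : ℝ) + 1) * (2 : ℝ)⁻¹ ^ n ∧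
        t' * ((2 : ℝ)⁻¹ ^ n) ^ (1 / 4 : ℝ) <
          |X (dp ((n, w) : DI d)) ω - X (dp ((n, w') : DI d)) ω|} with hB
    have hsub : {ω | ∃ p q : DI d, ‖dp p‖ ≤ 1 ∧ ‖dp q‖ ≤ 1 ∧
        t * dist (dp p) (dp q) ^ (1 / 4 : ℝ) < |X (dp p) ω - X (dp q) ω|} ⊆
        ⋃ n : ℕ, ⋃ w ∈ G n, ⋃ w' ∈ G n, B n w w' := by
      rintro ω ⟨p, q, hp, hq, hpq⟩
      by_contra hcon
      have h1 := hchain (fun x => X x ω) t' ht'0 (fun n w w' hw hw' hd => by
        by_contra hc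
        rw [not_le] at hc
        refine hcon ?_
        simp only [Set.mem_iUnion]
        exact ⟨n, w, (hGm n w).2 hw, w', (hGm n w').2 hw', hd, hc⟩) p q hp hq
      rw [hKt] at h1
      exact absurd hpq (not_lt.2 h1)
    have hone : ∀ n (w w' : Fin d → ℤ), w ∈ G n → w' ∈ G n →
        P (B n w w') ≤ ENNReal.ofReal (2 * Real.exp (-(a * t' ^ 2 * Real.sqrt 2 ^ n))) := by
      intro n w w' hw hw'
      rw [hGm] at hw hw'
      set δ := dist (dp ((n, w) : DI d)) (dp ((n, w') : DI d)) with hδ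
      have hy0 : 0 < ((2 : ℝ)⁻¹ ^ n) ^ (1 / 4 : ℝ) := by positivity
      by_cases hd : δ ≤ 4 * ((d : ℝ) + 1) * (2 : ℝ)⁻¹ ^ n
      swap
      · have : B n w w' = ∅ := by
          rw [hB]
          ext ω
          simp only [Set.mem_setOf_eq, Set.mem_empty_iff_false, iff_false]
          rintro ⟨h1, -⟩
          exact hd h1
        rw [this, measure_empty]
        exact bot_le
      rcases (dist_nonneg (x := dp ((n, w) : DI d)) (y := dp ((n, w') : DI d))).eq_or_lt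
        with h0 | h0
      · have h00 : dp ((n, w) : DI d) = dp ((n, w') : DI d) := dist_eq_zero.1 h0.symm
        have : B n w w' = ∅ := by
          rw [hB]
          ext ω
          simp only [Set.mem_setOf_eq, Set.mem_empty_iff_false, iff_false]
          rintro ⟨-, h1⟩
          rw [h00, sub_self, abs_zero] at h1
          exact absurd h1 (not_lt.2 (by positivity))
        rw [this, measure_empty]
        exact bot_le
      rw [← hδ] at h0
      have hδh : 0 < δ ^ (1 / 2 : ℝ) := by positivity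
      have hδ2 : (δ ^ (1 / 2 : ℝ)) ^ 2 = δ := by
        rw [← Real.rpow_natCast, ← Real.rpow_mul h0.le]
        norm_num
      set t'' : ℝ := t' * ((2 : ℝ)⁻¹ ^ n) ^ (1 / 4 : ℝ) / δ ^ (1 / 2 : ℝ) with ht''
      have ht''0 : 0 ≤ t'' := by positivity
      have h2 := hX (n, w) (n, w') hw hw' t'' ht''0
      rw [← hδ] at h2
      have h3 : t'' * δ ^ (1 / 2 : ℝ) = t' * ((2 : ℝ)⁻¹ ^ n) ^ (1 / 4 : ℝ) := by
        rw [ht'']; field_simp
      rw [h3] at h2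
      have h4 : B n w w' ⊆ {ω | t' * ((2 : ℝ)⁻¹ ^ n) ^ (1 / 4 : ℝ) <
          |X (dp ((n, w) : DI d)) ω - X (dp ((n, w') : DI d)) ω|} := fun ω hω => hω.2
      refine (measure_mono h4).trans (h2.trans (ENNReal.ofReal_le_ofReal ?_))
      have h5 : a * t' ^ 2 * Real.sqrt 2 ^ n ≤ t'' ^ 2 / C₀ := by
        have h6 : t'' ^ 2 = t' ^ 2 * (Real.sqrt 2 ^ n * (2 : ℝ)⁻¹ ^ n) / δ := by
          rw [ht'', div_pow, mul_pow, kc_quarter, hδ2]
        have h7 : 0 < (2 : ℝ)⁻¹ ^ n := by positivity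
        have h8 : t' ^ 2 * (Real.sqrt 2 ^ n * (2 : ℝ)⁻¹ ^ n) /
            (4 * ((d : ℝ) + 1) * (2 : ℝ)⁻¹ ^ n) ≤ t'' ^ 2 := by
          rw [h6]
          gcongr
        calc a * t' ^ 2 * Real.sqrt 2 ^ n
            = (t' ^ 2 * (Real.sqrt 2 ^ n * (2 : ℝ)⁻¹ ^ n) /
              (4 * ((d : ℝ) + 1) * (2 : ℝ)⁻¹ ^ n)) / C₀ := by
              rw [ha]; field_simp
          _ ≤ t'' ^ 2 / C₀ := by gcongr
      gcongr
    have hcomb : ∀ n : ℕ, a * t' ^ 2 / 2 + a / 2 * Real.sqrt 2 ^ n ≤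
        a * t' ^ 2 * Real.sqrt 2 ^ n := by
      intro n
      have h1 : 1 ≤ Real.sqrt 2 ^ n :=
        one_le_pow₀ (Real.one_le_sqrt.2 (by norm_num))
      have h2 : 1 ≤ t' ^ 2 := one_le_pow₀ ht'1
      have h3 : 0 ≤ (Real.sqrt 2 ^ n - 1) * t' ^ 2 := by
        have := sub_nonneg.2 h1
        positivity
      have h4 : 0 ≤ (t' ^ 2 - 1) * Real.sqrt 2 ^ n := by
        have := sub_nonneg.2 h2
        positivity
      have h5 : 0 ≤ a * ((Real.sqrt 2 ^ n - 1) * t' ^ 2 + (t' ^ 2 - 1) * Real.sqrt 2 ^ n) :=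
        mul_nonneg ha0.le (add_nonneg h3 h4)
      linarith [h5]
    have hlev : ∀ n : ℕ, P (⋃ w ∈ G n, ⋃ w' ∈ G n, B n w w') ≤
        ENNReal.ofReal (u n * Real.exp (-(a * t' ^ 2 / 2))) := by
      intro n
      calc P (⋃ w ∈ G n, ⋃ w' ∈ G n, B n w w')
          ≤ ∑ w ∈ G n, P (⋃ w' ∈ G n, B n w w') := measure_biUnion_finset_le _ _
        _ ≤ ∑ w ∈ G n, ∑ w' ∈ G n, P (B n w w') :=
            Finset.sum_le_sum fun w _ => measure_biUnion_finset_le _ _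
        _ ≤ ∑ w ∈ G n, ∑ w' ∈ G n,
            ENNReal.ofReal (2 * Real.exp (-(a * t' ^ 2 * Real.sqrt 2 ^ n))) :=
            Finset.sum_le_sum fun w hw => Finset.sum_le_sum fun w' hw' => hone n w w' hw hw'
        _ = ENNReal.ofReal (((G n).card : ℝ) * (((G n).card : ℝ) *
            (2 * Real.exp (-(a * t' ^ 2 * Real.sqrt 2 ^ n))))) := by
            rw [Finset.sum_const, Finset.sum_const, nsmul_eq_mul, nsmul_eq_mul,
              ENNReal.ofReal_mul (Nat.cast_nonneg _), ENNReal.ofReal_mul (Nat.cast_nonneg _),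
              ENNReal.ofReal_natCast]
        _ ≤ ENNReal.ofReal (u n * Real.exp (-(a * t' ^ 2 / 2))) := by
            apply ENNReal.ofReal_le_ofReal
            have h1 : Real.exp (-(a * t' ^ 2 * Real.sqrt 2 ^ n)) ≤
                Real.exp (-(a / 2 * Real.sqrt 2 ^ n)) * Real.exp (-(a * t' ^ 2 / 2)) := by
              rw [← Real.exp_add]
              apply Real.exp_le_exp.2
              have := hcomb n
              linarith
            have h2 := hGc n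
            calc ((G n).card : ℝ) * (((G n).card : ℝ) *
                  (2 * Real.exp (-(a * t' ^ 2 * Real.sqrt 2 ^ n))))
                ≤ (((2 : ℝ) ^ (n + 1) + 1) ^ d) * ((((2 : ℝ) ^ (n + 1) + 1) ^ d) *
                  (2 * (Real.exp (-(a / 2 * Real.sqrt 2 ^ n)) *
                    Real.exp (-(a * t' ^ 2 / 2))))) := by gcongr
              _ = u n * Real.exp (-(a * t' ^ 2 / 2)) := by rw [hu]; ring
    have hsum' : Summable fun n => u n * Real.exp (-(a * t' ^ 2 / 2)) := hsum.mul_right _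
    calc P {ω | ∃ p q : DI d, ‖dp p‖ ≤ 1 ∧ ‖dp q‖ ≤ 1 ∧
        t * dist (dp p) (dp q) ^ (1 / 4 : ℝ) < |X (dp p) ω - X (dp q) ω|}
        ≤ P (⋃ n : ℕ, ⋃ w ∈ G n, ⋃ w' ∈ G n, B n w w') := measure_mono hsub
      _ ≤ ∑' n, P (⋃ w ∈ G n, ⋃ w' ∈ G n, B n w w') := measure_iUnion_le _
      _ ≤ ∑' n, ENNReal.ofReal (u n * Real.exp (-(a * t' ^ 2 / 2))) :=
          ENNReal.tsum_le_tsum hlev
      _ = ENNReal.ofReal (∑' n, u n * Real.exp (-(a * t' ^ 2 / 2))) :=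
          (ENNReal.ofReal_tsum_of_nonneg (fun n => mul_nonneg (hu0 n) (Real.exp_pos _).le)
            hsum').symm
      _ ≤ ENNReal.ofReal ((∑' n, u n + Real.exp (a / 2)) *
            Real.exp (-(a / (2 * K ^ 2) * t ^ 2))) := by
          apply ENNReal.ofReal_le_ofReal
          rw [tsum_mul_right]
          have h1 : a * t' ^ 2 / 2 = a / (2 * K ^ 2) * t ^ 2 := by
            rw [ht']; field_simp
          rw [h1]
          have h2 : 0 < Real.exp (a / 2) := Real.exp_pos _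
          gcongr
          linarith

end Pool.Agent.Thick
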