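import Pool.Agent.Thick.G0
import Pool.Agent.Thick.G3

set_option autoImplicit false

/-!
# G8: almost sure bounds for the difference of two decompositions

Proof. We may take `C ≥ 1`. Fix `R : ℕ`. For `n` and a grid point `z = dp (n + d, w)` with `‖z‖ ≤ R + 1`:
* `P {t < |W (e n z)|} ≤ 2 exp (- t² / (2 C (R + 2)))` (`IsIsonormal.tail`, G0, first hypothesis);
* `X x = W (e n (z + 2^{-n} x))` has increments of variance `≤ C 2^n 2^{-n} ‖x - y‖` (second hypothesis,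
  `IsIsonormal.sub`), so by `kc_tail` (G3) with `C₀ = 2 C` the probability that
  `t dist^{1/4} < |X (dp p) - X (dp q)|` for some dyadic points of the unit ball is
  `≤ C' exp (- c t²)`, with `C'`, `c` independent of `n`, `z`.
Every dyadic point `x` with `‖x‖ ≤ R` is `z + 2^{-n} x'` with a grid point `z` with `‖x'‖ ≤ 1/2`
(`near_grid`, T5) and `x'` is dyadic; `‖z‖ ≤ R + 1`. So outside the bad events with `t = G (n+1)^{2/3}` we
have `|W (e n x)| ≤ 2 G (n+1)^{2/3}` for all `n` and all dyadic `x` with `‖x‖ ≤ R`. The probability of the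
union of the bad events over `n` and over the at most `(2^{n+d+1} (R+1) + 1)^d` grid points
(`card_grid`, T5) is at most
`∑ n, (2^{n+d+1} (R+1) + 1)^d C'' exp (- c'' G² (n+1)^{4/3})`, which tends to zero as `G → ∞`
(for `G ≥ G₀ ≥ 1`: `≤ exp (- c'' (G² - G₀²)) ∑ ..(G₀)`, convergent). So almost surely the bound holds for
some `G : ℕ`. (`dp z + 2^{-n} dp p` is dyadic: `dp_add_scale`; conversely `x' = 2^n (x - z)` is dyadic.)
-/

namespace Pool.Agent.Thick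

open MeasureTheory ProbabilityTheory Filter Topology Set

variable {d : ℕ} {H : Type} [NormedAddCommGroup H] [InnerProductSpace ℝ H] {Ω : Type}
  [MeasurableSpace Ω] {P : Measure Ω} {W : H → Ω → ℝ}

private theorem g8_tail_X (hW : IsIsonormal P W) (e : ℕ → E d → H) (C : ℝ) (hC : 0 < C)
    (h2 : ∀ n x y, ‖e n x - e n y‖ ^ 2 ≤ C * 2 ^ n * dist x y) (n : ℕ) (z x y : E d) (t : ℝ)
    (ht : 0 ≤ t) :
    P {ω | t * dist x y ^ (1 / 2 : ℝ) < |W (e n (z + (2 : ℝ)⁻¹ ^ n • x)) ω -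
      W (e n (z + (2 : ℝ)⁻¹ ^ n • y)) ω|} ≤ ENNReal.ofReal (2 * Real.exp (-(t ^ 2 / (2 * C)))) := by
  rcases (dist_nonneg (x := x) (y := y)).eq_or_lt with h0 | h0
  · have hxy : x = y := dist_eq_zero.1 h0.symm
    subst hxy
    have : {ω | t * dist x x ^ (1 / 2 : ℝ) < |W (e n (z + (2 : ℝ)⁻¹ ^ n • x)) ω -
        W (e n (z + (2 : ℝ)⁻¹ ^ n • x)) ω|} = ∅ := by
      ext ω
      simp only [Set.mem_ofPred_eq, Set.mem_empty_iff_false, iff_false, sub_self, abs_zero, not_lt]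
      positivity
    rw [this, measure_empty]
    exact bot_le
  · set δ := dist x y with hδ
    set f := e n (z + (2 : ℝ)⁻¹ ^ n • x) - e n (z + (2 : ℝ)⁻¹ ^ n • y) with hf
    have hf2 : ‖f‖ ^ 2 ≤ C * δ := by
      refine (h2 n _ _).trans (le_of_eq ?_)
      rw [dist_add_left, dist_smul₀, Real.norm_of_nonneg (by positivity), ← hδ]
      have h5 : (2 : ℝ) ^ n * (2 : ℝ)⁻¹ ^ n = 1 := by rw [← mul_pow]; norm_num
      calc C * 2 ^ n * ((2 : ℝ)⁻¹ ^ n * δ) = C * ((2 : ℝ) ^ n * (2 : ℝ)⁻¹ ^ n) * δ := by ring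
        _ = C * δ := by rw [h5, mul_one]
    have h3 := hW.tail f (C * δ) (by positivity) hf2 (t * δ ^ (1 / 2 : ℝ)) (by positivity)
    have h4 : (t * δ ^ (1 / 2 : ℝ)) ^ 2 / (2 * (C * δ)) = t ^ 2 / (2 * C) := by
      have : (δ ^ (1 / 2 : ℝ)) ^ 2 = δ := by
        rw [← Real.rpow_natCast, ← Real.rpow_mul h0.le]
        norm_num
      rw [mul_pow, this]
      field_simp
    rw [h4] at h3
    refine (measure_mono_ae ?_).trans h3
    filter_upwards [hW.sub (e n (z + (2 : ℝ)⁻¹ ^ n • x)) (e n (z + (2 : ℝ)⁻¹ ^ n • y))] with ω hω h5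
    change t * δ ^ (1 / 2 : ℝ) < |W f ω|
    rw [hf, hω]
    exact h5

private theorem g8_bad_le (hW : IsIsonormal P W) (e : ℕ → E d → H) (C : ℝ) (hC : 0 < C)
    (h1 : ∀ n x, ‖e n x‖ ^ 2 ≤ C * (1 + ‖x‖))
    (h2 : ∀ n x y, ‖e n x - e n y‖ ^ 2 ≤ C * 2 ^ n * dist x y) (R : ℕ) :
    ∃ D c : ℝ, 0 ≤ D ∧ 0 < c ∧ ∀ (n : ℕ) (z : E d), ‖z‖ ≤ (R : ℝ) + 1 → ∀ t : ℝ, 0 ≤ t →
      P ({ω | t < |W (e n z) ω|} ∪ {ω | ∃ p q : DI d, ‖dp p‖ ≤ 1 ∧ ‖dp q‖ ≤ 1 ∧
        t * dist (dp p) (dp q) ^ (1 / 4 : ℝ) < |W (e n (z + (2 : ℝ)⁻¹ ^ n • dp p)) ω -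
          W (e n (z + (2 : ℝ)⁻¹ ^ n • dp q)) ω|}) ≤
      ENNReal.ofReal (D * Real.exp (-(c * t ^ 2))) := by
  have hP := hW.prob
  obtain ⟨C1, c1, hc1, hkc⟩ := kc_tail d (2 * C) (by positivity)
  set V : ℝ := C * ((R : ℝ) + 2) with hV
  have hV0 : 0 < V := by positivity
  refine ⟨2 + |C1|, min (1 / (2 * V)) c1, by positivity, lt_min (by positivity) hc1, ?_⟩
  intro n z hz t ht
  have hz2 : ‖e n z‖ ^ 2 ≤ V := by
    refine (h1 n z).trans ?_
    rw [hV]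
    exact mul_le_mul_of_nonneg_left (by linarith) hC.le
  have a1 := hW.tail (e n z) V hV0 hz2 t ht
  have a2 := hkc Ω _ P hP (fun x ω => W (e n (z + (2 : ℝ)⁻¹ ^ n • x)) ω)
    (fun p q _ _ s hs => g8_tail_X hW e C hC h2 n z (dp p) (dp q) s hs) t ht
  refine (measure_union_le _ _).trans ((add_le_add a1 a2).trans ?_)
  have b1 : 2 * Real.exp (-(t ^ 2 / (2 * V))) ≤
      2 * Real.exp (-(min (1 / (2 * V)) c1 * t ^ 2)) := by
    have : min (1 / (2 * V)) c1 * t ^ 2 ≤ t ^ 2 / (2 * V) := by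
      calc min (1 / (2 * V)) c1 * t ^ 2 ≤ 1 / (2 * V) * t ^ 2 := by
            gcongr
            exact min_le_left _ _
        _ = t ^ 2 / (2 * V) := by ring
    gcongr
  have b2 : C1 * Real.exp (-(c1 * t ^ 2)) ≤
      |C1| * Real.exp (-(min (1 / (2 * V)) c1 * t ^ 2)) := by
    calc C1 * Real.exp (-(c1 * t ^ 2)) ≤ |C1| * Real.exp (-(c1 * t ^ 2)) := by
          gcongr
          exact le_abs_self C1
      _ ≤ |C1| * Real.exp (-(min (1 / (2 * V)) c1 * t ^ 2)) := by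
          have : min (1 / (2 * V)) c1 * t ^ 2 ≤ c1 * t ^ 2 := by
            gcongr
            exact min_le_right _ _
          gcongr
  calc ENNReal.ofReal (2 * Real.exp (-(t ^ 2 / (2 * V)))) +
        ENNReal.ofReal (C1 * Real.exp (-(c1 * t ^ 2)))
      ≤ ENNReal.ofReal (2 * Real.exp (-(min (1 / (2 * V)) c1 * t ^ 2))) +
        ENNReal.ofReal (|C1| * Real.exp (-(min (1 / (2 * V)) c1 * t ^ 2))) :=
        add_le_add (ENNReal.ofReal_le_ofReal b1) (ENNReal.ofReal_le_ofReal b2)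
    _ = _ := by
        rw [← ENNReal.ofReal_add (by positivity) (by positivity), ← add_mul]

private theorem g8_dyadic (n : ℕ) (p : DI d) (w : Fin d → ℤ) :
    ∃ q : DI d, dp q = (2 : ℝ) ^ n • (dp p - dp ((n + d, w) : DI d)) := by
  obtain ⟨m, u⟩ := p
  refine ⟨(m + d, fun i => 2 ^ (n + d) * u i - 2 ^ m * w i), ?_⟩
  ext i
  simp only [dp, PiLp.smul_apply, PiLp.sub_apply, smul_eq_mul]
  push_cast
  have h2 : ∀ j : ℕ, (2 : ℝ)⁻¹ ^ j * 2 ^ j = 1 := fun j => by rw [← mul_pow]; norm_num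
  have e1 : (2 : ℝ)⁻¹ ^ (m + d) * 2 ^ (n + d) = 2 ^ n * (2 : ℝ)⁻¹ ^ m := by
    calc (2 : ℝ)⁻¹ ^ (m + d) * 2 ^ (n + d) = 2 ^ n * (2 : ℝ)⁻¹ ^ m * ((2 : ℝ)⁻¹ ^ d * 2 ^ d) := by
          rw [pow_add, pow_add]; ring
      _ = _ := by rw [h2, mul_one]
  have e2 : (2 : ℝ)⁻¹ ^ (m + d) * 2 ^ m = 2 ^ n * (2 : ℝ)⁻¹ ^ (n + d) := by
    calc (2 : ℝ)⁻¹ ^ (m + d) * 2 ^ m = (2 : ℝ)⁻¹ ^ d * ((2 : ℝ)⁻¹ ^ m * 2 ^ m) := by
          rw [pow_add]; ring
      _ = (2 : ℝ)⁻¹ ^ d * ((2 : ℝ)⁻¹ ^ n * 2 ^ n) := by rw [h2, h2]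
      _ = _ := by rw [pow_add]; ring
  calc (2 : ℝ)⁻¹ ^ (m + d) * (2 ^ (n + d) * (u i : ℝ) - 2 ^ m * (w i : ℝ))
      = ((2 : ℝ)⁻¹ ^ (m + d) * 2 ^ (n + d)) * u i - ((2 : ℝ)⁻¹ ^ (m + d) * 2 ^ m) * w i := by ring
    _ = 2 ^ n * ((2 : ℝ)⁻¹ ^ m * u i - (2 : ℝ)⁻¹ ^ (n + d) * w i) := by
        rw [e1, e2]; ring

private theorem g8_zero : dp ((0, 0) : DI d) = 0 := by
  ext i
  simp [dp]

theorem error_bound (hW : IsIsonormal P W) (e : ℕ → E d → H) (C : ℝ)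
    (h1 : ∀ n x, ‖e n x‖ ^ 2 ≤ C * (1 + ‖x‖))
    (h2 : ∀ n x y, ‖e n x - e n y‖ ^ 2 ≤ C * 2 ^ n * dist x y) :
    ∀ᵐ ω ∂P, ∀ R : ℕ, ∃ G : ℝ, 0 ≤ G ∧ ∀ (n : ℕ) (p : DI d), ‖dp p‖ ≤ R →
      |W (e n (dp p)) ω| ≤ G * ((n : ℝ) + 1) ^ (2 / 3 : ℝ) := by
  classical
  rw [ae_all_iff]
  intro R
  have hC' : 0 < max C 1 := lt_max_of_lt_right one_pos
  have h1' : ∀ n x, ‖e n x‖ ^ 2 ≤ max C 1 * (1 + ‖x‖) := fun n x => (h1 n x).trans (by
    gcongr
    exact le_max_left _ _)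
  have h2' : ∀ n x y, ‖e n x - e n y‖ ^ 2 ≤ max C 1 * 2 ^ n * dist x y := fun n x y =>
    (h2 n x y).trans (by
      gcongr
      exact le_max_left _ _)
  obtain ⟨D, c, hD, hc, hbad⟩ := g8_bad_le hW e (max C 1) hC' h1' h2' R
  -- the thresholds and the bad events
  set t : ℕ → ℕ → ℝ := fun G n => (G : ℝ) * ((n : ℝ) + 1) ^ (2 / 3 : ℝ) with ht
  have ht0 : ∀ G n, 0 ≤ t G n := fun G n => by rw [ht]; positivity
  set A : ℕ → ℕ → (Fin d → ℤ) → Set Ω := fun G n w =>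
    {ω | t G n < |W (e n (dp ((n + d, w) : DI d))) ω|} ∪
      {ω | ∃ p q : DI d, ‖dp p‖ ≤ 1 ∧ ‖dp q‖ ≤ 1 ∧
        t G n * dist (dp p) (dp q) ^ (1 / 4 : ℝ) <
          |W (e n (dp ((n + d, w) : DI d) + (2 : ℝ)⁻¹ ^ n • dp p)) ω -
            W (e n (dp ((n + d, w) : DI d) + (2 : ℝ)⁻¹ ^ n • dp q)) ω|} with hA
  set F : ℕ → Finset (Fin d → ℤ) := fun n => (finite_grid (d := d) (n + d) (R + 1)).toFinset
    with hF
  have hFm : ∀ n (w : Fin d → ℤ), w ∈ F n ↔ ‖dp ((n + d, w) : DI d)‖ ≤ (R : ℝ) + 1 := by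
    intro n w
    rw [hF]
    simp
  set K : ℝ := ((2 : ℝ) ^ (d + 1) * ((R : ℝ) + 2)) ^ d with hK
  have hK0 : 0 < K := by positivity
  have hFc : ∀ n, ((F n).card : ℝ) ≤ K ^ (n + 1) := by
    intro n
    have a1 : (F n).card ≤ (2 ^ (n + d + 1) * (R + 1) + 1) ^ d := by
      rw [hF]
      simp only
      rw [← Set.ncard_eq_toFinset_card _ (finite_grid (d := d) (n + d) (R + 1))]
      exact card_grid (d := d) (n + d) (R + 1)
    have a2 : ((F n).card : ℝ) ≤ ((2 : ℝ) ^ (n + d + 1) * ((R : ℝ) + 1) + 1) ^ d := by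
      exact_mod_cast a1
    refine a2.trans ?_
    rw [hK, ← pow_mul, mul_comm d (n + 1), pow_mul]
    gcongr
    have b1 : (1 : ℝ) ≤ 2 ^ d * ((R : ℝ) + 2) := by
      have c1 : (1 : ℝ) ≤ 2 ^ d := one_le_pow₀ (by norm_num)
      have c2 : (0 : ℝ) ≤ R := Nat.cast_nonneg R
      nlinarith
    have b2 : (1 : ℝ) ≤ 2 ^ (n + d + 1) := one_le_pow₀ (by norm_num)
    calc (2 : ℝ) ^ (n + d + 1) * ((R : ℝ) + 1) + 1
        ≤ 2 ^ (n + d + 1) * ((R : ℝ) + 1) + 2 ^ (n + d + 1) := by gcongr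
      _ = 2 ^ (n + 1) * (2 ^ d * ((R : ℝ) + 2)) ^ 1 := by
          rw [pow_add, pow_add, pow_add]; ring
      _ ≤ 2 ^ (n + 1) * (2 ^ d * ((R : ℝ) + 2)) ^ (n + 1) := by
          exact mul_le_mul_of_nonneg_left (pow_le_pow_right₀ b1 (by omega)) (by positivity)
      _ = (2 ^ (d + 1) * ((R : ℝ) + 2)) ^ (n + 1) := by
          rw [← mul_pow]
          congr 1
          rw [pow_succ]; ring
  set y : ℕ → ℝ := fun G => K * Real.exp (-(c * (G : ℝ) ^ 2)) with hy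
  have hy0 : ∀ G, 0 ≤ y G := fun G => by rw [hy]; positivity
  -- bound for one level
  have hlev : ∀ G n, P (⋃ w ∈ F n, A G n w) ≤ ENNReal.ofReal (D * y G ^ (n + 1)) := by
    intro G n
    calc P (⋃ w ∈ F n, A G n w) ≤ ∑ w ∈ F n, P (A G n w) := measure_biUnion_finset_le _ _
      _ ≤ ∑ _w ∈ F n, ENNReal.ofReal (D * Real.exp (-(c * t G n ^ 2))) :=
          Finset.sum_le_sum fun w hw => hbad n _ ((hFm n w).1 hw) _ (ht0 G n)
      _ = ENNReal.ofReal (((F n).card : ℝ) * (D * Real.exp (-(c * t G n ^ 2)))) := by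
          rw [Finset.sum_const, nsmul_eq_mul, ENNReal.ofReal_mul (Nat.cast_nonneg _),
            ENNReal.ofReal_natCast]
      _ ≤ ENNReal.ofReal (D * y G ^ (n + 1)) := by
          apply ENNReal.ofReal_le_ofReal
          have a1 : Real.exp (-(c * t G n ^ 2)) ≤ Real.exp (-(c * (G : ℝ) ^ 2)) ^ (n + 1) := by
            rw [← Real.exp_nat_mul]
            apply Real.exp_le_exp.2
            have b1 : (n : ℝ) + 1 ≤ (((n : ℝ) + 1) ^ (2 / 3 : ℝ)) ^ 2 := by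
              rw [← Real.rpow_natCast, ← Real.rpow_mul (by positivity)]
              calc (n : ℝ) + 1 = ((n : ℝ) + 1) ^ (1 : ℝ) := (Real.rpow_one _).symm
                _ ≤ ((n : ℝ) + 1) ^ (2 / 3 * ((2 : ℕ) : ℝ)) := by
                    apply Real.rpow_le_rpow_of_exponent_le
                    · have : (0 : ℝ) ≤ n := Nat.cast_nonneg n
                      linarith
                    · norm_num
            have b2 : t G n ^ 2 = (G : ℝ) ^ 2 * (((n : ℝ) + 1) ^ (2 / 3 : ℝ)) ^ 2 := by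
              rw [ht]; ring
            rw [b2]
            push_cast
            have b3 : 0 ≤ c * (G : ℝ) ^ 2 := by positivity
            nlinarith [mul_le_mul_of_nonneg_left b1 b3]
          calc ((F n).card : ℝ) * (D * Real.exp (-(c * t G n ^ 2)))
              ≤ K ^ (n + 1) * (D * Real.exp (-(c * (G : ℝ) ^ 2)) ^ (n + 1)) := by
                gcongr
                exact hFc n
            _ = D * y G ^ (n + 1) := by rw [hy, mul_pow]; ring
  have htot : ∀ G, y G ≤ 1 / 2 →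
      P (⋃ n : ℕ, ⋃ w ∈ F n, A G n w) ≤ ENNReal.ofReal (2 * D * y G) := by
    intro G hG
    have hG1 : y G < 1 := by linarith
    have hs : Summable fun n : ℕ => D * y G ^ (n + 1) := by
      have := (summable_geometric_of_lt_one (hy0 G) hG1).mul_left (D * y G)
      refine this.congr fun n => ?_
      rw [pow_succ]; ring
    calc P (⋃ n : ℕ, ⋃ w ∈ F n, A G n w) ≤ ∑' n, P (⋃ w ∈ F n, A G n w) := measure_iUnion_le _
      _ ≤ ∑' n, ENNReal.ofReal (D * y G ^ (n + 1)) := ENNReal.tsum_le_tsum (hlev G)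
      _ = ENNReal.ofReal (∑' n, D * y G ^ (n + 1)) :=
          (ENNReal.ofReal_tsum_of_nonneg (fun n => by have := hy0 G; positivity) hs).symm
      _ ≤ ENNReal.ofReal (2 * D * y G) := by
          apply ENNReal.ofReal_le_ofReal
          have a1 : ∑' n, D * y G ^ (n + 1) = D * y G * (1 - y G)⁻¹ := by
            rw [← tsum_geometric_of_lt_one (hy0 G) hG1, ← tsum_mul_left]
            refine tsum_congr fun n => ?_
            rw [pow_succ]; ring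
          have a2 : (1 - y G)⁻¹ ≤ 2 := by
            rw [inv_le_comm₀ (by linarith) (by norm_num)]
            linarith
          rw [a1]
          have a3 : 0 ≤ D * y G := mul_nonneg hD (hy0 G)
          nlinarith
  have hlim : Tendsto y atTop (𝓝 0) := by
    have a1 : Tendsto (fun G : ℕ => c * (G : ℝ) ^ 2) atTop atTop :=
      ((tendsto_pow_atTop (two_ne_zero)).comp tendsto_natCast_atTop_atTop).const_mul_atTop hc
    have a2 := (Real.tendsto_exp_neg_atTop_nhds_zero.comp a1).const_mul K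
    rw [mul_zero] at a2
    exact a2
  have hlim2 : Tendsto (fun G => ENNReal.ofReal (2 * D * y G)) atTop (𝓝 0) := by
    have := ENNReal.tendsto_ofReal (hlim.const_mul (2 * D))
    rwa [mul_zero, ENNReal.ofReal_zero] at this
  rw [ae_iff]
  refine le_antisymm ?_ bot_le
  refine ge_of_tendsto hlim2 ?_
  filter_upwards [hlim.eventually (ge_mem_nhds (show (0 : ℝ) < 1 / 2 by norm_num))] with G hG
  refine (measure_mono ?_).trans (htot G hG)
  intro ω hω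
  by_contra hcon
  refine hω ⟨2 * G, by positivity, fun n p hp => ?_⟩
  simp only [Set.mem_iUnion, not_exists] at hcon
  obtain ⟨w, hw⟩ := near_grid n (dp p)
  set z := dp ((n + d, w) : DI d) with hz
  have hn1 : (2 : ℝ)⁻¹ ^ n ≤ 1 := pow_le_one₀ (by norm_num) (by norm_num)
  have hzR : ‖z‖ ≤ (R : ℝ) + 1 := by
    have a1 : ‖z‖ ≤ ‖dp p‖ + dist (dp p) z := by
      rw [dist_eq_norm]
      calc ‖z‖ = ‖dp p - (dp p - z)‖ := by congr 1; abel
        _ ≤ _ := norm_sub_le _ _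
    linarith
  have hA1 := hcon n w ((hFm n w).2 hzR)
  rw [hA] at hA1
  simp only [Set.mem_union, Set.mem_ofPred_eq, not_or, not_lt, not_exists, not_and] at hA1
  obtain ⟨hA1, hA2⟩ := hA1
  obtain ⟨q, hq⟩ := g8_dyadic n p w
  rw [← hz] at hq
  have h2n : (2 : ℝ)⁻¹ ^ n * 2 ^ n = 1 := by rw [← mul_pow]; norm_num
  have hq1 : ‖dp q‖ ≤ 1 := by
    rw [hq, norm_smul, Real.norm_of_nonneg (by positivity), ← dist_eq_norm]
    calc (2 : ℝ) ^ n * dist (dp p) z ≤ 2 ^ n * ((2 : ℝ)⁻¹ ^ n / 2) := by gcongr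
      _ = ((2 : ℝ)⁻¹ ^ n * 2 ^ n) / 2 := by ring
      _ ≤ 1 := by rw [h2n]; norm_num
  have h3 := hA2 q (0, 0) hq1 (by rw [g8_zero, norm_zero]; exact zero_le_one)
  rw [g8_zero, smul_zero, add_zero, hq, smul_smul, h2n, one_smul, add_sub_cancel, ← hq,
    dist_zero_right] at h3
  have h4 : ‖dp q‖ ^ (1 / 4 : ℝ) ≤ 1 := Real.rpow_le_one (norm_nonneg _) hq1 (by norm_num)
  have h5 : t G n * ‖dp q‖ ^ (1 / 4 : ℝ) ≤ t G n := mul_le_of_le_one_right (ht0 G n) h4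
  have h6 : |W (e n (dp p)) ω| ≤ |W (e n (dp p)) ω - W (e n z) ω| + |W (e n z) ω| := by
    calc |W (e n (dp p)) ω| = |(W (e n (dp p)) ω - W (e n z) ω) + W (e n z) ω| := by
          rw [sub_add_cancel]
      _ ≤ _ := abs_add_le _ _
  have h7 : 2 * (G : ℝ) * ((n : ℝ) + 1) ^ (2 / 3 : ℝ) = t G n + t G n := by
    rw [ht]; ring
  rw [h7]
  linarith

end Pool.Agent.Thick
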