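import Pool.Agent.Thick.G2
import Pool.Agent.Thick.M0

set_option autoImplicit false

/-!
# G9: the law of the array of the mollified field

Proof. `map_eq_of_combos` (G2) with `T = ℕ × DI d`. For a finite combination put
`F = ∑ c q • mtest ρ q.1 (dp q.2)`: `Test0 F` (`test0_mtest`, M0, and closure under linear combinations,
`test0_sum`). By linearity of the distribution `φ ω` (almost surely; `IsDistr.sum`, M0)
`∑ c q φ ω (mtest ..) = φ ω F` almost surely, whose law is `gaussianReal 0 (logCov F F).toNNReal`. On the other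
side `∑ c q W (A (mtest ..)) = W (∑ c q • A (mtest ..)) = W (A F)` almost surely (`IsIsonormal.sum`, G0;
linearity of `A` on `Cc0`), whose law is `gaussianReal 0 (‖A F‖₊²)` and `‖A F‖² = logCov F F`.
(`Measure.map_congr` for almost surely equal functions.) `P` is a probability measure because
`P.map (φ · 0) = gaussianReal 0 _` is one (`isProb_of_isLGF`).
-/

namespace Pool.Agent.Thick

open MeasureTheory ProbabilityTheory Filter Topology Set

/-- Embeddings of the test functions in a Hilbert space with the logarithmic covariance. -/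
structure IsEmbed {d : ℕ} {H : Type} [NormedAddCommGroup H] [InnerProductSpace ℝ H]
    (A : (E d → ℝ) → H) : Prop where
  add : ∀ f g, Cc0 f → Cc0 g → A (f + g) = A f + A g
  smul : ∀ (c : ℝ) (f : E d → ℝ), Cc0 f → A (c • f) = c • A f
  norm : ∀ f, Cc0 f → ‖A f‖ ^ 2 = logCov f f

theorem isProb_of_isLGF {d : ℕ} {Ω : Type} [MeasurableSpace Ω] {P : Measure Ω}
    {φ : Ω → (E d → ℝ) → ℝ} (hφ : IsLGF P φ) : IsProbabilityMeasure P := by
  constructor
  have h := hφ.law 0 test0_zero
  have h1 : P.map (fun ω => φ ω 0) univ = 1 := by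
    rw [h]
    exact measure_univ
  rwa [Measure.map_apply (hφ.meas 0 test0_zero) MeasurableSet.univ, preimage_univ] at h1

private theorem embed_zero {d : ℕ} {H : Type} [NormedAddCommGroup H] [InnerProductSpace ℝ H]
    {A : (E d → ℝ) → H} (hA : IsEmbed A) : A 0 = 0 := by
  have h := hA.smul 0 0 (cc0_of_test0 test0_zero)
  rwa [zero_smul, zero_smul] at h

private theorem embed_sum {d : ℕ} {H : Type} [NormedAddCommGroup H] [InnerProductSpace ℝ H]
    {A : (E d → ℝ) → H} (hA : IsEmbed A) {T : Type} (s : Finset T) (c : T → ℝ) (f : T → E d → ℝ)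
    (hf : ∀ t, Test0 (f t)) : A (∑ t ∈ s, c t • f t) = ∑ t ∈ s, c t • A (f t) := by
  classical
  induction s using Finset.induction_on with
  | empty =>
    rw [Finset.sum_empty, Finset.sum_empty]
    exact embed_zero hA
  | insert t s ht ih =>
    rw [Finset.sum_insert ht, Finset.sum_insert ht,
      hA.add _ _ (cc0_of_test0 ((hf t).smul (c t))) (cc0_of_test0 (test0_sum s c f hf)),
      hA.smul (c t) (f t) (cc0_of_test0 (hf t)), ih]

theorem array_law {d : ℕ} {Ω : Type} [MeasurableSpace Ω] {P : Measure Ω}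
    {φ : Ω → (E d → ℝ) → ℝ} (hφ : IsLGF P φ) (ρ : E d → ℝ) (hρ : IsMollifier ρ)
    {H : Type} [NormedAddCommGroup H] [InnerProductSpace ℝ H] {Ω' : Type} [MeasurableSpace Ω']
    {P' : Measure Ω'} {W : H → Ω' → ℝ} (hW : IsIsonormal P' W) (A : (E d → ℝ) → H)
    (hA : IsEmbed A) :
    P.map (fun ω (q : ℕ × DI d) => φ ω (mtest ρ q.1 (dp q.2))) =
      P'.map (fun ω (q : ℕ × DI d) => W (A (mtest ρ q.1 (dp q.2))) ω) := by
  have := isProb_of_isLGF hφ
  have := hW.prob
  have ht : ∀ q : ℕ × DI d, Test0 (mtest ρ q.1 (dp q.2)) := fun q => test0_mtest ρ hρ _ _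
  refine map_eq_of_combos P P' (fun (q : ℕ × DI d) ω => φ ω (mtest ρ q.1 (dp q.2)))
    (fun q => W (A (mtest ρ q.1 (dp q.2)))) (fun q => hφ.meas _ (ht q)) (fun q => hW.meas _)
    fun s c => ?_
  have hF : Test0 (∑ q ∈ s, c q • mtest ρ q.1 (dp q.2)) := test0_sum s c _ ht
  have h1 : P.map (fun ω => ∑ q ∈ s, c q * φ ω (mtest ρ q.1 (dp q.2))) =
      P.map (fun ω => φ ω (∑ q ∈ s, c q • mtest ρ q.1 (dp q.2))) := by
    refine Measure.map_congr ?_
    filter_upwards [hφ.distr] with ω hω
    exact (hω.sum s c _ ht).symm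
  have h2 : P'.map (fun ω => ∑ q ∈ s, c q * W (A (mtest ρ q.1 (dp q.2))) ω) =
      P'.map (W (A (∑ q ∈ s, c q • mtest ρ q.1 (dp q.2)))) := by
    rw [embed_sum hA s c _ ht]
    refine Measure.map_congr ?_
    filter_upwards [hW.sum s c fun q => A (mtest ρ q.1 (dp q.2))] with ω hω
    exact hω.symm
  rw [h1, h2, hφ.law _ hF, hW.law]
  congr 1
  apply NNReal.eq
  rw [← hA.norm _ (cc0_of_test0 hF), Real.coe_toNNReal _ (sq_nonneg _)]
  push_cast
  rfl

end Pool.Agent.Thick
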