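import Pool.Agent.Thick.M0

set_option autoImplicit false

/-!
# G10: the mollified field is continuous

Proof. `E d` is metrizable, so it is enough that `u (mtest ρ n (x k)) → u (mtest ρ n x)` for every sequence
`x k → x` (`continuous_iff_seqContinuous`). Apply `IsDistr.cont` with `F k = mtest ρ n (x k)`: `Test0` by
`test0_mtest` (M0); the sequence `x k` is in a ball of radius `M`, so all supports are in a fixed
compact ball. Derivatives: `mtest ρ n x y = h (y - x) - ρ (-y)` with `h w = scaled ρ n (-w)`, smooth with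
compact support, so `iteratedFDeriv m (mtest ρ n x) y = iteratedFDeriv m h (y - x) - iteratedFDeriv m (ρ ∘ neg) y`
(`iteratedFDeriv_comp_sub`, `iteratedFDeriv_sub`), and `iteratedFDeriv m h` is continuous with compact
support (`HasCompactSupport.iteratedFDeriv`), hence uniformly continuous
(`Continuous.uniformContinuous_of_hasCompactSupport` or `..tendsto_zero_at_infty`): uniform
convergence in `y` as `x k → x`.
-/

namespace Pool.Agent.Thick

open MeasureTheory ProbabilityTheory Filter Topology Set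

/-- the profile of the test function -/
private noncomputable def prof {d : ℕ} (ρ : E d → ℝ) (n : ℕ) (w : E d) : ℝ := scaled ρ n (-w)

private theorem mtest_eq {d : ℕ} (ρ : E d → ℝ) (n : ℕ) (x : E d) :
    mtest ρ n x = (fun y => prof ρ n (y - x)) - fun y => ρ (-y) := by
  funext y
  simp only [mtest, prof, Pi.sub_apply, neg_sub]

private theorem prof_smooth {d : ℕ} {ρ : E d → ℝ} (hρ : IsMollifier ρ) (n : ℕ) :
    ContDiff ℝ (⊤ : ℕ∞) (prof ρ n) := by
  have h1 : ContDiff ℝ (⊤ : ℕ∞) fun w : E d => (2 : ℝ) ^ n • -w := by fun_prop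
  exact contDiff_const.mul (hρ.smooth.comp h1)

private theorem prof_supp {d : ℕ} {ρ : E d → ℝ} (hρ : IsMollifier ρ) (n : ℕ) :
    HasCompactSupport (prof ρ n) := by
  have h2 : ((2 : ℝ) ^ n) ≠ 0 := by positivity
  have h1 : HasCompactSupport
      (ρ ∘ ((Homeomorph.neg (E d)).trans (Homeomorph.smulOfNeZero ((2 : ℝ) ^ n) h2))) :=
    hρ.supp.comp_homeomorph _
  have h3 : prof ρ n = fun w => (2 : ℝ) ^ (n * d) *
      (ρ ∘ ((Homeomorph.neg (E d)).trans (Homeomorph.smulOfNeZero ((2 : ℝ) ^ n) h2))) w := rfl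
  rw [h3]
  exact h1.mul_left

private theorem neg_smooth {d : ℕ} {ρ : E d → ℝ} (hρ : IsMollifier ρ) :
    ContDiff ℝ (⊤ : ℕ∞) fun y => ρ (-y) := hρ.smooth.comp contDiff_neg

private theorem neg_supp {d : ℕ} {ρ : E d → ℝ} (hρ : IsMollifier ρ) :
    HasCompactSupport fun y => ρ (-y) := hρ.supp.comp_homeomorph (Homeomorph.neg (E d))

private theorem exists_radius {d : ℕ} {f : E d → ℝ} (hf : HasCompactSupport f) :
    ∃ R : ℝ, ∀ y, R < ‖y‖ → f y = 0 := by
  obtain ⟨R, hR⟩ := hf.isCompact.isBounded.subset_closedBall (0 : E d)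
  refine ⟨R, fun y hy => ?_⟩
  by_contra h
  have h1 := hR (subset_tsupport f h)
  rw [mem_closedBall_zero_iff] at h1
  exact absurd h1 (not_le.2 hy)

private theorem deriv_eq {d : ℕ} {ρ : E d → ℝ} (hρ : IsMollifier ρ) (n : ℕ) (x y : E d)
    (m : ℕ) : iteratedFDeriv ℝ m (mtest ρ n x) y =
      iteratedFDeriv ℝ m (prof ρ n) (y - x) - iteratedFDeriv ℝ m (fun y => ρ (-y)) y := by
  have hm : ((m : ℕ∞) : WithTop ℕ∞) ≤ ((⊤ : ℕ∞) : WithTop ℕ∞) := by
    exact_mod_cast le_top
  have h1 : ContDiff ℝ m fun y => prof ρ n (y - x) :=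
    ((prof_smooth hρ n).of_le hm).comp (contDiff_id.sub contDiff_const)
  have h2 : ContDiff ℝ m fun y => ρ (-y) := (neg_smooth hρ).of_le hm
  rw [mtest_eq, iteratedFDeriv_sub_apply h1.contDiffAt h2.contDiffAt, iteratedFDeriv_comp_sub]

theorem continuous_pair {d : ℕ} {u : (E d → ℝ) → ℝ} (hu : IsDistr u) (ρ : E d → ℝ)
    (hρ : IsMollifier ρ) (n : ℕ) : Continuous fun x => u (mtest ρ n x) := by
  rw [continuous_iff_seqContinuous]
  intro x p hx
  refine hu.cont (fun k => mtest ρ n (x k)) (mtest ρ n p) (fun k => test0_mtest ρ hρ n (x k))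
    (test0_mtest ρ hρ n p) ?_ ?_
  · obtain ⟨R, hR⟩ := exists_radius (prof_supp hρ n)
    obtain ⟨R', hR'⟩ := exists_radius (neg_supp hρ)
    obtain ⟨M, hM⟩ := (Metric.isBounded_range_of_tendsto x hx).exists_norm_le
    refine ⟨Metric.closedBall 0 (max (R + M) R'), isCompact_closedBall _ _, fun k => ?_⟩
    refine closure_minimal (fun y hy => ?_) Metric.isClosed_closedBall
    rw [mem_closedBall_zero_iff]
    by_contra hcon
    rw [not_le, max_lt_iff] at hcon
    apply hy
    have h1 : R < ‖y - x k‖ := by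
      have h3 := norm_sub_norm_le y (x k)
      have h4 := hM (x k) ⟨k, rfl⟩
      linarith [hcon.1]
    rw [mtest_eq, Pi.sub_apply]
    have h5 := hR _ h1
    have h6 : ρ (-y) = 0 := hR' _ hcon.2
    rw [h5, h6, sub_zero]
  · intro m
    have hm : ((m : ℕ∞) : WithTop ℕ∞) ≤ ((⊤ : ℕ∞) : WithTop ℕ∞) := by
      exact_mod_cast le_top
    have hc : Continuous (iteratedFDeriv ℝ m (prof ρ n)) :=
      (prof_smooth hρ n).continuous_iteratedFDeriv hm
    have huc : UniformContinuous (iteratedFDeriv ℝ m (prof ρ n)) :=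
      ((prof_supp hρ n).iteratedFDeriv m).uniformContinuous_of_continuous hc
    rw [Metric.tendstoUniformly_iff]
    intro ε hε
    obtain ⟨δ, hδ, hδ'⟩ := Metric.uniformContinuous_iff.1 huc ε hε
    filter_upwards [(Metric.tendsto_nhds.1 hx) δ hδ] with k hk y
    rw [deriv_eq hρ, deriv_eq hρ, dist_sub_right]
    apply hδ'
    rw [dist_sub_left]
    rwa [dist_comm]

end Pool.Agent.Thick
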