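import Pool.Agent.Thick.M1
import Pool.Agent.Thick.T5
import Pool.Agent.Thick.G10

set_option autoImplicit false

/-!
# M2: components of the thick set and chains of dyadic points

* `qcross_of_nontriv`: by `thick_subset` (M1) `thick ρ u c α ⊆ ⋃ h, F h` with
  `F h = {x | ‖x‖ ≤ h ∧ ∀ n, a n - h ≤ moll ρ u c n x}`, compact because `x ↦ moll ρ u c n x` is
  continuous (`continuous_pair`, G10). By `nontriv_of_iUnion` (T4) applied to `F h` (note
  `Nontriv.mono`) some `F h` is `Nontriv`. By `cross_small` (T5) with `L = 2` and `n` large there is a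
  grid point `z` with `Cross (F h) (dp z) (2^{-n}) (2 * 2^{-n})`. Let `h' ≥ h + |c|` be a natural number:
  `F h ⊆ {x | ∀ n, 0 ≤ u (mtest ρ n x) - (a n - h')}` and `cross_iff_qcross` (T3) gives the chain.
* `hasComp_of_qcross`: `cross_iff_qcross` gives a crossing of the closed set
  `{x | ∀ n, 0 ≤ u (mtest ρ n x) - (α log 2 n - H (n+1)^{3/4})} ⊆ thick ρ u c α` (`subset_thick`, M1);
  `nontriv_of_cross` (T5) with radii `1 < 2`, `Nontriv.mono` and `hasComp_iff` (Defs).
-/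

namespace Pool.Agent.Thick

open MeasureTheory ProbabilityTheory Filter Topology Set

theorem qcross_of_nontriv {d : ℕ} {u : (E d → ℝ) → ℝ} (hu : IsDistr u) (ρ : E d → ℝ)
    (hρ : IsMollifier ρ) (c α a : ℝ) (ha : a < α * Real.log 2) (h : HasComp (thick ρ u c α)) :
    ∃ (m h' : ℕ) (z : DI d), QCross (fun n p => u (mtest ρ n (dp p)) - (a * n - h')) (dp z)
      ((2 : ℝ)⁻¹ ^ m) (2 * (2 : ℝ)⁻¹ ^ m) := by
  have h1 := ((hasComp_iff _).1 h).mono (thick_subset ρ u c α a ha)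
  have hcont : ∀ n, Continuous fun x => moll ρ u c n x := fun n =>
    (continuous_pair hu ρ hρ n).add continuous_const
  have hF : ∀ k : ℕ, IsCompact {x : E d | ‖x‖ ≤ k ∧ ∀ n : ℕ, a * n - k ≤ moll ρ u c n x} := by
    intro k
    have h2 : {x : E d | ‖x‖ ≤ k ∧ ∀ n : ℕ, a * n - k ≤ moll ρ u c n x} =
        Metric.closedBall 0 (k : ℝ) ∩ ⋂ n : ℕ, {x : E d | a * n - k ≤ moll ρ u c n x} := by
      ext x
      simp
    rw [h2]
    exact (isCompact_closedBall _ _).inter_right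
      (isClosed_iInter fun n => isClosed_le continuous_const (hcont n))
  obtain ⟨k, hk⟩ := nontriv_of_iUnion _ hF h1
  obtain ⟨M, δ, hδ, hcross⟩ := cross_small _ hk
  obtain ⟨m, hm⟩ := exists_pow_lt_of_lt_one (half_pos hδ) (by norm_num : (2 : ℝ)⁻¹ < 1)
  obtain ⟨w, -, K, hK, hKc, hx, hy⟩ := hcross m 2 one_le_two (by linarith)
  obtain ⟨h', hh'⟩ := exists_nat_ge ((k : ℝ) + |c|)
  refine ⟨m, h', (m + d, w), ?_⟩
  refine (cross_iff_qcross (fun n x => u (mtest ρ n x) - (a * n - h')) (fun n =>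
    (continuous_pair hu ρ hρ n).sub continuous_const) _ _ _ ?_).1 ⟨K, ?_, hKc, hx, hy⟩
  · have h3 : (0 : ℝ) < (2 : ℝ)⁻¹ ^ m := by positivity
    linarith
  · intro x hxK n
    have h4 := (hK hxK).2 n
    have h5 := le_abs_self c
    unfold moll at h4
    linarith

theorem hasComp_of_qcross {d : ℕ} {u : (E d → ℝ) → ℝ} (hu : IsDistr u) (ρ : E d → ℝ)
    (hρ : IsMollifier ρ) (c α H : ℝ) (z : DI d)
    (h : QCross (fun n p => u (mtest ρ n (dp p)) -
      (α * Real.log 2 * n - H * ((n : ℝ) + 1) ^ (3 / 4 : ℝ))) (dp z) 1 2) :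
    HasComp (thick ρ u c α) := by
  have h1 := (cross_iff_qcross (fun n x => u (mtest ρ n x) -
    (α * Real.log 2 * n - H * ((n : ℝ) + 1) ^ (3 / 4 : ℝ))) (fun n =>
    (continuous_pair hu ρ hρ n).sub continuous_const) (dp z) 1 2 (by norm_num)).2 h
  exact (hasComp_iff _).2
    ((nontriv_of_cross _ _ _ _ (by norm_num) h1).mono (subset_thick ρ u c α H))

end Pool.Agent.Thick
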