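import Pool.Agent.Thick.B7
import Pool.Agent.Thick.G1
import Pool.Agent.Thick.G7
import Pool.Agent.Thick.G7b
import Pool.Agent.Thick.G8
import Pool.Agent.Thick.G9
import Pool.Agent.Thick.M2
import Pool.Agent.Thick.Err
import Pool.Agent.Thick.EmbLog

set_option autoImplicit false

/-!
# The thick points at the critical level have nontrivial connected components

Assembly: coupling in law of the mollified field with the scale fields, transfer of the
crossing events (countable combinations of conditions at dyadic points) in both directions.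
-/

namespace Pool.Agent.Thick

open MeasureTheory ProbabilityTheory Filter Topology Set

/-- Crossing events of arrays with countably many parameters are measurable. -/
private theorem meas_one {d : ℕ} (a : ℝ) :
    MeasurableSet {A : ℕ × DI d → ℝ | ∃ (m h : ℕ) (z : DI d),
      QCross (fun n p => A (n, p) - (a * n - h)) (dp z) ((2 : ℝ)⁻¹ ^ m) (2 * (2 : ℝ)⁻¹ ^ m)} := by
  have h0 : {A : ℕ × DI d → ℝ | ∃ (m h : ℕ) (z : DI d),
      QCross (fun n p => A (n, p) - (a * n - h)) (dp z) ((2 : ℝ)⁻¹ ^ m) (2 * (2 : ℝ)⁻¹ ^ m)} =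
      ⋃ m : ℕ, ⋃ h : ℕ, ⋃ z : DI d, {A : ℕ × DI d → ℝ | QCross
        (fun n p => (fun (n : ℕ) (p : DI d) (A : ℕ × DI d → ℝ) => A (n, p) - (a * n - h)) n p A)
        (dp z) ((2 : ℝ)⁻¹ ^ m) (2 * (2 : ℝ)⁻¹ ^ m)} := by
    ext A
    simp only [mem_ofPred_eq, mem_iUnion]
  rw [h0]
  refine MeasurableSet.iUnion fun m => MeasurableSet.iUnion fun h => MeasurableSet.iUnion fun z => ?_
  exact measurableSet_qcross _ _ _ _ fun n p => (measurable_pi_apply _).sub_const _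

private theorem meas_two {d : ℕ} (a : ℝ) :
    MeasurableSet {A : ℕ × DI d → ℝ | ∃ (H : ℕ) (z : DI d),
      QCross (fun n p => A (n, p) - (a * n - H * ((n : ℝ) + 1) ^ (3 / 4 : ℝ))) (dp z) 1 2} := by
  have h0 : {A : ℕ × DI d → ℝ | ∃ (H : ℕ) (z : DI d),
      QCross (fun n p => A (n, p) - (a * n - H * ((n : ℝ) + 1) ^ (3 / 4 : ℝ))) (dp z) 1 2} =
      ⋃ H : ℕ, ⋃ z : DI d, {A : ℕ × DI d → ℝ | QCross
        (fun n p => (fun (n : ℕ) (p : DI d) (A : ℕ × DI d → ℝ) =>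
          A (n, p) - (a * n - H * ((n : ℝ) + 1) ^ (3 / 4 : ℝ))) n p A) (dp z) 1 2} := by
    ext A
    simp only [mem_ofPred_eq, mem_iUnion]
  rw [h0]
  refine MeasurableSet.iUnion fun H => MeasurableSet.iUnion fun z => ?_
  exact measurableSet_qcross _ _ _ _ fun n p => (measurable_pi_apply _).sub_const _

/-- Almost sure events transfer between processes with the same law. -/
private theorem transfer {Ω Ω' T : Type} [MeasurableSpace Ω] [MeasurableSpace Ω'] {P : Measure Ω}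
    {P' : Measure Ω'} (X : Ω → T → ℝ) (Y : Ω' → T → ℝ) (hX : Measurable X) (hY : Measurable Y)
    (h : P.map X = P'.map Y) (B : Set (T → ℝ)) (hB : MeasurableSet B) (h1 : ∀ᵐ ω ∂P, X ω ∈ B) :
    ∀ᵐ ω ∂P', Y ω ∈ B := by
  have h2 : ∀ᵐ x ∂(P.map X), x ∈ B := (ae_map_iff hX.aemeasurable hB).2 h1
  rw [h] at h2
  exact (ae_map_iff hY.aemeasurable hB).1 h2

/-- The set `Bar ψ 0 b` as a set of the form of `cross_iff_qcross`. -/
private theorem bar_eq {d : ℕ} {Ω : Type} (ψ : ℕ → Ω → E d → ℝ) (b : ℕ → ℝ) (ω : Ω) :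
    Bar ψ 0 b ω = {x | ∀ n, 0 ≤ S ψ 0 n ω x - b n} := by
  ext x
  simp only [Bar, mem_ofPred_eq, zero_add, sub_nonneg]

/-- The mollified field, realised from an isonormal family, is close to the scale decomposition. -/
private theorem coupling {d : ℕ} (hd : 1 ≤ d) (ρ : E d → ℝ) (hρ : IsMollifier ρ) {Ω : Type}
    [MeasurableSpace Ω] {P : Measure Ω} {W : HH d → Ω → ℝ} (hW : IsIsonormal P W)
    (ψ : ℕ → Ω → E d → ℝ)
    (he : ∀ᵐ ω ∂P, ∀ k (p : DI d), ψ k ω (dp p) = W (vv k (dp p)) ω) :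
    ∀ᵐ ω ∂P, ∀ R : ℕ, ∃ G : ℝ, 0 ≤ G ∧ ∀ (n : ℕ) (p : DI d), ‖dp p‖ ≤ R →
      |W (embed (mtest ρ n (dp p))) ω - S ψ 0 n ω (dp p)| ≤ G * ((n : ℝ) + 1) ^ (2 / 3 : ℝ) := by
  obtain ⟨C1, h1⟩ := err_norm hd ρ hρ
  obtain ⟨C2, h2⟩ := err_incr hd ρ hρ
  have hC1 : ∀ n (x : E d), ‖err ρ n x‖ ^ 2 ≤ max C1 C2 * (1 + ‖x‖) := fun n x =>
    (h1 n x).trans (mul_le_mul_of_nonneg_right (le_max_left _ _) (by positivity))
  have hC2 : ∀ n (x y : E d), ‖err ρ n x - err ρ n y‖ ^ 2 ≤ max C1 C2 * 2 ^ n * dist x y :=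
    fun n x y => (h2 n x y).trans (mul_le_mul_of_nonneg_right
      (mul_le_mul_of_nonneg_right (le_max_right _ _) (by positivity)) dist_nonneg)
  have h3 := error_bound hW (err ρ) (max C1 C2) hC1 hC2
  have h4 : ∀ᵐ ω ∂P, ∀ (n : ℕ) (p : DI d), W (err ρ n (dp p)) ω =
      W (embed (mtest ρ n (dp p))) ω - ∑ k ∈ Finset.range n, W (vv k (dp p)) ω := by
    rw [ae_all_iff]
    intro n
    rw [ae_all_iff]
    intro p
    have h5 := hW.sub (embed (mtest ρ n (dp p))) (∑ k ∈ Finset.range n, vv k (dp p))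
    have h6 := hW.sum (Finset.range n) (fun _ => (1 : ℝ)) (fun k => vv k (dp p))
    filter_upwards [h5, h6] with ω h7 h8
    simp only [one_smul, one_mul] at h8
    rw [err, h7, h8]
  filter_upwards [h3, h4, he] with ω h5 h6 h7 R
  obtain ⟨G, hG, h8⟩ := h5 R
  refine ⟨G, hG, fun n p hp => ?_⟩
  have h9 : W (embed (mtest ρ n (dp p))) ω - S ψ 0 n ω (dp p) = W (err ρ n (dp p)) ω := by
    rw [h6 n p, S, Nat.Ico_zero_eq_range]
    congr 1
    exact Finset.sum_congr rfl fun k _ => h7 k p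
  rw [h9]
  exact h8 n p hp

/-- The main theorem for `1 ≤ d`. -/
private theorem critical_pos {d : ℕ} (hd : 1 ≤ d) (ρ : E d → ℝ) (hρ : IsMollifier ρ) {Ω : Type}
    [MeasurableSpace Ω] {P : Measure Ω} {φ : Ω → (E d → ℝ) → ℝ} (hφ : IsLGF P φ) (c : Ω → ℝ)
    (αc : ℝ)
    (hαc : IsLUB {α : ℝ | 0 < α ∧ ∀ᵐ ω ∂P, HasComp (thick ρ (φ ω) (c ω) α)} αc) :
    ∀ᵐ ω ∂P, HasComp (thick ρ (φ ω) (c ω) αc) := by
  have hlog : 0 < Real.log 2 := Real.log_pos (by norm_num)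
  obtain ⟨Ω', _, P', W, hW⟩ := exists_isonormal (HH d)
  have hP' := hW.prob
  have hA : IsEmbed (embed (d := d)) := ⟨embed_add hd, embed_smul hd, norm_embed_logCov hd⟩
  obtain ⟨ψ, hc, hm, he⟩ := exists_version hW (isScaleVec_vv d)
  have hψ := scaleField_of_version hW (isScaleVec_vv d) ψ hc hm he
  have hE := coupling hd ρ hρ hW ψ he
  have hL := array_law hφ ρ hρ hW embed hA
  have hX : Measurable fun ω (q : ℕ × DI d) => φ ω (mtest ρ q.1 (dp q.2)) :=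
    measurable_pi_lambda _ fun q => hφ.meas _ (test0_mtest ρ hρ _ _)
  have hY : Measurable fun ω (q : ℕ × DI d) => W (embed (mtest ρ q.1 (dp q.2))) ω :=
    measurable_pi_lambda _ fun q => hW.meas _
  -- the hypothesis of the abstract theorem
  have hyp : ∀ a < αc * Real.log 2, ∀ᵐ ω ∂P', ∃ s : ℕ,
      Nontriv (Bar ψ 0 (fun i => a * i - s) ω) := by
    intro a ha
    obtain ⟨a1, ha1, ha2⟩ := exists_between ha
    obtain ⟨α, hα, hα1⟩ : ∃ α ∈ {α : ℝ | 0 < α ∧ ∀ᵐ ω ∂P, HasComp (thick ρ (φ ω) (c ω) α)},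
        a1 / Real.log 2 < α := by
      have h1 : a1 / Real.log 2 < αc := by rwa [div_lt_iff₀ hlog]
      obtain ⟨α, h2, h3, -⟩ := hαc.exists_between h1
      exact ⟨α, h2, h3⟩
    rw [div_lt_iff₀ hlog] at hα1
    have h1 : ∀ᵐ ω ∂P, (fun q : ℕ × DI d => φ ω (mtest ρ q.1 (dp q.2))) ∈
        {A : ℕ × DI d → ℝ | ∃ (m h : ℕ) (z : DI d), QCross (fun n p => A (n, p) -
          (a1 * n - h)) (dp z) ((2 : ℝ)⁻¹ ^ m) (2 * (2 : ℝ)⁻¹ ^ m)} := by
      filter_upwards [hα.2, hφ.distr] with ω h2 h3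
      exact qcross_of_nontriv h3 ρ hρ (c ω) α a1 hα1 h2
    have h2 := transfer _ _ hX hY hL _ (meas_one a1) h1
    filter_upwards [h2, hE] with ω h3 h4
    obtain ⟨m, h, z, h5⟩ := h3
    obtain ⟨R, hR⟩ := exists_nat_ge (‖(dp z : E d)‖ + 2 * (2 : ℝ)⁻¹ ^ m + 1)
    obtain ⟨G, hG, h6⟩ := h4 R
    obtain ⟨s, h7⟩ := mono_slack a1 a G h ha1
    refine ⟨s, ?_⟩
    have h8 : QCross (fun n p => S ψ 0 n ω (dp p) - (a * n - s)) (dp z) ((2 : ℝ)⁻¹ ^ m)
        (2 * (2 : ℝ)⁻¹ ^ m) := by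
      refine qcross_mono _ _ _ _ _ (fun n p hp => ?_) h5
      have h9 : ‖(dp p : E d)‖ ≤ R := by
        have h10 : ‖(dp p : E d)‖ ≤ dist (dp p) (dp z : E d) + ‖(dp z : E d)‖ := by
          rw [dist_eq_norm]
          simpa using norm_add_le ((dp p : E d) - dp z) (dp z)
        linarith
      have h10 := h6 n p h9
      have h11 := (abs_le.1 h10).2
      have h12 := h7 n
      linarith
    have h9 : (2 : ℝ)⁻¹ ^ m < 2 * (2 : ℝ)⁻¹ ^ m := by
      have : (0 : ℝ) < (2 : ℝ)⁻¹ ^ m := by positivity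
      linarith
    have h10 := (cross_iff_qcross (fun n x => S ψ 0 n ω x - (a * n - s))
      (fun n => (continuous_S hψ 0 n ω).sub continuous_const) (dp z) _ _ h9).2 h8
    have h11 := nontriv_of_cross _ _ _ _ h9 h10
    rw [bar_eq]
    exact h11
  obtain ⟨H, hH⟩ := abstract_main hψ (αc * Real.log 2) hyp
  -- back to the given field
  have h1 : ∀ᵐ ω ∂P', (fun q : ℕ × DI d => W (embed (mtest ρ q.1 (dp q.2))) ω) ∈
      {A : ℕ × DI d → ℝ | ∃ (H : ℕ) (z : DI d), QCross (fun n p => A (n, p) -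
        (αc * Real.log 2 * n - H * ((n : ℝ) + 1) ^ (3 / 4 : ℝ))) (dp z) 1 2} := by
    filter_upwards [hH, hE] with ω h2 h3
    obtain ⟨z, h4⟩ := h2
    obtain ⟨R, hR⟩ := exists_nat_ge (‖(dp z : E d)‖ + 3)
    obtain ⟨G, hG, h5⟩ := h3 R
    obtain ⟨H', hH'⟩ := exists_nat_ge (1 + |H| + G)
    refine ⟨H', z, ?_⟩
    rw [bar_eq] at h4
    have h6 := (cross_iff_qcross (fun n x => S ψ 0 n ω x -
      (αc * Real.log 2 * n - ((n : ℝ) ^ (3 / 4 : ℝ) + H)))
      (fun n => (continuous_S hψ 0 n ω).sub continuous_const) (dp z) 1 2 (by norm_num)).1 h4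
    refine qcross_mono _ _ _ _ _ (fun n p hp => ?_) h6
    have h9 : ‖(dp p : E d)‖ ≤ R := by
      have h10 : ‖(dp p : E d)‖ ≤ dist (dp p) (dp z : E d) + ‖(dp z : E d)‖ := by
        rw [dist_eq_norm]
        simpa using norm_add_le ((dp p : E d) - dp z) (dp z)
      linarith
    have h10 := (abs_le.1 (h5 n p h9)).1
    have hn : (0 : ℝ) ≤ n := Nat.cast_nonneg n
    have h11 : (n : ℝ) ^ (3 / 4 : ℝ) ≤ ((n : ℝ) + 1) ^ (3 / 4 : ℝ) :=
      Real.rpow_le_rpow hn (by linarith) (by norm_num)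
    have h12 : ((n : ℝ) + 1) ^ (2 / 3 : ℝ) ≤ ((n : ℝ) + 1) ^ (3 / 4 : ℝ) :=
      Real.rpow_le_rpow_of_exponent_le (by linarith) (by norm_num)
    have h13 : (1 : ℝ) ≤ ((n : ℝ) + 1) ^ (3 / 4 : ℝ) :=
      Real.one_le_rpow (by linarith) (by norm_num)
    have h14 : (1 + |H| + G) * ((n : ℝ) + 1) ^ (3 / 4 : ℝ) ≤
        H' * ((n : ℝ) + 1) ^ (3 / 4 : ℝ) := mul_le_mul_of_nonneg_right hH' (by linarith)
    have h15 : G * ((n : ℝ) + 1) ^ (2 / 3 : ℝ) ≤ G * ((n : ℝ) + 1) ^ (3 / 4 : ℝ) :=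
      mul_le_mul_of_nonneg_left h12 hG
    have h16 : H ≤ |H| * ((n : ℝ) + 1) ^ (3 / 4 : ℝ) := by
      have := mul_le_mul_of_nonneg_left h13 (abs_nonneg H)
      linarith [le_abs_self H]
    nlinarith
  have h2 := transfer _ _ hY hX hL.symm _ (meas_two (αc * Real.log 2)) h1
  filter_upwards [h2, hφ.distr] with ω h3 h4
  obtain ⟨H', z, h5⟩ := h3
  exact hasComp_of_qcross h4 ρ hρ (c ω) αc H' z h5

/-- **Main theorem.** The set of the `αc`-thick points of the whole-space log-correlated Gaussian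
field almost surely has a connected component with more than one point, where `αc` is the supremum
of the levels `α > 0` for which this holds. -/
theorem critical {d : ℕ} (ρ : E d → ℝ) (hρ : IsMollifier ρ) {Ω : Type} [MeasurableSpace Ω]
    {P : Measure Ω} {φ : Ω → (E d → ℝ) → ℝ} (hφ : IsLGF P φ) (c : Ω → ℝ) (αc : ℝ)
    (hαc : IsLUB {α : ℝ | 0 < α ∧ ∀ᵐ ω ∂P, HasComp (thick ρ (φ ω) (c ω) α)} αc) :
    ∀ᵐ ω ∂P, HasComp (thick ρ (φ ω) (c ω) αc) := by
  rcases Nat.eq_zero_or_pos d with rfl | hd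
  · exfalso
    have hP := isProb_of_isLGF hφ
    have h1 : {α : ℝ | 0 < α ∧ ∀ᵐ ω ∂P, HasComp (thick ρ (φ ω) (c ω) α)} = ∅ := by
      rw [Set.eq_empty_iff_forall_notMem]
      rintro α ⟨-, h2⟩
      obtain ⟨ω, x, -, h3⟩ := h2.exists
      exact (Set.not_nontrivial_iff.2 (Set.subsingleton_of_subsingleton)) h3
    rw [h1] at hαc
    have h2 : αc ≤ αc - 1 := hαc.2 (by simp [upperBounds])
    linarith
  · exact critical_pos hd ρ hρ hφ c αc hαc

end Pool.Agent.Thick
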