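import Pool.Agent.Thick.Defs

set_option autoImplicit false

/-!
# G0: isonormal Gaussian families, basic properties

`IsIsonormal P W`: to every vector `f` of the Hilbert space `H` belongs a centered Gaussian variable
`W f` of variance `‖f‖^2`, and `f ↦ W f` is linear up to null sets.

* `gaussian_tail`: for `v = 0` the variable is almost surely `0` (`gaussianReal_zero_var`); otherwise
  Chernoff: `P {t < X} ≤ exp (-λ t) E exp (λ X) = exp (-λ t + v λ² / 2)` with `λ = t / v`
  (`ProbabilityTheory.measure_ge_le_exp_mul_mgf`, `mgf_gaussianReal`), the same for `-X`, and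
  `exp (-t²/(2 v)) ≤ exp (-t²/(2 V))`. (Or `HasSubgaussianMGF.measure_ge_le`.)
* `W_sum`: induction over the finset with `add` and `smul` (`W 0 = 0` almost surely: `smul 0 0`).
* `tail`: `gaussian_tail` with `law`.
-/

namespace Pool.Agent.Thick

open MeasureTheory ProbabilityTheory Filter Topology Set

/-- Isonormal Gaussian families. -/
structure IsIsonormal {H : Type} [NormedAddCommGroup H] [InnerProductSpace ℝ H] {Ω : Type}
    [MeasurableSpace Ω] (P : Measure Ω) (W : H → Ω → ℝ) : Prop where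
  prob : IsProbabilityMeasure P
  meas : ∀ f, Measurable (W f)
  law : ∀ f, P.map (W f) = gaussianReal 0 (‖f‖₊ ^ 2)
  add : ∀ f g, ∀ᵐ ω ∂P, W (f + g) ω = W f ω + W g ω
  smul : ∀ (c : ℝ) (f : H), ∀ᵐ ω ∂P, W (c • f) ω = c * W f ω

private theorem hasSubgaussian_of_law {Ω : Type} [MeasurableSpace Ω] (P : Measure Ω) (X : Ω → ℝ)
    (v : NNReal) (hX : Measurable X) (h : P.map X = gaussianReal 0 v) (V : ℝ)
    (hv : (v : ℝ) ≤ V) : HasSubgaussianMGF X V.toNNReal P := by
  constructor
  · intro t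
    have h1 : Integrable (fun x => Real.exp (t * x)) (P.map X) := by
      rw [h]
      exact integrable_exp_mul_gaussianReal t
    exact (integrable_map_measure (by fun_prop) hX.aemeasurable).1 h1
  · intro t
    rw [mgf_gaussianReal h t, zero_mul, zero_add]
    apply Real.exp_le_exp.2
    rw [Real.coe_toNNReal V (v.2.trans hv)]
    have := mul_le_mul_of_nonneg_right hv (sq_nonneg t)
    linarith

theorem gaussian_tail {Ω : Type} [MeasurableSpace Ω] (P : Measure Ω) (X : Ω → ℝ) (v : NNReal)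
    (hX : Measurable X) (h : P.map X = gaussianReal 0 v) (V : ℝ) (hV : 0 < V) (hv : (v : ℝ) ≤ V)
    (t : ℝ) (ht : 0 ≤ t) :
    P {ω | t < |X ω|} ≤ ENNReal.ofReal (2 * Real.exp (-(t ^ 2 / (2 * V)))) := by
  have hP : IsProbabilityMeasure P := by
    constructor
    rw [← Set.preimage_univ (f := X), ← Measure.map_apply hX MeasurableSet.univ, h]
    exact measure_univ
  have h1 := (hasSubgaussian_of_law P X v hX h V hv).measure_ge_le ht
  have h2 := (hasSubgaussian_of_law P X v hX h V hv).neg.measure_ge_le ht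
  rw [Real.coe_toNNReal V hV.le] at h1 h2
  have h3 : {ω | t < |X ω|} ⊆ {ω | t ≤ X ω} ∪ {ω | t ≤ (-X) ω} := by
    intro ω hω
    rcases lt_abs.1 (show t < |X ω| from hω) with h4 | h4
    · exact Or.inl h4.le
    · exact Or.inr h4.le
  have h5 : ∀ A : Set Ω, P.real A ≤ Real.exp (-t ^ 2 / (2 * V)) →
      P A ≤ ENNReal.ofReal (Real.exp (-t ^ 2 / (2 * V))) := by
    intro A hA
    rw [← ofReal_measureReal (measure_ne_top P A)]
    exact ENNReal.ofReal_le_ofReal hA
  refine (measure_mono h3).trans ((measure_union_le _ _).trans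
    ((add_le_add (h5 _ h1) (h5 _ h2)).trans (le_of_eq ?_)))
  rw [← ENNReal.ofReal_add (Real.exp_pos _).le (Real.exp_pos _).le, ← two_mul, neg_div]

variable {H : Type} [NormedAddCommGroup H] [InnerProductSpace ℝ H] {Ω : Type}
  [MeasurableSpace Ω] {P : Measure Ω} {W : H → Ω → ℝ}

theorem IsIsonormal.tail (hW : IsIsonormal P W) (f : H) (V : ℝ) (hV : 0 < V) (hf : ‖f‖ ^ 2 ≤ V)
    (t : ℝ) (ht : 0 ≤ t) :
    P {ω | t < |W f ω|} ≤ ENNReal.ofReal (2 * Real.exp (-(t ^ 2 / (2 * V)))) :=
  gaussian_tail P (W f) (‖f‖₊ ^ 2) (hW.meas f) (hW.law f) V hV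
    (by rw [NNReal.coe_pow, coe_nnnorm]; exact hf) t ht

theorem IsIsonormal.sum (hW : IsIsonormal P W) {T : Type} (s : Finset T) (c : T → ℝ) (f : T → H) :
    ∀ᵐ ω ∂P, W (∑ t ∈ s, c t • f t) ω = ∑ t ∈ s, c t * W (f t) ω := by
  classical
  induction s using Finset.induction_on with
  | empty =>
    filter_upwards [hW.smul 0 (0 : H)] with ω hω
    rw [zero_smul, zero_mul] at hω
    rw [Finset.sum_empty, Finset.sum_empty, hω]
  | insert a s ha ih =>
    filter_upwards [ih, hW.smul (c a) (f a), hW.add (c a • f a) (∑ t ∈ s, c t • f t)]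
      with ω h1 h2 h3
    rw [Finset.sum_insert ha, Finset.sum_insert ha, h3, h2, h1]

theorem IsIsonormal.sub (hW : IsIsonormal P W) (f g : H) :
    ∀ᵐ ω ∂P, W (f - g) ω = W f ω - W g ω := by
  filter_upwards [hW.add (f - g) g] with ω h1
  rw [sub_add_cancel] at h1
  rw [h1, add_sub_cancel_right]

end Pool.Agent.Thick
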