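import Pool.Agent.Thick.T5

set_option autoImplicit false

/-!
# G3a: deterministic chaining (Kolmogorov-Chentsov)

Proof of `chaining`. For a real number `x` let `tr x` be the rounding toward zero
(`if 0 ≤ x then ⌊x⌋ else ⌈x⌉`): `|tr x| ≤ |x|`, `|x - tr x| ≤ 1`. For a point `x` and a level `k` let
`x_k = dp (k, fun i => tr (2^k x i))`: `‖x_k‖ ≤ ‖x‖` and `dist x x_k ≤ √d 2^{-k}`. If `x = dp p` is in the unit
ball, then all `x_k` are, `x_k = x` for `k ≥ p.1`, and `x_k`, `x_{k+1}` are both level `k+1` points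
(`dp (k, w) = dp (k+1, 2 w)`) at distance `≤ √d 2^{-k} + √d 2^{-(k+1)} ≤ 4 (d+1) 2^{-(k+1)}`, so
`|g x_k - g x_{k+1}| ≤ t ((2^{-(k+1)})^{1/4})` and `|g x - g x_n| ≤ t ∑_{k ≥ n} (2^{-(k+1)})^{1/4} ≤ K₁ t (2^{-n})^{1/4}`
(finite sums bounded by a geometric series).
Let `x = dp p`, `y = dp q`, `δ = dist x y > 0` (`δ = 0` trivial), `δ ≤ 2`. Choose `n` with
`2^{-n-1} < δ/2 ≤ 2^{-n}`: `dist x_n y_n ≤ δ + 2 √d 2^{-n} ≤ 4 (d+1) 2^{-n}`, so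
`|g x - g y| ≤ (2 K₁ + 1) t (2^{-n})^{1/4} ≤ (2 K₁ + 1) t δ^{1/4}`.
-/

namespace Pool.Agent.Thick

open MeasureTheory ProbabilityTheory Filter Topology Set

/-- Rounding toward zero. -/
private noncomputable def G3a_tr (x : ℝ) : ℤ := if 0 ≤ x then ⌊x⌋ else ⌈x⌉

private theorem G3a_tr_abs_le (x : ℝ) : |(G3a_tr x : ℝ)| ≤ |x| := by
  unfold G3a_tr
  split_ifs with h
  · rw [abs_of_nonneg h, abs_of_nonneg (by exact_mod_cast Int.floor_nonneg.2 h)]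
    exact Int.floor_le x
  · push Not at h
    have h1 : ⌈x⌉ ≤ 0 := Int.ceil_le.2 (by simpa using h.le)
    rw [abs_of_neg h, abs_of_nonpos (by exact_mod_cast h1)]
    exact neg_le_neg (Int.le_ceil x)

private theorem G3a_sub_tr (x : ℝ) : |x - (G3a_tr x : ℝ)| ≤ 1 := by
  unfold G3a_tr
  rw [abs_le]
  split_ifs with h
  · constructor <;> linarith [Int.floor_le x, Int.lt_floor_add_one x]
  · constructor <;> linarith [Int.le_ceil x, Int.ceil_lt_add_one x]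

private theorem G3a_tr_int (z : ℤ) : G3a_tr (z : ℝ) = z := by
  unfold G3a_tr
  split_ifs <;> simp

private theorem G3a_dp_apply {d : ℕ} (n : ℕ) (w : Fin d → ℤ) (i : Fin d) :
    (dp ((n, w) : DI d)) i = (2 : ℝ)⁻¹ ^ n * (w i : ℝ) := by
  simp [dp]

private theorem G3a_norm_le {d : ℕ} {u v : E d} (h : ∀ i, |u i| ≤ |v i|) : ‖u‖ ≤ ‖v‖ := by
  rw [EuclideanSpace.norm_eq, EuclideanSpace.norm_eq]
  refine Real.sqrt_le_sqrt (Finset.sum_le_sum fun i _ => ?_)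
  rw [Real.norm_eq_abs, Real.norm_eq_abs]
  exact pow_le_pow_left₀ (abs_nonneg _) (h i) 2

private theorem G3a_norm_le' {d : ℕ} {u : E d} {c : ℝ} (hc : 0 ≤ c) (h : ∀ i, |u i| ≤ c) :
    ‖u‖ ≤ (d + 1) * c := by
  rw [EuclideanSpace.norm_eq]
  refine Real.sqrt_le_iff.2 ⟨by positivity, ?_⟩
  have h1 : ∑ i, ‖u i‖ ^ 2 ≤ ∑ _i : Fin d, c ^ 2 := by
    refine Finset.sum_le_sum fun i _ => ?_
    rw [Real.norm_eq_abs]
    exact pow_le_pow_left₀ (abs_nonneg _) (h i) 2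
  refine h1.trans ?_
  rw [Finset.sum_const, Finset.card_univ, Fintype.card_fin, nsmul_eq_mul]
  have h2 : (0 : ℝ) ≤ d := Nat.cast_nonneg d
  nlinarith [sq_nonneg c, mul_nonneg h2 (sq_nonneg c), mul_nonneg (mul_nonneg h2 h2) (sq_nonneg c)]

/-- The approximation of level `k`. -/
private noncomputable def G3a_w {d : ℕ} (x : E d) (k : ℕ) : Fin d → ℤ :=
  fun i => G3a_tr ((2 : ℝ) ^ k * x i)

private theorem G3a_inv_pow (k : ℕ) : (2 : ℝ)⁻¹ ^ k * (2 : ℝ) ^ k = 1 := by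
  rw [← mul_pow]; norm_num

private theorem G3a_norm_ap {d : ℕ} (x : E d) (k : ℕ) : ‖dp ((k, G3a_w x k) : DI d)‖ ≤ ‖x‖ := by
  refine G3a_norm_le fun i => ?_
  rw [G3a_dp_apply, abs_mul]
  have h1 := G3a_tr_abs_le ((2 : ℝ) ^ k * x i)
  rw [abs_mul, abs_of_pos (show (0 : ℝ) < 2 ^ k by positivity)] at h1
  rw [abs_of_pos (show (0 : ℝ) < 2⁻¹ ^ k by positivity)]
  calc (2 : ℝ)⁻¹ ^ k * |((G3a_w x k i : ℤ) : ℝ)| ≤ (2 : ℝ)⁻¹ ^ k * (2 ^ k * |x i|) :=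
        mul_le_mul_of_nonneg_left h1 (by positivity)
    _ = |x i| := by rw [← mul_assoc, G3a_inv_pow, one_mul]

private theorem G3a_dist_ap {d : ℕ} (x : E d) (k : ℕ) :
    dist x (dp ((k, G3a_w x k) : DI d)) ≤ (d + 1) * (2 : ℝ)⁻¹ ^ k := by
  rw [dist_eq_norm]
  refine G3a_norm_le' (by positivity) fun i => ?_
  have h0 : (x - dp ((k, G3a_w x k) : DI d)) i = x i - (dp ((k, G3a_w x k) : DI d)) i := rfl
  rw [h0, G3a_dp_apply]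
  have h1 := G3a_sub_tr ((2 : ℝ) ^ k * x i)
  have h2 : x i - (2 : ℝ)⁻¹ ^ k * ((G3a_w x k i : ℤ) : ℝ) =
      (2 : ℝ)⁻¹ ^ k * ((2 : ℝ) ^ k * x i - (G3a_tr ((2 : ℝ) ^ k * x i) : ℝ)) := by
    rw [mul_sub, ← mul_assoc, G3a_inv_pow, one_mul]; rfl
  rw [h2, abs_mul, abs_of_pos (show (0 : ℝ) < 2⁻¹ ^ k by positivity)]
  calc (2 : ℝ)⁻¹ ^ k * _ ≤ (2 : ℝ)⁻¹ ^ k * 1 := mul_le_mul_of_nonneg_left h1 (by positivity)
    _ = (2 : ℝ)⁻¹ ^ k := mul_one _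

private theorem G3a_ap_eq {d : ℕ} (m : ℕ) (w : Fin d → ℤ) (k : ℕ) (hk : m ≤ k) :
    dp ((k, G3a_w (dp ((m, w) : DI d)) k) : DI d) = dp ((m, w) : DI d) := by
  obtain ⟨j, rfl⟩ := Nat.exists_eq_add_of_le hk
  ext i
  rw [G3a_dp_apply]
  have h1 : (2 : ℝ) ^ (m + j) * (dp ((m, w) : DI d)) i = ((2 ^ j * w i : ℤ) : ℝ) := by
    rw [G3a_dp_apply]
    push_cast
    have := G3a_inv_pow m
    rw [pow_add]
    calc (2 : ℝ) ^ m * 2 ^ j * ((2 : ℝ)⁻¹ ^ m * (w i : ℝ)) =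
        ((2 : ℝ)⁻¹ ^ m * 2 ^ m) * (2 ^ j * (w i : ℝ)) := by ring
      _ = 2 ^ j * (w i : ℝ) := by rw [this, one_mul]
  have h2 : G3a_w (dp ((m, w) : DI d)) (m + j) i = 2 ^ j * w i := by
    unfold G3a_w
    rw [h1, G3a_tr_int]
  rw [h2, G3a_dp_apply]
  push_cast
  rw [pow_add]
  have := G3a_inv_pow j
  calc (2 : ℝ)⁻¹ ^ m * (2 : ℝ)⁻¹ ^ j * (2 ^ j * (w i : ℝ)) =
      (2 : ℝ)⁻¹ ^ m * ((2 : ℝ)⁻¹ ^ j * 2 ^ j) * (w i : ℝ) := by ring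
    _ = (2 : ℝ)⁻¹ ^ m * (w i : ℝ) := by rw [this, mul_one]

private theorem G3a_dp_succ {d : ℕ} (k : ℕ) (w : Fin d → ℤ) :
    dp ((k + 1, fun i => 2 * w i) : DI d) = dp ((k, w) : DI d) := by
  ext i
  rw [G3a_dp_apply, G3a_dp_apply]
  push_cast
  rw [pow_succ]
  ring

private theorem G3a_step {d : ℕ} (g : E d → ℝ) (t : ℝ)
    (h : ∀ (n : ℕ) (w w' : Fin d → ℤ), ‖dp ((n, w) : DI d)‖ ≤ 1 → ‖dp ((n, w') : DI d)‖ ≤ 1 →
      dist (dp ((n, w) : DI d)) (dp ((n, w') : DI d)) ≤ 4 * (d + 1) * (2 : ℝ)⁻¹ ^ n →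
      |g (dp ((n, w) : DI d)) - g (dp ((n, w') : DI d))| ≤ t * ((2 : ℝ)⁻¹ ^ n) ^ (1 / 4 : ℝ))
    (x : E d) (hx : ‖x‖ ≤ 1) (k : ℕ) :
    |g (dp ((k, G3a_w x k) : DI d)) - g (dp ((k + 1, G3a_w x (k + 1)) : DI d))| ≤
      t * ((2 : ℝ)⁻¹ ^ (k + 1)) ^ (1 / 4 : ℝ) := by
  have h1 := h (k + 1) (fun i => 2 * G3a_w x k i) (G3a_w x (k + 1))
  rw [G3a_dp_succ] at h1
  refine h1 ((G3a_norm_ap x k).trans hx) ((G3a_norm_ap x (k + 1)).trans hx) ?_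
  have h2 := G3a_dist_ap x k
  have h3 := G3a_dist_ap x (k + 1)
  have h4 := dist_triangle_left (dp ((k, G3a_w x k) : DI d)) (dp ((k + 1, G3a_w x (k + 1)) : DI d)) x
  have h5 : (2 : ℝ)⁻¹ ^ k = 2 * (2 : ℝ)⁻¹ ^ (k + 1) := by rw [pow_succ]; ring
  have h6 : (0 : ℝ) ≤ (d + 1) * (2 : ℝ)⁻¹ ^ (k + 1) := by positivity
  rw [h5] at h2
  nlinarith

private theorem G3a_sum {d : ℕ} (g : E d → ℝ) (t s : ℝ) (hs1 : s < 1)
    (hs : ∀ n : ℕ, ((2 : ℝ)⁻¹ ^ n) ^ (1 / 4 : ℝ) = s ^ n)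
    (h : ∀ (n : ℕ) (w w' : Fin d → ℤ), ‖dp ((n, w) : DI d)‖ ≤ 1 → ‖dp ((n, w') : DI d)‖ ≤ 1 →
      dist (dp ((n, w) : DI d)) (dp ((n, w') : DI d)) ≤ 4 * (d + 1) * (2 : ℝ)⁻¹ ^ n →
      |g (dp ((n, w) : DI d)) - g (dp ((n, w') : DI d))| ≤ t * ((2 : ℝ)⁻¹ ^ n) ^ (1 / 4 : ℝ))
    (x : E d) (hx : ‖x‖ ≤ 1) (n j : ℕ) :
    |g (dp ((n, G3a_w x n) : DI d)) - g (dp ((n + j, G3a_w x (n + j)) : DI d))| ≤
      t * ((s ^ n - s ^ (n + j)) * (s / (1 - s))) := by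
  induction j with
  | zero => simp
  | succ j ih =>
    have h1 := G3a_step g t h x hx (n + j)
    rw [hs] at h1
    have h2 := abs_sub_le (g (dp ((n, G3a_w x n) : DI d)))
      (g (dp ((n + j, G3a_w x (n + j)) : DI d)))
      (g (dp ((n + j + 1, G3a_w x (n + j + 1)) : DI d)))
    have h3 : (1 - s) ≠ 0 := by linarith
    have h4 : t * ((s ^ n - s ^ (n + (j + 1))) * (s / (1 - s))) =
        t * ((s ^ n - s ^ (n + j)) * (s / (1 - s))) + t * s ^ (n + j + 1) := by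
      rw [← add_assoc, pow_succ s (n + j)]
      field_simp
      ring
    rw [h4]
    exact h2.trans (add_le_add ih h1)

private theorem G3a_lim {d : ℕ} (g : E d → ℝ) (t s : ℝ) (ht : 0 ≤ t) (hs0 : 0 < s) (hs1 : s < 1)
    (hs : ∀ n : ℕ, ((2 : ℝ)⁻¹ ^ n) ^ (1 / 4 : ℝ) = s ^ n)
    (h : ∀ (n : ℕ) (w w' : Fin d → ℤ), ‖dp ((n, w) : DI d)‖ ≤ 1 → ‖dp ((n, w') : DI d)‖ ≤ 1 →
      dist (dp ((n, w) : DI d)) (dp ((n, w') : DI d)) ≤ 4 * (d + 1) * (2 : ℝ)⁻¹ ^ n →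
      |g (dp ((n, w) : DI d)) - g (dp ((n, w') : DI d))| ≤ t * ((2 : ℝ)⁻¹ ^ n) ^ (1 / 4 : ℝ))
    (p : DI d) (hp : ‖dp p‖ ≤ 1) (n : ℕ) :
    |g (dp ((n, G3a_w (dp p) n) : DI d)) - g (dp p)| ≤ t * (s ^ n * (s / (1 - s))) := by
  obtain ⟨m, w⟩ := p
  have h1 := G3a_sum g t s hs1 hs h (dp ((m, w) : DI d)) hp n m
  rw [G3a_ap_eq m w (n + m) (by omega)] at h1
  refine h1.trans (mul_le_mul_of_nonneg_left ?_ ht)
  have h2 : 0 ≤ s / (1 - s) := div_nonneg hs0.le (by linarith)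
  refine mul_le_mul_of_nonneg_right ?_ h2
  have : 0 < s ^ (n + m) := by positivity
  linarith

theorem chaining (d : ℕ) : ∃ K : ℝ, 0 < K ∧ ∀ (g : E d → ℝ) (t : ℝ), 0 ≤ t →
    (∀ (n : ℕ) (w w' : Fin d → ℤ), ‖dp ((n, w) : DI d)‖ ≤ 1 → ‖dp ((n, w') : DI d)‖ ≤ 1 →
      dist (dp ((n, w) : DI d)) (dp ((n, w') : DI d)) ≤ 4 * (d + 1) * (2 : ℝ)⁻¹ ^ n →
      |g (dp ((n, w) : DI d)) - g (dp ((n, w') : DI d))| ≤ t * ((2 : ℝ)⁻¹ ^ n) ^ (1 / 4 : ℝ)) →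
    ∀ p q : DI d, ‖dp p‖ ≤ 1 → ‖dp q‖ ≤ 1 →
      |g (dp p) - g (dp q)| ≤ K * t * dist (dp p) (dp q) ^ (1 / 4 : ℝ) := by
  set s : ℝ := (2 : ℝ)⁻¹ ^ (1 / 4 : ℝ) with hsdef
  have hs0 : 0 < s := by positivity
  have hs1 : s < 1 := Real.rpow_lt_one (by norm_num) (by norm_num) (by norm_num)
  have hs : ∀ n : ℕ, ((2 : ℝ)⁻¹ ^ n) ^ (1 / 4 : ℝ) = s ^ n := fun n =>
    (Real.rpow_pow_comm (by norm_num) _ n).symm
  have hK : 0 ≤ s / (1 - s) := div_nonneg hs0.le (by linarith)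
  refine ⟨2 * (s / (1 - s)) + 1, by linarith, fun g t ht h p q hp hq => ?_⟩
  rcases eq_or_lt_of_le (dist_nonneg (x := dp p) (y := dp q)) with h0 | h0
  · have h1 : dp p = dp q := dist_eq_zero.1 h0.symm
    rw [h1, sub_self, abs_zero, dist_self, Real.zero_rpow (by norm_num), mul_zero]
  have h2 : dist (dp p) (dp q) / 2 ≤ 1 := by
    have : dist (dp p) (dp q) ≤ ‖dp p‖ + ‖dp q‖ := dist_le_norm_add_norm _ _
    linarith
  obtain ⟨n, hn1, hn2⟩ := exists_nat_pow_near_of_lt_one (by linarith : 0 < dist (dp p) (dp q) / 2)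
    h2 (by norm_num : (0 : ℝ) < 2⁻¹) (by norm_num : (2 : ℝ)⁻¹ < 1)
  have h3 := G3a_lim g t s ht hs0 hs1 hs h p hp n
  have h4 := G3a_lim g t s ht hs0 hs1 hs h q hq n
  have h5 := h n (G3a_w (dp p) n) (G3a_w (dp q) n) ((G3a_norm_ap _ n).trans hp)
    ((G3a_norm_ap _ n).trans hq) (by
      have h6 := G3a_dist_ap (dp p) n
      have h7 := G3a_dist_ap (dp q) n
      have h8 := dist_triangle (dp ((n, G3a_w (dp p) n) : DI d)) (dp p)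
        (dp ((n, G3a_w (dp q) n) : DI d))
      have h9 := dist_triangle (dp p) (dp q) (dp ((n, G3a_w (dp q) n) : DI d))
      rw [dist_comm (dp p)] at h6
      have h10 : (0 : ℝ) ≤ (2 : ℝ)⁻¹ ^ n := by positivity
      have h11 : (0 : ℝ) ≤ d := Nat.cast_nonneg d
      nlinarith [mul_nonneg h11 h10])
  rw [hs] at h5
  have h12 : s ^ n ≤ dist (dp p) (dp q) ^ (1 / 4 : ℝ) := by
    rw [← hs]
    refine Real.rpow_le_rpow (by positivity) ?_ (by norm_num)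
    rw [pow_succ] at hn1
    linarith
  have h13 : |g (dp p) - g (dp q)| ≤ (2 * (s / (1 - s)) + 1) * t * s ^ n := by
    have e1 := abs_sub_le (g (dp p)) (g (dp ((n, G3a_w (dp p) n) : DI d))) (g (dp q))
    have e2 := abs_sub_le (g (dp ((n, G3a_w (dp p) n) : DI d)))
      (g (dp ((n, G3a_w (dp q) n) : DI d))) (g (dp q))
    rw [abs_sub_comm] at h3
    have e3 : (2 * (s / (1 - s)) + 1) * t * s ^ n =
        t * (s ^ n * (s / (1 - s))) + (t * s ^ n + t * (s ^ n * (s / (1 - s)))) := by ring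
    rw [e3]
    linarith
  refine h13.trans (mul_le_mul_of_nonneg_left h12 ?_)
  exact mul_nonneg (by linarith) ht

end Pool.Agent.Thick
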