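import Pool.Agent.Thick.G0
import Pool.Agent.Thick.G3

set_option autoImplicit false

/-!
# G7a: the variables `W (v k (dp p))` are locally Hoelder continuous in `p`

`IsScaleVec v lam`: the vectors `v k x` have the inner products `lam (2^k (x - y))` at the same
level and are orthogonal at different levels; `lam` vanishes for `‖z‖ ≥ 2` and is Lipschitz at zero.

* `unit_tail`: for `X x = W (v k (2^m • x))` the increments have variance
  `‖v k (2^m x) - v k (2^m y)‖² = 2 (lam 0 - lam (2^{k+m} (x-y))) ≤ 2 C 2^{k+m} ‖x - y‖`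
  (`W (f - g) = W f - W g` almost surely, `IsIsonormal.sub` and `IsIsonormal.tail`, G0, applied with
  `V = 2 C 2^{k+m} dist > 0`; if `dist = 0` both sides are equal), so `kc_tail` (G3) applies with
  `C₀ = 4 C 2^{k+m}` (take `C ≥ 1`).
* `ae_hoelder`: let `R ≤ 2^m`. The dyadic points of the ball of radius `R` are `2^m • dp p'` with
  `‖dp p'‖ ≤ 1` (`p' = (p.1 + m, p.2)`). By `unit_tail` the probability that the Hoelder constant is
  larger than `t` tends to `0` as `t → ∞`, so it is almost surely finite (the intersection over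
  `t : ℕ` of the bad events has measure `0`). Countably many `k`, `R`.
-/

namespace Pool.Agent.Thick

open MeasureTheory ProbabilityTheory Filter Topology Set
open scoped RealInnerProductSpace

/-- Covariance structure of the fields at the scales `2^{-k}`. -/
structure IsScaleVec {d : ℕ} {H : Type} [NormedAddCommGroup H] [InnerProductSpace ℝ H]
    (v : ℕ → E d → H) (lam : E d → ℝ) : Prop where
  inner : ∀ k x y, ⟪v k x, v k y⟫ = lam ((2 : ℝ) ^ k • (x - y))
  orth : ∀ k l, k ≠ l → ∀ x y, ⟪v k x, v l y⟫ = 0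
  supp : ∀ z, 2 ≤ ‖z‖ → lam z = 0
  lip : ∃ C : ℝ, ∀ z, lam 0 - lam z ≤ C * ‖z‖

variable {d : ℕ} {H : Type} [NormedAddCommGroup H] [InnerProductSpace ℝ H] {Ω : Type}
  [MeasurableSpace Ω] {P : Measure Ω} {W : H → Ω → ℝ} {v : ℕ → E d → H} {lam : E d → ℝ}

private theorem inc_norm (hv : IsScaleVec v lam) (C : ℝ) (hC : ∀ z, lam 0 - lam z ≤ C * ‖z‖)
    (k : ℕ) (x y : E d) : ‖v k x - v k y‖ ^ 2 ≤ 2 * C * 2 ^ k * dist x y := by
  rw [norm_sub_sq_real, ← real_inner_self_eq_norm_sq, ← real_inner_self_eq_norm_sq, hv.inner,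
    hv.inner, hv.inner, sub_self, sub_self, smul_zero]
  have h := hC ((2 : ℝ) ^ k • (x - y))
  rw [norm_smul, norm_pow, Real.norm_ofNat, ← dist_eq_norm] at h
  linarith

theorem unit_tail (hW : IsIsonormal P W) (hv : IsScaleVec v lam) (k m : ℕ) :
    ∃ C c : ℝ, 0 < c ∧ ∀ t : ℝ, 0 ≤ t → P {ω | ∃ p q : DI d, ‖dp p‖ ≤ 1 ∧ ‖dp q‖ ≤ 1 ∧
      t * dist (dp p) (dp q) ^ (1 / 4 : ℝ) <
        |W (v k ((2 : ℝ) ^ m • dp p)) ω - W (v k ((2 : ℝ) ^ m • dp q)) ω|} ≤
      ENNReal.ofReal (C * Real.exp (-(c * t ^ 2))) := by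
  obtain ⟨C', hC'⟩ := hv.lip
  set C : ℝ := max C' 1 with hCdef
  have hC1 : 1 ≤ C := le_max_right _ _
  have hC0 : 0 < C := by linarith
  have hC : ∀ z, lam 0 - lam z ≤ C * ‖z‖ := fun z =>
    (hC' z).trans (mul_le_mul_of_nonneg_right (le_max_left _ _) (norm_nonneg z))
  obtain ⟨K, c, hc, h⟩ := kc_tail d (4 * C * 2 ^ (k + m)) (by positivity)
  refine ⟨K, c, hc, fun t ht => ?_⟩
  refine h Ω _ P hW.prob (fun x => W (v k ((2 : ℝ) ^ m • x))) ?_ t ht
  intro p q _ _ s hs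
  set x : E d := (2 : ℝ) ^ m • dp p with hx
  set y : E d := (2 : ℝ) ^ m • dp q with hy
  rcases (dist_nonneg (x := dp p) (y := dp q)).eq_or_lt with h0 | h0
  · have h1 : dp p = dp q := dist_eq_zero.1 h0.symm
    have h2 : {ω | s * dist (dp p) (dp q) ^ (1 / 2 : ℝ) < |W (v k x) ω - W (v k y) ω|} = ∅ := by
      refine eq_empty_of_forall_notMem fun ω hω => ?_
      have h3 : x = y := by rw [hx, hy, h1]
      rw [mem_ofPred_eq, ← h0, h3, sub_self, abs_zero,
        Real.zero_rpow (by norm_num), mul_zero] at hω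
      exact lt_irrefl _ hω
    rw [h2, measure_empty]
    exact bot_le
  · have hxy : dist x y = 2 ^ m * dist (dp p) (dp q) := by
      rw [hx, hy, dist_smul₀, norm_pow, Real.norm_ofNat]
    have hV : ‖v k x - v k y‖ ^ 2 ≤ 2 * C * 2 ^ (k + m) * dist (dp p) (dp q) := by
      refine (inc_norm hv C hC k x y).trans (le_of_eq ?_)
      rw [hxy, pow_add]
      ring
    have h1 := hW.tail (v k x - v k y) (2 * C * 2 ^ (k + m) * dist (dp p) (dp q))
      (by positivity) hV (s * dist (dp p) (dp q) ^ (1 / 2 : ℝ)) (by positivity)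
    have h2 : P {ω | s * dist (dp p) (dp q) ^ (1 / 2 : ℝ) < |W (v k x) ω - W (v k y) ω|} =
        P {ω | s * dist (dp p) (dp q) ^ (1 / 2 : ℝ) < |W (v k x - v k y) ω|} := by
      refine measure_congr ?_
      filter_upwards [hW.sub (v k x) (v k y)] with ω hω
      refine propext ?_
      change _ < _ ↔ _ < _
      rw [hω]
    rw [h2]
    refine h1.trans (le_of_eq ?_)
    congr 3
    have h3 : (dist (dp p) (dp q) ^ (1 / 2 : ℝ)) ^ 2 = dist (dp p) (dp q) := by
      rw [← Real.rpow_natCast, ← Real.rpow_mul h0.le]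
      norm_num
    rw [mul_pow, h3]
    field_simp
    norm_num

private theorem dp_add (p : DI d) (m : ℕ) : (2 : ℝ) ^ m • dp ((p.1 + m, p.2) : DI d) = dp p := by
  unfold dp
  rw [smul_smul, pow_add, inv_pow, inv_pow]
  congr 1
  field_simp

theorem ae_hoelder (hW : IsIsonormal P W) (hv : IsScaleVec v lam) :
    ∀ᵐ ω ∂P, ∀ (k R : ℕ), ∃ C : ℕ, ∀ p q : DI d, ‖dp p‖ ≤ R → ‖dp q‖ ≤ R →
      |W (v k (dp p)) ω - W (v k (dp q)) ω| ≤ C * dist (dp p) (dp q) ^ (1 / 4 : ℝ) := by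
  rw [ae_all_iff]
  intro k
  rw [ae_all_iff]
  intro R
  obtain ⟨C, c, hc, h⟩ := unit_tail (d := d) hW hv k R
  set B : ℕ → Set Ω := fun t => {ω | ∃ p q : DI d, ‖dp p‖ ≤ 1 ∧ ‖dp q‖ ≤ 1 ∧
      (t : ℝ) * dist (dp p) (dp q) ^ (1 / 4 : ℝ) <
        |W (v k ((2 : ℝ) ^ R • dp p)) ω - W (v k ((2 : ℝ) ^ R • dp q)) ω|} with hB
  have hlim : Tendsto (fun t : ℕ => ENNReal.ofReal (C * Real.exp (-(c * (t : ℝ) ^ 2)))) atTop
      (𝓝 0) := by
    have h1 : Tendsto (fun t : ℕ => C * Real.exp (-(c * (t : ℝ) ^ 2))) atTop (𝓝 (C * 0)) := by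
      refine Tendsto.const_mul _ ?_
      refine Real.tendsto_exp_atBot.comp ?_
      refine tendsto_neg_atTop_atBot.comp ?_
      refine Tendsto.const_mul_atTop hc ?_
      exact (tendsto_pow_atTop (two_ne_zero)).comp tendsto_natCast_atTop_atTop
    rw [mul_zero] at h1
    have h2 := (ENNReal.continuous_ofReal.tendsto 0).comp h1
    rw [ENNReal.ofReal_zero] at h2
    exact h2
  have hzero : P (⋂ t, B t) = 0 := by
    refine le_antisymm ?_ bot_le
    refine ge_of_tendsto hlim (Eventually.of_forall fun t => ?_)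
    exact (measure_mono (iInter_subset _ t)).trans (h t (Nat.cast_nonneg t))
  have hae : ∀ᵐ ω ∂P, ω ∉ ⋂ t, B t := measure_eq_zero_iff_ae_notMem.1 hzero
  filter_upwards [hae] with ω hω
  rw [mem_iInter, not_forall] at hω
  obtain ⟨t, ht⟩ := hω
  refine ⟨t, fun p q hp hq => ?_⟩
  have hR : (R : ℝ) ≤ 2 ^ R := by exact_mod_cast (Nat.lt_two_pow_self (n := R)).le
  have hpow : (0 : ℝ) < 2 ^ R := by positivity
  have hnorm : ∀ p : DI d, ‖dp p‖ ≤ R → ‖dp ((p.1 + R, p.2) : DI d)‖ ≤ 1 := by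
    intro p hp
    have h1 := dp_add p R
    have h2 : ‖dp p‖ = 2 ^ R * ‖dp ((p.1 + R, p.2) : DI d)‖ := by
      rw [← h1, norm_smul, norm_pow, Real.norm_ofNat]
    by_contra hcon
    push Not at hcon
    have h3 : (2 : ℝ) ^ R * 1 < 2 ^ R * ‖dp ((p.1 + R, p.2) : DI d)‖ :=
      mul_lt_mul_of_pos_left hcon hpow
    linarith
  have hdist : dist (dp ((p.1 + R, p.2) : DI d)) (dp ((q.1 + R, q.2) : DI d)) ≤
      dist (dp p) (dp q) := by
    have h1 : dist (dp p) (dp q) = 2 ^ R *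
        dist (dp ((p.1 + R, p.2) : DI d)) (dp ((q.1 + R, q.2) : DI d)) := by
      conv_lhs => rw [← dp_add p R, ← dp_add q R, dist_smul₀, norm_pow, Real.norm_ofNat]
    rw [h1]
    exact le_mul_of_one_le_left dist_nonneg (one_le_pow₀ (by norm_num))
  have h1 : ¬ ((t : ℝ) * dist (dp ((p.1 + R, p.2) : DI d)) (dp ((q.1 + R, q.2) : DI d)) ^
      (1 / 4 : ℝ) < |W (v k (dp p)) ω - W (v k (dp q)) ω|) := by
    intro hlt
    refine ht ⟨(p.1 + R, p.2), (q.1 + R, q.2), hnorm p hp, hnorm q hq, ?_⟩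
    rw [dp_add, dp_add]
    exact hlt
  push Not at h1
  refine h1.trans ?_
  exact mul_le_mul_of_nonneg_left (Real.rpow_le_rpow dist_nonneg hdist (by norm_num))
    (Nat.cast_nonneg t)

end Pool.Agent.Thick
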