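import Pool.Agent.Thick.Defs

set_option autoImplicit false

/-!
# Kap1: the tent function and its autocorrelation

`eta0 z = max 0 (1 - ‖z‖)`, `eta` is its multiple with `∫ eta² = 1`, `kap z = ∫ eta w * eta (w + z) dw`.
* `∫ eta0² > 0`: continuous, nonnegative, positive at `0`, compact support
  (`Continuous.integral_pos_of_hasCompactSupport_nonneg_nonzero`).
* `kap_zero`: `∫ eta² = 1`. `kap_le_one`: `eta w * eta (w+z) ≤ (eta w² + eta (w+z)²) / 2` and
  translation invariance. `kap_supp`: if `‖z‖ ≥ 2` then `‖w‖ ≥ 1` or `‖w + z‖ ≥ 1`.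
* `kap_lip`: `|kap z - kap z'| ≤ ∫ eta w |eta (w+z) - eta (w+z')| dw ≤ (Lip eta) ‖z - z'‖ ∫ eta`.
* `kap_radial`: for `‖z‖ = ‖z'‖` there is a linear isometry `T` with `T z = z'`
  (the reflection in the orthogonal complement of `z - z'`, `reflection_sub`); it preserves the measure
  (`LinearIsometryEquiv.measurePreserving`) and `eta (T w) = eta w`.
-/

namespace Pool.Agent.Thick

open MeasureTheory ProbabilityTheory Filter Topology Set

/-- The tent function. -/
noncomputable def eta0 {d : ℕ} (z : E d) : ℝ := max 0 (1 - ‖z‖)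

/-- The normalised tent function. -/
noncomputable def eta {d : ℕ} (z : E d) : ℝ := eta0 z / Real.sqrt (∫ w : E d, eta0 w ^ 2)

/-- The autocorrelation of the tent function. -/
noncomputable def kap {d : ℕ} (z : E d) : ℝ := ∫ w : E d, eta w * eta (w + z)

variable {d : ℕ}

private theorem continuous_eta0 : Continuous (eta0 (d := d)) := by
  unfold eta0
  fun_prop

private theorem eta0_supp (z : E d) (hz : 1 ≤ ‖z‖) : eta0 z = 0 := by
  unfold eta0
  exact max_eq_left (by linarith)

private theorem eta0_nonneg (z : E d) : 0 ≤ eta0 z := le_max_left _ _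

private theorem hasCompactSupport_eta0 : HasCompactSupport (eta0 (d := d)) := by
  refine HasCompactSupport.intro (isCompact_closedBall (0 : E d) 1) fun x hx => ?_
  apply eta0_supp
  rw [Metric.mem_closedBall, dist_zero_right, not_le] at hx
  exact hx.le

private theorem pos_int : 0 < ∫ w : E d, eta0 w ^ 2 := by
  refine Continuous.integral_pos_of_hasCompactSupport_nonneg_nonzero (x := 0)
    (continuous_eta0.pow 2) ?_ (fun w => sq_nonneg _) ?_
  · have : (fun w : E d => eta0 w ^ 2) = fun w => eta0 w * eta0 w := by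
      ext w
      ring
    rw [this]
    exact hasCompactSupport_eta0.mul_right
  · simp [eta0]

private theorem pos_sqrt : 0 < Real.sqrt (∫ w : E d, eta0 w ^ 2) := Real.sqrt_pos.mpr pos_int

theorem continuous_eta : Continuous (eta (d := d)) := by
  unfold eta
  exact continuous_eta0.div_const _

theorem eta_nonneg (z : E d) : 0 ≤ eta z := div_nonneg (eta0_nonneg z) pos_sqrt.le

theorem eta_supp (z : E d) (hz : 1 ≤ ‖z‖) : eta z = 0 := by
  unfold eta
  rw [eta0_supp z hz, zero_div]

theorem hasCompactSupport_eta : HasCompactSupport (eta (d := d)) := by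
  refine HasCompactSupport.intro (isCompact_closedBall (0 : E d) 1) fun x hx => ?_
  apply eta_supp
  rw [Metric.mem_closedBall, dist_zero_right, not_le] at hx
  exact hx.le

theorem eta_norm (z z' : E d) (h : ‖z‖ = ‖z'‖) : eta z = eta z' := by
  unfold eta eta0
  rw [h]

theorem integral_eta_sq : ∫ z : E d, eta z ^ 2 = 1 := by
  have h : (fun z : E d => eta z ^ 2) = fun z => eta0 z ^ 2 / ∫ w : E d, eta0 w ^ 2 := by
    ext z
    unfold eta
    rw [div_pow, Real.sq_sqrt pos_int.le]
  rw [h, integral_div]
  exact div_self pos_int.ne'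

private theorem integrable_sq : Integrable fun w : E d => eta w ^ 2 := by
  have h : (fun w : E d => eta w ^ 2) = fun w => eta w * eta w := by
    ext w
    ring
  rw [h]
  exact (continuous_eta.mul continuous_eta).integrable_of_hasCompactSupport
    hasCompactSupport_eta.mul_right

private theorem integrable_mul (z : E d) : Integrable fun w : E d => eta w * eta (w + z) :=
  (continuous_eta.mul (continuous_eta.comp (by fun_prop))).integrable_of_hasCompactSupport
    hasCompactSupport_eta.mul_right

theorem kap_zero : kap (0 : E d) = 1 := by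
  unfold kap
  rw [← integral_eta_sq (d := d)]
  congr 1
  ext w
  rw [add_zero, sq]

theorem kap_nonneg (z : E d) : 0 ≤ kap z :=
  integral_nonneg fun w => mul_nonneg (eta_nonneg w) (eta_nonneg _)

theorem kap_le_one (z : E d) : kap z ≤ 1 := by
  have h1 : Integrable fun w : E d => eta (w + z) ^ 2 := integrable_sq.comp_add_right z
  have h2 : ∫ w : E d, eta (w + z) ^ 2 = 1 := by
    rw [← integral_eta_sq (d := d)]
    exact integral_add_right_eq_self (fun w : E d => eta w ^ 2) z
  calc kap z ≤ ∫ w : E d, (eta w ^ 2 + eta (w + z) ^ 2) / 2 := by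
        refine integral_mono (integrable_mul z) ((integrable_sq.add h1).div_const 2) fun w => ?_
        have := sq_nonneg (eta w - eta (w + z))
        simp only
        nlinarith
    _ = 1 := by
        rw [integral_div, integral_add integrable_sq h1, h2, integral_eta_sq]
        norm_num

theorem kap_supp (z : E d) (hz : 2 ≤ ‖z‖) : kap z = 0 := by
  unfold kap
  have h : (fun w : E d => eta w * eta (w + z)) = fun _ => 0 := by
    ext w
    rcases le_or_gt 1 ‖w‖ with h1 | h1
    · rw [eta_supp w h1, zero_mul]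
    · rw [eta_supp (w + z), mul_zero]
      have h2 : ‖z‖ ≤ ‖w + z‖ + ‖w‖ := by
        calc ‖z‖ = ‖(w + z) - w‖ := by rw [add_sub_cancel_left]
          _ ≤ ‖w + z‖ + ‖w‖ := norm_sub_le _ _
      linarith
  rw [h, integral_zero]

private theorem eta_lip (a b : E d) :
    |eta a - eta b| ≤ 1 / Real.sqrt (∫ w : E d, eta0 w ^ 2) * ‖a - b‖ := by
  have h0 : |eta0 a - eta0 b| ≤ ‖a - b‖ := by
    unfold eta0
    rw [max_comm 0, max_comm 0]
    refine (abs_max_sub_max_le_abs _ _ _).trans ?_
    have : (1 - ‖a‖) - (1 - ‖b‖) = -(‖a‖ - ‖b‖) := by ring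
    rw [this, abs_neg]
    exact abs_norm_sub_norm_le a b
  unfold eta
  rw [← sub_div, abs_div, abs_of_pos pos_sqrt, div_eq_mul_one_div, mul_comm]
  exact mul_le_mul_of_nonneg_left h0 (by positivity)

theorem kap_lip : ∃ C : ℝ, 0 < C ∧ ∀ z z' : E d, |kap z - kap z'| ≤ C * ‖z - z'‖ := by
  have hI : Integrable fun w : E d => eta w :=
    continuous_eta.integrable_of_hasCompactSupport hasCompactSupport_eta
  have hI0 : 0 ≤ ∫ w : E d, eta w := integral_nonneg eta_nonneg
  refine ⟨1 / Real.sqrt (∫ w : E d, eta0 w ^ 2) * (∫ w : E d, eta w) + 1, by positivity,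
    fun z z' => ?_⟩
  have h1 : kap z - kap z' = ∫ w : E d, (eta w * eta (w + z) - eta w * eta (w + z')) :=
    (integral_sub (integrable_mul z) (integrable_mul z')).symm
  rw [h1]
  calc |∫ w : E d, (eta w * eta (w + z) - eta w * eta (w + z'))|
      ≤ ∫ w : E d, |eta w * eta (w + z) - eta w * eta (w + z')| := abs_integral_le_integral_abs
    _ ≤ ∫ w : E d, (1 / Real.sqrt (∫ w : E d, eta0 w ^ 2) * ‖z - z'‖) * eta w := by
        refine integral_mono ((integrable_mul z).sub (integrable_mul z')).abs
          (hI.const_mul _) fun w => ?_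
        simp only
        rw [← mul_sub, abs_mul, abs_of_nonneg (eta_nonneg w), mul_comm]
        refine mul_le_mul_of_nonneg_right ?_ (eta_nonneg w)
        have h2 := eta_lip (w + z) (w + z')
        rwa [add_sub_add_left_eq_sub] at h2
    _ = (1 / Real.sqrt (∫ w : E d, eta0 w ^ 2) * (∫ w : E d, eta w)) * ‖z - z'‖ := by
        rw [integral_const_mul]
        ring
    _ ≤ (1 / Real.sqrt (∫ w : E d, eta0 w ^ 2) * (∫ w : E d, eta w) + 1) * ‖z - z'‖ := by
        refine mul_le_mul_of_nonneg_right ?_ (norm_nonneg _)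
        linarith

theorem continuous_kap : Continuous (kap (d := d)) := by
  obtain ⟨C, -, h⟩ := kap_lip (d := d)
  refine (LipschitzWith.of_dist_le' (K := C) fun z z' => ?_).continuous
  rw [Real.dist_eq, dist_eq_norm]
  exact h z z'

theorem kap_radial (z z' : E d) (h : ‖z‖ = ‖z'‖) : kap z = kap z' := by
  have hT : Submodule.reflection (ℝ ∙ (z - z'))ᗮ z = z' := Submodule.reflection_sub h
  set T : E d ≃ₗᵢ[ℝ] E d := Submodule.reflection (ℝ ∙ (z - z'))ᗮ
  have h1 : kap z' = ∫ w : E d, eta (T w) * eta (T w + z') :=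
    ((LinearIsometryEquiv.measurePreserving T).integral_comp
      T.toHomeomorph.measurableEmbedding (fun w => eta w * eta (w + z'))).symm
  rw [h1]
  unfold kap
  congr 1
  ext w
  have h2 : T w + z' = T (w + z) := by rw [map_add, hT]
  rw [h2, eta_norm (T w) w (T.norm_map w), eta_norm (T (w + z)) (w + z) (T.norm_map _)]

end Pool.Agent.Thick
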