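import Pool.Agent.Thick.Th

set_option autoImplicit false

/-!
# KfB: two bounds for the norm of `Kf s f`

* `integral_kap_scale`: `Measure.integral_comp_smul`, `finrank (E d) = d`. `integrable_kap`: continuous
  with compact support (`kap_supp`).
* `norm_Kf_sup` (`C = log 2 * (∫ kap + 1)`): `‖Kf s f‖² = log 2 ∫∫ f(z) f(z') kap (2^s (z - z'))`
  (`inner_Kf_Kf`, Th) `≤ log 2 ∫ |f z| (M ∫ kap (2^s (z - z')) dz') dz` and
  `∫ kap (2^s (z - z')) dz' = (2^s)^{-d} ∫ kap` (translation, reflection).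
* `norm_Kf_low`: `∫∫ f f kap (2^s (z - z')) = ∫∫ f f (kap (2^s (z - z')) - 1)` because `∫ f = 0`, and
  `|kap (2^s (z-z')) - 1| ≤ C₁ 2^s ‖z - z'‖ ≤ C₁ 2^s 2 R` on the support (`kap_lip`, `kap_zero`, Kap1). If
  `R < 0` then `f = 0`. (All integrands are integrable on the product: products of integrable functions
  and bounded continuous ones; `norm_integral_le_integral_norm`.)
-/

namespace Pool.Agent.Thick

open MeasureTheory ProbabilityTheory Filter Topology Set

variable {d : ℕ}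

private theorem hasCompactSupport_kap : HasCompactSupport (kap (d := d)) := by
  refine HasCompactSupport.of_support_subset_isCompact (isCompact_closedBall (0 : E d) 2)
    fun z hz => ?_
  rw [mem_closedBall_zero_iff]
  by_contra hcon
  exact hz (kap_supp z (not_le.1 hcon).le)

theorem integrable_kap : Integrable (kap (d := d)) :=
  continuous_kap.integrable_of_hasCompactSupport hasCompactSupport_kap

theorem integral_kap_scale (s : ℝ) :
    ∫ u : E d, kap ((2 : ℝ) ^ s • u) = ((2 : ℝ) ^ s)⁻¹ ^ d * ∫ u : E d, kap u := by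
  have h := Measure.integral_comp_smul (volume : Measure (E d)) (kap (d := d)) ((2 : ℝ) ^ s)
  have hp : (0 : ℝ) < (2 : ℝ) ^ s := Real.rpow_pos_of_pos (by norm_num) s
  rw [h, finrank_euclideanSpace_fin, smul_eq_mul, abs_of_pos (by positivity), inv_pow]

private theorem kfb_int_kap (s : ℝ) (z : E d) :
    Integrable fun z' : E d => kap ((2 : ℝ) ^ s • (z - z')) := by
  have hp : (0 : ℝ) < (2 : ℝ) ^ s := Real.rpow_pos_of_pos (by norm_num) s
  have h1 : Integrable fun u : E d => kap ((2 : ℝ) ^ s • u) :=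
    (integrable_kap (d := d)).comp_smul hp.ne'
  exact h1.comp_sub_left z

private theorem kfb_integral_kap (s : ℝ) (z : E d) :
    ∫ z' : E d, kap ((2 : ℝ) ^ s • (z - z')) = ((2 : ℝ) ^ s)⁻¹ ^ d * ∫ u : E d, kap u := by
  rw [← integral_kap_scale]
  exact integral_sub_left_eq_self (fun u : E d => kap ((2 : ℝ) ^ s • u)) volume z

private theorem kfb_sq (s : ℝ) (f : E d → ℝ) (hf : Integrable f) : ‖Kf s f‖ ^ 2 =
    Real.log 2 * ∫ z, ∫ z', f z * f z' * kap ((2 : ℝ) ^ s • (z - z')) := by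
  rw [← inner_Kf_Kf s f f hf hf, real_inner_self_eq_norm_sq]

theorem norm_Kf_sup (d : ℕ) : ∃ C : ℝ, 0 < C ∧ ∀ (s : ℝ) (f : E d → ℝ) (M : ℝ), Integrable f →
    (∀ z, |f z| ≤ M) → ‖Kf s f‖ ^ 2 ≤ C * M * (∫ z, |f z|) * ((2 : ℝ) ^ s)⁻¹ ^ d := by
  have hlog : 0 < Real.log 2 := Real.log_pos (by norm_num)
  have hk : 0 ≤ ∫ u : E d, kap u := integral_nonneg fun u => kap_nonneg u
  refine ⟨Real.log 2 * ((∫ u : E d, kap u) + 1), by positivity, fun s f M hf hM => ?_⟩
  have hM0 : 0 ≤ M := (abs_nonneg _).trans (hM 0)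
  have hp : (0 : ℝ) < (2 : ℝ) ^ s := Real.rpow_pos_of_pos (by norm_num) s
  set q : ℝ := ((2 : ℝ) ^ s)⁻¹ ^ d with hq
  have hq0 : 0 ≤ q := by positivity
  have hA : 0 ≤ ∫ z, |f z| := integral_nonneg fun z => abs_nonneg _
  have hin : ∀ z, ‖∫ z', f z * f z' * kap ((2 : ℝ) ^ s • (z - z'))‖ ≤
      |f z| * (M * (q * ∫ u : E d, kap u)) := by
    intro z
    have h1 : Integrable fun z' : E d => |f z| * M * kap ((2 : ℝ) ^ s • (z - z')) :=
      (kfb_int_kap s z).const_mul _
    refine (norm_integral_le_of_norm_le h1 (Eventually.of_forall fun z' => ?_)).trans ?_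
    · rw [Real.norm_eq_abs, abs_mul, abs_mul, abs_of_nonneg (kap_nonneg _)]
      exact mul_le_mul_of_nonneg_right (mul_le_mul_of_nonneg_left (hM z') (abs_nonneg _))
        (kap_nonneg _)
    · rw [integral_const_mul, kfb_integral_kap, ← hq, mul_assoc]
  have hout : ‖∫ z, ∫ z', f z * f z' * kap ((2 : ℝ) ^ s • (z - z'))‖ ≤
      (∫ z, |f z|) * (M * (q * ∫ u : E d, kap u)) := by
    have h1 : Integrable fun z : E d => |f z| * (M * (q * ∫ u : E d, kap u)) :=
      hf.abs.mul_const _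
    refine (norm_integral_le_of_norm_le h1 (Eventually.of_forall hin)).trans ?_
    rw [integral_mul_const]
  rw [kfb_sq s f hf]
  calc Real.log 2 * ∫ z, ∫ z', f z * f z' * kap ((2 : ℝ) ^ s • (z - z'))
      ≤ Real.log 2 * ((∫ z, |f z|) * (M * (q * ∫ u : E d, kap u))) :=
        mul_le_mul_of_nonneg_left ((Real.le_norm_self _).trans hout) hlog.le
    _ ≤ Real.log 2 * ((∫ z, |f z|) * (M * (q * ((∫ u : E d, kap u) + 1)))) := by
        refine mul_le_mul_of_nonneg_left (mul_le_mul_of_nonneg_left (mul_le_mul_of_nonneg_left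
          (mul_le_mul_of_nonneg_left ?_ hq0) hM0) hA) hlog.le
        linarith
    _ = _ := by ring

private theorem kfb_bdd (s : ℝ) (f : E d → ℝ) (hf : Integrable f) (z : E d) :
    Integrable fun z' : E d => f z * f z' * kap ((2 : ℝ) ^ s • (z - z')) := by
  have hc : Continuous fun z' : E d => kap ((2 : ℝ) ^ s • (z - z')) :=
    continuous_kap.comp (by fun_prop)
  refine (hf.const_mul (f z)).mul_bdd (c := 1) hc.aestronglyMeasurable
    (Eventually.of_forall fun z' => ?_)
  rw [Real.norm_eq_abs, abs_of_nonneg (kap_nonneg _)]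
  exact kap_le_one _

theorem norm_Kf_low (d : ℕ) : ∃ C : ℝ, 0 < C ∧ ∀ (s : ℝ) (f : E d → ℝ) (x₀ : E d) (R : ℝ),
    Integrable f → ∫ z, f z = 0 → (∀ z, R < ‖z - x₀‖ → f z = 0) →
    ‖Kf s f‖ ^ 2 ≤ C * (2 : ℝ) ^ s * R * (∫ z, |f z|) ^ 2 := by
  have hlog : 0 < Real.log 2 := Real.log_pos (by norm_num)
  obtain ⟨C₁, hC₁, hlip⟩ := kap_lip (d := d)
  refine ⟨Real.log 2 * (C₁ * 2), by positivity, fun s f x₀ R hf hf0 hR => ?_⟩
  have hp : (0 : ℝ) < (2 : ℝ) ^ s := Real.rpow_pos_of_pos (by norm_num) s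
  rcases lt_or_ge R 0 with hneg | hpos
  · have hzero : f = fun _ => 0 := funext fun z => hR z (hneg.trans_le (norm_nonneg _))
    rw [kfb_sq s f hf, hzero]
    simp
  have hsub : ∀ z, ∫ z', f z * f z' * kap ((2 : ℝ) ^ s • (z - z')) =
      ∫ z', f z * f z' * (kap ((2 : ℝ) ^ s • (z - z')) - 1) := by
    intro z
    have h1 : ∫ z', f z * f z' = 0 := by
      rw [integral_const_mul, hf0, mul_zero]
    have h2 := integral_sub (kfb_bdd s f hf z) (hf.const_mul (f z))
    rw [h1, sub_zero] at h2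
    rw [← h2]
    refine integral_congr_ae (Eventually.of_forall fun z' => ?_)
    simp only
    ring
  have hpt : ∀ z z', |f z * f z' * (kap ((2 : ℝ) ^ s • (z - z')) - 1)| ≤
      |f z| * |f z'| * (C₁ * 2 * (2 : ℝ) ^ s * R) := by
    intro z z'
    by_cases hz : R < ‖z - x₀‖
    · rw [hR z hz]
      simp
    by_cases hz' : R < ‖z' - x₀‖
    · rw [hR z' hz']
      simp
    rw [abs_mul, abs_mul]
    refine mul_le_mul_of_nonneg_left ?_ (by positivity)
    have h1 := hlip ((2 : ℝ) ^ s • (z - z')) 0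
    rw [kap_zero, sub_zero, norm_smul, Real.norm_of_nonneg hp.le] at h1
    refine h1.trans ?_
    have h2 : ‖z - z'‖ ≤ R + R := by
      have e : z - z' = (z - x₀) - (z' - x₀) := by abel
      rw [e]
      exact (norm_sub_le _ _).trans (add_le_add (not_lt.1 hz) (not_lt.1 hz'))
    calc C₁ * ((2 : ℝ) ^ s * ‖z - z'‖) ≤ C₁ * ((2 : ℝ) ^ s * (R + R)) :=
          mul_le_mul_of_nonneg_left (mul_le_mul_of_nonneg_left h2 hp.le) hC₁.le
      _ = _ := by ring
  set c : ℝ := C₁ * 2 * (2 : ℝ) ^ s * R with hc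
  have hin : ∀ z, ‖∫ z', f z * f z' * kap ((2 : ℝ) ^ s • (z - z'))‖ ≤
      |f z| * ((∫ w, |f w|) * c) := by
    intro z
    rw [hsub]
    have h1 : Integrable fun z' : E d => |f z| * |f z'| * c :=
      (hf.abs.const_mul _).mul_const _
    refine (norm_integral_le_of_norm_le h1 (Eventually.of_forall fun z' => ?_)).trans ?_
    · exact hpt z z'
    · rw [integral_mul_const, integral_const_mul, mul_assoc]
  have hout : ‖∫ z, ∫ z', f z * f z' * kap ((2 : ℝ) ^ s • (z - z'))‖ ≤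
      (∫ z, |f z|) * ((∫ w, |f w|) * c) := by
    have h1 : Integrable fun z : E d => |f z| * ((∫ w, |f w|) * c) := hf.abs.mul_const _
    refine (norm_integral_le_of_norm_le h1 (Eventually.of_forall hin)).trans ?_
    rw [integral_mul_const]
  rw [kfb_sq s f hf]
  calc Real.log 2 * ∫ z, ∫ z', f z * f z' * kap ((2 : ℝ) ^ s • (z - z'))
      ≤ Real.log 2 * ((∫ z, |f z|) * ((∫ w, |f w|) * c)) :=
        mul_le_mul_of_nonneg_left ((Real.le_norm_self _).trans hout) hlog.le
    _ = _ := by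
        rw [hc]
        ring

end Pool.Agent.Thick
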