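import Pool.Agent.Thick.T3

set_option autoImplicit false

/-!
# M1: thick points and barriers; comparison of chains

* `thick_subset`: let `x` be `α`-thick and `a < α log 2`. As `a / log 2 < α ≤ liminf` (in `EReal`),
  eventually `a / log 2 < moll n x / (n log 2)` (`Filter.eventually_lt_of_lt_liminf`), so
  `a n ≤ moll n x` for `n ≥ n₀ ≥ 1`; choose a natural number `h ≥ ‖x‖` with `a n - h ≤ moll n x` for
  the finitely many `n < n₀`.
* `subset_thick`: `moll n x / (n log 2) ≥ α - (H (n+1)^{3/4} + |c|) / (n log 2) → α`, so the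
  liminf (in `EReal`) is `≥ α` (`le_liminf_of_le` with every `β < α`, or compare with the limit of
  the right side: `liminf_le_liminf` and `Tendsto.liminf_eq`, `EReal` coercion is continuous).
* `qcross_mono`: the same chain; all its points are at distance `≤ r' + 1/(N+1) ≤ r' + 1` from `z`.
* `mono_slack`: for `a' < a` and real numbers `G`, `h` the sequence
  `h + G (n+1)^{2/3} - (a - a') n` is bounded above by a natural number (exponent `2/3 < 1`).
-/

namespace Pool.Agent.Thick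

open MeasureTheory ProbabilityTheory Filter Topology Set

theorem thick_subset {d : ℕ} (ρ : E d → ℝ) (u : (E d → ℝ) → ℝ) (c α a : ℝ)
    (ha : a < α * Real.log 2) :
    thick ρ u c α ⊆ ⋃ h : ℕ, {x | ‖x‖ ≤ h ∧ ∀ n : ℕ, a * n - h ≤ moll ρ u c n x} := by
  intro x hx
  have hlog : 0 < Real.log 2 := Real.log_pos one_lt_two
  have h1 : ((a / Real.log 2 : ℝ) : EReal) <
      liminf (fun n : ℕ => ((moll ρ u c n x / (n * Real.log 2) : ℝ) : EReal)) atTop := by
    refine lt_of_lt_of_le ?_ hx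
    rw [EReal.coe_lt_coe_iff, div_lt_iff₀ hlog]
    exact ha
  obtain ⟨n₀, hn₀⟩ := eventually_atTop.1 (Filter.eventually_lt_of_lt_liminf h1)
  obtain ⟨h, hh⟩ := exists_nat_ge
    (‖x‖ + ∑ n ∈ Finset.range (n₀ + 1), |a * n - moll ρ u c n x|)
  have hsum : 0 ≤ ∑ n ∈ Finset.range (n₀ + 1), |a * n - moll ρ u c n x| :=
    Finset.sum_nonneg fun _ _ => abs_nonneg _
  rw [mem_iUnion]
  refine ⟨h, by linarith, fun n => ?_⟩
  by_cases hn : n ∈ Finset.range (n₀ + 1)
  · have h2 := Finset.single_le_sum (f := fun n : ℕ => |a * n - moll ρ u c n x|)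
      (fun _ _ => abs_nonneg _) hn
    have h3 := le_abs_self (a * n - moll ρ u c n x)
    have h4 := norm_nonneg x
    linarith
  · rw [Finset.mem_range, not_lt] at hn
    have h2 := hn₀ n (by omega)
    rw [EReal.coe_lt_coe_iff] at h2
    have hn1 : (0 : ℝ) < n := by
      have : 0 < n := by omega
      exact_mod_cast this
    rw [div_lt_div_iff₀ hlog (by positivity)] at h2
    have h3 : a * n < moll ρ u c n x := by
      have h4 : (a * n) * Real.log 2 < moll ρ u c n x * Real.log 2 := by linarith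
      exact lt_of_mul_lt_mul_right h4 hlog.le
    have h4 : (0 : ℝ) ≤ h := Nat.cast_nonneg _
    linarith

private theorem tendsto_ratio : Tendsto (fun n : ℕ => ((n : ℝ) + 1) ^ (3 / 4 : ℝ) / n) atTop
    (𝓝 0) := by
  have h1 : Tendsto (fun n : ℕ => ((n : ℝ) + 1)) atTop atTop :=
    tendsto_atTop_add_const_right _ _ tendsto_natCast_atTop_atTop
  have h2 : Tendsto (fun n : ℕ => ((n : ℝ) + 1) ^ (-(1 / 4) : ℝ)) atTop (𝓝 0) :=
    (tendsto_rpow_neg_atTop (by norm_num)).comp h1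
  have h3 : Tendsto (fun n : ℕ => 1 + 1 / (n : ℝ)) atTop (𝓝 (1 + 0)) :=
    tendsto_const_nhds.add tendsto_one_div_atTop_nhds_zero_nat
  have h4 := h2.mul h3
  rw [zero_mul] at h4
  refine h4.congr' ?_
  filter_upwards [eventually_gt_atTop 0] with n hn
  have hn' : (0 : ℝ) < n := by exact_mod_cast hn
  have h5 : ((n : ℝ) + 1) ^ (3 / 4 : ℝ) = ((n : ℝ) + 1) ^ (-(1 / 4) : ℝ) * ((n : ℝ) + 1) := by
    rw [← Real.rpow_add_one (by positivity)]
    norm_num
  rw [h5]
  field_simp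

theorem subset_thick {d : ℕ} (ρ : E d → ℝ) (u : (E d → ℝ) → ℝ) (c α H : ℝ) :
    {x : E d | ∀ n : ℕ, 0 ≤ u (mtest ρ n x) -
      (α * Real.log 2 * n - H * ((n : ℝ) + 1) ^ (3 / 4 : ℝ))} ⊆ thick ρ u c α := by
  intro x hx
  have hlog : 0 < Real.log 2 := Real.log_pos one_lt_two
  have h1 : Tendsto (fun n : ℕ => α - (H / Real.log 2 * (((n : ℝ) + 1) ^ (3 / 4 : ℝ) / n) -
      c / Real.log 2 * (1 / (n : ℝ)))) atTop (𝓝 α) := by
    have h2 := (tendsto_ratio.const_mul (H / Real.log 2)).sub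
      (tendsto_one_div_atTop_nhds_zero_nat.const_mul (c / Real.log 2))
    have h3 := h2.const_sub α
    simpa using h3
  have h2 := (continuous_coe_real_ereal.tendsto α).comp h1
  change (α : EReal) ≤ _
  rw [← h2.liminf_eq]
  refine liminf_le_liminf ?_
  filter_upwards [eventually_gt_atTop 0] with n hn
  have hn' : (0 : ℝ) < n := by exact_mod_cast hn
  rw [Function.comp_apply, EReal.coe_le_coe_iff, le_div_iff₀ (by positivity)]
  have h3 := hx n
  have h4 : (α - (H / Real.log 2 * (((n : ℝ) + 1) ^ (3 / 4 : ℝ) / n) -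
      c / Real.log 2 * (1 / (n : ℝ)))) * (n * Real.log 2) =
      α * Real.log 2 * n - H * ((n : ℝ) + 1) ^ (3 / 4 : ℝ) + c := by
    field_simp
    ring
  rw [h4]
  unfold moll
  linarith

theorem qcross_mono {d : ℕ} (A B : ℕ → DI d → ℝ) (z : E d) (r r' : ℝ)
    (h : ∀ n (p : DI d), dist (dp p) z ≤ r' + 1 → A n p ≤ B n p) (hA : QCross A z r r') :
    QCross B z r r' := by
  intro N
  obtain ⟨m, c, h1, h2, h3, h4, h5⟩ := hA N
  have h6 : 1 / ((N : ℝ) + 1) ≤ 1 := by
    rw [div_le_one (by positivity)]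
    have : (0 : ℝ) ≤ N := Nat.cast_nonneg _
    linarith
  exact ⟨m, c, h1, h2, h3, h4, fun i n hn => (h5 i n hn).trans
    (h n (c i) ((h4 i).trans (by linarith)))⟩

theorem mono_slack (a a' G h : ℝ) (ha : a' < a) :
    ∃ s : ℕ, ∀ n : ℕ, a' * n - s ≤ a * n - h - G * ((n : ℝ) + 1) ^ (2 / 3 : ℝ) := by
  obtain ⟨s, hs⟩ := exists_nat_ge (h + (a - a') + |G| * (|G| / (a - a')) ^ 2)
  refine ⟨s, fun n => ?_⟩
  have hδ : 0 < a - a' := sub_pos.2 ha
  have hn : (0 : ℝ) ≤ n := Nat.cast_nonneg _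
  set y : ℝ := ((n : ℝ) + 1) ^ (1 / 3 : ℝ) with hy
  have hy0 : 0 ≤ y := Real.rpow_nonneg (by positivity) _
  have h3 : y ^ 3 = (n : ℝ) + 1 := by
    rw [hy, ← Real.rpow_natCast, ← Real.rpow_mul (by positivity)]
    norm_num
  have h2 : ((n : ℝ) + 1) ^ (2 / 3 : ℝ) = y ^ 2 := by
    rw [hy, ← Real.rpow_natCast, ← Real.rpow_mul (by positivity)]
    norm_num
  have h4 : |G| * y ^ 2 ≤ (a - a') * y ^ 3 + |G| * (|G| / (a - a')) ^ 2 := by
    rcases le_total y (|G| / (a - a')) with h5 | h5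
    · have h6 : y ^ 2 ≤ (|G| / (a - a')) ^ 2 := pow_le_pow_left₀ hy0 h5 2
      have h7 : |G| * y ^ 2 ≤ |G| * (|G| / (a - a')) ^ 2 :=
        mul_le_mul_of_nonneg_left h6 (abs_nonneg G)
      have h8 : 0 ≤ (a - a') * y ^ 3 := by positivity
      linarith
    · have h6 : |G| ≤ (a - a') * y := by
        rw [div_le_iff₀ hδ] at h5
        linarith
      have h7 : |G| * y ^ 2 ≤ (a - a') * y * y ^ 2 :=
        mul_le_mul_of_nonneg_right h6 (by positivity)
      have h8 : 0 ≤ |G| * (|G| / (a - a')) ^ 2 := by positivity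
      have h9 : (a - a') * y * y ^ 2 = (a - a') * y ^ 3 := by ring
      linarith
  have h5 : G * y ^ 2 ≤ |G| * y ^ 2 :=
    mul_le_mul_of_nonneg_right (le_abs_self G) (by positivity)
  rw [h2]
  rw [h3] at h4
  nlinarith

end Pool.Agent.Thick
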