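import Pool.Agent.Thick.Defs

set_option autoImplicit false

/-!
# T1: limits of chains in decreasing compact sets contain connected sets

Proof of `cross_of_chain`. Put `X = ⋂ N, X N` (compact), `A = {x ∈ X | dist x z ≤ r}`,
`B = {y ∈ X | r' ≤ dist y z}`. Suppose that no connected component of `X` meets both `A` and `B`
(otherwise take `K` = such a component: `connectedComponentIn X x` is closed in the compact `X`).
In the compact Hausdorff space `X` the component of a point is the intersection of the clopen sets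
containing it (`connectedComponent_eq_iInter_isClopen`), so by compactness of `B` every `x ∈ A` has
a clopen neighbourhood in `X` disjoint from `B`; finitely many of them cover `A` (compact). So
`X = U ∪ V` with `U`, `V` disjoint compact, `A ⊆ U`, `B ⊆ V`. Choose `η > 0` such that the open
`η`-thickenings `O_U`, `O_V` of `U` and `V` have distance `≥ η` (`IsCompact`, disjoint:
`Metric.infDist`/`Disjoint.exists_thickenings`; use `3 η < dist (U, V)`). For large `N`:
`X N ⊆ O_U ∪ O_V`; the points of `X N` with `dist x z ≤ r + 1/(N+1)` are in `O_U`; the points of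
`X N` with `r' - 1/(N+1) ≤ dist y z` are in `O_V` (three times: decreasing sequence of compact sets
whose intersection is inside an open set: `IsCompact.elim_directed_family_closed_of_isCompact` or
`exists_subset_nhds_of_isCompact`). For `1/(N+1) < η` a chain with steps `≤ 1/(N+1)` starting in `O_U`
and staying in `O_U ∪ O_V` stays in `O_U`, a contradiction. The case where `A` or `B` is empty is
included (`U = ∅` or `V = ∅`).
-/

namespace Pool.Agent.Thick

open MeasureTheory ProbabilityTheory Filter Topology Set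

/-- Chains with steps `≤ ε` in `X` joining, up to `ε`, the ball of radius `r` to the complement of
the ball of radius `r'`. -/
def Chain {d : ℕ} (X : Set (E d)) (z : E d) (r r' ε : ℝ) : Prop :=
  ∃ (m : ℕ) (c : Fin (m + 1) → E d), (∀ i, c i ∈ X) ∧ dist (c 0) z ≤ r + ε ∧
    r' - ε ≤ dist (c (Fin.last m)) z ∧ ∀ i : Fin m, dist (c i.castSucc) (c i.succ) ≤ ε

/-- A closed set which meets no component of the points of a compact set is separated from it. -/
private theorem t1_clopen {Y : Type*} [TopologicalSpace Y] [T2Space Y] [CompactSpace Y]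
    {A B : Set Y} (hA : IsClosed A) (hB : IsClosed B)
    (h : ∀ x ∈ A, ∀ y ∈ B, y ∉ connectedComponent x) :
    ∃ U : Set Y, IsClopen U ∧ A ⊆ U ∧ Disjoint U B := by
  have h1 : ∀ x ∈ A, ∃ s : Set Y, IsClopen s ∧ x ∈ s ∧ B ∩ s = ∅ := by
    intro x hx
    have h2 : B ∩ ⋂ s : {s : Set Y // IsClopen s ∧ x ∈ s}, (s : Set Y) = ∅ := by
      rw [← connectedComponent_eq_iInter_isClopen]
      ext y
      simp only [mem_inter_iff, mem_empty_iff_false, iff_false, not_and]
      exact h x hx y
    have : Nonempty {s : Set Y // IsClopen s ∧ x ∈ s} := ⟨⟨univ, isClopen_univ, mem_univ x⟩⟩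
    obtain ⟨s, hs⟩ := hB.isCompact.elim_directed_family_closed
      (fun s : {s : Set Y // IsClopen s ∧ x ∈ s} => (s : Set Y)) (fun s => s.2.1.isClosed) h2
      (fun s t => ⟨⟨s.1 ∩ t.1, s.2.1.inter t.2.1, s.2.2, t.2.2⟩, inter_subset_left,
        inter_subset_right⟩)
    exact ⟨s.1, s.2.1, s.2.2, hs⟩
  choose! f hf1 hf2 hf3 using h1
  obtain ⟨t, ht1, ht2⟩ := hA.isCompact.elim_nhds_subcover f
    (fun x hx => (hf1 x hx).isOpen.mem_nhds (hf2 x hx))
  refine ⟨⋃ x ∈ t, f x, ?_, ht2, ?_⟩
  · exact t.finite_toSet.isClopen_biUnion fun x hx => hf1 x (ht1 x hx)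
  · rw [Set.disjoint_iff]
    rintro y ⟨hy1, hy2⟩
    simp only [mem_iUnion, exists_prop] at hy1
    obtain ⟨x, hx, hy⟩ := hy1
    have : y ∈ B ∩ f x := ⟨hy2, hy⟩
    rw [hf3 x (ht1 x hx)] at this
    exact this

theorem cross_of_chain {d : ℕ} (X : ℕ → Set (E d)) (hX : ∀ N, IsCompact (X N)) (hanti : Antitone X)
    (z : E d) (r r' : ℝ) (h : ∀ N : ℕ, Chain (X N) z r r' (1 / ((N : ℝ) + 1))) :
    ∃ K ⊆ ⋂ N, X N, IsCompact K ∧ IsConnected K ∧ (∃ x ∈ K, dist x z ≤ r) ∧
      ∃ y ∈ K, r' ≤ dist y z := by
  classical
  set X0 : Set (E d) := ⋂ N, X N with hX0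
  have hX0c : IsCompact X0 :=
    (hX 0).of_isClosed_subset (isClosed_iInter fun N => (hX N).isClosed) (iInter_subset _ 0)
  have : CompactSpace X0 := isCompact_iff_compactSpace.1 hX0c
  set A : Set X0 := {x | dist x.1 z ≤ r} with hA
  set B : Set X0 := {y | r' ≤ dist y.1 z} with hB
  have hcont : Continuous fun x : X0 => dist x.1 z := by fun_prop
  have hAc : IsClosed A := isClosed_le hcont continuous_const
  have hBc : IsClosed B := isClosed_le continuous_const hcont
  by_cases hcase : ∃ x ∈ A, ∃ y ∈ B, y ∈ connectedComponent x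
  · obtain ⟨x, hx, y, hy, hyx⟩ := hcase
    refine ⟨Subtype.val '' connectedComponent x, ?_, ?_, ?_, ⟨x.1, ?_, hx⟩, ⟨y.1, ?_, hy⟩⟩
    · rintro _ ⟨w, -, rfl⟩
      exact w.2
    · exact isClosed_connectedComponent.isCompact.image continuous_subtype_val
    · exact isConnected_connectedComponent.image _ continuous_subtype_val.continuousOn
    · exact ⟨x, mem_connectedComponent, rfl⟩
    · exact ⟨y, hyx, rfl⟩
  · exfalso
    push Not at hcase
    obtain ⟨U, hU, hAU, hUB⟩ := t1_clopen hAc hBc hcase
    set U0 : Set (E d) := Subtype.val '' U with hU0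
    set V0 : Set (E d) := Subtype.val '' Uᶜ with hV0
    have hU0c : IsCompact U0 := hU.isClosed.isCompact.image continuous_subtype_val
    have hV0c : IsCompact V0 := hU.compl.isClosed.isCompact.image continuous_subtype_val
    have hdis : Disjoint U0 V0 := by
      rw [Set.disjoint_iff]
      rintro _ ⟨⟨a, ha, rfl⟩, ⟨b, hb, hab⟩⟩
      exact hb (by rwa [Subtype.ext hab])
    obtain ⟨δ, hδ, hthick⟩ := hdis.exists_thickenings hU0c hV0c.isClosed
    set OU := Metric.thickening (δ / 2) U0 with hOU
    set OV := Metric.thickening (δ / 2) V0 with hOV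
    have hfar : ∀ p ∈ OU, ∀ q ∈ OV, δ / 2 < dist p q ∨ δ / 2 = dist p q := by
      intro p hp q hq
      by_contra hcon
      push Not at hcon
      have h1 : dist p q < δ / 2 := by
        rcases lt_trichotomy (δ / 2) (dist p q) with h | h | h
        · exact absurd h (not_lt.2 hcon.1)
        · exact absurd h hcon.2
        · exact h
      refine (Set.disjoint_left.1 hthick : ∀ ⦃a⦄, a ∈ _ → a ∉ _) (a := p) ?_ ?_
      · exact Metric.thickening_mono (by linarith) _ hp
      · rw [hOV, Metric.mem_thickening_iff] at hq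
        obtain ⟨w, hw, hqw⟩ := hq
        rw [Metric.mem_thickening_iff]
        exact ⟨w, hw, by linarith [dist_triangle p q w]⟩
    have hdir : ∀ (g : ℕ → Set (E d)), Antitone g → Directed (· ⊇ ·) g := fun g hg =>
      directed_of_isDirected_le fun _ _ hij => hg hij
    have hcd : Continuous fun x : E d => dist x z := by fun_prop
    have hinv : Antitone fun N : ℕ => 1 / ((N : ℝ) + 1) := by
      intro a b hab
      have : (a : ℝ) ≤ b := by exact_mod_cast hab
      exact one_div_le_one_div_of_le (by positivity) (by linarith)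
    have hlim : Tendsto (fun N : ℕ => 1 / ((N : ℝ) + 1)) atTop (𝓝 0) :=
      tendsto_one_div_add_atTop_nhds_zero_nat
    -- three inclusions
    obtain ⟨N1, hN1⟩ := exists_subset_nhds_of_isCompact (V := X) (hdir X hanti) hX
      (U := OU ∪ OV) (by
        intro x hx
        refine (Metric.isOpen_thickening.union Metric.isOpen_thickening).mem_nhds ?_
        by_cases hxU : (⟨x, hx⟩ : X0) ∈ U
        · exact Or.inl (Metric.self_subset_thickening (by positivity) _ ⟨⟨x, hx⟩, hxU, rfl⟩)
        · exact Or.inr (Metric.self_subset_thickening (by positivity) _ ⟨⟨x, hx⟩, hxU, rfl⟩))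
    obtain ⟨N2, hN2⟩ := exists_subset_nhds_of_isCompact
      (V := fun N : ℕ => X N ∩ {x | dist x z ≤ r + 1 / ((N : ℝ) + 1)})
      (hdir _ fun a b hab => by
        rintro x ⟨hx1, hx2⟩
        refine ⟨hanti hab hx1, ?_⟩
        have h1 := hinv hab
        simp only at h1
        simp only [mem_ofPred_eq] at hx2 ⊢
        linarith)
      (fun N => (hX N).inter_right (isClosed_le hcd continuous_const))
      (U := OU) (by
        intro x hx
        refine Metric.isOpen_thickening.mem_nhds ?_
        rw [mem_iInter] at hx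
        have hx0 : x ∈ X0 := mem_iInter.2 fun N => (hx N).1
        have hxr : dist x z ≤ r := by
          have h1 : Tendsto (fun N : ℕ => r + 1 / ((N : ℝ) + 1)) atTop (𝓝 (r + 0)) :=
            hlim.const_add r
          rw [add_zero] at h1
          exact ge_of_tendsto' h1 fun N => (hx N).2
        exact Metric.self_subset_thickening (by positivity) _
          ⟨⟨x, hx0⟩, hAU (a := (⟨x, hx0⟩ : X0)) hxr, rfl⟩)
    obtain ⟨N3, hN3⟩ := exists_subset_nhds_of_isCompact
      (V := fun N : ℕ => X N ∩ {x | r' - 1 / ((N : ℝ) + 1) ≤ dist x z})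
      (hdir _ fun a b hab => by
        rintro x ⟨hx1, hx2⟩
        refine ⟨hanti hab hx1, ?_⟩
        have h1 := hinv hab
        simp only at h1
        simp only [mem_ofPred_eq] at hx2 ⊢
        linarith)
      (fun N => (hX N).inter_right (isClosed_le continuous_const hcd))
      (U := OV) (by
        intro x hx
        refine Metric.isOpen_thickening.mem_nhds ?_
        rw [mem_iInter] at hx
        have hx0 : x ∈ X0 := mem_iInter.2 fun N => (hx N).1
        have hxr : r' ≤ dist x z := by
          have h1 : Tendsto (fun N : ℕ => r' - 1 / ((N : ℝ) + 1)) atTop (𝓝 (r' - 0)) :=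
            hlim.const_sub r'
          rw [sub_zero] at h1
          exact le_of_tendsto' h1 fun N => (hx N).2
        refine Metric.self_subset_thickening (by positivity) _ ⟨⟨x, hx0⟩, fun hxU => ?_, rfl⟩
        exact (Set.disjoint_left.1 hUB : ∀ ⦃a⦄, a ∈ _ → a ∉ _) (a := (⟨x, hx0⟩ : X0)) hxU hxr)
    obtain ⟨N4, hN4⟩ := (hlim.eventually (gt_mem_nhds (half_pos hδ))).exists_forall_of_atTop
    set N := max (max N1 N2) (max N3 N4) with hN
    have l1 : N1 ≤ N := (le_max_left _ _).trans (le_max_left _ _)
    have l2 : N2 ≤ N := (le_max_right _ _).trans (le_max_left _ _)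
    have l3 : N3 ≤ N := (le_max_left _ _).trans (le_max_right _ _)
    have l4 : N4 ≤ N := (le_max_right _ _).trans (le_max_right _ _)
    obtain ⟨m, c, hc, hc0, hcl, hcs⟩ := h N
    have hst : 1 / ((N : ℝ) + 1) < δ / 2 := hN4 N l4
    have e1 : ∀ i, c i ∈ OU ∪ OV := fun i => hN1 (hanti l1 (hc i))
    have e2 : c 0 ∈ OU := by
      refine hN2 ⟨hanti l2 (hc 0), ?_⟩
      have := hinv l2
      simp only at this
      show dist (c 0) z ≤ r + 1 / ((N2 : ℝ) + 1)
      linarith
    have e3 : c (Fin.last m) ∈ OV := by
      refine hN3 ⟨hanti l3 (hc _), ?_⟩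
      have := hinv l3
      simp only at this
      show r' - 1 / ((N3 : ℝ) + 1) ≤ dist (c (Fin.last m)) z
      linarith
    have e4 : ∀ i : Fin (m + 1), c i ∈ OU := by
      intro i
      induction i using Fin.induction with
      | zero => exact e2
      | succ i ih =>
        rcases e1 i.succ with h1 | h1
        · exact h1
        · exfalso
          have h2 := hcs i
          rcases hfar _ ih _ h1 with h3 | h3 <;> linarith
    rcases hfar _ (e4 (Fin.last m)) _ e3 with h3 | h3 <;>
    · rw [dist_self] at h3
      linarith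

end Pool.Agent.Thick
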