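import Pool.Agent.Thick.Kap1

set_option autoImplicit false

/-!
# Th: translates of `eta` in `L²(ℝ^d)`; the vectors at the scale `2^{-s}`

* `memLp_eta`: continuous with compact support (`Continuous.memLp_of_hasCompactSupport`).
* `inner_Th`: `L2.inner_def`, `MemLp.coeFn_toLp`, translation invariance
  (`integral_add_right_eq_self`): the inner product is
  `∫ eta (w + z) eta (w + z') dw = kap (z' - z) = kap (z - z')` (`kap_radial`, Kap1).
* `continuous_Th`: `‖Th z - Th z'‖² = 2 - 2 kap (z - z') → 0`.
* `inner_Kf_Ks`, `inner_Kf_Kf`: `integral_inner`/`integral_const_inner`-type lemmas for the Bochner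
  integral in the Hilbert space `H0 d` (`f z • Ks s z` is integrable since `‖Ks s z‖² = log 2`).
* `continuous_Ks`, `continuous_Kf`: `continuous_of_dominated` with the bound `|f z| √(log 2)`.
-/

namespace Pool.Agent.Thick

open MeasureTheory ProbabilityTheory Filter Topology Set
open scoped RealInnerProductSpace

/-- The Hilbert space `L²(ℝ^d)`. -/
abbrev H0 (d : ℕ) : Type := Lp ℝ 2 (volume : Measure (E d))

variable {d : ℕ}

theorem memLp_eta (z : E d) : MemLp (fun w : E d => eta (w + z)) 2 volume := by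
  have h1 : Continuous fun w : E d => eta (w + z) := continuous_eta.comp (continuous_add_const z)
  have h2 : HasCompactSupport fun w : E d => eta (w + z) :=
    hasCompactSupport_eta.comp_homeomorph (Homeomorph.addRight z)
  exact h1.memLp_of_hasCompactSupport h2

/-- The translate of `eta` by `-z`. -/
noncomputable def Th (z : E d) : H0 d := (memLp_eta z).toLp _

theorem inner_Th (z z' : E d) : ⟪Th z, Th z'⟫ = kap (z - z') := by
  rw [L2.inner_def]
  have h1 : ∫ w : E d, ⟪(Th z : E d → ℝ) w, (Th z' : E d → ℝ) w⟫ =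
      ∫ w : E d, eta (w + z') * eta (w + z) := by
    refine integral_congr_ae ?_
    filter_upwards [(memLp_eta z).coeFn_toLp, (memLp_eta z').coeFn_toLp] with w h2 h3
    have h4 : (Th z : E d → ℝ) w = eta (w + z) := h2
    have h5 : (Th z' : E d → ℝ) w = eta (w + z') := h3
    rw [h4, h5, real_inner_eq_re_inner]
    simp
  rw [h1]
  have h2 := integral_add_right_eq_self (μ := (volume : Measure (E d)))
    (fun w : E d => eta w * eta (w + (z - z'))) z'
  unfold kap
  rw [← h2]
  congr 1
  ext w
  rw [show w + z' + (z - z') = w + z by abel]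

private theorem norm_Th_sub (z z' : E d) :
    ‖Th z - Th z'‖ = Real.sqrt (2 - 2 * kap (z - z')) := by
  have h1 : ‖Th z - Th z'‖ ^ 2 = 2 - 2 * kap (z - z') := by
    rw [norm_sub_sq_real, ← real_inner_self_eq_norm_sq, ← real_inner_self_eq_norm_sq, inner_Th,
      inner_Th, inner_Th, sub_self, sub_self, kap_zero]
    ring
  rw [← h1, Real.sqrt_sq (norm_nonneg _)]

theorem continuous_Th : Continuous (Th (d := d)) := by
  rw [continuous_iff_continuousAt]
  intro z
  unfold ContinuousAt
  rw [tendsto_iff_norm_sub_tendsto_zero]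
  have h1 : Continuous fun x : E d => Real.sqrt (2 - 2 * kap (x - z)) :=
    (continuous_const.sub (continuous_const.mul
      (continuous_kap.comp (continuous_id.sub continuous_const)))).sqrt
  have h2 := h1.tendsto z
  rw [sub_self, kap_zero] at h2
  have h3 : Real.sqrt (2 - 2 * 1) = 0 := by norm_num
  rw [h3] at h2
  refine h2.congr fun x => ?_
  rw [norm_Th_sub]

/-- The vector at the point `z` and the scale `2^{-s}`. -/
noncomputable def Ks (s : ℝ) (z : E d) : H0 d := Real.sqrt (Real.log 2) • Th ((2 : ℝ) ^ s • z)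

/-- The vector of the (signed) density `f` at the scale `2^{-s}`. -/
noncomputable def Kf (s : ℝ) (f : E d → ℝ) : H0 d := ∫ z, f z • Ks s z

theorem inner_Ks (s : ℝ) (z z' : E d) :
    ⟪Ks s z, Ks s z'⟫ = Real.log 2 * kap ((2 : ℝ) ^ s • (z - z')) := by
  unfold Ks
  rw [real_inner_smul_left, real_inner_smul_right, inner_Th, ← mul_assoc,
    Real.mul_self_sqrt (Real.log_nonneg one_le_two), smul_sub]

theorem norm_Ks_sq (s : ℝ) (z : E d) : ‖Ks s z‖ ^ 2 = Real.log 2 := by
  rw [← real_inner_self_eq_norm_sq, inner_Ks, sub_self, smul_zero, kap_zero, mul_one]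

private theorem norm_Ks (s : ℝ) (z : E d) : ‖Ks s z‖ = Real.sqrt (Real.log 2) := by
  rw [← norm_Ks_sq s z, Real.sqrt_sq (norm_nonneg _)]

private theorem continuous_Ks_point (s : ℝ) : Continuous fun z : E d => Ks s z := by
  have h1 : Continuous fun z : E d => (2 : ℝ) ^ s • z := continuous_const_smul _
  have h2 : Continuous fun z : E d => Th ((2 : ℝ) ^ s • z) := continuous_Th.comp h1
  exact h2.fun_const_smul (Real.sqrt (Real.log 2))

private theorem aesm_Ks (s : ℝ) (f : E d → ℝ) (hf : Integrable f) :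
    AEStronglyMeasurable (fun z => f z • Ks s z) volume :=
  hf.aestronglyMeasurable.smul (continuous_Ks_point s).aestronglyMeasurable

private theorem bound_Ks (s : ℝ) (f : E d → ℝ) (z : E d) :
    ‖f z • Ks s z‖ ≤ ‖f z‖ * Real.sqrt (Real.log 2) := by
  rw [norm_smul, norm_Ks]

private theorem integrable_Ks (s : ℝ) (f : E d → ℝ) (hf : Integrable f) :
    Integrable fun z => f z • Ks s z :=
  (hf.norm.mul_const _).mono' (aesm_Ks s f hf) (Eventually.of_forall (bound_Ks s f))

theorem inner_Kf_Ks (s : ℝ) (f : E d → ℝ) (hf : Integrable f) (x : E d) :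
    ⟪Kf s f, Ks s x⟫ = Real.log 2 * ∫ z, f z * kap ((2 : ℝ) ^ s • (z - x)) := by
  rw [real_inner_comm]
  unfold Kf
  rw [← integral_inner (integrable_Ks s f hf), ← integral_const_mul]
  congr 1
  ext z
  rw [real_inner_smul_right, real_inner_comm, inner_Ks]
  ring

theorem inner_Kf_Kf (s : ℝ) (f g : E d → ℝ) (hf : Integrable f) (hg : Integrable g) :
    ⟪Kf s f, Kf s g⟫ =
      Real.log 2 * ∫ z, ∫ z', f z * g z' * kap ((2 : ℝ) ^ s • (z - z')) := by
  rw [real_inner_comm]
  have h1 : ⟪Kf s g, Kf s f⟫ = ∫ z, ⟪Kf s g, f z • Ks s z⟫ :=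
    (integral_inner (integrable_Ks s f hf) (Kf s g)).symm
  rw [h1, ← integral_const_mul]
  congr 1
  ext z
  rw [real_inner_smul_right, inner_Kf_Ks s g hg, ← mul_assoc, mul_comm (f z), mul_assoc,
    ← integral_const_mul]
  congr 2
  ext z'
  rw [kap_radial ((2 : ℝ) ^ s • (z' - z)) ((2 : ℝ) ^ s • (z - z'))
    (by rw [norm_smul, norm_smul, norm_sub_rev])]
  ring

theorem Kf_add (s : ℝ) (f g : E d → ℝ) (hf : Integrable f) (hg : Integrable g) :
    Kf s (f + g) = Kf s f + Kf s g := by
  unfold Kf
  rw [← integral_add (integrable_Ks s f hf) (integrable_Ks s g hg)]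
  congr 1
  ext1 z
  rw [Pi.add_apply, add_smul]

theorem Kf_sub (s : ℝ) (f g : E d → ℝ) (hf : Integrable f) (hg : Integrable g) :
    Kf s (f - g) = Kf s f - Kf s g := by
  unfold Kf
  rw [← integral_sub (integrable_Ks s f hf) (integrable_Ks s g hg)]
  congr 1
  ext1 z
  rw [Pi.sub_apply, sub_smul]

theorem Kf_smul (s c : ℝ) (f : E d → ℝ) : Kf s (c • f) = c • Kf s f := by
  unfold Kf
  rw [← integral_smul]
  congr 1
  ext1 z
  rw [Pi.smul_apply, smul_assoc]

theorem continuous_Ks (z : E d) : Continuous fun s : ℝ => Ks s z := by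
  have h1 : Continuous fun s : ℝ => (2 : ℝ) ^ s :=
    continuous_const.rpow continuous_id fun _ => Or.inl two_ne_zero
  have h2 : Continuous fun s : ℝ => (2 : ℝ) ^ s • z := h1.smul continuous_const
  have h3 : Continuous fun s : ℝ => Th ((2 : ℝ) ^ s • z) := continuous_Th.comp h2
  exact h3.fun_const_smul (Real.sqrt (Real.log 2))

theorem continuous_Kf (f : E d → ℝ) (hf : Integrable f) : Continuous fun s : ℝ => Kf s f := by
  unfold Kf
  exact continuous_of_dominated (fun s => aesm_Ks s f hf)
    (fun s => Eventually.of_forall (bound_Ks s f)) (hf.norm.mul_const _)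
    (Eventually.of_forall fun z => (continuous_Ks z).fun_const_smul (f z))

end Pool.Agent.Thick
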