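import Pool.Agent.Thick.Emb
import Pool.Agent.Thick.G7a

set_option autoImplicit false

/-!
# Vv: the vectors of the scale fields

* `memLp_vv`: continuous function times the indicator of a bounded interval, of norm
  `√(log 2)` there (`norm_Ks_sq`).
* `isScaleVec_vv`: `L2.inner_def`, `MemLp.coeFn_toLp`: same level:
  `∫_{(k,k+1]} log 2 kap (2^s (x - y)) ds = log 2 ∫_{(0,1]} kap (2^s 2^k (x - y)) ds`, which is
  `lam (2^k (x-y))` (shift by `k`); different levels: disjoint intervals, the integrand is zero.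
  `supp`: for `s > 0` and `‖z‖ ≥ 2` also `‖2^s z‖ ≥ 2` (`kap_supp`). `lip`:
  `lam 0 - lam z = log 2 ∫_{(0,1]} (1 - kap (2^s z)) ds ≤ log 2 · 2 C ‖z‖` (`kap_lip`, `kap_zero`).
-/

namespace Pool.Agent.Thick

open MeasureTheory ProbabilityTheory Filter Topology Set
open scoped RealInnerProductSpace

variable {d : ℕ}

/-- The covariance function of the field at scale one. -/
noncomputable def lam (z : E d) : ℝ :=
  Real.log 2 * ∫ s in Set.Ioc (0 : ℝ) 1, kap ((2 : ℝ) ^ s • z)

theorem memLp_vv (k : ℕ) (x : E d) :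
    MemLp (Set.indicator (Set.Ioc (k : ℝ) (k + 1)) fun s : ℝ => Ks s x) 2 volume := by
  rw [memLp_indicator_iff_restrict measurableSet_Ioc]
  refine MemLp.of_bound (continuous_Ks x).aestronglyMeasurable (Real.sqrt (Real.log 2))
    (Filter.Eventually.of_forall fun s => ?_)
  rw [← norm_Ks_sq s x, Real.sqrt_sq (norm_nonneg _)]

/-- The vector of the field at scale `2^{-k}` at the point `x`. -/
noncomputable def vv (k : ℕ) (x : E d) : HH d := (memLp_vv k x).toLp _

private theorem inner_vv (k l : ℕ) (x y : E d) :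
    ⟪vv k x, vv l y⟫ = ∫ s : ℝ, ⟪Set.indicator (Set.Ioc (k : ℝ) (k + 1)) (fun s : ℝ => Ks s x) s,
      Set.indicator (Set.Ioc (l : ℝ) (l + 1)) (fun s : ℝ => Ks s y) s⟫ := by
  rw [L2.inner_def]
  refine integral_congr_ae ?_
  filter_upwards [(memLp_vv k x).coeFn_toLp, (memLp_vv l y).coeFn_toLp] with s h1 h2
  unfold vv
  rw [h1, h2]

private theorem two_rpow_smul (s : ℝ) (k : ℕ) (z : E d) :
    (2 : ℝ) ^ (s + k) • z = (2 : ℝ) ^ s • ((2 : ℝ) ^ k • z) := by
  rw [smul_smul, Real.rpow_add two_pos, Real.rpow_natCast]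

private theorem continuous_kap_rpow (z : E d) :
    Continuous fun s : ℝ => kap ((2 : ℝ) ^ s • z) := by
  have h1 : Continuous fun s : ℝ => (2 : ℝ) ^ s := Real.continuous_const_rpow two_ne_zero
  have h2 : Continuous fun s : ℝ => (2 : ℝ) ^ s • z := h1.smul continuous_const
  exact continuous_kap.comp h2

theorem isScaleVec_vv (d : ℕ) : IsScaleVec (vv (d := d)) lam := by
  refine ⟨fun k x y => ?_, fun k l hkl x y => ?_, fun z hz => ?_, ?_⟩
  · rw [inner_vv]
    have h1 : ∀ s : ℝ, ⟪Set.indicator (Set.Ioc (k : ℝ) (k + 1)) (fun s : ℝ => Ks s x) s,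
        Set.indicator (Set.Ioc (k : ℝ) (k + 1)) (fun s : ℝ => Ks s y) s⟫ =
        Set.indicator (Set.Ioc (k : ℝ) (k + 1))
          (fun s : ℝ => Real.log 2 * kap ((2 : ℝ) ^ s • (x - y))) s := by
      intro s
      by_cases hs : s ∈ Set.Ioc (k : ℝ) (k + 1)
      · rw [Set.indicator_of_mem hs, Set.indicator_of_mem hs, Set.indicator_of_mem hs, inner_Ks]
      · rw [Set.indicator_of_notMem hs, Set.indicator_of_notMem hs, inner_zero_left,
          Set.indicator_of_notMem hs]
    simp only [h1]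
    rw [integral_indicator measurableSet_Ioc, integral_const_mul]
    unfold lam
    congr 1
    rw [← intervalIntegral.integral_of_le (by linarith), ←
      intervalIntegral.integral_of_le (zero_le_one)]
    have h2 := intervalIntegral.integral_comp_add_right (a := 0) (b := 1)
      (fun s : ℝ => kap ((2 : ℝ) ^ s • (x - y))) (k : ℝ)
    rw [zero_add, add_comm 1 (k : ℝ)] at h2
    rw [← h2]
    simp only [two_rpow_smul]
  · rw [inner_vv]
    have h1 : ∀ s : ℝ, ⟪Set.indicator (Set.Ioc (k : ℝ) (k + 1)) (fun s : ℝ => Ks s x) s,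
        Set.indicator (Set.Ioc (l : ℝ) (l + 1)) (fun s : ℝ => Ks s y) s⟫ = 0 := by
      intro s
      by_cases hs : s ∈ Set.Ioc (k : ℝ) (k + 1)
      · have hs' : s ∉ Set.Ioc (l : ℝ) (l + 1) := by
          intro h
          have h3 : (k : ℝ) < l + 1 := lt_of_lt_of_le hs.1 h.2
          have h4 : (l : ℝ) < k + 1 := lt_of_lt_of_le h.1 hs.2
          have h5 : k < l + 1 := by exact_mod_cast h3
          have h6 : l < k + 1 := by exact_mod_cast h4
          omega
        rw [Set.indicator_of_notMem hs', inner_zero_right]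
      · rw [Set.indicator_of_notMem hs, inner_zero_left]
    simp only [h1]
    exact integral_zero _ _
  · unfold lam
    rw [setIntegral_eq_zero_of_forall_eq_zero, mul_zero]
    intro s hs
    apply kap_supp
    rw [norm_smul, Real.norm_of_nonneg (Real.rpow_nonneg two_pos.le _)]
    have h1 : (1 : ℝ) ≤ (2 : ℝ) ^ s := Real.one_le_rpow (by norm_num) hs.1.le
    nlinarith [norm_nonneg z]
  · obtain ⟨C, hC, h⟩ := kap_lip (d := d)
    refine ⟨Real.log 2 * (2 * C), fun z => ?_⟩
    have hi : ∀ w : E d, IntegrableOn (fun s : ℝ => kap ((2 : ℝ) ^ s • w)) (Set.Ioc 0 1) :=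
      fun w => ((continuous_kap_rpow w).continuousOn.integrableOn_Icc).mono_set
        Set.Ioc_subset_Icc_self
    have h2 : lam (0 : E d) - lam z = Real.log 2 *
        ∫ s in Set.Ioc (0 : ℝ) 1, (kap ((2 : ℝ) ^ s • (0 : E d)) - kap ((2 : ℝ) ^ s • z)) := by
      unfold lam
      rw [integral_sub (hi 0) (hi z)]
      ring
    rw [h2, mul_assoc]
    refine mul_le_mul_of_nonneg_left ?_ (Real.log_nonneg (by norm_num))
    have h3 : ∫ s in Set.Ioc (0 : ℝ) 1,
        (kap ((2 : ℝ) ^ s • (0 : E d)) - kap ((2 : ℝ) ^ s • z)) ≤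
        ∫ _ in Set.Ioc (0 : ℝ) 1, 2 * C * ‖z‖ := by
      refine setIntegral_mono_on ((hi 0).sub (hi z)) (integrableOn_const (by simp))
        measurableSet_Ioc fun s hs => ?_
      refine (le_abs_self _).trans ((h _ _).trans ?_)
      rw [← smul_sub, zero_sub, norm_smul, norm_neg,
        Real.norm_of_nonneg (Real.rpow_nonneg two_pos.le _)]
      have h4 : (2 : ℝ) ^ s ≤ 2 := by
        calc (2 : ℝ) ^ s ≤ (2 : ℝ) ^ (1 : ℝ) :=
              Real.rpow_le_rpow_of_exponent_le (by norm_num) hs.2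
          _ = 2 := Real.rpow_one 2
      have h5 : (2 : ℝ) ^ s * ‖z‖ ≤ 2 * ‖z‖ := mul_le_mul_of_nonneg_right h4 (norm_nonneg z)
      nlinarith
    refine h3.trans (le_of_eq ?_)
    simp

end Pool.Agent.Thick
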